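import Pool.Agent.TH561.AD.Star

/-!
# The quotient of a knot is a knot
-/

set_option autoImplicit false

namespace Pool.Agent.TH561.AD

open Pool.Agent.H891R2.Jones Pool.Agent.TH561 Pool.Agent.TH561.PK Pool.Agent.TH561.FP Finset

section comp

variable {M L l : ℕ}

theorem arrow_cases {P : Type} (b : Bool) (p q : P) : arrow b p q = (p, q) ∨ arrow b p q = (q, p) := by
  cases b
  · right; rfl
  · left; rfl

/-- changing the directions on some components -/
theorem flip_oriented (w : Fin L → Elem M) (dir : Fin L × Fin M → Bool) (ho : Oriented w dir)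
    (S : Fin L × Fin M → Bool) (hS : ∀ x y, Piece (PK.annular w dir) x y → S x = S y) :
    Oriented w (fun x => xor (dir x) (S x)) := by
  intro t
  have hmemA : ∀ x : (Fin L × Fin M) × (Fin L × Fin M), x ∈ levelArcs (w t) t (finRotate L t) dir →
      x ∈ (PK.annular w dir).arcs := fun x hx =>
    List.mem_flatMap.2 ⟨t, List.mem_finRange t, hx⟩
  have hmemC : ∀ x : Crossing (Fin L × Fin M), x ∈ levelCrossings (w t) t (finRotate L t) dir →
      x ∈ (PK.annular w dir).crossings := fun x hx =>
    List.mem_flatMap.2 ⟨t, List.mem_finRange t, hx⟩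
  have hA : ∀ (b : Bool) (x y : Fin L × Fin M), arrow b x y ∈ levelArcs (w t) t (finRotate L t) dir →
      S x = S y := by
    intro b x y h
    rcases arrow_cases b x y with h1 | h1
    · rw [h1] at h
      exact hS _ _ (Or.inl (hmemA _ h))
    · rw [h1] at h
      exact (hS _ _ (Or.inl (hmemA _ h))).symm
  have h1 := ho t
  have hne := Elem.lf_ne_rg (w t)
  obtain ⟨h2, h3⟩ := h1
  have hs1 : ∀ j, j ≠ (w t).lf → j ≠ (w t).rg → S (t, j) = S (finRotate L t, j) := by
    intro j hj hj'
    apply hA (dir (t, j))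
    unfold levelArcs
    apply List.mem_append_left
    rw [List.mem_map]
    refine ⟨j, ?_, rfl⟩
    rw [List.mem_filter]
    refine ⟨List.mem_finRange j, ?_⟩
    simp [hj, hj']
  refine ⟨fun j hj hj' => ?_, ?_⟩
  · simp only
    rw [← hs1 j hj hj']
    have := h2 j hj hj'
    simp only at this
    rw [this]
  · revert h3 hA hmemC
    generalize hx : w t = x
    obtain ⟨a, i⟩ := x
    rcases a with _ | b
    · intro hmemC hA h3
      obtain ⟨h4, h5⟩ := h3
      have s1 : S (t, Elem.lf (none, i)) = S (t, Elem.rg (none, i)) := by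
        apply hA (dir (t, Elem.lf (none, i)))
        unfold levelArcs
        apply List.mem_append_right
        simp
      have s2 : S (finRotate L t, Elem.lf (none, i)) = S (finRotate L t, Elem.rg (none, i)) := by
        apply hA (dir (finRotate L t, Elem.rg (none, i)))
        unfold levelArcs
        apply List.mem_append_right
        simp
      refine ⟨?_, ?_⟩
      · simp only
        rw [s1]
        intro h
        apply h4
        simp only
        exact Bool.xor_left_inj.1 h
      · simp only
        rw [s2]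
        intro h
        apply h5
        simp only
        exact Bool.xor_left_inj.1 h
    · cases b
      · intro hmemC hA h3
        obtain ⟨h4, h5⟩ := h3
        have s1 : S (t, Elem.lf (some false, i)) = S (finRotate L t, Elem.rg (some false, i)) :=
          hS _ _ (Or.inr ⟨_, hmemC _ (List.mem_singleton.2 rfl), Or.inl ⟨rfl, rfl⟩⟩)
        have s2 : S (t, Elem.rg (some false, i)) = S (finRotate L t, Elem.lf (some false, i)) :=
          hS _ _ (Or.inr ⟨_, hmemC _ (List.mem_singleton.2 rfl), Or.inr ⟨rfl, rfl⟩⟩)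
        simp only at h4 h5
        refine ⟨?_, ?_⟩
        · simp only
          rw [s1, h4]
        · simp only
          rw [s2, h5]
      · intro hmemC hA h3
        obtain ⟨h4, h5⟩ := h3
        have s1 : S (finRotate L t, Elem.rg (some true, i)) = S (t, Elem.lf (some true, i)) :=
          hS _ _ (Or.inr ⟨_, hmemC _ (List.mem_singleton.2 rfl), Or.inr ⟨rfl, rfl⟩⟩)
        have s2 : S (t, Elem.rg (some true, i)) = S (finRotate L t, Elem.lf (some true, i)) :=
          hS _ _ (Or.inr ⟨_, hmemC _ (List.mem_singleton.2 rfl), Or.inl ⟨rfl, rfl⟩⟩)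
        simp only at h4 h5
        refine ⟨?_, ?_⟩
        · simp only
          rw [s1, h4]
        · simp only
          rw [s2, h5]

/-- the directions of the quotient with full twists -/
theorem fst_facts (hl : 0 < l) (hM1 : 0 < M - 1) (v : Fin l → Elem M) (a' : ℤ)
    (dir' : Fin (1 * l + a'.natAbs * (M * (M - 1))) × Fin M → Bool)
    (ho' : Oriented (freeWord 1 v a') dir') :
    Oriented v (fst hl one_pos dir') ∧
      ∀ x, dir' x = gdir hl hM1 1 (fst hl one_pos dir') x.1 x.2 := by
  have hl1 : 1 * l = l := one_mul l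
  have hL' : 0 < 1 * l + a'.natAbs * (M * (M - 1)) := by omega
  set d' := fst hl one_pos dir' with hd'
  have hend := lev_end hM1 1 v a' hL' dir' ho'
  have hlev : ∀ t : ℕ, ∀ ht : t < l, levL hL' dir' t = fun j => d' (⟨t, ht⟩, j) := by
    intro t ht
    funext j
    unfold levL
    rw [hd']
    unfold fst
    congr 2
    apply Fin.ext
    exact Nat.mod_eq_of_lt (by omega)
  refine ⟨?_, ?_⟩
  · intro t
    have h1 := levL_fits hL' _ dir' ho' t
    have hmod : (t : ℕ) % (1 * l + a'.natAbs * (M * (M - 1))) = t :=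
      Nat.mod_eq_of_lt (by have := t.2; omega)
    rw [freeWord_lt hl 1 v a' _ (by simp only; rw [hmod]; have := t.2; omega)] at h1
    have h2 : (⟨((⟨(t : ℕ) % (1 * l + a'.natAbs * (M * (M - 1))), Nat.mod_lt _ hL'⟩ :
        Fin (1 * l + a'.natAbs * (M * (M - 1)))) : ℕ) % l, Nat.mod_lt _ hl⟩ : Fin l) = t := by
      apply Fin.ext
      simp only
      rw [hmod, Nat.mod_eq_of_lt t.2]
    rw [h2, hlev t t.2] at h1
    have h3 : (fun j => d' (finRotate l t, j)) = levL hL' dir' (t + 1) := by
      rcases Nat.lt_or_eq_of_le (Nat.succ_le_of_lt t.2) with h3 | h3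
      · rw [hlev (t+1) h3]
        funext j
        congr 2
        apply Fin.ext
        rw [finRotate_val, Nat.mod_eq_of_lt h3]
      · have h4 : (t : ℕ) + 1 = 1 * l := by rw [hl1]; exact h3
        rw [h4, hend, hlev 0 hl]
        funext j
        congr 2
        apply Fin.ext
        have h5 : (t : ℕ) + 1 = l := h3
        rw [finRotate_val, h5, Nat.mod_self]
    rw [← h3] at h1
    exact h1
  · rintro ⟨s, j⟩
    have hs := s.2
    have e0 : dir' (s, j) = levL hL' dir' s j := by
      unfold levL
      congr 2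
      apply Fin.ext
      exact (Nat.mod_eq_of_lt hs).symm
    rw [e0]
    simp only
    by_cases hsl : (s : ℕ) < l
    · rw [hlev s hsl]
      unfold gdir
      rw [if_pos (by omega)]
      show d' (⟨s, hsl⟩, j) = _
      congr 2
      apply Fin.ext
      exact (Nat.mod_eq_of_lt hsl).symm
    · have h3 := lev_key hM1 1 v a' hL' dir' ho' (s - 1 * l) (by omega)
      have h4 : 1 * l + ((s : ℕ) - 1 * l) = s := by omega
      rw [h4, hend, hlev 0 hl] at h3
      rw [h3, gdir_ge hl hM1 1 d' s j (by omega)]

theorem gdir_first (hl : 0 < l) (hM1 : 0 < M - 1) {n : ℕ} (hn : 0 < n) (d : Fin l × Fin M → Bool)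
    (x : Fin l × Fin M) : gdir hl hM1 n d x.1 x.2 = d x := by
  obtain ⟨t, j⟩ := x
  unfold gdir
  simp only
  rw [if_pos (by
    have h1 := t.2
    have h2 : l ≤ n * l := Nat.le_mul_of_pos_left l hn
    omega)]
  congr 2
  apply Fin.ext
  exact Nat.mod_eq_of_lt t.2

/-- the quotient of a knot, with full twists, is a knot -/
theorem quot_isKnot (hl : 0 < l) (n : ℕ) (hn : 0 < n) (v : Fin l → Elem M) (a : ℤ)
    (dir : Fin (n * l + a.natAbs * (M * (M - 1))) × Fin M → Bool)
    (hK : IsKnot (PK.annular (freeWord n v a) dir))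
    (ho : Oriented (freeWord n v a) dir) (a' : ℤ)
    (dir' : Fin (1 * l + a'.natAbs * (M * (M - 1))) × Fin M → Bool)
    (ho' : Oriented (freeWord 1 v a') dir') : IsKnot (PK.annular (freeWord 1 v a') dir') := by
  classical
  have hM1 : 0 < M - 1 := lt_of_le_of_lt (Nat.zero_le _) (v ⟨0, hl⟩).2.2
  intro p0 q0
  by_contra hcon
  let S : Fin (1 * l + a'.natAbs * (M * (M - 1))) × Fin M → Bool := fun x =>
    decide (Relation.EqvGen (Piece (PK.annular (freeWord 1 v a') dir')) p0 x)
  have hS : ∀ x y, Piece (PK.annular (freeWord 1 v a') dir') x y → S x = S y := by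
    intro x y hxy
    have h1 : Relation.EqvGen (Piece (PK.annular (freeWord 1 v a') dir')) p0 x ↔
        Relation.EqvGen (Piece (PK.annular (freeWord 1 v a') dir')) p0 y :=
      ⟨fun h => h.trans _ _ _ (Relation.EqvGen.rel _ _ hxy),
        fun h => h.trans _ _ _ (Relation.EqvGen.symm _ _ (Relation.EqvGen.rel _ _ hxy))⟩
    show decide _ = decide _
    exact decide_eq_decide.2 h1
  have ho2 := flip_oriented _ dir' ho' S hS
  set dir2 : Fin (1 * l + a'.natAbs * (M * (M - 1))) × Fin M → Bool := fun x => xor (dir' x) (S x)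
    with hdir2
  obtain ⟨g1, g2⟩ := fst_facts hl hM1 v a' dir' ho'
  obtain ⟨k1, k2⟩ := fst_facts hl hM1 v a' dir2 ho2
  set d1 := fst hl one_pos dir'
  set d2 := fst hl one_pos dir2
  have e1 := two_orientations _ dir _ ho (gdir_oriented hl hM1 n v a _ g1) hK
  have e2 := two_orientations _ dir _ ho (gdir_oriented hl hM1 n v a _ k1) hK
  have hlt : ∀ t : Fin l, (t : ℕ) < n * l + a.natAbs * (M * (M - 1)) := by
    intro t
    have h1 := t.2
    have h2 : l ≤ n * l := Nat.le_mul_of_pos_left l hn
    omega
  have hrel : (∀ x, d2 x = d1 x) ∨ (∀ x, d2 x = !(d1 x)) := by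
    rcases e1 with e1 | e1 <;> rcases e2 with e2 | e2
    · left; intro x
      have f1 := e1 (⟨x.1, hlt x.1⟩, x.2)
      have f2 := e2 (⟨x.1, hlt x.1⟩, x.2)
      rw [← gdir_first hl hM1 hn d1 x, ← gdir_first hl hM1 hn d2 x]
      exact f2.trans f1.symm
    · right; intro x
      have f1 := e1 (⟨x.1, hlt x.1⟩, x.2)
      have f2 := e2 (⟨x.1, hlt x.1⟩, x.2)
      rw [← gdir_first hl hM1 hn d1 x, ← gdir_first hl hM1 hn d2 x]
      refine f2.trans ?_
      rw [← f1]
    · right; intro x
      have f1 := e1 (⟨x.1, hlt x.1⟩, x.2)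
      have f2 := e2 (⟨x.1, hlt x.1⟩, x.2)
      rw [← gdir_first hl hM1 hn d1 x, ← gdir_first hl hM1 hn d2 x]
      refine f2.trans ?_
      have f3 : gdir hl hM1 n d1 x.1 x.2 = !dir (⟨x.1, hlt x.1⟩, x.2) := f1
      rw [f3, Bool.not_not]
    · left; intro x
      have f1 := e1 (⟨x.1, hlt x.1⟩, x.2)
      have f2 := e2 (⟨x.1, hlt x.1⟩, x.2)
      rw [← gdir_first hl hM1 hn d1 x, ← gdir_first hl hM1 hn d2 x]
      exact f2.trans f1.symm
  have hgd : (∀ x, dir2 x = dir' x) ∨ (∀ x, dir2 x = !(dir' x)) := by
    rcases hrel with h | h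
    · left; intro x
      rw [k2, g2]
      have : d2 = d1 := funext h
      rw [this]
    · right; intro x
      rw [k2, g2]
      unfold gdir
      split_ifs
      · exact h _
      · exact h _
  have hp0 : S p0 = true := decide_eq_true (Relation.EqvGen.refl _)
  have hq0 : S q0 = false := decide_eq_false hcon
  rcases hgd with h | h
  · have h1 := h p0
    rw [hdir2] at h1
    simp only [hp0] at h1
    revert h1
    cases dir' p0 <;> simp
  · have h1 := h q0
    rw [hdir2] at h1
    simp only [hq0] at h1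
    revert h1
    cases dir' q0 <;> simp

end comp

end Pool.Agent.TH561.AD
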