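import Pool.Agent.TH561.AD.Bound

/-!
# Freely periodic knots with trivial Jones polynomial and large prime period
-/

set_option autoImplicit false

namespace Pool.Agent.TH561.AD

open Pool.Agent.H891R2.Jones Pool.Agent.TH561 Pool.Agent.TH561.PK Pool.Agent.TH561.FP Finset
  LaurentPolynomial

section exact

variable {M l : ℕ}

/-- the normalised integral coefficients -/
noncomputable def RZ (M : ℕ) (B : List (Option Bool × ℕ)) (w : ℤ) (n : ℕ) : ℤ[T;T⁻¹] :=
  sE ℤ w * T (-(3 * w)) * rrZ M B n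

theorem red_RZ (p : ℕ) [Fact p.Prime] (M : ℕ) (B : List (Option Bool × ℕ)) (w : ℤ) (n : ℕ) :
    red p (RZ M B w n) = RR p M B w n := by
  unfold RZ RR
  rw [map_mul, map_mul, red_sE, red_T, red_rrZ]

theorem Bd.sE_mul {f : ℤ[T;T⁻¹]} {c : ℕ} (h : Bd f c) (w : ℤ) : Bd (sE ℤ w * f) c := by
  unfold sE
  split_ifs
  · rw [one_mul]; exact h
  · rw [neg_mul, one_mul]; exact h.neg

theorem RZ_bd {B : List (Option Bool × ℕ)} (hB : ∀ x ∈ B, x.2 + 1 < M) (w : ℤ) (n : ℕ) :
    Bd (RZ M B w n) (2 ^ (M + 2 * B.length)) := by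
  unfold RZ
  rw [mul_assoc]
  exact ((rrZ_bd hB n).T_mul _).sE_mul w

theorem bd_one : Bd (1 : ℤ[T;T⁻¹]) 1 := by
  have := bd_dl_pow 0
  rwa [pow_zero, pow_zero] at this

theorem toW_length (v : Fin l → Elem M) : (toW v).length = l := by
  unfold toW
  rw [List.length_ofFn]

/-- if one prime is large then the integral coefficients are trivial -/
theorem RZ_triv (p : ℕ) [Fact p.Prime] (v : Fin l → Elem M) (w : ℤ) (hp : 2 ^ (M + 2 * l) + 1 < p)
    (h0 : ∀ j ∈ range (M + 1), j ≠ 1 → RR p M (toW v) w j = 0) (h1 : RR p M (toW v) w 1 = 1) :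
    (∀ j ∈ range (M + 1), j ≠ 1 → RZ M (toW v) w j = 0) ∧ RZ M (toW v) w 1 = 1 := by
  constructor
  · intro j hj hj1
    refine eq_zero_of_red (p := p) (RZ_bd (toW_mem v) w j) (by rw [toW_length]; omega) ?_
    rw [red_RZ, h0 j hj hj1]
  · rw [← sub_eq_zero]
    have h2 : Bd (RZ M (toW v) w 1 - 1) (2 ^ (M + 2 * l) + 1) := by
      rw [sub_eq_add_neg]
      have h3 := (RZ_bd (toW_mem v) w 1).add bd_one.neg
      rw [toW_length] at h3
      exact h3
    refine eq_zero_of_red h2 hp ?_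
    rw [map_sub, red_RZ, h1, map_one, sub_self]

/-- the exact theorem -/
theorem unit_exact (p k : ℕ) [hp : Fact p.Prime] (hk : 1 ≤ k) (hp2 : p ≠ 2) (hl : 0 < l) (hM : 0 < M)
    (v : Fin l → Elem M) (a : ℤ) (hq : M * (a.natAbs * M + 1) < 2 * p ^ k)
    (hbig : 2 ^ (M + 2 * l) + 1 < p)
    (dir : Fin (p ^ k * l + a.natAbs * (M * (M - 1))) × Fin M → Bool)
    (ho : Oriented (freeWord (p ^ k) v a) dir)
    (hK : IsKnot (PK.annular (freeWord (p ^ k) v a) dir))
    (hf : (PK.annular (freeWord (p ^ k) v a) dir).fPoly = 1)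
    (b : ℤ) (dir' : Fin (1 * l + b.natAbs * (M * (M - 1))) × Fin M → Bool)
    (ho' : Oriented (freeWord 1 v b) dir') :
    (PK.annular (freeWord 1 v b) dir').fPoly = 1 := by
  have hpos : 0 < p ^ k := Nat.pow_pos hp.out.pos
  have hodd : Odd (p ^ k) := (hp.out.odd_of_ne_two hp2).pow
  obtain ⟨h0, h1, h2⟩ := unit_core p k hk hp2 hl hM v a hq dir ho hK (by rw [hf, map_one]) hpos
  obtain ⟨g0, g1⟩ := RZ_triv p v _ hbig h0 h1
  rw [← sub_eq_zero]
  apply eq_zero_of_all
  intro p' hp'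
  have : Fact p'.Prime := ⟨hp'⟩
  rw [map_sub, map_one, sub_eq_zero]
  refine quot_of_RR p' hl hM v b dir' _ _ h2 (linking_par _ _)
    (quot_writhe hl hM (p ^ k) hodd v a dir ho hK b dir' ho') (fun j hj hj1 => ?_) ?_
  · rw [← red_RZ, g0 j hj hj1, map_zero]
  · rw [← red_RZ, g1, map_one]

/-- divisibility of all coefficients as an equation modulo `p` -/
theorem red_eq_one (p : ℕ) [Fact p.Prime] (f : ℤ[T;T⁻¹]) :
    red p f = 1 ↔ ∀ n, (p : ℤ) ∣ (f - 1).coeff n := by
  have h1 : ∀ g : ℤ[T;T⁻¹], red p g = 0 ↔ ∀ n, (p : ℤ) ∣ g.coeff n := by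
    intro g
    have h2 : ∀ n, (red p g).coeff n = ((g.coeff n : ℤ) : ZMod p) := by
      intro n
      unfold red
      rw [AddMonoidAlgebra.coeff_mapRingHom]
      rfl
    constructor
    · intro h n
      have h3 := h2 n
      rw [h] at h3
      have h4 : ((g.coeff n : ℤ) : ZMod p) = 0 := by rw [← h3]; simp
      exact (ZMod.intCast_zmod_eq_zero_iff_dvd _ p).1 h4
    · intro h
      apply LaurentPolynomial.ext
      intro n
      rw [h2, (ZMod.intCast_zmod_eq_zero_iff_dvd _ p).2 (h n)]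
      simp
  rw [← h1, map_sub, map_one, sub_eq_zero]

end exact

end Pool.Agent.TH561.AD
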