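import Pool.Agent.TH561.AD.Ext
import Pool.Agent.TH561.AD.Exact
import Pool.Agent.TH561.AD.Comp

/-!
# Adequate quotients: circles
-/

set_option autoImplicit false

namespace Pool.Agent.TH561.AD

open Pool.Agent.H891R2.Jones Pool.Agent.TH561 Pool.Agent.TH561.PK Pool.Agent.TH561.FP Finset
  LaurentPolynomial

variable {M l : ℕ}

theorem circ_one (hl : 0 < l) (v : Fin l → Elem M) :
    circles (smA ∘ v) = esn M (AW (toW v)).2 + inn M (AW (toW v)).2 := by
  rw [circles_eq hl, hk_smA]
  rfl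

theorem AW_rep (B : List (Option Bool × ℕ)) (q : ℕ) :
    (AW (List.replicate q B).flatten).2 = (List.replicate q (AW B).2).flatten := by
  induction q with
  | zero => rfl
  | succ q ih =>
    rw [List.replicate_succ, List.flatten_cons, AW_append, List.replicate_succ, List.flatten_cons, ih]

theorem circ_two (hl : 0 < l) (v : Fin l → Elem M) :
    circles (smA ∘ pw 2 v) = esn M (AW (toW v)).2 + 2 * inn M (AW (toW v)).2 := by
  rw [circles_eq (by omega), hk_smA, toW_pw, AW_rep,
    nlp_rep _ (trm_mem (toW v) (toW_mem v) _ (AW_mem _)) (by norm_num)]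

theorem smA_comp_mirr {L : ℕ} (w : Fin L → Elem M) : smA ∘ mirr w = smB ∘ w := by
  funext t
  exact smA_mirr (w t)

/-- the writhe of the quotient -/
theorem writhe_any (hl : 0 < l) (hM : 0 < M) (n : ℕ) (hn : Odd n) (v : Fin l → Elem M) (a : ℤ)
    (dir : Fin (n * l + a.natAbs * (M * (M - 1))) × Fin M → Bool) (ho : Oriented (freeWord n v a) dir)
    (hK : IsKnot (PK.annular (freeWord n v a) dir)) (d : Fin l × Fin M → Bool) (hd : Oriented v d) :
    (PK.annular v d).writhe = (PK.annular v (fst hl hn.pos dir)).writhe := by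
  have hM1 : 0 < M - 1 := lt_of_le_of_lt (Nat.zero_le _) (v ⟨0, hl⟩).2.2
  have h4 := two_orientations _ dir _ ho (gdir_oriented hl hM1 n v a _ hd) hK
  have hlt : ∀ t : Fin l, (t : ℕ) < n * l + a.natAbs * (M * (M - 1)) := by
    intro t
    have h1 := t.2
    have h2 : l ≤ n * l := Nat.le_mul_of_pos_left l hn.pos
    omega
  apply writhe_not
  rcases h4 with h4 | h4
  · left
    intro x
    rw [← gdir_first hl hM1 hn.pos d x]
    exact h4 (⟨x.1, hlt x.1⟩, x.2)
  · right
    intro x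
    rw [← gdir_first hl hM1 hn.pos d x]
    exact h4 (⟨x.1, hlt x.1⟩, x.2)

/-- adequate quotients -/
theorem adequate_modp (p k : ℕ) [hp : Fact p.Prime] (hk : 1 ≤ k) (hp2 : p ≠ 2) (hl : 0 < l)
    (hM : 0 < M) (v : Fin l → Elem M) (a : ℤ) (hq : M * (a.natAbs * M + 1) < 2 * p ^ k)
    (dir : Fin (p ^ k * l + a.natAbs * (M * (M - 1))) × Fin M → Bool)
    (ho : Oriented (freeWord (p ^ k) v a) dir)
    (hK : IsKnot (PK.annular (freeWord (p ^ k) v a) dir))
    (hf : red p (PK.annular (freeWord (p ^ k) v a) dir).fPoly = 1)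
    (d : Fin l × Fin M → Bool) (hd : Oriented v d) :
    (AAdequate (pw 2 v) → circles (smA ∘ pw 2 v) + 1 = 2 * circles (smA ∘ v) ∧
      3 * (PK.annular v d).writhe = crossings v + 2 * ((circles (smA ∘ v) : ℤ) - 1)) ∧
    (BAdequate (pw 2 v) → circles (smB ∘ pw 2 v) + 1 = 2 * circles (smB ∘ v) ∧
      -(3 * (PK.annular v d).writhe) = crossings v + 2 * ((circles (smB ∘ v) : ℤ) - 1)) := by
  have hpos : 0 < p ^ k := Nat.pow_pos hp.out.pos
  have hodd : Odd (p ^ k) := (hp.out.odd_of_ne_two hp2).pow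
  obtain ⟨h0, h1, -⟩ := unit_core p k hk hp2 hl hM v a hq dir ho hK hf hpos
  have h2 := ext_core p hM v _ h0 h1
  rw [writhe_any hl hM (p ^ k) hodd v a dir ho hK d hd]
  constructor
  · intro hA
    obtain ⟨h3, h4⟩ := h2.1 hA
    rw [circ_one hl, circ_two hl, h3, ← h4]
    constructor
    · ring
    · push_cast
      ring
  · intro hB
    obtain ⟨h3, h4⟩ := h2.2 hB
    have e1 : smB ∘ pw 2 v = smA ∘ pw 2 (mirr v) := (smA_comp_mirr (pw 2 v)).symm
    have e2 : smB ∘ v = smA ∘ mirr v := (smA_comp_mirr v).symm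
    rw [e1, e2, circ_one hl, circ_two hl, h3, ← h4]
    constructor
    · ring
    · push_cast
      ring

end Pool.Agent.TH561.AD
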