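import Pool.Agent.TH561.AD.Ball

/-!
# Sums of `q`-th powers times twisted Chebyshev polynomials
-/

set_option autoImplicit false

namespace Pool.Agent.TH561.AD

open Pool.Agent.H891R2.Jones Pool.Agent.TH561 Pool.Agent.TH561.PK Pool.Agent.TH561.FP Finset
  LaurentPolynomial

section top

variable {F : Type*} [Field F]

theorem Top.unique {f : F[T;T⁻¹]} {t u : ℤ} (h : Top f t) (h' : Top f u) : t = u :=
  le_antisymm (PK.Top.le h' h.1) (PK.Top.le h h'.1)

theorem Top.neg {f : F[T;T⁻¹]} {t : ℤ} (h : Top f t) : Top (-f) t := by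
  constructor
  · have : (-f).coeff t = -(f.coeff t) := by simp
    rw [this]
    exact neg_ne_zero.2 h.1
  · intro n hn
    have : (-f).coeff n = -(f.coeff n) := by simp
    rw [this, h.2 n hn, neg_zero]

theorem top_diff {a b : ℤ} (h : b < a) : Top (T a - T b : F[T;T⁻¹]) a := by
  constructor
  · have h1 : b ≠ a := by omega
    simp [T_apply, h1]
  · intro n hn
    have h1 : a ≠ n := by omega
    have h2 : b ≠ n := by omega
    simp [T_apply, h1, h2]

theorem top_C {c : F} (hc : c ≠ 0) (y : ℤ) : Top (C c * T y : F[T;T⁻¹]) y := by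
  rw [← single_eq_C_mul_T]
  constructor
  · show (Finsupp.single y c) y ≠ 0
    rw [Finsupp.single_eq_same]
    exact hc
  · intro n hn
    show (Finsupp.single y c) n = 0
    rw [Finsupp.single_apply, if_neg (by omega)]

theorem bot_C {c : F} (hc : c ≠ 0) (y : ℤ) : Bot (C c * T y : F[T;T⁻¹]) y := by
  unfold PK.Bot
  have : invert (C c * T y : F[T;T⁻¹]) = C c * T (-y) := by
    rw [map_mul, invert_C, invert_T]
  rw [this]
  exact top_C hc (-y)

theorem bot_T (y : ℤ) : Bot (T y : F[T;T⁻¹]) y := by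
  unfold PK.Bot
  rw [invert_T]
  exact top_T (-y)

/-- a Laurent polynomial with one exponent -/
theorem mono_of_top_bot {f : F[T;T⁻¹]} {t : ℤ} (h1 : Top f t) (h2 : Bot f t) :
    ∃ c : F, c ≠ 0 ∧ f = C c * T t := by
  refine ⟨f.coeff t, h1.1, ?_⟩
  rw [← single_eq_C_mul_T]
  ext n
  show f.coeff n = (Finsupp.single t (f.coeff t)) n
  rw [Finsupp.single_apply]
  split_ifs with h
  · rw [h]
  · by_contra hne
    have h3 := PK.Top.le h1 hne
    have h4 := h2.le hne
    omega

end top

variable (p : ℕ) [hp : Fact p.Prime]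

/-- the value of the Chebyshev polynomial -/
noncomputable def sS (n : ℕ) : (ZMod p)[T;T⁻¹] :=
  Polynomial.aeval (dF (ZMod p)) (Polynomial.Chebyshev.S ℤ (n : ℤ))

theorem sS_top (n : ℕ) : Top (sS p n) (2 * n) := by
  have h1 := cheb_dF (p := p) (n : ℤ)
  have h2 : Top (sgn' p n * (T (2 * (n : ℤ) + 2) - T (-2 * (n : ℤ) - 2))) (2 * n + 2) := by
    have h3 : Top (T (2 * (n : ℤ) + 2) - T (-2 * (n : ℤ) - 2) : (ZMod p)[T;T⁻¹]) (2 * n + 2) :=
      top_diff (by omega)
    rcases sgn'_eq p n with h | h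
    · rw [h, one_mul]; exact h3
    · rw [h, neg_mul, one_mul]; exact Top.neg h3
  rw [← h1] at h2
  have hne : sS p n ≠ 0 := by
    intro h
    have h3 : Polynomial.aeval (dF (ZMod p)) (Polynomial.Chebyshev.S ℤ (n : ℤ)) = 0 := h
    rw [h3, mul_zero] at h2
    exact h2.ne_zero rfl
  obtain ⟨t, ht⟩ := exists_top _ hne
  have h4 : Top ((T 2 - T (-2)) * sS p n) (2 + t) := (top_diff (by norm_num)).mul ht
  have h5 := Top.unique h2 h4
  have h6 : t = 2 * n := by linarith
  rw [← h6]
  exact ht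

theorem sS_invert (n : ℕ) : invert (sS p n) = sS p n := by
  unfold sS
  have h1 : invert (Polynomial.aeval (dF (ZMod p)) (Polynomial.Chebyshev.S ℤ (n : ℤ))) =
      Polynomial.aeval (invert (dF (ZMod p))) (Polynomial.Chebyshev.S ℤ (n : ℤ)) := by
    have := Polynomial.aeval_algHom_apply
      ((invert (R := ZMod p)).toRingHom.toIntAlgHom) (dF (ZMod p))
      (Polynomial.Chebyshev.S ℤ (n : ℤ))
    exact this.symm
  rw [h1, invert_dF]

theorem sS_bot (n : ℕ) : Bot (sS p n) (-(2 * n)) := by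
  unfold PK.Bot
  rw [sS_invert, neg_neg]
  exact sS_top p n

theorem hn_top (a : ℤ) (n : ℕ) : Top (hn p a n) (a * (n * (n + 2)) + 2 * n) :=
  (top_T _).mul (sS_top p n)

theorem hn_bot (a : ℤ) (n : ℕ) : Bot (hn p a n) (a * (n * (n + 2)) - 2 * n) := by
  have h := (bot_T (F := ZMod p) (a * (n * (n + 2)))).mul (sS_bot p n)
  have e : a * (n * (n + 2)) - 2 * (n : ℤ) = a * (n * (n + 2)) + -(2 * n) := by ring
  rw [e]
  exact h

theorem hn_one (a : ℤ) : hn p a 1 = T (3 * a) * dF (ZMod p) := by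
  unfold hn
  have e : ((1 : ℕ) : ℤ) = 1 := rfl
  rw [e, Polynomial.Chebyshev.S_one, Polynomial.aeval_X]
  congr 2
  ring

/-- the exponents are different -/
theorem sep {M : ℕ} (a e : ℤ) (he : e = 2 ∨ e = -2) (Q : ℤ)
    (hQ : 2 * (M : ℤ) * (a.natAbs * M + 1) < Q) (i j : ℕ) (hi : i ≤ M) (hj : j ≤ M)
    (hpar : i % 2 = j % 2) (h : Q ∣ ((i : ℤ) - j) * (a * (i + j + 2) + e)) : i = j := by
  by_contra hne
  have hij : i + j + 2 ≤ 2 * M := by omega
  have h4 : 4 ≤ i + j + 2 := by omega
  have habs : |((i : ℤ) - j) * (a * (i + j + 2) + e)| < Q := by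
    rw [abs_mul]
    have h1 : |(i : ℤ) - j| ≤ M := by
      rw [abs_le]
      constructor <;> omega
    have h2 : |a * ((i : ℤ) + j + 2) + e| ≤ a.natAbs * (2 * M) + 2 := by
      have h5 : |a * ((i : ℤ) + j + 2) + e| ≤ |a * ((i : ℤ) + j + 2)| + |e| := abs_add_le _ _
      have h6 : |e| = 2 := by rcases he with rfl | rfl <;> norm_num
      have h7 : |a * ((i : ℤ) + j + 2)| = a.natAbs * ((i : ℤ) + j + 2) := by
        rw [abs_mul, Int.abs_eq_natAbs a, abs_of_nonneg (by positivity)]
      have h8 : (a.natAbs : ℤ) * ((i : ℤ) + j + 2) ≤ a.natAbs * (2 * M) :=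
        mul_le_mul_of_nonneg_left (by omega) (by positivity)
      omega
    calc |(i : ℤ) - j| * |a * ((i : ℤ) + j + 2) + e| ≤ M * (a.natAbs * (2 * M) + 2) :=
          mul_le_mul h1 h2 (abs_nonneg _) (by positivity)
      _ = 2 * (M : ℤ) * (a.natAbs * M + 1) := by ring
      _ < Q := hQ
  have h0 := Int.eq_zero_of_abs_lt_dvd h habs
  rcases mul_eq_zero.1 h0 with h1 | h1
  · omega
  · have h2 : a * ((i : ℤ) + j + 2) = -e := by linarith
    have h3 : |a * ((i : ℤ) + j + 2)| = 2 := by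
      rw [h2]; rcases he with rfl | rfl <;> norm_num
    rw [abs_mul, abs_of_nonneg (show (0 : ℤ) ≤ (i : ℤ) + j + 2 by positivity)] at h3
    rcases eq_or_ne a 0 with h5 | h5
    · rw [h5] at h3; simp at h3
    · have h6 : 1 ≤ |a| := Int.one_le_abs h5
      have h7 : (4 : ℤ) ≤ (i : ℤ) + j + 2 := by omega
      nlinarith

section alg

variable {M q : ℕ} (a : ℤ) (u : ℕ → (ZMod p)[T;T⁻¹])

/-- linear independence -/
theorem alg_zero (hq : 2 * M * (a.natAbs * M + 1) < q)
    (hpar : ∀ n, n % 2 ≠ M % 2 → u n = 0)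
    (h : ∑ n ∈ range (M + 1), (u n) ^ q * hn p a n = 0) : ∀ n ∈ range (M + 1), u n = 0 := by
  classical
  by_contra hcon
  push Not at hcon
  obtain ⟨n0, hn0, hne0⟩ := hcon
  have ht : ∀ s, ∃ t, u s ≠ 0 → Top (u s) t := by
    intro s
    by_cases h : u s = 0
    · exact ⟨0, fun h' => absurd h h'⟩
    · obtain ⟨t, ht⟩ := exists_top (u s) h
      exact ⟨t, fun _ => ht⟩
  choose t ht using ht
  have hq0 : q ≠ 0 := by omega
  have htop : ∀ s, u s ≠ 0 → Top ((u s) ^ q * hn p a s) (q * t s + (a * (s * (s + 2)) + 2 * s)) :=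
    fun s hs => ((ht s hs).pow q).mul (hn_top p a s)
  have hne : ∀ s, (u s) ^ q * hn p a s ≠ 0 → u s ≠ 0 := by
    intro s h h'
    apply h
    rw [h', zero_pow hq0, zero_mul]
  obtain ⟨c, -, h2⟩ := sum_top (range (M+1)) (fun s => (u s) ^ q * hn p a s)
    (fun s => q * t s + (a * (s * (s + 2)) + 2 * s)) (by
      intro s _
      by_cases h : u s = 0
      · left; simp only [h, zero_pow hq0, zero_mul]
      · right; exact htop s h) (by
      intro i hi j hj hfi hfj hij
      rw [Finset.mem_range] at hi hj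
      have h1 : i % 2 = M % 2 := by
        by_contra h3
        exact hne i hfi (hpar i h3)
      have h2 : j % 2 = M % 2 := by
        by_contra h3
        exact hne j hfj (hpar j h3)
      refine sep a 2 (Or.inl rfl) (q : ℤ) (by exact_mod_cast hq) i j (by omega) (by omega)
        (by omega) ⟨t j - t i, ?_⟩
      have h4 : (q : ℤ) * t i + (a * (i * (i + 2)) + 2 * i) =
        q * t j + (a * (j * (j + 2)) + 2 * j) := hij
      linear_combination h4) hn0 ((htop n0 hne0).ne_zero)
  rw [h] at h2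
  exact h2 (by simp)

/-- units -/
theorem alg_unit (hq2 : 2 ≤ q) (hq : M * (a.natAbs * M + 1) < 2 * q)
    (hpar : ∀ n, n % 2 ≠ M % 2 → u n = 0) (ω : ℤ) (hω : ∀ n, Res4 (u n) ω)
    (c : ZMod p) (hc : c ≠ 0) (y : ℤ)
    (h : ∑ n ∈ range (M + 1), (u n) ^ q * hn p a n = C c * T y * dF (ZMod p)) :
    (∀ n ∈ range (M + 1), n ≠ 1 → u n = 0) ∧ 0 < M ∧
      ∃ (c' : ZMod p) (m : ℤ), c' ≠ 0 ∧ u 1 = C c' * T m ∧ c' ^ q = c ∧ q * m + 3 * a = y := by
  classical
  have ht : ∀ s, ∃ t, u s ≠ 0 → Top (u s) t := by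
    intro s
    by_cases h : u s = 0
    · exact ⟨0, fun h' => absurd h h'⟩
    · obtain ⟨t, ht⟩ := exists_top (u s) h
      exact ⟨t, fun _ => ht⟩
  have hb : ∀ s, ∃ t, u s ≠ 0 → Bot (u s) t := by
    intro s
    by_cases h : u s = 0
    · exact ⟨0, fun h' => absurd h h'⟩
    · obtain ⟨t, ht⟩ := exists_bot (u s) h
      exact ⟨t, fun _ => ht⟩
  choose t ht using ht
  choose b hb using hb
  have hq0 : q ≠ 0 := by omega
  have htop : ∀ s, u s ≠ 0 → Top ((u s) ^ q * hn p a s) (q * t s + (a * (s * (s + 2)) + 2 * s)) :=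
    fun s hs => ((ht s hs).pow q).mul (hn_top p a s)
  have hbot : ∀ s, u s ≠ 0 → Bot ((u s) ^ q * hn p a s) (q * b s + (a * (s * (s + 2)) - 2 * s)) :=
    fun s hs => ((hb s hs).pow q).mul (hn_bot p a s)
  have hne : ∀ s, (u s) ^ q * hn p a s ≠ 0 → u s ≠ 0 := by
    intro s h h'
    apply h
    rw [h', zero_pow hq0, zero_mul]
  have hzero : ∀ s, u s = 0 → (u s) ^ q * hn p a s = 0 := by
    intro s h'
    rw [h', zero_pow hq0, zero_mul]
  have hQ : 2 * (M : ℤ) * (a.natAbs * M + 1) < 4 * q := by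
    have : (M : ℤ) * (a.natAbs * M + 1) < 2 * q := by exact_mod_cast hq
    linarith
  have hrtop : Top (C c * T y * dF (ZMod p)) (y + 2) := (top_C hc y).mul top_dF
  have hrbot : Bot (C c * T y * dF (ZMod p)) (y - 2) := by
    have h1 : Bot (dF (ZMod p)) (-2) := by
      unfold PK.Bot
      rw [invert_dF, neg_neg]
      exact top_dF
    exact (bot_C hc y).mul h1
  -- the extreme exponents
  have key : ∀ n0 ∈ range (M + 1), u n0 ≠ 0 → q * t n0 + (a * (n0 * (n0 + 2)) + 2 * n0) ≤ y + 2 ∧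
      y - 2 ≤ q * b n0 + (a * (n0 * (n0 + 2)) - 2 * n0) := by
    intro n0 hn0 hne0
    constructor
    · obtain ⟨c1, h1, h2⟩ := sum_top (range (M+1)) (fun s => (u s) ^ q * hn p a s)
        (fun s => q * t s + (a * (s * (s + 2)) + 2 * s)) (by
          intro s _
          by_cases h : u s = 0
          · left; exact hzero s h
          · right; exact htop s h) (by
          intro i hi j hj hfi hfj hij
          rw [Finset.mem_range] at hi hj
          have h1 : i % 2 = M % 2 := by
            by_contra h3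
            exact hne i hfi (hpar i h3)
          have h2 : j % 2 = M % 2 := by
            by_contra h3
            exact hne j hfj (hpar j h3)
          obtain ⟨k1, hk1⟩ := hω i _ (ht i (hne i hfi)).1
          obtain ⟨k2, hk2⟩ := hω j _ (ht j (hne j hfj)).1
          refine sep a 2 (Or.inl rfl) (4 * q : ℤ) hQ i j (by omega) (by omega)
            (by omega) ⟨k2 - k1, ?_⟩
          have h4 : (q : ℤ) * t i + (a * (i * (i + 2)) + 2 * i) =
            q * t j + (a * (j * (j + 2)) + 2 * j) := hij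
          linear_combination h4 - (q : ℤ) * hk1 + (q : ℤ) * hk2) hn0 ((htop n0 hne0).ne_zero)
      rw [h] at h2
      exact le_trans h1 (PK.Top.le hrtop h2)
    · obtain ⟨c1, h1, h2⟩ := sum_bot (range (M+1)) (fun s => (u s) ^ q * hn p a s)
        (fun s => q * b s + (a * (s * (s + 2)) - 2 * s)) (by
          intro s _
          by_cases h : u s = 0
          · left; exact hzero s h
          · right; exact hbot s h) (by
          intro i hi j hj hfi hfj hij
          rw [Finset.mem_range] at hi hj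
          have h1 : i % 2 = M % 2 := by
            by_contra h3
            exact hne i hfi (hpar i h3)
          have h2 : j % 2 = M % 2 := by
            by_contra h3
            exact hne j hfj (hpar j h3)
          obtain ⟨k1, hk1⟩ := hω i _ (hb i (hne i hfi)).coeff
          obtain ⟨k2, hk2⟩ := hω j _ (hb j (hne j hfj)).coeff
          refine sep a (-2) (Or.inr rfl) (4 * q : ℤ) hQ i j (by omega) (by omega)
            (by omega) ⟨k2 - k1, ?_⟩
          have h4 : (q : ℤ) * b i + (a * (i * (i + 2)) - 2 * i) =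
            q * b j + (a * (j * (j + 2)) - 2 * j) := hij
          linear_combination h4 - (q : ℤ) * hk1 + (q : ℤ) * hk2) hn0
            (fun h' => by
              have h3 := (hbot n0 hne0).coeff
              rw [h'] at h3
              exact h3 (by simp))
      rw [h] at h2
      exact le_trans (hrbot.le h2) h1
  have key2 : ∀ n0 ∈ range (M + 1), u n0 ≠ 0 → n0 ≤ 1 ∧ t n0 = b n0 := by
    intro n0 hn0 hne0
    obtain ⟨h1, h2⟩ := key n0 hn0 hne0
    have h3 : b n0 ≤ t n0 := (hb n0 hne0).le (ht n0 hne0).1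
    obtain ⟨k1, hk1⟩ := hω n0 _ (ht n0 hne0).1
    obtain ⟨k2, hk2⟩ := hω n0 _ (hb n0 hne0).coeff
    have h4 : (q : ℤ) * (t n0 - b n0) + 4 * n0 ≤ 4 := by linarith
    have hq2' : (2 : ℤ) ≤ q := by exact_mod_cast hq2
    have h5 : k1 - k2 = 0 := by
      by_contra hk
      have h6 : 1 ≤ k1 - k2 := by omega
      have h7 : t n0 - b n0 = 4 * (k1 - k2) := by linarith
      rw [h7] at h4
      have h8 : (0 : ℤ) ≤ n0 := by positivity
      nlinarith
    have h6 : t n0 = b n0 := by linarith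
    refine ⟨?_, h6⟩
    rw [h6, sub_self, mul_zero, zero_add] at h4
    omega
  -- some coefficient is not zero
  have hex : ∃ n0 ∈ range (M + 1), u n0 ≠ 0 := by
    by_contra hcon
    push Not at hcon
    rw [Finset.sum_eq_zero (fun n hn' => hzero n (hcon n hn'))] at h
    exact hrtop.ne_zero h.symm
  obtain ⟨n0, hn0, hne0⟩ := hex
  have hother : ∀ n ∈ range (M + 1), n ≠ n0 → u n = 0 := by
    intro n hn' hnn
    by_contra h1
    have h2 := (key2 n hn' h1).1
    have h3 := (key2 n0 hn0 hne0).1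
    have h4 : n % 2 = M % 2 := by
      by_contra h5
      exact h1 (hpar n h5)
    have h5 : n0 % 2 = M % 2 := by
      by_contra h6
      exact hne0 (hpar n0 h6)
    omega
  have hsum : (u n0) ^ q * hn p a n0 = C c * T y * dF (ZMod p) := by
    rw [← h]
    symm
    apply Finset.sum_eq_single_of_mem n0 hn0
    intro n hn' hnn
    exact hzero n (hother n hn' hnn)
  have htb := (key2 n0 hn0 hne0).2
  have h1 := htop n0 hne0
  have h2 := hbot n0 hne0
  rw [hsum] at h1 h2
  have h3 := Top.unique h1 hrtop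
  have h4 : (q : ℤ) * b n0 + (a * (n0 * (n0 + 2)) - 2 * n0) = y - 2 :=
    le_antisymm (h2.le hrbot.coeff) (hrbot.le h2.coeff)
  have hn1 : n0 = 1 := by
    rw [htb] at h3
    have h5 : (4 : ℤ) * n0 = 4 := by linarith
    omega
  subst hn1
  have hM : 0 < M := by
    rw [Finset.mem_range] at hn0
    omega
  have hbt : Bot (u 1) (t 1) := by rw [htb]; exact hb 1 hne0
  obtain ⟨c', hc', hu⟩ := mono_of_top_bot (ht 1 hne0) hbt
  refine ⟨hother, hM, c', t 1, hc', hu, ?_, ?_⟩
  · have h6 : (C (c' ^ q) * T (q * t 1 + 3 * a) : (ZMod p)[T;T⁻¹]) = C c * T y := by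
      apply mul_right_cancel₀ (dF_ne (ZMod p))
      rw [← hsum, hn_one, hu, mul_pow, ← map_pow, T_pow, T_add]
      ring
    have h7 := congrArg (fun f : (ZMod p)[T;T⁻¹] => f.coeff (q * t 1 + 3 * a)) h6
    rw [← single_eq_C_mul_T, ← single_eq_C_mul_T] at h7
    have h8 : (q : ℤ) * t 1 + 3 * a = y := by
      have : ((1 : ℕ) : ℤ) = 1 := rfl
      rw [this] at h3
      linarith
    have h9 : (Finsupp.single ((q : ℤ) * t 1 + 3 * a) (c' ^ q)) (q * t 1 + 3 * a) =
        (Finsupp.single y c) (q * t 1 + 3 * a) := h7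
    rw [h8, Finsupp.single_eq_same, Finsupp.single_eq_same] at h9
    exact h9
  · have : ((1 : ℕ) : ℤ) = 1 := rfl
    rw [this] at h3
    linarith

end alg

end Pool.Agent.TH561.AD
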