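import Pool.Agent.TH561.FP.Main

/-!
# Powers of the variable in terms of Chebyshev polynomials
-/

set_option autoImplicit false

namespace Pool.Agent.TH561.AD

open Pool.Agent.H891R2.Jones Pool.Agent.TH561 Pool.Agent.TH561.PK Pool.Agent.TH561.FP Finset
  LaurentPolynomial

/-- the coefficients of the powers of `X` with respect to the Chebyshev polynomials `S n` -/
def mb : ℕ → ℕ → ℕ
  | 0, 0 => 1
  | 0, (_+1) => 0
  | (s+1), 0 => mb s 1
  | (s+1), (n+1) => mb s n + mb s (n+2)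

theorem mb_gt : ∀ s n : ℕ, s < n → mb s n = 0
  | 0, 0, h => by omega
  | 0, (_+1), _ => rfl
  | (s+1), 0, h => by omega
  | (s+1), (n+1), h => by
    show mb s n + mb s (n+2) = 0
    rw [mb_gt s n (by omega), mb_gt s (n+2) (by omega)]

theorem mb_par : ∀ s n : ℕ, s % 2 ≠ n % 2 → mb s n = 0
  | 0, 0, h => by omega
  | 0, (_+1), _ => rfl
  | (s+1), 0, h => by
    show mb s 1 = 0
    exact mb_par s 1 (by omega)
  | (s+1), (n+1), h => by
    show mb s n + mb s (n+2) = 0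
    rw [mb_par s n (by omega), mb_par s (n+2) (by omega)]

theorem mb_le : ∀ s n : ℕ, mb s n ≤ 2 ^ s
  | 0, 0 => by simp [mb]
  | 0, (_+1) => by simp [mb]
  | (s+1), 0 => by
    show mb s 1 ≤ _
    have := mb_le s 1
    rw [pow_succ]
    omega
  | (s+1), (n+1) => by
    show mb s n + mb s (n+2) ≤ _
    have h1 := mb_le s n
    have h2 := mb_le s (n+2)
    rw [pow_succ]
    omega

theorem X_pow_eq {R : Type*} [CommRing R] : ∀ s N : ℕ, s < N →
    (Polynomial.X : Polynomial R) ^ s =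
      ∑ n ∈ range N, (mb s n : Polynomial R) * Polynomial.Chebyshev.S R (n : ℤ)
  | 0, N, hN => by
    obtain ⟨K, rfl⟩ : ∃ K, N = K + 1 := ⟨N - 1, by omega⟩
    rw [Finset.sum_range_succ', Finset.sum_eq_zero (fun n _ => by
      rw [mb_gt 0 (n+1) (by omega)]; simp)]
    simp [mb]
  | (s+1), N, hN => by
    obtain ⟨K, rfl⟩ : ∃ K, N = K + 1 := ⟨N - 1, by omega⟩
    have hS : ∀ n : ℕ, (Polynomial.X : Polynomial R) * Polynomial.Chebyshev.S R (n : ℤ) =
        Polynomial.Chebyshev.S R ((n : ℤ) + 1) + Polynomial.Chebyshev.S R ((n : ℤ) - 1) := by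
      intro n
      have h1 := Polynomial.Chebyshev.S_add_two R ((n : ℤ) - 1)
      have e1 : (n : ℤ) - 1 + 2 = n + 1 := by ring
      have e2 : (n : ℤ) - 1 + 1 = n := by ring
      rw [e1, e2] at h1
      rw [h1]
      ring
    have h1 : (Polynomial.X : Polynomial R) ^ (s+1) =
        ∑ n ∈ range (K+2), (mb s n : Polynomial R) * Polynomial.Chebyshev.S R ((n : ℤ) + 1) +
        ∑ n ∈ range (K+2), (mb s n : Polynomial R) * Polynomial.Chebyshev.S R ((n : ℤ) - 1) := by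
      rw [pow_succ', X_pow_eq s (K+2) (by omega), Finset.mul_sum, ← Finset.sum_add_distrib]
      refine Finset.sum_congr rfl fun n _ => ?_
      rw [mul_left_comm, hS, mul_add]
    have h2 : ∑ n ∈ range (K+2), (mb s n : Polynomial R) * Polynomial.Chebyshev.S R ((n : ℤ) + 1) =
        ∑ n ∈ range K, (mb s n : Polynomial R) * Polynomial.Chebyshev.S R ((n : ℤ) + 1) := by
      rw [Finset.sum_range_succ, Finset.sum_range_succ, mb_gt s K (by omega),
        mb_gt s (K+1) (by omega)]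
      simp
    have h3 : ∑ n ∈ range (K+2), (mb s n : Polynomial R) * Polynomial.Chebyshev.S R ((n : ℤ) - 1) =
        ∑ n ∈ range K, (mb s (n+2) : Polynomial R) * Polynomial.Chebyshev.S R ((n : ℤ) + 1) +
          (mb s 1 : Polynomial R) * Polynomial.Chebyshev.S R (0 : ℤ) := by
      rw [Finset.sum_range_succ', Finset.sum_range_succ']
      have e0 : ((0 : ℕ) : ℤ) - 1 = -1 := by norm_num
      have e1 : (((0 : ℕ) + 1 : ℕ) : ℤ) - 1 = 0 := by norm_num
      rw [e0, Polynomial.Chebyshev.S_neg_one, mul_zero, add_zero, e1]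
      congr 1
      refine Finset.sum_congr rfl fun n _ => ?_
      have e2 : ((n + 1 + 1 : ℕ) : ℤ) - 1 = n + 1 := by push_cast; ring
      rw [e2]
    rw [h1, h2, h3, Finset.sum_range_succ']
    have h4 : ∀ n : ℕ, ((mb (s+1) (n+1) : ℕ) : Polynomial R) = (mb s n : Polynomial R) + mb s (n+2) := by
      intro n
      show ((mb s n + mb s (n+2) : ℕ) : Polynomial R) = _
      push_cast
      rfl
    have h5 : ((mb (s+1) 0 : ℕ) : Polynomial R) = (mb s 1 : Polynomial R) := rfl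
    rw [h5, ← add_assoc, ← Finset.sum_add_distrib]
    congr 1
    refine Finset.sum_congr rfl fun n _ => ?_
    rw [h4, add_mul]
    push_cast
    rfl

section form

variable (p : ℕ) [hp : Fact p.Prime]

/-- the value of a functional at a power of `X` -/
theorem H_eq (H : ℕ → (ZMod p)[T;T⁻¹]) (s N : ℕ) (h : s < N) :
    H s = ∑ n ∈ range N, (mb s n : (ZMod p)[T;T⁻¹]) * HF H (Polynomial.Chebyshev.S ℤ (n : ℤ)) := by
  have h1 := congrArg (HF (R := ℤ) H) (X_pow_eq (R := ℤ) s N h)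
  rw [HF_X_pow, map_sum] at h1
  rw [h1]
  refine Finset.sum_congr rfl fun n _ => ?_
  have h2 : ((mb s n : ℕ) : Polynomial ℤ) * Polynomial.Chebyshev.S ℤ (n : ℤ) =
      (mb s n : ℤ) • Polynomial.Chebyshev.S ℤ (n : ℤ) := by
    rw [zsmul_eq_mul]
    push_cast
    rfl
  rw [h2, map_smul, zsmul_eq_mul]
  push_cast
  rfl

/-- the coefficients of the quotient -/
noncomputable def rr (M : ℕ) (B : List (Option Bool × ℕ)) (n : ℕ) : (ZMod p)[T;T⁻¹] :=
  ∑ i : Sm B, (mb (esn M (gen i)) n : (ZMod p)[T;T⁻¹]) * (T (wgt i) * dF (ZMod p) ^ inn M (gen i))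

/-- the values of the Chebyshev polynomials with full twists -/
noncomputable def hn (a : ℤ) (n : ℕ) : (ZMod p)[T;T⁻¹] :=
  T (a * (n * (n + 2))) * Polynomial.aeval (dF (ZMod p)) (Polynomial.Chebyshev.S ℤ (n : ℤ))

theorem nat_frob (k m : ℕ) : ((m : (ZMod p)[T;T⁻¹])) ^ (p ^ k) = m := by
  have h1 : ((m : ℕ) : (ZMod p)[T;T⁻¹]) = C (m : ZMod p) := by
    rw [map_natCast]
  rw [h1, ← map_pow, ZMod.pow_card_pow]

theorem sum_rr (k : ℕ) {M : ℕ} (B : List (Option Bool × ℕ)) (hB : ∀ x ∈ B, x.2 + 1 < M)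
    (H : ℕ → (ZMod p)[T;T⁻¹]) :
    ∑ i : Sm B, (T (wgt i) * dF (ZMod p) ^ inn M (gen i)) ^ (p ^ k) * H (esn M (gen i)) =
      ∑ n ∈ range (M + 1), (rr p M B n) ^ (p ^ k) * HF H (Polynomial.Chebyshev.S ℤ (n : ℤ)) := by
  have h1 : ∀ i : Sm B, (T (wgt i) * dF (ZMod p) ^ inn M (gen i)) ^ (p ^ k) * H (esn M (gen i)) =
      ∑ n ∈ range (M + 1), ((mb (esn M (gen i)) n : (ZMod p)[T;T⁻¹]) *
        (T (wgt i) * dF (ZMod p) ^ inn M (gen i))) ^ (p ^ k) *
          HF H (Polynomial.Chebyshev.S ℤ (n : ℤ)) := by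
    intro i
    rw [H_eq p H (esn M (gen i)) (M + 1) (Nat.lt_succ_of_le (esn_le (gen_mem hB i))), Finset.mul_sum]
    refine Finset.sum_congr rfl fun n _ => ?_
    rw [mul_pow (mb (esn M (gen i)) n : (ZMod p)[T;T⁻¹]), nat_frob]
    ring
  rw [Finset.sum_congr rfl (fun i _ => h1 i), Finset.sum_comm]
  refine Finset.sum_congr rfl fun n _ => ?_
  rw [← Finset.sum_mul]
  congr 1
  unfold rr
  rw [sum_pow_char_pow]

theorem rr_par {M : ℕ} {B : List (Option Bool × ℕ)} (hB : ∀ x ∈ B, x.2 + 1 < M) (n : ℕ)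
    (h : n % 2 ≠ M % 2) : rr p M B n = 0 := by
  unfold rr
  refine Finset.sum_eq_zero fun i _ => ?_
  rw [mb_par _ _ (by rw [(esn_inn (gen i) (gen_mem hB i)).2.1]; exact fun h' => h h'.symm)]
  simp

theorem rr_res4 {M : ℕ} {B : List (Option Bool × ℕ)} (hB : ∀ x ∈ B, x.2 + 1 < M) (n : ℕ) :
    Res4 (rr p M B n) (clw B) := by
  unfold rr
  refine Res4.sum _ _ _ fun i _ => ?_
  have h1 : Res4 ((mb (esn M (gen i)) n : (ZMod p)[T;T⁻¹])) 0 := by
    have h2 : ((mb (esn M (gen i)) n : ℕ) : (ZMod p)[T;T⁻¹]) =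
        C ((mb (esn M (gen i)) n : ℕ) : ZMod p) := by rw [map_natCast]
    rw [h2]
    intro m hm
    have h3 : (C ((mb (esn M (gen i)) n : ℕ) : ZMod p) : (ZMod p)[T;T⁻¹]) =
        C ((mb (esn M (gen i)) n : ℕ) : ZMod p) * T 0 := by rw [T_zero, mul_one]
    rw [h3, ← single_eq_C_mul_T] at hm
    by_cases h4 : (0 : ℤ) = m
    · omega
    · exfalso
      apply hm
      show (Finsupp.single (0 : ℤ) _) m = 0
      rw [Finsupp.single_apply, if_neg h4]
  have h2 := (res4_T (F := ZMod p) (wgt i)).mul (res4_dF.pow (inn M (gen i)))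
  obtain ⟨k, hk⟩ := wgt_mod hB i
  refine (h1.mul h2).congr ⟨k + inn M (gen i), ?_⟩
  linarith

/-- the bracket modulo `p` in terms of the Chebyshev polynomials -/
theorem form (k q : ℕ) (hq : q = p ^ k) {M l : ℕ} (hl : 0 < l) (hM : 0 < M) (v : Fin l → Elem M)
    (a : ℤ) (dir : Fin (q * l + a.natAbs * (M * (M - 1))) × Fin M → Bool) :
    red p (dl * (PK.annular (freeWord q v a) dir).bracket) =
      T (-(3 * a * M)) * ∑ n ∈ range (M + 1), (rr p M (toW v) n) ^ q * hn p a n := by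
  subst hq
  have hq0 : 0 < p ^ k := Nat.pow_pos hp.out.pos
  have hql : 0 < p ^ k * l := Nat.mul_pos hq0 hl
  have hL : 0 < p ^ k * l + a.natAbs * (M * (M - 1)) := by omega
  set b := decide (0 ≤ a) with hb
  obtain ⟨H, hH1, hH2⟩ := exists_H p M b a.natAbs
  have hB := toW_mem v
  have hF := free_modp hL hM (freeWord (p ^ k) v a) dir p k (toW v) hB b a.natAbs (by
    unfold freeWord
    rw [toW_append, toW_pw (p ^ k) v]) H hH1
  have hα : sgb b * (a.natAbs : ℤ) = a := by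
    rw [hb]
    unfold sgb
    by_cases h0 : 0 ≤ a
    · rw [decide_eq_true h0, if_pos rfl]
      omega
    · rw [decide_eq_false h0, if_neg (by simp)]
      omega
  rw [hF, sum_rr p k (toW v) hB H]
  have e1 : (-sgb b * (3 * a.natAbs * M : ℕ) : ℤ) = -(3 * a * M) := by
    rw [Nat.cast_mul, Nat.cast_mul]
    calc -sgb b * (((3 : ℕ) : ℤ) * (a.natAbs : ℤ) * M) = -(3 * (sgb b * (a.natAbs : ℤ)) * M) := by
          push_cast; ring
      _ = _ := by rw [hα]
  rw [e1]
  congr 1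
  refine Finset.sum_congr rfl fun n hn' => ?_
  rw [Finset.mem_range] at hn'
  rw [hH2 n (by omega)]
  unfold hn
  congr 3
  rw [Nat.cast_mul]
  calc sgb b * ((a.natAbs : ℤ) * ((n * (n + 2) : ℕ) : ℤ)) =
      (sgb b * (a.natAbs : ℤ)) * (n * (n + 2)) := by push_cast; ring
    _ = _ := by rw [hα]

end form

end Pool.Agent.TH561.AD
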