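import Pool.Agent.TH561.AD.Unit

/-!
# Bounds for the integral coefficients of the quotient
-/

set_option autoImplicit false

namespace Pool.Agent.TH561.AD

open Pool.Agent.H891R2.Jones Pool.Agent.TH561 Pool.Agent.TH561.PK Pool.Agent.TH561.FP Finset
  LaurentPolynomial

section count

variable {m : ℕ}

theorem WP_bound {N : ℕ} (hN : 1 ≤ N) (L : List ℕ) (h : ∀ i ∈ L, i + 1 < m) (x y : Fin m → Fin N) :
    ‖(WP (KK m N) L) x y‖ ≤ (N : ℝ) ^ L.length := by
  induction L generalizing x with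
  | nil =>
    rw [WP_nil, List.length_nil, pow_zero, Matrix.one_apply]
    split_ifs
    · simp
    · simp
  | cons i L ih =>
    have hi : i + 1 < m := h i List.mem_cons_self
    have ih := fun x => ih (fun j hj => h j (List.mem_cons_of_mem _ hj)) x
    rw [WP_cons, KK_mul_apply i hi, List.length_cons, pow_succ']
    split_ifs
    · refine (norm_sum_le _ _).trans ?_
      refine (Finset.sum_le_sum fun c _ => ih _).trans ?_
      rw [Finset.sum_const, Finset.card_univ, Fintype.card_fin, nsmul_eq_mul]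
    · rw [norm_zero]
      positivity

theorem nlp_le (L : List ℕ) (h : ∀ i ∈ L, i + 1 < m) : esn m L + inn m L ≤ m + L.length := by
  have h1 := trace_nlp (N := 2) L h (by norm_num)
  have h2 : ‖Matrix.trace (WP (KK m 2) L)‖ ≤ (2 : ℝ) ^ m * 2 ^ L.length := by
    unfold Matrix.trace
    refine (norm_sum_le _ _).trans ?_
    refine (Finset.sum_le_sum fun x _ => WP_bound (by norm_num) L h x x).trans ?_
    rw [Finset.sum_const, Finset.card_univ, Fintype.card_fun, Fintype.card_fin, Fintype.card_fin,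
      nsmul_eq_mul]
    push_cast
    exact le_rfl
  rw [h1, norm_pow, ← pow_add] at h2
  have h3 : ‖((2 : ℕ) : ℂ)‖ = 2 := by simp
  rw [h3] at h2
  exact (pow_le_pow_iff_right₀ (by norm_num)).1 h2

theorem opts_len (x : Option Bool × ℕ) : (opts x).length ≤ 2 ∧ ∀ o ∈ opts x, o.2.length ≤ 1 := by
  obtain ⟨a, i⟩ := x
  rcases a with _ | b
  · simp [opts]
  · cases b <;> simp [opts]

theorem trm_len (w : List (Option Bool × ℕ)) :
    (trm w).length ≤ 2 ^ w.length ∧ ∀ t ∈ trm w, t.2.length ≤ w.length := by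
  induction w with
  | nil => simp [trm]
  | cons x w ih =>
    obtain ⟨h1, h2⟩ := opts_len x
    constructor
    · rw [trm, List.length_flatMap]
      simp only [List.length_map]
      rw [List.map_const', List.sum_replicate, smul_eq_mul, List.length_cons, pow_succ', ]
      exact Nat.mul_le_mul h1 ih.1
    · intro t ht
      rw [trm, List.mem_flatMap] at ht
      obtain ⟨o, ho, ht⟩ := ht
      rw [List.mem_map] at ht
      obtain ⟨u, hu, rfl⟩ := ht
      have h3 := h2 o ho
      have h4 := ih.2 u hu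
      simp only [List.length_append, List.length_cons]
      omega

end count

section bd

/-- all coefficients are at most `c` -/
def Bd (f : ℤ[T;T⁻¹]) (c : ℕ) : Prop := ∀ n, |f.coeff n| ≤ c

theorem T_mul_coeff (k : ℤ) (f : ℤ[T;T⁻¹]) (n : ℤ) : (T k * f).coeff n = f.coeff (n - k) := by
  have h := AddMonoidAlgebra.coeff_single_mul_eq_mul_coeff (x := f) (m := k) (m₁ := n) (r := (1 : ℤ))
    (n - k) (by intro m' _; omega)
  rw [one_mul] at h
  exact h

theorem Bd.T_mul {f : ℤ[T;T⁻¹]} {c : ℕ} (h : Bd f c) (k : ℤ) : Bd (T k * f) c := by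
  intro n
  rw [T_mul_coeff]
  exact h _

theorem Bd.add {f g : ℤ[T;T⁻¹]} {c e : ℕ} (h : Bd f c) (h' : Bd g e) : Bd (f + g) (c + e) := by
  intro n
  have : (f + g).coeff n = f.coeff n + g.coeff n := by simp
  rw [this]
  refine (abs_add_le _ _).trans ?_
  push_cast
  exact add_le_add (h n) (h' n)

theorem Bd.neg {f : ℤ[T;T⁻¹]} {c : ℕ} (h : Bd f c) : Bd (-f) c := by
  intro n
  have : (-f).coeff n = -(f.coeff n) := by simp
  rw [this, abs_neg]
  exact h n

theorem Bd.mono {f : ℤ[T;T⁻¹]} {c e : ℕ} (h : Bd f c) (h' : c ≤ e) : Bd f e :=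
  fun n => (h n).trans (by exact_mod_cast h')

theorem Bd.nat_mul {f : ℤ[T;T⁻¹]} {c : ℕ} (h : Bd f c) : ∀ k : ℕ, Bd ((k : ℤ[T;T⁻¹]) * f) (k * c)
  | 0 => by
    rw [Nat.cast_zero, zero_mul, zero_mul]
    intro n
    simp
  | (k+1) => by
    have h1 := (Bd.nat_mul h k).add h
    have e : (((k + 1 : ℕ) : ℤ[T;T⁻¹])) * f = (k : ℤ[T;T⁻¹]) * f + f := by push_cast; ring
    rw [e, add_mul, one_mul]
    exact h1

theorem Bd.sum {ι : Type*} (S : Finset ι) (f : ι → ℤ[T;T⁻¹]) (c : ι → ℕ) (h : ∀ i ∈ S, Bd (f i) (c i)) :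
    Bd (∑ i ∈ S, f i) (∑ i ∈ S, c i) := by
  classical
  induction S using Finset.induction_on with
  | empty =>
    intro n
    simp
  | insert i S hi ih =>
    rw [Finset.sum_insert hi, Finset.sum_insert hi]
    exact (h i (Finset.mem_insert_self _ _)).add
      (ih (fun j hj => h j (Finset.mem_insert_of_mem hj)))

theorem Bd.dl_mul {f : ℤ[T;T⁻¹]} {c : ℕ} (h : Bd f c) : Bd (dl * f) (2 * c) := by
  have e : dl * f = -(T 2 * f) + -(T (-2) * f) := by unfold dl; ring
  rw [e, two_mul]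
  exact (h.T_mul 2).neg.add (h.T_mul (-2)).neg

theorem bd_dl_pow : ∀ n : ℕ, Bd (dl ^ n) (2 ^ n)
  | 0 => by
    rw [pow_zero, pow_zero]
    intro n
    rw [← T_zero, T_apply]
    split_ifs <;> simp
  | (n+1) => by
    rw [pow_succ', pow_succ']
    exact (bd_dl_pow n).dl_mul

/-- the integral coefficients of the quotient -/
noncomputable def rrZ (M : ℕ) (B : List (Option Bool × ℕ)) (n : ℕ) : ℤ[T;T⁻¹] :=
  ∑ i : Sm B, (mb (esn M (gen i)) n : ℤ[T;T⁻¹]) * (T (wgt i) * dl ^ inn M (gen i))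

theorem red_rrZ (p : ℕ) [Fact p.Prime] (M : ℕ) (B : List (Option Bool × ℕ)) (n : ℕ) :
    red p (rrZ M B n) = rr p M B n := by
  unfold rrZ rr
  rw [map_sum]
  refine Finset.sum_congr rfl fun i _ => ?_
  rw [map_mul, map_mul, map_natCast, red_T, map_pow, red_dl]

theorem rrZ_bd {M : ℕ} {B : List (Option Bool × ℕ)} (hB : ∀ x ∈ B, x.2 + 1 < M) (n : ℕ) :
    Bd (rrZ M B n) (2 ^ (M + 2 * B.length)) := by
  have h1 := Bd.sum (univ : Finset (Sm B))
    (fun i => (mb (esn M (gen i)) n : ℤ[T;T⁻¹]) * (T (wgt i) * dl ^ inn M (gen i)))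
    (fun i => mb (esn M (gen i)) n * 2 ^ inn M (gen i))
    (fun i _ => ((bd_dl_pow (inn M (gen i))).T_mul (wgt i)).nat_mul _)
  refine Bd.mono h1 ?_
  have h2 : ∀ i ∈ (univ : Finset (Sm B)), mb (esn M (gen i)) n * 2 ^ inn M (gen i) ≤
      2 ^ (M + B.length) := by
    intro i _
    calc mb (esn M (gen i)) n * 2 ^ inn M (gen i) ≤ 2 ^ (esn M (gen i)) * 2 ^ inn M (gen i) :=
          Nat.mul_le_mul_right _ (mb_le _ _)
      _ = 2 ^ (esn M (gen i) + inn M (gen i)) := by rw [pow_add]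
      _ ≤ 2 ^ (M + B.length) := by
          apply Nat.pow_le_pow_right (by norm_num)
          have h3 := nlp_le (gen i) (gen_mem hB i)
          have h4 : (gen i).length ≤ B.length := (trm_len B).2 _ (List.getElem_mem _)
          omega
  calc ∑ i : Sm B, mb (esn M (gen i)) n * 2 ^ inn M (gen i) ≤ ∑ i : Sm B, 2 ^ (M + B.length) :=
        Finset.sum_le_sum h2
    _ = (trm B).length * 2 ^ (M + B.length) := by
        rw [Finset.sum_const, Finset.card_univ, Fintype.card_fin, smul_eq_mul]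
    _ ≤ 2 ^ B.length * 2 ^ (M + B.length) := Nat.mul_le_mul_right _ (trm_len B).1
    _ = 2 ^ (M + 2 * B.length) := by rw [← pow_add]; congr 1; ring

/-- small coefficients which vanish modulo `p` -/
theorem eq_zero_of_red {p : ℕ} {f : ℤ[T;T⁻¹]} {c : ℕ} (h : Bd f c) (hp : c < p) (h0 : red p f = 0) :
    f = 0 := by
  apply LaurentPolynomial.ext
  intro n
  have h1 : (red p f).coeff n = ((f.coeff n : ℤ) : ZMod p) := by
    unfold red
    rw [AddMonoidAlgebra.coeff_mapRingHom]
    rfl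
  rw [h0] at h1
  have h2 : ((f.coeff n : ℤ) : ZMod p) = 0 := by rw [← h1]; simp
  rw [ZMod.intCast_zmod_eq_zero_iff_dvd] at h2
  have h3 := Int.eq_zero_of_abs_lt_dvd h2 (lt_of_le_of_lt (h n) (by exact_mod_cast hp))
  rw [h3]
  simp

/-- a Laurent polynomial which vanishes modulo all primes -/
theorem eq_zero_of_all {f : ℤ[T;T⁻¹]} (h : ∀ p : ℕ, p.Prime → red p f = 0) : f = 0 := by
  obtain ⟨c, hc⟩ : ∃ c : ℕ, Bd f c := by
    refine ⟨∑ n ∈ f.coeff.support, (f.coeff n).natAbs, fun n => ?_⟩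
    by_cases hn : n ∈ f.coeff.support
    · have h1 := Finset.single_le_sum (f := fun n => (f.coeff n).natAbs) (fun i _ => Nat.zero_le _) hn
      have h2 : (f.coeff n).natAbs ≤ ∑ n ∈ f.coeff.support, (f.coeff n).natAbs := h1
      rw [Int.abs_eq_natAbs]
      exact_mod_cast h2
    · rw [Finsupp.notMem_support_iff.1 hn, abs_zero]
      positivity
  obtain ⟨p, hp1, hp2⟩ := Nat.exists_infinite_primes (c + 1)
  exact eq_zero_of_red hc (by omega) (h p hp2)

end bd

end Pool.Agent.TH561.AD
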