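import Pool.Agent.TH561.AD.Sm
import Pool.Agent.TH561.AD.Bound

/-!
# The circles of smoothed words and traces
-/

set_option autoImplicit false

namespace Pool.Agent.TH561.AD

open Pool.Agent.H891R2.Jones Pool.Agent.TH561 Pool.Agent.TH561.PK Pool.Agent.TH561.FP Finset

section quot

/-- adding one pair to a relation decreases the number of classes by at most one -/
theorem card_add_pair {P : Type} [Finite P] (r : P → P → Prop) (x y : P) :
    Nat.card (Quot r) ≤ Nat.card (Quot (fun p q => r p q ∨ (p = x ∧ q = y))) + 1 := by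
  classical
  set r' : P → P → Prop := fun p q => r p q ∨ (p = x ∧ q = y) with hr'
  let π : Quot r → Quot r' := Quot.map id (fun p q h => Or.inl h)
  let G : Quot r → Quot r := fun q => if q = Quot.mk r y then Quot.mk r x else q
  have hG : ∀ p q, r' p q → G (Quot.mk r p) = G (Quot.mk r q) := by
    rintro p q (h | ⟨rfl, rfl⟩)
    · rw [Quot.sound h]
    · show (if Quot.mk r p = Quot.mk r q then Quot.mk r p else Quot.mk r p) =
        (if Quot.mk r q = Quot.mk r q then Quot.mk r p else Quot.mk r q)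
      rw [if_pos rfl, ite_self]
  let G' : Quot r' → Quot r := Quot.lift (fun p => G (Quot.mk r p)) hG
  have hGG : ∀ q, G' (π q) = G q := by
    intro q
    induction q using Quot.ind
    rfl
  let φ : Quot r → Option (Quot r') := fun q => if q = Quot.mk r y then none else some (π q)
  have hφ : Function.Injective φ := by
    intro q1 q2 h
    simp only [φ] at h
    by_cases h1 : q1 = Quot.mk r y <;> by_cases h2 : q2 = Quot.mk r y
    · rw [h1, h2]
    · rw [if_pos h1, if_neg h2] at h
      exact absurd h (by simp)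
    · rw [if_neg h1, if_pos h2] at h
      exact absurd h (by simp)
    · rw [if_neg h1, if_neg h2, Option.some.injEq] at h
      have h3 := congrArg G' h
      rw [hGG, hGG] at h3
      simp only [G] at h3
      rwa [if_neg h1, if_neg h2] at h3
  have h1 := Nat.card_le_card_of_injective φ hφ
  rwa [Finite.card_option] at h1

/-- a stronger relation has at most as many classes -/
theorem card_mono {P : Type} [Finite P] (r r' : P → P → Prop)
    (h : ∀ p q, r p q → Quot.mk r' p = Quot.mk r' q) : Nat.card (Quot r') ≤ Nat.card (Quot r) := by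
  let f : Quot r → Quot r' := Quot.lift (Quot.mk r') h
  apply Nat.card_le_card_of_surjective f
  intro q
  induction q using Quot.ind with
  | mk p => exact ⟨Quot.mk r p, rfl⟩

/-- changing one smoothing -/
theorem card_flip {P : Type} [Finite P] (r0 : P → P → Prop) (a b c d : P) :
    Nat.card (Quot (fun p q => r0 p q ∨ ((p = a ∧ q = d) ∨ (p = b ∧ q = c)))) ≤
      Nat.card (Quot (fun p q => r0 p q ∨ ((p = a ∧ q = b) ∨ (p = d ∧ q = c)))) + 1 := by
  refine (card_add_pair _ a b).trans ?_
  apply Nat.add_le_add_right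
  apply card_mono
  set r' : P → P → Prop := fun p q => (fun p q => r0 p q ∨ ((p = a ∧ q = d) ∨ (p = b ∧ q = c))) p q ∨
    (p = a ∧ q = b) with hr'
  have h1 : Quot.mk r' a = Quot.mk r' d := Quot.sound (Or.inl (Or.inr (Or.inl ⟨rfl, rfl⟩)))
  have h2 : Quot.mk r' b = Quot.mk r' c := Quot.sound (Or.inl (Or.inr (Or.inr ⟨rfl, rfl⟩)))
  have h3 : Quot.mk r' a = Quot.mk r' b := Quot.sound (Or.inr ⟨rfl, rfl⟩)
  rintro p q (h | ⟨rfl, rfl⟩ | ⟨rfl, rfl⟩)
  · exact Quot.sound (Or.inl (Or.inl h))
  · exact h3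
  · rw [← h1, h3, h2]

end quot

section circ

variable {M L : ℕ}

/-- the word of a smoothed level -/
def hk1 (o : Option (Fin (M - 1))) : List ℕ :=
  match o with
  | none => []
  | some i => [(i : ℕ)]

/-- the word of the hooks -/
def hk (u : Fin L → Option (Fin (M - 1))) : List ℕ := ((List.ofFn u).map hk1).flatten

theorem hk1_mem (o : Option (Fin (M - 1))) : ∀ i ∈ hk1 o, i + 1 < M := by
  rcases o with _ | i
  · intro j hj; simp [hk1] at hj
  · intro j hj
    simp only [hk1, List.mem_singleton] at hj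
    have := i.2
    omega

theorem hk_mem (u : Fin L → Option (Fin (M - 1))) : ∀ i ∈ hk u, i + 1 < M := by
  intro i hi
  unfold hk at hi
  rw [List.mem_flatten] at hi
  obtain ⟨l, hl, hi⟩ := hi
  rw [List.mem_map] at hl
  obtain ⟨o, _, rfl⟩ := hl
  exact hk1_mem o i hi

/-- the condition for the colours of two levels -/
def Cnd {N : ℕ} (o : Option (Fin (M - 1))) (x y : Fin M → Fin N) : Prop :=
  match o with
  | none => x = y
  | some i => x ⟨i, by have := i.2; omega⟩ = x ⟨i + 1, by have := i.2; omega⟩ ∧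
      y ⟨i, by have := i.2; omega⟩ = y ⟨i + 1, by have := i.2; omega⟩ ∧
      ∀ j : Fin M, j ≠ ⟨i, by have := i.2; omega⟩ → j ≠ ⟨i + 1, by have := i.2; omega⟩ → x j = y j

theorem entry_eq {N : ℕ} (o : Option (Fin (M - 1))) (x y : Fin M → Fin N) :
    WP (KK M N) (hk1 o) x y = ind (Cnd o x y) := by
  rcases o with _ | i
  · simp only [hk1, WP_nil, Cnd]
    rw [Matrix.one_apply]
    by_cases h : x = y
    · rw [if_pos h, ind_pos h]
    · rw [if_neg h, ind_neg h]
  · simp only [hk1]
    rw [WP_cons, WP_nil, mul_one, KK_apply i (by have := i.2; omega)]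
    rfl

theorem cnd_iff {N : ℕ} (u : Fin L → Option (Fin (M - 1))) (col : Fin L × Fin M → Fin N) :
    (∀ t ∈ (univ : Finset (Fin L)), Cnd (u t) (fun j => col (t, j)) (fun j => col (finRotate L t, j))) ↔
      ∀ x y, Joins u x y → col x = col y := by
  constructor
  · rintro h x y ⟨t, ht⟩
    have h1 := h t (Finset.mem_univ t)
    revert ht h1
    generalize u t = o
    rcases o with _ | i
    · rintro ⟨j, rfl, rfl⟩ h1
      exact congrFun h1 j
    · rintro (⟨j, hj1, hj2, rfl, rfl⟩ | ⟨j, k, hj, hk, (⟨rfl, rfl⟩ | ⟨rfl, rfl⟩)⟩) ⟨h1, h2, h3⟩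
      · exact h3 j (fun h => hj1 (by rw [h])) (fun h => hj2 (by rw [h]))
      · have e1 : j = ⟨i, by have := i.2; omega⟩ := Fin.ext hj
        have e2 : k = ⟨i + 1, by have := i.2; omega⟩ := Fin.ext hk
        exact (congrArg (fun j => col (t, j)) e1).trans
          (h1.trans (congrArg (fun j => col (t, j)) e2).symm)
      · have e1 : j = ⟨i, by have := i.2; omega⟩ := Fin.ext hj
        have e2 : k = ⟨i + 1, by have := i.2; omega⟩ := Fin.ext hk
        exact (congrArg (fun j => col (finRotate L t, j)) e1).trans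
          (h2.trans (congrArg (fun j => col (finRotate L t, j)) e2).symm)
  · intro h t _
    have h1 : ∀ x y, (match u t with
      | none => ∃ j, x = (t, j) ∧ y = (finRotate L t, j)
      | some i => (∃ j : Fin M, (j : ℕ) ≠ i ∧ (j : ℕ) ≠ i + 1 ∧ x = (t, j) ∧ y = (finRotate L t, j)) ∨
        ∃ j k : Fin M, (j : ℕ) = i ∧ (k : ℕ) = i + 1 ∧
          ((x = (t, j) ∧ y = (t, k)) ∨ (x = (finRotate L t, j) ∧ y = (finRotate L t, k)))) →
        col x = col y := fun x y hxy => h x y ⟨t, hxy⟩
    revert h1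
    generalize u t = o
    rcases o with _ | i
    · intro h1
      funext j
      exact h1 _ _ ⟨j, rfl, rfl⟩
    · intro h1
      refine ⟨h1 _ _ (Or.inr ⟨_, _, rfl, rfl, Or.inl ⟨rfl, rfl⟩⟩),
        h1 _ _ (Or.inr ⟨_, _, rfl, rfl, Or.inr ⟨rfl, rfl⟩⟩), fun j hj1 hj2 => ?_⟩
      exact h1 _ _ (Or.inl ⟨j, fun h => hj1 (Fin.ext h), fun h => hj2 (Fin.ext h), rfl, rfl⟩)

theorem trace_circ (hL : 0 < L) (N : ℕ) (u : Fin L → Option (Fin (M - 1))) :
    Matrix.trace (WP (KK M N) (hk u)) = (N : ℂ) ^ circles u := by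
  classical
  have h1 : WP (KK M N) (hk u) = (List.ofFn (fun t => WP (KK M N) (hk1 (u t)))).prod := by
    unfold hk
    rw [WP_flatten, List.map_map, List.map_ofFn]
    rfl
  have h2 := trace_prod L hL (fun t => WP (KK M N) (hk1 (u t))) (fun _ => 1)
  rw [Matrix.diagonal_one, one_mul] at h2
  rw [h1, h2]
  have h3 : ∀ f : Fin L → (Fin M → Fin N), (1 : ℂ) * ∏ t, WP (KK M N) (hk1 (u t)) (f t) (f (finRotate L t)) =
      ind (∀ x y, Joins u x y → f x.1 x.2 = f y.1 y.2) := by
    intro f
    rw [one_mul]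
    simp only [entry_eq]
    rw [prod_ind]
    exact ind_congr (cnd_iff u (fun x => f x.1 x.2))
  rw [Finset.sum_congr rfl (fun f _ => h3 f)]
  unfold circles
  have e : Nat.card {col : Fin L × Fin M → Fin N // ∀ p q, Joins u p q → col p = col q} =
      Nat.card {f : Fin L → (Fin M → Fin N) // ∀ x y, Joins u x y → f x.1 x.2 = f y.1 y.2} :=
    Nat.card_congr ((Equiv.curry (Fin L) (Fin M) (Fin N)).subtypeEquiv (fun col => Iff.rfl))
  rw [← Nat.cast_pow, ← card_colourings, e, Nat.card_eq_fintype_card, Fintype.card_subtype]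
  unfold ind
  rw [Finset.card_eq_sum_ones, Nat.cast_sum, Finset.sum_filter]
  refine Finset.sum_congr rfl fun x _ => ?_
  by_cases hx : ∀ (p q : Fin L × Fin M), Joins u p q → x p.1 p.2 = x q.1 q.2
  · rw [if_pos hx, if_pos hx]; simp
  · rw [if_neg hx, if_neg hx]

/-- the number of circles is the number of closed curves of the word of hooks -/
theorem circles_eq (hL : 0 < L) (u : Fin L → Option (Fin (M - 1))) : circles u = nlp M (hk u) := by
  have h1 := trace_circ hL 2 u
  rw [trace_nlp (hk u) (hk_mem u) (by norm_num)] at h1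
  have h2 : (2 : ℕ) ^ nlp M (hk u) = 2 ^ circles u := by exact_mod_cast h1
  exact (Nat.pow_right_injective le_rfl h2).symm

/-- changing one smoothing changes the number of circles by at most one -/
theorem circles_flip {n : ℕ} (v : Fin n → Option (Fin (M - 1))) (i : Fin (M - 1)) :
    circles (Fin.cons none v : Fin (n+1) → _) ≤ circles (Fin.cons (some i) v : Fin (n+1) → _) + 1 ∧
    circles (Fin.cons (some i) v : Fin (n+1) → _) ≤ circles (Fin.cons none v : Fin (n+1) → _) + 1 := by
  have hi := i.2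
  -- the common part
  let r0 : Fin (n+1) × Fin M → Fin (n+1) × Fin M → Prop := fun x y =>
    (∃ t : Fin n, (match v t with
      | none => ∃ j, x = (t.succ, j) ∧ y = (finRotate (n+1) t.succ, j)
      | some i => (∃ j : Fin M, (j : ℕ) ≠ i ∧ (j : ℕ) ≠ i + 1 ∧ x = (t.succ, j) ∧
          y = (finRotate (n+1) t.succ, j)) ∨
        ∃ j k : Fin M, (j : ℕ) = i ∧ (k : ℕ) = i + 1 ∧
          ((x = (t.succ, j) ∧ y = (t.succ, k)) ∨
            (x = (finRotate (n+1) t.succ, j) ∧ y = (finRotate (n+1) t.succ, k))))) ∨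
    ∃ j : Fin M, (j : ℕ) ≠ i ∧ (j : ℕ) ≠ i + 1 ∧ x = (0, j) ∧ y = (finRotate (n+1) 0, j)
  let a : Fin (n+1) × Fin M := (0, ⟨i, by omega⟩)
  let b : Fin (n+1) × Fin M := (0, ⟨i + 1, by omega⟩)
  let c : Fin (n+1) × Fin M := (finRotate (n+1) 0, ⟨i + 1, by omega⟩)
  let d : Fin (n+1) × Fin M := (finRotate (n+1) 0, ⟨i, by omega⟩)
  have hn : Joins (Fin.cons none v : Fin (n+1) → Option (Fin (M - 1))) =
      fun p q => r0 p q ∨ ((p = a ∧ q = d) ∨ (p = b ∧ q = c)) := by
    funext x y
    apply propext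
    constructor
    · rintro ⟨t, ht⟩
      induction t using Fin.cases with
      | zero =>
        rw [Fin.cons_zero] at ht
        obtain ⟨j, hx, hy⟩ := ht
        by_cases h1 : (j : ℕ) = i
        · right; left
          have e : j = ⟨i, by omega⟩ := Fin.ext h1
          rw [e] at hx hy
          exact ⟨hx, hy⟩
        · by_cases h2 : (j : ℕ) = i + 1
          · right; right
            have e : j = ⟨i + 1, by omega⟩ := Fin.ext h2
            rw [e] at hx hy
            exact ⟨hx, hy⟩
          · left; right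
            exact ⟨j, h1, h2, hx, hy⟩
      | succ t =>
        rw [Fin.cons_succ] at ht
        left; left
        exact ⟨t, ht⟩
    · rintro ((⟨t, ht⟩ | ⟨j, h1, h2, hx, hy⟩) | (⟨hx, hy⟩ | ⟨hx, hy⟩))
      · exact ⟨t.succ, by rw [Fin.cons_succ]; exact ht⟩
      · exact ⟨0, by rw [Fin.cons_zero]; exact ⟨j, hx, hy⟩⟩
      · exact ⟨0, by rw [Fin.cons_zero]; exact ⟨_, hx, hy⟩⟩
      · exact ⟨0, by rw [Fin.cons_zero]; exact ⟨_, hx, hy⟩⟩
  have hs : Joins (Fin.cons (some i) v : Fin (n+1) → Option (Fin (M - 1))) =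
      fun p q => r0 p q ∨ ((p = a ∧ q = b) ∨ (p = d ∧ q = c)) := by
    funext x y
    apply propext
    constructor
    · rintro ⟨t, ht⟩
      induction t using Fin.cases with
      | zero =>
        rw [Fin.cons_zero] at ht
        rcases ht with ⟨j, h1, h2, hx, hy⟩ | ⟨j, k, hj, hk, (⟨hx, hy⟩ | ⟨hx, hy⟩)⟩
        · left; right
          exact ⟨j, h1, h2, hx, hy⟩
        · right; left
          have e1 : j = ⟨i, by omega⟩ := Fin.ext hj
          have e2 : k = ⟨i + 1, by omega⟩ := Fin.ext hk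
          rw [e1] at hx
          rw [e2] at hy
          exact ⟨hx, hy⟩
        · right; right
          have e1 : j = ⟨i, by omega⟩ := Fin.ext hj
          have e2 : k = ⟨i + 1, by omega⟩ := Fin.ext hk
          rw [e1] at hx
          rw [e2] at hy
          exact ⟨hx, hy⟩
      | succ t =>
        rw [Fin.cons_succ] at ht
        left; left
        exact ⟨t, ht⟩
    · rintro ((⟨t, ht⟩ | ⟨j, h1, h2, hx, hy⟩) | (⟨hx, hy⟩ | ⟨hx, hy⟩))
      · exact ⟨t.succ, by rw [Fin.cons_succ]; exact ht⟩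
      · exact ⟨0, by rw [Fin.cons_zero]; exact Or.inl ⟨j, h1, h2, hx, hy⟩⟩
      · exact ⟨0, by rw [Fin.cons_zero]; exact Or.inr ⟨_, _, rfl, rfl, Or.inl ⟨hx, hy⟩⟩⟩
      · exact ⟨0, by rw [Fin.cons_zero]; exact Or.inr ⟨_, _, rfl, rfl, Or.inr ⟨hx, hy⟩⟩⟩
  unfold circles
  rw [hn, hs]
  refine ⟨card_flip r0 a b c d, ?_⟩
  have := card_flip r0 a d c b
  exact this

end circ

end Pool.Agent.TH561.AD
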