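import Pool.Agent.TH561.AD.OrdA

/-!
# Sums of `q`-th powers times monomials with exponents in different classes modulo `q`
-/

set_option autoImplicit false

namespace Pool.Agent.TH561.AD

open Pool.Agent.H891R2.Jones Pool.Agent.TH561 Pool.Agent.TH561.PK Pool.Agent.TH561.FP Finset
  LaurentPolynomial

variable (p : ℕ) [hp : Fact p.Prime]

/-- constants times monomials with exponents in different classes -/
theorem cls_const (k : ℕ) {ι : Type*} (S : Finset ι) (c : ι → ZMod p) (x : ι → ℤ)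
    (hx : ∀ i ∈ S, ∀ j ∈ S, ((p ^ k : ℕ) : ℤ) ∣ x i - x j → i = j)
    (h : (T 1 - 1 : (ZMod p)[T;T⁻¹]) ^ (p ^ k) ∣ ∑ i ∈ S, C (c i) * T (x i)) : ∀ i ∈ S, c i = 0 := by
  intro j hj
  obtain ⟨g, hg⟩ := h
  have h1 : toG p (p ^ k) (∑ i ∈ S, C (c i) * T (x i)) = 0 := by
    rw [hg, map_mul, toG_pow, zero_mul]
  rw [map_sum] at h1
  simp only [toG_CT] at h1
  have h2 := congrArg (fun f : AddMonoidAlgebra (ZMod p) (ZMod (p ^ k)) => f.coeff (x j : ZMod (p ^ k))) h1
  have h3 : (∑ i ∈ S, (AddMonoidAlgebra.single (x i : ZMod (p ^ k)) (c i) :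
      AddMonoidAlgebra (ZMod p) (ZMod (p ^ k)))).coeff (x j : ZMod (p ^ k)) =
      ∑ i ∈ S, (Finsupp.single (x i : ZMod (p ^ k)) (c i)) (x j : ZMod (p ^ k)) := by
    rw [AddMonoidAlgebra.coeff_sum, Finsupp.finsetSum_apply]
    rfl
  rw [h3, Finset.sum_eq_single_of_mem j hj (by
    intro i hi hij
    rw [Finsupp.single_apply, if_neg]
    intro h4
    rw [zcast_eq] at h4
    exact hij (hx i hi j hj h4)), Finsupp.single_eq_same] at h2
  rw [h2]
  simp

/-- the order of vanishing -/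
theorem cls_ord (k : ℕ) {ι : Type*} (S : Finset ι) (u : ι → (ZMod p)[T;T⁻¹]) (x : ι → ℤ)
    (hx : ∀ i ∈ S, ∀ j ∈ S, ((p ^ k : ℕ) : ℤ) ∣ x i - x j → i = j) (m : ℕ)
    (h : (T 1 - 1 : (ZMod p)[T;T⁻¹]) ^ (p ^ k * m) ∣ ∑ i ∈ S, (u i) ^ (p ^ k) * T (x i)) :
    ∀ i ∈ S, (T 1 - 1 : (ZMod p)[T;T⁻¹]) ^ m ∣ u i := by
  classical
  have key : ∀ j, j ≤ m → ∀ n ∈ S, (T 1 - 1 : (ZMod p)[T;T⁻¹]) ^ j ∣ u n := by
    intro j
    induction j with
    | zero => intro _ n _; simp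
    | succ j ih =>
      intro hj
      have ih := ih (by omega)
      have h1 : ∀ n, ∃ v, n ∈ S → u n = (T 1 - 1) ^ j * v := by
        intro n
        by_cases hn' : n ∈ S
        · obtain ⟨v, hv⟩ := ih n hn'
          exact ⟨v, fun _ => hv⟩
        · exact ⟨0, fun h2 => absurd h2 hn'⟩
      choose v hv using h1
      have h2 : ∑ n ∈ S, (u n) ^ (p ^ k) * T (x n) =
          (T 1 - 1) ^ (p ^ k * j) * ∑ n ∈ S, (v n) ^ (p ^ k) * T (x n) := by
        rw [Finset.mul_sum]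
        refine Finset.sum_congr rfl fun n hn' => ?_
        rw [hv n hn', mul_pow, ← pow_mul, mul_comm j]
        ring
      rw [h2] at h
      have h3 : (T 1 - 1 : (ZMod p)[T;T⁻¹]) ^ (p ^ k) ∣ ∑ n ∈ S, (v n) ^ (p ^ k) * T (x n) := by
        have h4 : (T 1 - 1 : (ZMod p)[T;T⁻¹]) ^ (p ^ k * j) * (T 1 - 1) ^ (p ^ k) ∣
            (T 1 - 1) ^ (p ^ k * j) * ∑ n ∈ S, (v n) ^ (p ^ k) * T (x n) := by
          refine dvd_trans ?_ h
          rw [← pow_add]
          apply pow_dvd_pow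
          have : p ^ k * (j + 1) ≤ p ^ k * m := Nat.mul_le_mul_left _ hj
          rw [mul_add, mul_one] at this
          exact this
        exact (mul_dvd_mul_iff_left (pow_ne_zero _ (X_ne p))).1 h4
      have h5 : (T 1 - 1 : (ZMod p)[T;T⁻¹]) ^ (p ^ k) ∣
          ∑ n ∈ S, C (eps p (v n)) * T (x n) := by
        have h6 : (T 1 - 1 : (ZMod p)[T;T⁻¹]) ^ (p ^ k) ∣
            ∑ n ∈ S, (v n - C (eps p (v n))) ^ (p ^ k) * T (x n) := by
          refine Finset.dvd_sum fun n _ => ?_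
          refine Dvd.dvd.mul_right ?_ _
          exact pow_dvd_pow_of_dvd (dvd_sub_eps p (v n)) _
        have h7 := dvd_sub h3 h6
        rw [← Finset.sum_sub_distrib] at h7
        convert h7 using 1
        refine Finset.sum_congr rfl fun n _ => ?_
        rw [sub_pow_char_pow, ← map_pow, ZMod.pow_card_pow]
        ring
      have h6 := cls_const p k S (fun n => eps p (v n)) x hx h5
      intro n hn'
      rw [hv n hn', pow_succ]
      apply mul_dvd_mul_left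
      rw [dvd_iff_eps]
      exact h6 n hn'
  exact key m le_rfl

/-- a Laurent polynomial which is divisible by all powers of `T - 1` -/
theorem zero_of_pow {g : (ZMod p)[T;T⁻¹]} (h : ∀ m : ℕ, (T 1 - 1 : (ZMod p)[T;T⁻¹]) ^ m ∣ g) : g = 0 := by
  by_contra hg
  obtain ⟨t, ht⟩ := exists_top g hg
  obtain ⟨b, hb⟩ := exists_bot g hg
  apply hg
  apply zero_of_span p t b (t - b).toNat (fun n hn' => PK.Top.le ht hn') (fun n hn' => hb.le hn')
    (Int.self_le_toNat _) (h _)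

/-- sums which are zero -/
theorem cls_zero (k : ℕ) {ι : Type*} (S : Finset ι) (u : ι → (ZMod p)[T;T⁻¹]) (x : ι → ℤ)
    (hx : ∀ i ∈ S, ∀ j ∈ S, ((p ^ k : ℕ) : ℤ) ∣ x i - x j → i = j)
    (h : ∑ i ∈ S, (u i) ^ (p ^ k) * T (x i) = 0) : ∀ i ∈ S, u i = 0 := by
  intro i hi
  apply zero_of_pow p
  intro m
  exact cls_ord p k S u x hx m (by rw [h]; exact dvd_zero _) i hi

end Pool.Agent.TH561.AD
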