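import Mathlib

/-!
# The extreme exponents
-/

set_option autoImplicit false

namespace Pool.Agent.TH561.AD

open Finset

/-- the exponents which belong to the Chebyshev polynomial with index `n` -/
def Yx (a c : ℤ) (n : ℕ) (e : ℤ) : ℤ := a * ((n + 1) ^ 2 - c) + e * (2 * (n + 1))

theorem Yx_neg (a c : ℤ) (n : ℕ) (e : ℤ) : Yx (-a) c n (-e) = -Yx a c n e := by
  unfold Yx
  ring

theorem Yx_lt {a : ℤ} (ha : 2 ≤ a) (c : ℤ) {L N : ℕ} (h : L < N) (hpar : L % 2 = N % 2) {e f : ℤ}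
    (he : e = 1 ∨ e = -1) (hf : f = 1 ∨ f = -1) : Yx a c L e < Yx a c N f := by
  have h1 : (L : ℤ) + 2 ≤ N := by omega
  have h0 : (0 : ℤ) ≤ L := by positivity
  have h2 : (0 : ℤ) < (N : ℤ) + L + 2 := by linarith
  have h3 : 2 * ((N : ℤ) + L + 2) ≤ ((N : ℤ) + 1) ^ 2 - (L + 1) ^ 2 := by nlinarith
  have h4 : 2 * (2 * ((N : ℤ) + L + 2)) ≤ a * (((N : ℤ) + 1) ^ 2 - (L + 1) ^ 2) :=
    mul_le_mul ha h3 (by linarith) (by linarith)
  unfold Yx
  rcases he with rfl | rfl <;> rcases hf with rfl | rfl <;> nlinarith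

/-- the two largest and the two smallest exponents -/
structure Ends (a c : ℤ) (P : Finset ℕ) (t b : ℕ) : Prop where
  ht : t ∈ P
  hb : b ∈ P
  h1 : ∀ L ∈ P, ∀ e : ℤ, (e = 1 ∨ e = -1) → Yx a c L e ≤ Yx a c t 1
  h2 : ∀ L ∈ P, ∀ e : ℤ, (e = 1 ∨ e = -1) → Yx a c L e ≠ Yx a c t 1 → Yx a c L e ≤ Yx a c t (-1)
  h3 : ∀ L ∈ P, ∀ e : ℤ, (e = 1 ∨ e = -1) → Yx a c b (-1) ≤ Yx a c L e
  h4 : ∀ L ∈ P, ∀ e : ℤ, (e = 1 ∨ e = -1) → Yx a c L e ≠ Yx a c b (-1) → Yx a c b 1 ≤ Yx a c L e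
  h5 : t = b → ∀ L ∈ P, L = t

theorem Yx_diff (a c : ℤ) (n : ℕ) : Yx a c n 1 - Yx a c n (-1) = 4 * (n + 1) := by
  unfold Yx
  ring

theorem Yx_pm (a c : ℤ) (n : ℕ) : Yx a c n (-1) < Yx a c n 1 := by
  have := Yx_diff a c n
  have h0 : (0 : ℤ) ≤ n := by positivity
  linarith

theorem ends_pos {a : ℤ} (ha : 2 ≤ a) (c : ℤ) (P : Finset ℕ) (h : P.Nonempty)
    (hpar : ∀ x ∈ P, ∀ y ∈ P, x % 2 = y % 2) : Ends a c P (P.max' h) (P.min' h) := by
  have ht := P.max'_mem h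
  have hb := P.min'_mem h
  have up : ∀ L ∈ P, ∀ e : ℤ, (e = 1 ∨ e = -1) → L ≠ P.max' h → ∀ f : ℤ, (f = 1 ∨ f = -1) →
      Yx a c L e < Yx a c (P.max' h) f := by
    intro L hL e he hne f hf
    exact Yx_lt ha c (lt_of_le_of_ne (P.le_max' L hL) hne) (hpar _ hL _ ht) he hf
  have dn : ∀ L ∈ P, ∀ e : ℤ, (e = 1 ∨ e = -1) → L ≠ P.min' h → ∀ f : ℤ, (f = 1 ∨ f = -1) →
      Yx a c (P.min' h) f < Yx a c L e := by
    intro L hL e he hne f hf
    exact Yx_lt ha c (lt_of_le_of_ne (P.min'_le L hL) (Ne.symm hne)) (hpar _ hb _ hL) hf he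
  refine ⟨ht, hb, ?_, ?_, ?_, ?_, ?_⟩
  · intro L hL e he
    by_cases hne : L = P.max' h
    · rw [hne]
      rcases he with rfl | rfl
      · exact le_rfl
      · exact (Yx_pm _ _ _).le
    · exact (up L hL e he hne 1 (Or.inl rfl)).le
  · intro L hL e he hne'
    by_cases hne : L = P.max' h
    · rw [hne] at hne' ⊢
      rcases he with rfl | rfl
      · exact absurd rfl hne'
      · exact le_rfl
    · exact (up L hL e he hne (-1) (Or.inr rfl)).le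
  · intro L hL e he
    by_cases hne : L = P.min' h
    · rw [hne]
      rcases he with rfl | rfl
      · exact (Yx_pm _ _ _).le
      · exact le_rfl
    · exact (dn L hL e he hne (-1) (Or.inr rfl)).le
  · intro L hL e he hne'
    by_cases hne : L = P.min' h
    · rw [hne] at hne' ⊢
      rcases he with rfl | rfl
      · exact le_rfl
      · exact absurd rfl hne'
    · exact (dn L hL e he hne 1 (Or.inl rfl)).le
  · intro htb L hL
    have h1 := P.le_max' L hL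
    have h2 := P.min'_le L hL
    omega

theorem ends_neg {a : ℤ} (ha : a ≤ -2) (c : ℤ) (P : Finset ℕ) (h : P.Nonempty)
    (hpar : ∀ x ∈ P, ∀ y ∈ P, x % 2 = y % 2) : Ends a c P (P.min' h) (P.max' h) := by
  have h0 := ends_pos (a := -a) (by linarith) c P h hpar
  have hY : ∀ (n : ℕ) (e : ℤ), Yx a c n e = -Yx (-a) c n (-e) := by
    intro n e
    rw [Yx_neg, neg_neg]
  have hpm : ∀ e : ℤ, (e = 1 ∨ e = -1) → (-e = 1 ∨ -e = -1) := by
    rintro e (rfl | rfl) <;> simp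
  refine ⟨h0.hb, h0.ht, ?_, ?_, ?_, ?_, ?_⟩
  · intro L hL e he
    rw [hY, hY]
    exact neg_le_neg (h0.h3 L hL (-e) (hpm e he))
  · intro L hL e he hne
    rw [hY L e, hY _ 1] at hne
    rw [hY, hY, neg_neg]
    exact neg_le_neg (h0.h4 L hL (-e) (hpm e he) (fun h => hne (by rw [h])))
  · intro L hL e he
    rw [hY, hY, neg_neg]
    exact neg_le_neg (h0.h1 L hL (-e) (hpm e he))
  · intro L hL e he hne
    rw [hY L e, hY _ (-1), neg_neg] at hne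
    rw [hY, hY L e]
    exact neg_le_neg (h0.h2 L hL (-e) (hpm e he) (fun h => hne (by rw [h])))
  · intro htb L hL
    rw [h0.h5 htb.symm L hL, htb]

theorem exists_ends {a : ℤ} (ha : 2 ≤ a ∨ a ≤ -2) (c : ℤ) (P : Finset ℕ) (h : P.Nonempty)
    (hpar : ∀ x ∈ P, ∀ y ∈ P, x % 2 = y % 2) : ∃ t b, Ends a c P t b := by
  rcases ha with ha | ha
  · exact ⟨_, _, ends_pos ha c P h hpar⟩
  · exact ⟨_, _, ends_neg ha c P h hpar⟩

/-- the exponents of `P` are among those of `P'` -/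
def Sub (a c : ℤ) (P : Finset ℕ) (a' c' : ℤ) (P' : Finset ℕ) : Prop :=
  ∀ n ∈ P, ∀ e : ℤ, (e = 1 ∨ e = -1) → ∃ n' ∈ P', ∃ e' : ℤ, (e' = 1 ∨ e' = -1) ∧
    Yx a c n e = Yx a' c' n' e'

theorem compare {a c a' c' : ℤ} {P P' : Finset ℕ} {t b t' b' : ℕ} (h : Ends a c P t b)
    (h' : Ends a' c' P' t' b') (hS : Sub a c P a' c' P') (hS' : Sub a' c' P' a c P) :
    (t = t' ∧ a * ((t + 1) ^ 2 - c) = a' * ((t + 1) ^ 2 - c')) ∧
    (b = b' ∧ a * ((b + 1) ^ 2 - c) = a' * ((b + 1) ^ 2 - c')) := by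
  have e1 : Yx a c t 1 = Yx a' c' t' 1 := by
    obtain ⟨n, hn, e, he, h1⟩ := hS t h.ht 1 (Or.inl rfl)
    obtain ⟨m, hm, f, hf, h2⟩ := hS' t' h'.ht 1 (Or.inl rfl)
    apply le_antisymm
    · rw [h1]; exact h'.h1 n hn e he
    · rw [h2]; exact h.h1 m hm f hf
  have e2 : Yx a c t (-1) = Yx a' c' t' (-1) := by
    obtain ⟨n, hn, e, he, h1⟩ := hS t h.ht (-1) (Or.inr rfl)
    obtain ⟨m, hm, f, hf, h2⟩ := hS' t' h'.ht (-1) (Or.inr rfl)
    apply le_antisymm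
    · rw [h1]
      apply h'.h2 n hn e he
      rw [← h1, ← e1]
      exact (Yx_pm a c t).ne
    · rw [h2]
      apply h.h2 m hm f hf
      rw [← h2, e1]
      exact (Yx_pm a' c' t').ne
  have e3 : Yx a c b (-1) = Yx a' c' b' (-1) := by
    obtain ⟨n, hn, e, he, h1⟩ := hS b h.hb (-1) (Or.inr rfl)
    obtain ⟨m, hm, f, hf, h2⟩ := hS' b' h'.hb (-1) (Or.inr rfl)
    apply le_antisymm
    · rw [h2]; exact h.h3 m hm f hf
    · rw [h1]; exact h'.h3 n hn e he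
  have e4 : Yx a c b 1 = Yx a' c' b' 1 := by
    obtain ⟨n, hn, e, he, h1⟩ := hS b h.hb 1 (Or.inl rfl)
    obtain ⟨m, hm, f, hf, h2⟩ := hS' b' h'.hb 1 (Or.inl rfl)
    apply le_antisymm
    · rw [h2]
      apply h.h4 m hm f hf
      rw [← h2, e3]
      exact (Yx_pm a' c' b').ne'
    · rw [h1]
      apply h'.h4 n hn e he
      rw [← h1, ← e3]
      exact (Yx_pm a c b).ne'
  have d1 := Yx_diff a c t
  have d2 := Yx_diff a' c' t'
  have d3 := Yx_diff a c b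
  have d4 := Yx_diff a' c' b'
  have ht : t = t' := by omega
  have hb : b = b' := by omega
  subst ht hb
  unfold Yx at e1 e4
  exact ⟨⟨rfl, by linarith⟩, ⟨rfl, by linarith⟩⟩

theorem single_big {a c a' c' : ℤ} (haa : a ≠ a') (ha : 2 ≤ a ∨ a ≤ -2) (ha' : 2 ≤ a' ∨ a' ≤ -2)
    {P P' : Finset ℕ} (hP : P.Nonempty) (hP' : P'.Nonempty)
    (hpar : ∀ x ∈ P, ∀ y ∈ P, x % 2 = y % 2) (hpar' : ∀ x ∈ P', ∀ y ∈ P', x % 2 = y % 2)
    (hS : Sub a c P a' c' P') (hS' : Sub a' c' P' a c P) :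
    ∃ n, n ∈ P ∧ n ∈ P' ∧ (∀ L ∈ P, L = n) ∧ (∀ L ∈ P', L = n) := by
  obtain ⟨t, b, h⟩ := exists_ends ha c P hP hpar
  obtain ⟨t', b', h'⟩ := exists_ends ha' c' P' hP' hpar'
  obtain ⟨⟨h1, h2⟩, h3, h4⟩ := compare h h' hS hS'
  subst h1 h3
  have htb : t = b := by
    by_contra hne
    apply haa
    have h5 : (a - a') * (((t : ℤ) + 1) ^ 2 - (b + 1) ^ 2) = 0 := by linear_combination h2 - h4
    rcases mul_eq_zero.1 h5 with h6 | h6
    · linarith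
    · exfalso
      apply hne
      have h7 : ((t : ℤ) - b) * (t + b + 2) = 0 := by linear_combination h6
      rcases mul_eq_zero.1 h7 with h8 | h8
      · omega
      · omega
  exact ⟨t, h.ht, h'.ht, h.h5 htb, h'.h5 htb⟩

theorem single_zero {c a' c' : ℤ} (ha' : 2 ≤ a' ∨ a' ≤ -2)
    {P P' : Finset ℕ} (hP' : P'.Nonempty) 
    (hpar' : ∀ x ∈ P', ∀ y ∈ P', x % 2 = y % 2)
    (hP : P.Nonempty)
    (hS : Sub 0 c P a' c' P') (hS' : Sub a' c' P' 0 c P) :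
    ∃ n, n ∈ P ∧ n ∈ P' ∧ (∀ L ∈ P, L = n) ∧ (∀ L ∈ P', L = n) := by
  obtain ⟨t, b, h⟩ := exists_ends ha' c' P' hP' hpar'
  have hneg : ∀ n e, Yx 0 c n (-e) = -Yx 0 c n e := by
    intro n e
    unfold Yx
    ring
  have hpm : ∀ e : ℤ, (e = 1 ∨ e = -1) → (-e = 1 ∨ -e = -1) := by
    rintro e (rfl | rfl) <;> simp
  have sym : ∀ L ∈ P', ∀ e : ℤ, (e = 1 ∨ e = -1) → ∃ K ∈ P', ∃ f : ℤ, (f = 1 ∨ f = -1) ∧
      -Yx a' c' L e = Yx a' c' K f := by
    intro L hL e he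
    obtain ⟨m, hm, f, hf, h2⟩ := hS' L hL e he
    obtain ⟨K, hK, g, hg, h3⟩ := hS m hm (-f) (hpm f hf)
    exact ⟨K, hK, g, hg, by rw [h2, ← hneg, h3]⟩
  have e1 : Yx a' c' b (-1) = -Yx a' c' t 1 := by
    obtain ⟨K, hK, f, hf, h1⟩ := sym t h.ht 1 (Or.inl rfl)
    obtain ⟨K', hK', f', hf', h1'⟩ := sym b h.hb (-1) (Or.inr rfl)
    apply le_antisymm
    · rw [h1]; exact h.h3 K hK f hf
    · have := h.h1 K' hK' f' hf'
      rw [← h1'] at this
      linarith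
  have e2 : Yx a' c' b 1 = -Yx a' c' t (-1) := by
    obtain ⟨K, hK, f, hf, h1⟩ := sym t h.ht (-1) (Or.inr rfl)
    obtain ⟨K', hK', f', hf', h1'⟩ := sym b h.hb 1 (Or.inl rfl)
    have p1 := Yx_pm a' c' t
    have p2 := Yx_pm a' c' b
    apply le_antisymm
    · rw [h1]
      apply h.h4 K hK f hf
      rw [← h1, e1]
      intro h5
      linarith
    · have := h.h2 K' hK' f' hf' (by
        rw [← h1']
        intro h5
        rw [← neg_inj, neg_neg, ← e1] at h5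
        linarith)
      rw [← h1'] at this
      linarith
  have d1 := Yx_diff a' c' t
  have d2 := Yx_diff a' c' b
  have htb : t = b := by omega
  have hall := h.h5 htb
  subst htb
  have h0 : a' * (((t : ℤ) + 1) ^ 2 - c') = 0 := by
    unfold Yx at e1
    linarith
  have hPt : ∀ L ∈ P, L = t := by
    intro L hL
    obtain ⟨K, hK, f, hf, h3⟩ := hS L hL 1 (Or.inl rfl)
    rw [hall K hK] at h3
    unfold Yx at h3
    rw [h0] at h3
    rcases hf with rfl | rfl <;> omega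
  obtain ⟨n, hn⟩ := hP
  exact ⟨t, by rw [← hPt n hn]; exact hn, h.ht, hPt, hall⟩

/-- the combinatorial theorem -/
theorem single {a c a' c' : ℤ} (haa : a ≠ a') (ha1 : a ≠ 1) (ha2 : a ≠ -1) (ha1' : a' ≠ 1)
    (ha2' : a' ≠ -1)
    {P P' : Finset ℕ} (hP : P.Nonempty) (hP' : P'.Nonempty)
    (hpar : ∀ x ∈ P, ∀ y ∈ P, x % 2 = y % 2) (hpar' : ∀ x ∈ P', ∀ y ∈ P', x % 2 = y % 2)
    (hS : Sub a c P a' c' P') (hS' : Sub a' c' P' a c P) :
    ∃ n, n ∈ P ∧ n ∈ P' ∧ (∀ L ∈ P, L = n) ∧ (∀ L ∈ P', L = n) := by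
  rcases eq_or_ne a 0 with h0 | h0
  · subst h0
    exact single_zero (by omega) hP' hpar' hP hS hS'
  · rcases eq_or_ne a' 0 with h0' | h0'
    · subst h0'
      obtain ⟨n, h1, h2, h3, h4⟩ := single_zero (P := P') (P' := P) (by omega) hP hpar hP' hS' hS
      exact ⟨n, h2, h1, h4, h3⟩
    · exact single_big haa (by omega) (by omega) hP hP' hpar hpar' hS hS'

end Pool.Agent.TH561.AD
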