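import Pool.Agent.TH561.AD.Star

/-!
# Freely periodic knots whose Jones polynomial is one modulo `p`
-/

set_option autoImplicit false

namespace Pool.Agent.TH561.AD

open Pool.Agent.H891R2.Jones Pool.Agent.TH561 Pool.Agent.TH561.PK Pool.Agent.TH561.FP Finset
  LaurentPolynomial

section cheb

variable {F : Type*} [Field F]

theorem S_symm (R : Type*) [CommRing R] (l : ℤ) :
    Polynomial.Chebyshev.S R l - Polynomial.Chebyshev.S R (l - 2) =
      Polynomial.Chebyshev.S R (l.natAbs : ℤ) - Polynomial.Chebyshev.S R ((l.natAbs : ℤ) - 2) := by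
  rcases le_or_gt 0 l with h | h
  · have : (l.natAbs : ℤ) = l := by omega
    rw [this]
  · obtain ⟨n, hn⟩ : ∃ n : ℤ, l = -n := ⟨-l, by ring⟩
    have h1 : (l.natAbs : ℤ) = n := by omega
    rw [h1, hn]
    have h2 := Polynomial.Chebyshev.S_neg_sub_two R (n - 2)
    have h3 := Polynomial.Chebyshev.S_neg_sub_two R n
    have e1 : -(n - 2) - 2 = -n := by ring
    rw [e1] at h2
    rw [h2, h3]
    ring

/-- the polynomial of a curve which is a multiple of the variable -/
theorem lambda_one (l : ℤ) (κ e : F) (he : e ≠ 0)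
    (h : Polynomial.C κ * (Polynomial.Chebyshev.S F l - Polynomial.Chebyshev.S F (l - 2)) =
      Polynomial.C e * Polynomial.X) : l ^ 2 = 1 := by
  rw [S_symm] at h
  have hl : l ^ 2 = ((l.natAbs : ℕ) : ℤ) ^ 2 := (Int.natAbs_sq l).symm
  rw [hl]
  generalize l.natAbs = n at h
  rcases n with _ | _ | n
  · exfalso
    have h1 := congrArg (fun f => Polynomial.coeff f 1) h
    have e0 : (((0 : ℕ) : ℤ) - 2) = -2 := by norm_num
    simp only [e0] at h1
    have e1 : Polynomial.Chebyshev.S F (-2) = -1 := Polynomial.Chebyshev.S_neg_two F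
    rw [e1] at h1
    have e2 : Polynomial.Chebyshev.S F ((0 : ℕ) : ℤ) = 1 := Polynomial.Chebyshev.S_zero F
    rw [e2, Polynomial.coeff_C_mul, Polynomial.coeff_C_mul, Polynomial.coeff_X_one] at h1
    have e3 : (1 - -1 : Polynomial F) = Polynomial.C 2 := by
      rw [map_ofNat]; norm_num
    rw [e3, Polynomial.coeff_C] at h1
    simp at h1
    exact he h1.symm
  · norm_num
  · exfalso
    have hc : ∀ j : ℕ, (Polynomial.Chebyshev.S F (((n + 1 + 1 : ℕ) : ℤ) - 2)) =
        Polynomial.Chebyshev.S F (n : ℤ) := by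
      intro _
      congr 1
      push_cast
      ring
    rw [hc 0] at h
    have h1 := congrArg (fun f => Polynomial.coeff f (n + 2)) h
    simp only [Polynomial.coeff_C_mul, Polynomial.coeff_sub] at h1
    rw [Polynomial.coeff_X_of_ne_one (by omega)] at h1
    have h2 : (Polynomial.Chebyshev.S F ((n + 1 + 1 : ℕ) : ℤ)).coeff (n + 2) = 1 := (S_deg (n+1+1)).2
    have h3 : (Polynomial.Chebyshev.S F (n : ℤ)).coeff (n + 2) = 0 :=
      Polynomial.coeff_eq_zero_of_natDegree_lt (lt_of_le_of_lt (S_deg n).1 (by omega))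
    rw [h2, h3, sub_zero, mul_one, mul_zero] at h1
    rw [h1] at h
    have h4 := congrArg (fun f => Polynomial.coeff f 1) h
    simp only [map_zero, zero_mul, Polynomial.coeff_zero, Polynomial.coeff_C_mul,
      Polynomial.coeff_X_one, mul_one] at h4
    exact he h4.symm

end cheb

section unit

variable (p : ℕ) [hp : Fact p.Prime] {M l : ℕ}

theorem eps_rr (B : List (Option Bool × ℕ)) (n : ℕ) :
    eps p (rr p M B n) = ∑ i : Sm B, (mb (esn M (gen i)) n : ZMod p) * (-2) ^ inn M (gen i) := by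
  unfold rr
  rw [map_sum]
  refine Finset.sum_congr rfl fun i _ => ?_
  rw [map_mul, map_mul, map_natCast, eps_T, one_mul, map_pow]
  congr 2
  unfold dF
  rw [map_sub, map_neg, eps_T, eps_T]
  norm_num

theorem Rz_map {B : List (Option Bool × ℕ)} (hB : ∀ x ∈ B, x.2 + 1 < M) :
    (Rz M B).map (Int.castRingHom (ZMod p)) =
      ∑ n ∈ range (M + 1), Polynomial.C (eps p (rr p M B n)) *
        Polynomial.Chebyshev.S (ZMod p) (n : ℤ) := by
  unfold Rz
  rw [Polynomial.map_sum]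
  have h1 : ∀ i : Sm B, (Polynomial.monomial (esn M (gen i)) ((-2 : ℤ) ^ inn M (gen i))).map
      (Int.castRingHom (ZMod p)) = ∑ n ∈ range (M + 1),
        Polynomial.C ((mb (esn M (gen i)) n : ZMod p) * (-2) ^ inn M (gen i)) *
          Polynomial.Chebyshev.S (ZMod p) (n : ℤ) := by
    intro i
    rw [Polynomial.map_monomial, ← Polynomial.C_mul_X_pow_eq_monomial,
      X_pow_eq (esn M (gen i)) (M + 1) (Nat.lt_succ_of_le (esn_le (gen_mem hB i))), Finset.mul_sum]
    refine Finset.sum_congr rfl fun n _ => ?_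
    rw [map_mul, map_natCast]
    simp only [map_pow, map_neg, map_ofNat]
    ring
  rw [Finset.sum_congr rfl (fun i _ => h1 i), Finset.sum_comm]
  refine Finset.sum_congr rfl fun n _ => ?_
  rw [eps_rr, map_sum, Finset.sum_mul]

/-- if only one coefficient is different from zero then the linking number is `± 1` -/
theorem lam_of_rr (hl : 0 < l) (hM : 0 < M) (n : ℕ) (hn : 0 < n) (v : Fin l → Elem M)
    (a : ℤ) (dir : Fin (n * l + a.natAbs * (M * (M - 1))) × Fin M → Bool)
    (ho : Oriented (freeWord n v a) dir) (hK : IsKnot (PK.annular (freeWord n v a) dir))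
    (h0 : ∀ j ∈ range (M + 1), j ≠ 1 → rr p M (toW v) j = 0)
    (h1 : eps p (rr p M (toW v) 1) ≠ 0) :
    (PK.linking (fst hl hn dir) ⟨0, hl⟩) ^ 2 = 1 := by
  have hem : ∀ t : Fin l, (t : ℕ) < n * l + a.natAbs * (M * (M - 1)) := by
    intro t
    have h1 : l ≤ n * l := Nat.le_mul_of_pos_left l hn
    have := t.2
    omega
  obtain ⟨κ, -, hu⟩ := twisted_sum_gen hl hM v (freeWord n v a) (fun t => ⟨t, hem t⟩) dir ho hK
    (fun d hd => by
      obtain ⟨dir', h2, h3⟩ := free_ext hl hM n hn v a d hd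
      exact ⟨dir', h2, fun t j => h3 _ t j rfl⟩)
  have hR := Rz_eq (m := M) (toW v) (PK.linking dir ⟨((⟨0, hl⟩ : Fin l) : ℕ), hem ⟨0, hl⟩⟩) κ hu
  have hlam : PK.linking (fst hl hn dir) ⟨0, hl⟩ =
      PK.linking dir ⟨((⟨0, hl⟩ : Fin l) : ℕ), hem ⟨0, hl⟩⟩ := rfl
  rw [hlam]
  have h2 := Rz_map p (toW_mem v)
  have hM1 : 1 ∈ range (M + 1) := by rw [Finset.mem_range]; omega
  rw [Finset.sum_eq_single_of_mem 1 hM1 (fun j hj hj1 => by rw [h0 j hj hj1]; simp), hR] at h2
  have e1 : Polynomial.Chebyshev.S (ZMod p) ((1 : ℕ) : ℤ) = Polynomial.X :=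
    Polynomial.Chebyshev.S_one _
  rw [e1, Polynomial.map_mul, Polynomial.map_C, Polynomial.map_sub, Polynomial.Chebyshev.map_S,
    Polynomial.Chebyshev.map_S] at h2
  exact lambda_one _ _ _ h1 h2

theorem T_unit (R : Type*) [CommRing R] (n : ℤ) : (T (-n) * T n : R[T;T⁻¹]) = 1 := by
  rw [← T_add]; simp

theorem rr_of_RR (B : List (Option Bool × ℕ)) (w : ℤ) (n : ℕ) :
    rr p M B n = sE (ZMod p) w * T (3 * w) * RR p M B w n := by
  unfold RR
  calc rr p M B n = (sE (ZMod p) w * sE (ZMod p) w) * (T (-(3 * w)) * T (3 * w)) * rr p M B n := by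
        rw [sE_sq, T_unit]; ring
    _ = _ := by ring

theorem RR_par {B : List (Option Bool × ℕ)} (hB : ∀ x ∈ B, x.2 + 1 < M) (w : ℤ) (n : ℕ)
    (h : n % 2 ≠ M % 2) : RR p M B w n = 0 := by
  unfold RR
  rw [rr_par p hB n h, mul_zero]

theorem RR_res4 {B : List (Option Bool × ℕ)} (hB : ∀ x ∈ B, x.2 + 1 < M) (w : ℤ) (n : ℕ) :
    Res4 (RR p M B w n) (clw B - 3 * w) := by
  unfold RR
  have h1 : Res4 (sE (ZMod p) w) 0 := by
    unfold sE
    have h2 := res4_T (F := ZMod p) 0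
    rw [T_zero] at h2
    split_ifs
    · exact h2
    · intro m hm
      apply h2 m
      have e : (-1 : (ZMod p)[T;T⁻¹]).coeff m = -((1 : (ZMod p)[T;T⁻¹]).coeff m) := by simp
      rw [e] at hm
      exact neg_ne_zero.1 hm
  have h2 := (h1.mul (res4_T (F := ZMod p) (-(3 * w)))).mul (rr_res4 p hB n)
  exact h2.congr ⟨0, by ring⟩

/-- the coefficients of the quotient of a knot with trivial Jones polynomial modulo `p` -/
theorem unit_core (k : ℕ) (hk : 1 ≤ k) (hp2 : p ≠ 2) (hl : 0 < l) (hM : 0 < M) (v : Fin l → Elem M)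
    (a : ℤ) (hq : M * (a.natAbs * M + 1) < 2 * p ^ k)
    (dir : Fin (p ^ k * l + a.natAbs * (M * (M - 1))) × Fin M → Bool)
    (ho : Oriented (freeWord (p ^ k) v a) dir)
    (hK : IsKnot (PK.annular (freeWord (p ^ k) v a) dir))
    (hf : red p (PK.annular (freeWord (p ^ k) v a) dir).fPoly = 1) (hpos : 0 < p ^ k) :
    (∀ j ∈ range (M + 1), j ≠ 1 → RR p M (toW v) (PK.annular v (fst hl hpos dir)).writhe j = 0) ∧
      RR p M (toW v) (PK.annular v (fst hl hpos dir)).writhe 1 = 1 ∧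
      (PK.linking (fst hl hpos dir) ⟨0, hl⟩) ^ 2 = 1 := by
  have hodd : Odd (p ^ k) := (hp.out.odd_of_ne_two hp2).pow
  have hq2 : 2 ≤ p ^ k := le_trans hp.out.two_le (Nat.le_self_pow (show k ≠ 0 by omega) p)
  obtain ⟨hv, hw⟩ := knot_writhe hl hM (p ^ k) hodd v a dir ho hK
  obtain ⟨c, hc⟩ := linking_par (fst hl hpos dir) ⟨0, hl⟩
  have hst := star p k (p ^ k) rfl hodd hl hM v a dir _ _ c hc hw
  set w := (PK.annular v (fst hl hpos dir)).writhe with hwdef
  set s := PK.linking (fst hl hpos dir) ⟨0, hl⟩ with hs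
  rw [map_mul, red_dl, hf, mul_one] at hst
  have h1 : ∑ n ∈ range (M + 1), (RR p M (toW v) w n) ^ (p ^ k) * hn p a n =
      C 1 * T (3 * a * s ^ 2) * dF (ZMod p) := by
    rw [hst, map_one, one_mul, ← mul_assoc, ← T_add]
    have : 3 * a * s ^ 2 + -(3 * a * s ^ 2) = 0 := by ring
    rw [this, T_zero, one_mul]
  obtain ⟨h2, -, c', m, hc', h3, h4, h5⟩ := alg_unit p a (RR p M (toW v) w) hq2 hq
    (fun n h => RR_par p (toW_mem v) w n h) (clw (toW v) - 3 * w)
    (fun n => RR_res4 p (toW_mem v) w n) 1 one_ne_zero _ h1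
  rw [ZMod.pow_card_pow] at h4
  subst h4
  -- the linking number
  have h6 : s ^ 2 = 1 := by
    apply lam_of_rr p hl hM (p ^ k) hpos v a dir ho hK
    · intro j hj hj1
      rw [rr_of_RR p (toW v) w j, h2 j hj hj1, mul_zero]
    · rw [rr_of_RR p (toW v) w 1, h3, map_mul, map_mul, eps_T, map_mul, eps_T, eps_C]
      unfold sE
      split_ifs
      · simp
      · simp
  refine ⟨h2, ?_, h6⟩
  have h7 : m = 0 := by
    rw [h6] at h5
    have h8 : ((p ^ k : ℕ) : ℤ) * m = 0 := by linarith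
    rcases mul_eq_zero.1 h8 with h9 | h9
    · exfalso
      have : (p ^ k : ℕ) = 0 := by exact_mod_cast h9
      omega
    · exact h9
  rw [h3, h7, T_zero, map_one, mul_one]

/-- the quotient with full twists, if the coefficients are trivial -/
theorem quot_of_RR (hl : 0 < l) (hM : 0 < M) (v : Fin l → Elem M) (b : ℤ)
    (dir : Fin (1 * l + b.natAbs * (M * (M - 1))) × Fin M → Bool) (w s : ℤ) (hs : s ^ 2 = 1)
    (hpar : ∃ c : ℤ, s ^ 2 - M = 2 * c)
    (hw : (PK.annular (freeWord 1 v b) dir).writhe = 1 * w + b * (s ^ 2 - M))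
    (h0 : ∀ j ∈ range (M + 1), j ≠ 1 → RR p M (toW v) w j = 0) (h1 : RR p M (toW v) w 1 = 1) :
    red p (PK.annular (freeWord 1 v b) dir).fPoly = 1 := by
  obtain ⟨c, hc⟩ := hpar
  have hst := star p 0 1 (pow_zero p).symm odd_one hl hM v b dir w s c hc (by
    rw [hw]; push_cast; ring)
  have hM1 : 1 ∈ range (M + 1) := by rw [Finset.mem_range]; omega
  generalize (PK.annular (freeWord 1 v b) dir).fPoly = g at hst ⊢
  rw [Finset.sum_eq_single_of_mem 1 hM1 (fun j hj hj1 => by rw [h0 j hj hj1]; simp), h1, one_pow,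
    one_mul (hn p b 1), hn_one, hs, ← mul_assoc, ← T_add, map_mul, red_dl] at hst
  have e1 : -(3 * b * 1) + 3 * b = 0 := by ring
  rw [e1, T_zero, one_mul (dF (ZMod p))] at hst
  have h2 : dF (ZMod p) * red p g = dF (ZMod p) * 1 := by
    rw [hst, mul_one]
  exact mul_left_cancel₀ (dF_ne (ZMod p)) h2

/-- the theorem modulo `p` -/
theorem unit_modp (k : ℕ) (hk : 1 ≤ k) (hp2 : p ≠ 2) (hl : 0 < l) (hM : 0 < M) (v : Fin l → Elem M)
    (a : ℤ) (hq : M * (a.natAbs * M + 1) < 2 * p ^ k)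
    (dir : Fin (p ^ k * l + a.natAbs * (M * (M - 1))) × Fin M → Bool)
    (ho : Oriented (freeWord (p ^ k) v a) dir)
    (hK : IsKnot (PK.annular (freeWord (p ^ k) v a) dir))
    (hf : red p (PK.annular (freeWord (p ^ k) v a) dir).fPoly = 1)
    (b : ℤ) (dir' : Fin (1 * l + b.natAbs * (M * (M - 1))) × Fin M → Bool)
    (ho' : Oriented (freeWord 1 v b) dir') :
    red p (PK.annular (freeWord 1 v b) dir').fPoly = 1 := by
  have hpos : 0 < p ^ k := Nat.pow_pos hp.out.pos
  have hodd : Odd (p ^ k) := (hp.out.odd_of_ne_two hp2).pow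
  obtain ⟨h0, h1, h2⟩ := unit_core p k hk hp2 hl hM v a hq dir ho hK hf hpos
  exact quot_of_RR p hl hM v b dir' _ _ h2 (linking_par _ _)
    (quot_writhe hl hM (p ^ k) hodd v a dir ho hK b dir' ho') h0 h1

end unit

end Pool.Agent.TH561.AD
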