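import Pool.Agent.TH561.AD.Lex
import Pool.Agent.TH561.AD.Unit

/-!
# Adequate quotients
-/

set_option autoImplicit false

namespace Pool.Agent.TH561.AD

open Pool.Agent.H891R2.Jones Pool.Agent.TH561 Pool.Agent.TH561.PK Pool.Agent.TH561.FP Finset
  LaurentPolynomial

section hk

variable {M L : ℕ}

theorem hk1_smA (x : Elem M) : hk1 (smA x) = (oA (x.1, (x.2 : ℕ))).2 := by
  obtain ⟨a, i⟩ := x
  rcases a with _ | b
  · rfl
  · cases b <;> rfl

theorem hk1_smB (x : Elem M) : hk1 (smB x) = (oB (x.1, (x.2 : ℕ))).2 := by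
  obtain ⟨a, i⟩ := x
  rcases a with _ | b
  · rfl
  · cases b <;> rfl

theorem AW_snd (B : List (Option Bool × ℕ)) : (AW B).2 = (B.map (fun x => (oA x).2)).flatten := by
  induction B with
  | nil => rfl
  | cons x B ih => rw [AW, List.map_cons, List.flatten_cons, ← ih]

theorem map_smA (w : Fin L → Elem M) : (List.ofFn (smA ∘ w)).map hk1 =
    (toW w).map (fun x => (oA x).2) := by
  unfold toW
  rw [List.map_ofFn, List.map_ofFn]
  congr 1
  funext t
  exact hk1_smA (w t)

theorem hk_smA (w : Fin L → Elem M) : hk (smA ∘ w) = (AW (toW w)).2 := by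
  rw [AW_snd]
  unfold hk
  rw [map_smA]

theorem ofFn_upd {α : Type*} {n : ℕ} (f : Fin n → α) (t : Fin n) (y : α) :
    List.ofFn (Function.update f t y) = (List.ofFn f).set t y := by
  apply List.ext_getElem
  · simp
  · intro i h1 h2
    rw [List.getElem_set, List.getElem_ofFn, List.getElem_ofFn]
    by_cases h : (t : ℕ) = i
    · rw [if_pos h]
      have e : (⟨i, by simpa using h1⟩ : Fin n) = t := Fin.ext h.symm
      rw [e, Function.update_self]
    · rw [if_neg h, Function.update_of_ne]
      intro h'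
      apply h
      rw [← h']

theorem hk_upd (w : Fin L → Elem M) (t : Fin L) (w1 : List (Option Bool × ℕ)) (x : Option Bool × ℕ)
    (w2 : List (Option Bool × ℕ)) (h : toW w = w1 ++ x :: w2) (ht : (t : ℕ) = w1.length)
    (y : Option (Fin (M - 1))) :
    hk (Function.update (smA ∘ w) t y) = (AW w1).2 ++ hk1 y ++ (AW w2).2 := by
  unfold hk
  rw [ofFn_upd, List.map_set, map_smA, h, List.map_append, List.map_cons,
    List.set_append_right _ _ (by rw [List.length_map, ht]), List.length_map, ht, Nat.sub_self,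
    List.set_cons_zero, List.flatten_append, List.flatten_cons, AW_snd, AW_snd]
  simp only [List.append_assoc]

theorem AdL_of (w : Fin L → Elem M) (h : AAdequate (pw 2 w)) : AdL M (toW w) := by
  intro w1 x w2 hw hx
  have hlen : (toW w).length = L := by unfold toW; rw [List.length_ofFn]
  have hlt : w1.length < L := by
    rw [← hlen, hw]
    simp
  have hlt2 : w1.length < 2 * L := by omega
  have h2 : toW (pw 2 w) = w1 ++ x :: (w2 ++ toW w) := by
    rw [toW_pw]
    simp only [List.replicate_succ, List.replicate_zero, List.flatten_cons, List.flatten_nil,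
      List.append_nil]
    nth_rewrite 1 [hw]
    simp
  set t : Fin (2 * L) := ⟨w1.length, hlt2⟩ with ht
  have hxt : x = ((pw 2 w t).1, ((pw 2 w t).2 : ℕ)) := by
    have h3 : (toW (pw 2 w))[w1.length]? = some x := by
      rw [h2]
      simp
    unfold toW at h3
    rw [List.getElem?_ofFn] at h3
    rw [dif_pos hlt2, Option.some.injEq] at h3
    exact h3.symm
  have h4 := h t (by
    intro h5
    apply hx
    rw [hxt]
    exact h5)
  rw [circles_eq (by omega), circles_eq (by omega), hk_smA,
    hk_upd (pw 2 w) t w1 x (w2 ++ toW w) h2 rfl, hk1_smB, ← hxt, h2, AW_append w1, AW, AW_append w2,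
    hw, AW_append w1, AW] at h4
  simp only [List.append_assoc] at h4 ⊢
  exact h4

end hk

section ext

variable (p : ℕ) [hp : Fact p.Prime]

theorem sum_coeff (l : List ((ZMod p)[T;T⁻¹])) (n : ℤ) :
    l.sum.coeff n = (l.map (fun f => f.coeff n)).sum := by
  induction l with
  | nil => simp
  | cons f l ih =>
    rw [List.sum_cons, List.map_cons, List.sum_cons, ← ih]
    simp

/-- the term of a state with `e` essential circles -/
noncomputable def Ge (M e : ℕ) (t : ℤ × List ℕ) : (ZMod p)[T;T⁻¹] :=
  if esn M t.2 = e then T t.1 * dF (ZMod p) ^ inn M t.2 else 0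

theorem top_term (w : ℤ) (n : ℕ) : Top (T w * dF (ZMod p) ^ n) (w + 2 * n) := by
  have h := (top_T (F := ZMod p) w).mul (top_dF.pow n)
  convert h using 1
  ring

theorem ext_A {M : ℕ} (B : List (Option Bool × ℕ)) (hB : ∀ x ∈ B, x.2 + 1 < M) (had : AdL M B)
    (c : ZMod p) (m : ℤ)
    (H : ∀ e, ((trm B).map (Ge p M e)).sum = if e = 1 then C c * T m else 0) :
    esn M (AW B).2 = 1 ∧ (AW B).1 + 2 * (inn M (AW B).2 : ℤ) = m := by
  have h1 := congrArg (fun f : (ZMod p)[T;T⁻¹] => f.coeff (dlt M (AW B))) (H (esn M (AW B).2))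
  rw [sum_coeff, List.map_map,
    sum_AW B ((fun f : (ZMod p)[T;T⁻¹] => f.coeff (dlt M (AW B))) ∘ Ge p M (esn M (AW B).2))] at h1
  · have h2 := (top_term p (AW B).1 (inn M (AW B).2)).1
    have h3 : ((fun f : (ZMod p)[T;T⁻¹] => f.coeff (dlt M (AW B))) ∘ Ge p M (esn M (AW B).2)) (AW B) =
        (T (AW B).1 * dF (ZMod p) ^ inn M (AW B).2).coeff ((AW B).1 + 2 * (inn M (AW B).2 : ℤ)) := by
      unfold Ge dlt
      simp
    rw [h3] at h1
    rw [h1] at h2
    by_cases he : esn M (AW B).2 = 1
    · refine ⟨he, ?_⟩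
      rw [if_pos he, ← single_eq_C_mul_T] at h2
      by_contra hne
      apply h2
      show (Finsupp.single m c) (dlt M (AW B)) = 0
      rw [Finsupp.single_apply, if_neg (fun h => hne h.symm)]
    · rw [if_neg he] at h2
      exact absurd (by simp) h2
  · intro t ht hlt
    rcases lex_strict B hB had t ht with h4 | h4
    · rw [h4] at hlt
      exact absurd hlt (lt_irrefl _)
    · simp only [Function.comp_apply]
      unfold Ge
      split_ifs with h5
      · apply (top_term p t.1 (inn M t.2)).2
        rcases h4 with h4 | ⟨-, h4⟩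
        · exact h4
        · omega
      · simp

/-- the coefficients of the powers of the variable -/
theorem coeff_Ge {M : ℕ} (B : List (Option Bool × ℕ)) (hB : ∀ x ∈ B, x.2 + 1 < M)
    (h0 : ∀ j ∈ range (M + 1), j ≠ 1 → rr p M B j = 0) (hM : 0 < M) (e : ℕ) :
    ((trm B).map (Ge p M e)).sum = if e = 1 then rr p M B 1 else 0 := by
  have h1 : ((trm B).map (Ge p M e)).sum = ∑ i : Sm B, (if esn M (gen i) = e then
      T (wgt i) * dF (ZMod p) ^ inn M (gen i) else 0) := by
    rw [← Fin.sum_univ_fun_getElem (trm B) (Ge p M e)]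
    rfl
  have h2 : ∑ i : Sm B, Polynomial.C (T (wgt i) * dF (ZMod p) ^ inn M (gen i)) *
      (Polynomial.X : Polynomial ((ZMod p)[T;T⁻¹])) ^ esn M (gen i) =
      ∑ n ∈ range (M + 1), Polynomial.C (rr p M B n) *
        Polynomial.Chebyshev.S ((ZMod p)[T;T⁻¹]) (n : ℤ) := by
    have h3 : ∀ i : Sm B, Polynomial.C (T (wgt i) * dF (ZMod p) ^ inn M (gen i)) *
        (Polynomial.X : Polynomial ((ZMod p)[T;T⁻¹])) ^ esn M (gen i) =
        ∑ n ∈ range (M + 1), Polynomial.C ((mb (esn M (gen i)) n : (ZMod p)[T;T⁻¹]) *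
          (T (wgt i) * dF (ZMod p) ^ inn M (gen i))) *
          Polynomial.Chebyshev.S ((ZMod p)[T;T⁻¹]) (n : ℤ) := by
      intro i
      rw [X_pow_eq (esn M (gen i)) (M + 1) (Nat.lt_succ_of_le (esn_le (gen_mem hB i))),
        Finset.mul_sum]
      refine Finset.sum_congr rfl fun n _ => ?_
      rw [map_mul (Polynomial.C) ((mb (esn M (gen i)) n : (ZMod p)[T;T⁻¹])), map_natCast]
      ring
    rw [Finset.sum_congr rfl (fun i _ => h3 i), Finset.sum_comm]
    refine Finset.sum_congr rfl fun n _ => ?_
    unfold rr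
    rw [map_sum, Finset.sum_mul]
  have hM1 : 1 ∈ range (M + 1) := by rw [Finset.mem_range]; omega
  rw [Finset.sum_eq_single_of_mem 1 hM1 (fun j hj hj1 => by rw [h0 j hj hj1]; simp)] at h2
  have e1 : Polynomial.Chebyshev.S ((ZMod p)[T;T⁻¹]) ((1 : ℕ) : ℤ) = Polynomial.X :=
    Polynomial.Chebyshev.S_one _
  rw [e1] at h2
  have h4 := congrArg (fun f => Polynomial.coeff f e) h2
  rw [Polynomial.finsetSum_coeff, Polynomial.coeff_C_mul_X] at h4
  rw [h1, ← h4]
  refine Finset.sum_congr rfl fun i _ => ?_
  rw [Polynomial.coeff_C_mul_X_pow]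
  by_cases h5 : esn M (gen i) = e
  · rw [if_pos h5, if_pos h5.symm]
  · rw [if_neg h5, if_neg (fun h => h5 h.symm)]

/-- the mirror image of a letter -/
def mrx (x : Option Bool × ℕ) : Option Bool × ℕ := (x.1.map (fun b => !b), x.2)

theorem opts_mrx (x : Option Bool × ℕ) : opts (mrx x) = (opts x).map (fun o => (-o.1, o.2)) := by
  obtain ⟨a, i⟩ := x
  rcases a with _ | b
  · simp [mrx, opts]
  · cases b <;> simp [mrx, opts]

theorem trm_mrx (B : List (Option Bool × ℕ)) :
    trm (B.map mrx) = (trm B).map (fun o => (-o.1, o.2)) := by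
  induction B with
  | nil => simp [trm]
  | cons x B ih =>
    rw [List.map_cons, trm, trm, opts_mrx, ih, List.flatMap_map, List.map_flatMap]
    congr 1
    funext o
    rw [List.map_map, List.map_map]
    apply List.map_congr_left
    intro t _
    simp only [Function.comp_apply]
    rw [neg_add]

theorem sum_invert (l : List ((ZMod p)[T;T⁻¹])) : invert l.sum = (l.map invert).sum := by
  induction l with
  | nil => simp
  | cons f l ih => rw [List.sum_cons, List.map_cons, List.sum_cons, ← ih, map_add]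

theorem Ge_mrx {M : ℕ} (B : List (Option Bool × ℕ)) (e : ℕ) :
    ((trm (B.map mrx)).map (Ge p M e)).sum = invert ((trm B).map (Ge p M e)).sum := by
  rw [trm_mrx, sum_invert, List.map_map, List.map_map]
  congr 1
  apply List.map_congr_left
  intro t _
  simp only [Function.comp_apply]
  unfold Ge
  split_ifs
  · rw [map_mul, invert_T, map_pow, invert_dF]
  · rw [map_zero]

end ext

section mir

variable {M L : ℕ}

/-- the mirror image of a word -/
def mirr (w : Fin L → Elem M) : Fin L → Elem M := fun t => ((w t).1.map (fun b => !b), (w t).2)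

theorem toW_mirr (w : Fin L → Elem M) : toW (mirr w) = (toW w).map mrx := by
  unfold toW
  rw [List.map_ofFn]
  rfl

theorem smA_mirr (x : Elem M) : smA (x.1.map (fun b => !b), x.2) = smB x := by
  obtain ⟨a, i⟩ := x
  rcases a with _ | b
  · rfl
  · cases b <;> rfl

theorem smB_mirr (x : Elem M) : smB (x.1.map (fun b => !b), x.2) = smA x := by
  obtain ⟨a, i⟩ := x
  rcases a with _ | b
  · rfl
  · cases b <;> rfl

theorem adequate_mirr (w : Fin L → Elem M) (h : BAdequate w) : AAdequate (mirr w) := by
  intro t ht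
  have e1 : smA ∘ mirr w = smB ∘ w := by
    funext t
    exact smA_mirr (w t)
  have e2 : smB (mirr w t) = smA (w t) := smB_mirr (w t)
  rw [e1, e2]
  apply h t
  intro h'
  apply ht
  show (w t).1.map (fun b => !b) = none
  rw [h']
  rfl

/-- the weight of the `A`-state -/
theorem AW_fst (B : List (Option Bool × ℕ)) :
    (AW B).1 = ((B.filter (fun x => x.1.isSome)).length : ℤ) := by
  induction B with
  | nil => rfl
  | cons x B ih =>
    obtain ⟨a, i⟩ := x
    rcases a with _ | b
    · rw [AW, ih]
      simp [oA]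
    · rw [AW, ih]
      cases b
      · simp [oA]; ring
      · simp [oA]; ring

theorem filter_mrx (B : List (Option Bool × ℕ)) :
    ((B.map mrx).filter (fun x => x.1.isSome)).length = (B.filter (fun x => x.1.isSome)).length := by
  induction B with
  | nil => rfl
  | cons x B ih =>
    obtain ⟨a, i⟩ := x
    rcases a with _ | b
    · simpa [mrx] using ih
    · simpa [mrx] using ih

theorem countP_sum {α : Type*} (l : List α) (P : α → Bool) :
    l.countP P = (l.map (fun x => if P x then 1 else 0)).sum := by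
  induction l with
  | nil => rfl
  | cons x l ih => rw [List.countP_cons, List.map_cons, List.sum_cons, ih, Nat.add_comm]

theorem crossings_eq (w : Fin L → Elem M) :
    ((toW w).filter (fun x => x.1.isSome)).length = crossings w := by
  unfold crossings toW
  rw [← List.countP_eq_length_filter, countP_sum, List.map_ofFn, List.sum_ofFn, Finset.card_filter]
  refine Finset.sum_congr rfl fun t _ => ?_
  simp only [Function.comp_apply]
  by_cases h : (w t).1 = none
  · simp [h]
  · simp [h, Option.isSome_iff_ne_none]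

end mir

section mn

variable (p : ℕ) [hp : Fact p.Prime] {M l : ℕ}

theorem sE_C (w : ℤ) : ∃ c : ZMod p, sE (ZMod p) w = C c := by
  unfold sE
  split_ifs
  · exact ⟨1, by simp⟩
  · exact ⟨-1, by simp⟩

/-- the coefficients of the quotient determine the extreme states -/
theorem ext_core (hM : 0 < M) (v : Fin l → Elem M) (w : ℤ)
    (h0 : ∀ j ∈ range (M + 1), j ≠ 1 → RR p M (toW v) w j = 0) (h1 : RR p M (toW v) w 1 = 1) :
    (AAdequate (pw 2 v) → esn M (AW (toW v)).2 = 1 ∧
      (crossings v : ℤ) + 2 * (inn M (AW (toW v)).2 : ℤ) = 3 * w) ∧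
    (BAdequate (pw 2 v) → esn M (AW (toW (mirr v))).2 = 1 ∧
      (crossings v : ℤ) + 2 * (inn M (AW (toW (mirr v))).2 : ℤ) = -(3 * w)) := by
  have r0 : ∀ j ∈ range (M + 1), j ≠ 1 → rr p M (toW v) j = 0 := by
    intro j hj hj1
    rw [rr_of_RR p (toW v) w j, h0 j hj hj1, mul_zero]
  obtain ⟨c, hc⟩ := sE_C p w
  have r1 : rr p M (toW v) 1 = C c * T (3 * w) := by
    rw [rr_of_RR p (toW v) w 1, h1, mul_one, hc]
  have H := coeff_Ge p (toW v) (toW_mem v) r0 hM
  rw [r1] at H
  constructor
  · intro hA
    have h2 := ext_A p (toW v) (toW_mem v) (AdL_of v hA) c (3 * w) H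
    rw [AW_fst, crossings_eq] at h2
    exact h2
  · intro hB
    have h3 : AAdequate (pw 2 (mirr v)) := adequate_mirr (pw 2 v) hB
    have h2 := ext_A p (toW (mirr v)) (toW_mem _) (AdL_of _ h3) c (-(3 * w)) (fun e => by
      rw [toW_mirr, Ge_mrx, H e]
      split_ifs
      · rw [map_mul, invert_C, invert_T]
      · rw [map_zero])
    rw [AW_fst, crossings_eq] at h2
    have h4 : crossings (mirr v) = crossings v := by
      rw [← crossings_eq, toW_mirr, filter_mrx, crossings_eq]
    rw [h4] at h2
    exact h2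

end mn

end Pool.Agent.TH561.AD
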