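import Pool.Agent.TH561.AD.Cls

/-!
# Freely periodic knots with a generic number of full twists
-/

set_option autoImplicit false

namespace Pool.Agent.TH561.AD

open Pool.Agent.H891R2.Jones Pool.Agent.TH561 Pool.Agent.TH561.PK Pool.Agent.TH561.FP Finset
  LaurentPolynomial

section sep

/-- the numbers of full twists which are not excluded -/
def Generic (q a : ℤ) (M : ℕ) : Prop := ∀ i : ℤ, 1 ≤ i → i ≤ M → ¬ q ∣ a * i - 1 ∧ ¬ q ∣ a * i + 1

variable {p : ℕ}

theorem cop (hp : p.Prime) (k : ℕ) {x : ℤ} (h0 : x ≠ 0) (h : |x| < p) : IsCoprime ((p ^ k : ℕ) : ℤ) x := by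
  push_cast
  apply IsCoprime.pow_left
  rw [(Nat.prime_iff_prime_int.1 hp).coprime_iff_not_dvd]
  intro h1
  exact h0 (Int.eq_zero_of_abs_lt_dvd h1 h)

theorem cop4 (hp : p.Prime) (hp2 : p ≠ 2) (k : ℕ) : IsCoprime ((p ^ k : ℕ) : ℤ) 4 := by
  push_cast
  apply IsCoprime.pow_left
  rw [(Nat.prime_iff_prime_int.1 hp).coprime_iff_not_dvd]
  intro h1
  have h2 : (p : ℤ) ∣ 2 ^ 2 := by norm_num; exact h1
  have h3 := (Nat.prime_iff_prime_int.1 hp).dvd_of_dvd_pow h2
  have h4 : p ∣ 2 := by exact_mod_cast h3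
  exact hp2 ((Nat.prime_dvd_prime_iff_eq hp Nat.prime_two).1 h4)

theorem not_dvd_one (hp : p.Prime) {k : ℕ} (hk : 1 ≤ k) {e : ℤ} (he : e = 1 ∨ e = -1) :
    ¬ ((p ^ k : ℕ) : ℤ) ∣ e := by
  intro h
  have h1 : ((p ^ k : ℕ) : ℤ) ∣ 1 := by
    rcases he with rfl | rfl
    · exact h
    · exact (dvd_neg).1 h
  have h2 : p ^ k ∣ 1 := by exact_mod_cast h1
  have h3 := Nat.le_of_dvd one_pos h2
  have h4 : p ≤ p ^ k := Nat.le_self_pow (by omega) p
  have := hp.two_le
  omega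

/-- the exponents are in different classes -/
theorem gen_sep (hp : p.Prime) (hp2 : p ≠ 2) {k : ℕ} (hk : 1 ≤ k) {a : ℤ} {M : ℕ} (hM : M + 1 < p)
    (hg : Generic ((p ^ k : ℕ) : ℤ) a M) (i j : ℕ) (hi : i ≤ M) (hj : j ≤ M) (hpar : i % 2 = j % 2)
    (e f : ℤ) (he : e = 1 ∨ e = -1) (hf : f = 1 ∨ f = -1)
    (h : ((p ^ k : ℕ) : ℤ) ∣ (a * (i * (i + 2)) + e * (2 * i + 2)) - (a * (j * (j + 2)) + f * (2 * j + 2))) :
    i = j ∧ e = f := by
  obtain ⟨d, hd⟩ : ∃ d : ℤ, (i : ℤ) - j = 2 * d := ⟨((i : ℤ) - j) / 2, by omega⟩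
  obtain ⟨c, hc⟩ : ∃ c : ℤ, (i : ℤ) + j + 2 = 2 * c := ⟨((i : ℤ) + j + 2) / 2, by omega⟩
  have hi' : (i : ℤ) = c + d - 1 := by linarith
  have hj' : (j : ℤ) = c - d - 1 := by linarith
  have h4 := cop4 hp hp2 k
  have hp' : (M : ℤ) + 1 < p := by exact_mod_cast hM
  by_cases hef : e = f
  · subst hef
    refine ⟨?_, rfl⟩
    by_contra hne
    have hd0 : d ≠ 0 := by
      rintro rfl
      omega
    have e1 : (a * ((i : ℤ) * (i + 2)) + e * (2 * i + 2)) - (a * (j * (j + 2)) + e * (2 * j + 2)) =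
        4 * (d * (a * c + e)) := by
      rw [hi', hj']
      ring
    rw [e1] at h
    have h1 := h4.dvd_of_dvd_mul_left h
    have h2 := (cop hp k hd0 (by rw [abs_lt]; constructor <;> omega)).dvd_of_dvd_mul_left h1
    have h3 := hg c (by omega) (by omega)
    rcases he with rfl | rfl
    · exact h3.2 h2
    · exact h3.1 (by rw [sub_eq_add_neg]; exact h2)
  · exfalso
    have hfe : f = -e := by
      rcases he with rfl | rfl <;> rcases hf with rfl | rfl <;> simp at hef ⊢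
    subst hfe
    have e1 : (a * ((i : ℤ) * (i + 2)) + e * (2 * i + 2)) - (a * (j * (j + 2)) + -e * (2 * j + 2)) =
        4 * (c * (a * d + e)) := by
      rw [hi', hj']
      ring
    rw [e1] at h
    have h1 := h4.dvd_of_dvd_mul_left h
    have h2 := (cop hp k (show c ≠ 0 by omega) (by rw [abs_lt]; constructor <;> omega)).dvd_of_dvd_mul_left h1
    rcases lt_trichotomy d 0 with h5 | h5 | h5
    · have h3 := hg (-d) (by omega) (by omega)
      have h6 : ((p ^ k : ℕ) : ℤ) ∣ a * (-d) + -e := by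
        have := (dvd_neg).2 h2
        have e2 : -(a * d + e) = a * (-d) + -e := by ring
        rwa [e2] at this
      rcases he with rfl | rfl
      · exact h3.1 (by rw [sub_eq_add_neg]; exact h6)
      · rw [neg_neg] at h6
        exact h3.2 h6
    · rw [h5, mul_zero, zero_add] at h2
      exact not_dvd_one hp hk he h2
    · have h3 := hg d (by omega) (by omega)
      rcases he with rfl | rfl
      · exact h3.2 h2
      · exact h3.1 (by rw [sub_eq_add_neg]; exact h2)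

end sep

section ord

variable (p : ℕ) [hp : Fact p.Prime]

/-- signs -/
noncomputable def sg (b : Bool) : (ZMod p)[T;T⁻¹] := if b then 1 else -1

/-- signs as integers -/
def sgz (b : Bool) : ℤ := if b then 1 else -1

theorem hn_expand (a : ℤ) (n : ℕ) : (T 2 - T (-2)) * hn p a n =
    ∑ b : Bool, sg p b * sgn' p n * T (a * (n * (n + 2)) + sgz b * (2 * n + 2)) := by
  unfold hn
  rw [Fintype.sum_bool]
  have h := cheb_dF (p := p) (n : ℤ)
  have e1 : (T (a * (n * (n + 2)) + sgz true * (2 * n + 2)) : (ZMod p)[T;T⁻¹]) =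
      T (a * (n * (n + 2))) * T (2 * n + 2) := by
    rw [← T_add]
    congr 1
    unfold sgz
    rw [if_pos rfl]
    ring
  have e2 : (T (a * (n * (n + 2)) + sgz false * (2 * n + 2)) : (ZMod p)[T;T⁻¹]) =
      T (a * (n * (n + 2))) * T (-2 * n - 2) := by
    rw [← T_add]
    congr 1
    unfold sgz
    rw [if_neg (by simp)]
    ring
  rw [e1, e2]
  have e3 : sg p true = 1 := by unfold sg; rw [if_pos rfl]
  have e4 : sg p false = -1 := by unfold sg; rw [if_neg (by simp)]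
  rw [e3, e4]
  calc (T 2 - T (-2)) * (T (a * (n * (n + 2))) *
        Polynomial.aeval (dF (ZMod p)) (Polynomial.Chebyshev.S ℤ (n : ℤ)))
      = T (a * (n * (n + 2))) * ((T 2 - T (-2)) *
        Polynomial.aeval (dF (ZMod p)) (Polynomial.Chebyshev.S ℤ (n : ℤ))) := by ring
    _ = _ := by rw [h]; ring

theorem sum_expand {q : ℕ} (hq : Odd q) (a : ℤ) (S : Finset ℕ) (u : ℕ → (ZMod p)[T;T⁻¹]) :
    (T 2 - T (-2)) * ∑ n ∈ S, (u n) ^ q * hn p a n =
      ∑ x ∈ S ×ˢ (univ : Finset Bool), (sg p x.2 * sgn' p x.1 * u x.1) ^ q *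
        T (a * (x.1 * (x.1 + 2)) + sgz x.2 * (2 * x.1 + 2)) := by
  rw [Finset.mul_sum, Finset.sum_product]
  refine Finset.sum_congr rfl fun n _ => ?_
  have h1 : (T 2 - T (-2)) * (u n ^ q * hn p a n) = u n ^ q * ((T 2 - T (-2)) * hn p a n) := by ring
  rw [h1, hn_expand, Finset.mul_sum]
  refine Finset.sum_congr rfl fun b _ => ?_
  have h2 : (sg p b * sgn' p n * u n) ^ q = sg p b * sgn' p n * u n ^ q := by
    rw [mul_pow, mul_pow]
    have h3 : sg p b ^ q = sg p b := by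
      unfold sg
      split_ifs
      · rw [one_pow]
      · exact hq.neg_one_pow
    have h4 : sgn' p n ^ q = sgn' p n := by
      rcases sgn'_eq p n with h | h
      · rw [h, one_pow]
      · rw [h]
        exact hq.neg_one_pow
    rw [h3, h4]
  rw [h2]
  ring

theorem dvd_of_sg (b : Bool) (n : ℤ) (m : ℕ) (f : (ZMod p)[T;T⁻¹])
    (h : (T 1 - 1 : (ZMod p)[T;T⁻¹]) ^ m ∣ sg p b * sgn' p n * f) :
    (T 1 - 1 : (ZMod p)[T;T⁻¹]) ^ m ∣ f := by
  have h1 := h.mul_left (sg p b * sgn' p n)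
  have h2 : sg p b * sgn' p n * (sg p b * sgn' p n * f) = f := by
    have h3 : sg p b * sg p b = 1 := by unfold sg; split_ifs <;> ring
    have h4 : sgn' p n * sgn' p n = 1 := by
      rcases sgn'_eq p n with h | h <;> rw [h] <;> ring
    calc sg p b * sgn' p n * (sg p b * sgn' p n * f) = (sg p b * sg p b) * (sgn' p n * sgn' p n) * f := by
          ring
      _ = f := by rw [h3, h4]; ring
  rwa [h2] at h1

/-- the order of vanishing, generic twists -/
theorem gen_ord {k : ℕ} (hk : 1 ≤ k) (hp2 : p ≠ 2) {M : ℕ} (hM : M + 1 < p) (a : ℤ)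
    (hg : Generic ((p ^ k : ℕ) : ℤ) a M) (u : ℕ → (ZMod p)[T;T⁻¹])
    (hpar : ∀ n, n % 2 ≠ M % 2 → u n = 0) (m : ℕ)
    (h : (T 1 - 1 : (ZMod p)[T;T⁻¹]) ^ (p ^ k * m) ∣ ∑ n ∈ range (M + 1), (u n) ^ (p ^ k) * hn p a n) :
    ∀ n ∈ range (M + 1), (T 1 - 1 : (ZMod p)[T;T⁻¹]) ^ m ∣ u n := by
  have hodd : Odd (p ^ k) := (hp.out.odd_of_ne_two hp2).pow
  have hq0 : p ^ k ≠ 0 := (Nat.pow_pos hp.out.pos).ne'
  have h1 : ∑ n ∈ range (M + 1), (u n) ^ (p ^ k) * hn p a n =
      ∑ n ∈ (range (M + 1)).filter (fun n => n % 2 = M % 2), (u n) ^ (p ^ k) * hn p a n := by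
    symm
    apply Finset.sum_subset (Finset.filter_subset _ _)
    intro n hn' hn''
    rw [Finset.mem_filter, not_and] at hn''
    rw [hpar n (hn'' hn'), zero_pow hq0, zero_mul]
  rw [h1] at h
  have h2 := h.mul_left (T 2 - T (-2))
  rw [sum_expand p hodd] at h2
  have h3 := cls_ord p k _ _ _ (by
    rintro ⟨i, b⟩ hi ⟨j, c⟩ hj hij
    rw [Finset.mem_product, Finset.mem_filter, Finset.mem_range] at hi hj
    simp only at hi hj hij
    have hb : ∀ b : Bool, sgz b = 1 ∨ sgz b = -1 := by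
      intro b
      unfold sgz
      split_ifs
      · left; rfl
      · right; rfl
    obtain ⟨h4, h5⟩ := gen_sep hp.out hp2 hk hM hg i j (by omega) (by omega) (by omega) _ _ (hb b) (hb c) hij
    have h6 : b = c := by
      revert h5
      unfold sgz
      cases b <;> cases c <;> simp
    rw [h4, h6]) m h2
  intro n hn'
  by_cases hp' : n % 2 = M % 2
  · have h4 := h3 (n, true) (by
      rw [Finset.mem_product, Finset.mem_filter]
      exact ⟨⟨hn', hp'⟩, Finset.mem_univ _⟩)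
    exact dvd_of_sg p _ _ m _ h4
  · rw [hpar n hp']
    exact dvd_zero _

end ord

section main

variable (p : ℕ) [hp : Fact p.Prime] {M l : ℕ}

/-- the linking number, if `f ≡ 1` to the order `q` -/
theorem gen_link (k : ℕ) (hk : 1 ≤ k) (hMp : M + 1 < p) (hl : 0 < l) (hM : 1 < M) (v : Fin l → Elem M)
    (a : ℤ) (hg : Generic ((p ^ k : ℕ) : ℤ) a M)
    (dir : Fin (p ^ k * l + a.natAbs * (M * (M - 1))) × Fin M → Bool)
    (ho : Oriented (freeWord (p ^ k) v a) dir)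
    (hK : IsKnot (PK.annular (freeWord (p ^ k) v a) dir)) (hpos : 0 < p ^ k)
    (hf : (T 1 - 1 : (ZMod p)[T;T⁻¹]) ^ (p ^ k) ∣ red p (PK.annular (freeWord (p ^ k) v a) dir).fPoly - 1) :
    (PK.linking (fst hl hpos dir) ⟨0, hl⟩) ^ 2 = 1 := by
  have hp2 : p ≠ 2 := by omega
  have hp4 : 4 ≤ p := by
    by_contra h
    omega
  have hpk : p ≤ p ^ k := Nat.le_self_pow (show k ≠ 0 by omega) p
  have hq4 : 4 ≤ p ^ k := by omega
  have hem : (0 : ℕ) < p ^ k * l + a.natAbs * (M * (M - 1)) := by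
    have := Nat.mul_pos hpos hl
    omega
  obtain ⟨c, z, hc, h1⟩ := identity_f p k hp2 (by omega) v hl a dir ho hK ⟨0, hem⟩
  have h3 : toG p (p ^ k) ((T (-4) - T 4) *
      (red p (PK.annular (freeWord (p ^ k) v a) dir).fPoly - 1)) = 0 := by
    obtain ⟨g, hg⟩ := hf.mul_left (T (-4) - T 4)
    rw [hg, map_mul, toG_pow, zero_mul]
  rw [mul_sub, mul_one, map_sub, sub_eq_zero, h1] at h3
  have e1 : PK.linking dir ⟨0, hem⟩ = PK.linking (fst hl hpos dir) ⟨0, hl⟩ := rfl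
  rw [e1] at h3
  set s := PK.linking (fst hl hpos dir) ⟨0, hl⟩ with hs
  have h5 : toG p (p ^ k) (C (1 : ZMod p) * T (-z - 4) - C 1 * T (-z + 4)) =
      toG p (p ^ k) (C c * FT p a s) := by
    have e2 : (C (1 : ZMod p) * T (-z - 4) - C 1 * T (-z + 4) : (ZMod p)[T;T⁻¹]) =
        T (-z) * (T (-4) - T 4) := by
      rw [map_one, one_mul, one_mul, sub_eq_add_neg (-z) 4, T_add, T_add, mul_sub]
    have e3 : C c * FT p a s = T (-z) * (C c * T z * FT p a s) := by
      have e3 : (T (-z) * T z : (ZMod p)[T;T⁻¹]) = 1 := by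
        rw [← T_add, neg_add_cancel, T_zero]
      calc C c * FT p a s = (T (-z) * T z) * (C c * FT p a s) := by rw [e3, one_mul]
        _ = _ := by ring
    rw [e2, e3, map_mul, map_mul, h3]
  have hgrp : grp p (p ^ k) = p ^ k := by
    unfold grp
    rw [if_neg hp2]
  have h6 := final' p k hq4 (p ^ k) (fun x hx => grp_four p hp.out k x (by rw [hgrp]; exact hx)) a s
    (-z) 1 c one_ne_zero h5
  have hb := linking_bound (fst hl hpos dir) ⟨0, hl⟩
  rw [← hs] at hb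
  have hbig : ∀ x : ℤ, (p ^ k : ℤ) ∣ x → |x| ≤ M + 1 → x = 0 := by
    intro x hx hx'
    apply Int.eq_zero_of_abs_lt_dvd (show ((p ^ k : ℕ) : ℤ) ∣ x by push_cast; exact hx)
    have : (M : ℤ) + 1 < (p ^ k : ℕ) := by exact_mod_cast lt_of_lt_of_le hMp hpk
    omega
  have hcop : IsCoprime ((p : ℤ) ^ k) 2 := by
    apply IsCoprime.pow_left
    rw [Int.isCoprime_iff_gcd_eq_one]
    have : Nat.Coprime p 2 := (Nat.coprime_primes hp.out Nat.prime_two).2 hp2
    exact_mod_cast this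
  have hno : ¬ ((p ^ k : ℤ) ∣ a * s - 1) ∧ ¬ ((p ^ k : ℤ) ∣ a * s + 1) := by
    rcases lt_trichotomy s 0 with h7 | h7 | h7
    · obtain ⟨h8, h9⟩ := hg (-s) (by omega) (by omega)
      push_cast at h8 h9
      constructor
      · intro h10
        apply h9
        have := (dvd_neg).2 h10
        have e : -(a * s - 1) = a * -s + 1 := by ring
        rwa [e] at this
      · intro h10
        apply h8
        have := (dvd_neg).2 h10
        have e : -(a * s + 1) = a * -s - 1 := by ring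
        rwa [e] at this
    · rw [h7, mul_zero]
      have h8 := not_dvd_one hp.out hk (e := 1) (Or.inl rfl)
      have h9 := not_dvd_one hp.out hk (e := -1) (Or.inr rfl)
      push_cast at h8 h9
      constructor
      · simpa using h9
      · simpa using h8
    · obtain ⟨h8, h9⟩ := hg s (by omega) (by omega)
      push_cast at h8 h9
      exact ⟨h8, h9⟩
  rcases h6 with h6 | h6 | h6 | h6
  · have h7 := hbig _ (hcop.dvd_of_dvd_mul_left h6) (by rw [abs_le]; constructor <;> omega)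
    have h8 : s = 1 := by linarith
    rw [h8]; norm_num
  · have h7 := hbig _ (hcop.dvd_of_dvd_mul_left h6) (by rw [abs_le]; constructor <;> omega)
    have h8 : s = -1 := by linarith
    rw [h8]; norm_num
  · exact absurd h6 hno.1
  · exact absurd h6 hno.2

/-- the deviation of the coefficients from those of the unknot -/
noncomputable def dev (M : ℕ) (B : List (Option Bool × ℕ)) (w : ℤ) (n : ℕ) : (ZMod p)[T;T⁻¹] :=
  RR p M B w n - if n = 1 then 1 else 0

theorem dev_par {B : List (Option Bool × ℕ)} (hB : ∀ x ∈ B, x.2 + 1 < M) (hodd : M % 2 = 1) (w : ℤ) (n : ℕ)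
    (h : n % 2 ≠ M % 2) : dev p M B w n = 0 := by
  unfold dev
  rw [RR_par p hB w n h, if_neg (by omega), sub_zero]

theorem dev_sum (k : ℕ) (hM : 0 < M) (B : List (Option Bool × ℕ)) (w a : ℤ) :
    ∑ n ∈ range (M + 1), (dev p M B w n) ^ (p ^ k) * hn p a n =
      ∑ n ∈ range (M + 1), (RR p M B w n) ^ (p ^ k) * hn p a n - T (3 * a) * dF (ZMod p) := by
  have hq0 : p ^ k ≠ 0 := (Nat.pow_pos hp.out.pos).ne'
  have h1 : ∀ n, (dev p M B w n) ^ (p ^ k) * hn p a n =
      (RR p M B w n) ^ (p ^ k) * hn p a n - (if n = 1 then hn p a 1 else 0) := by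
    intro n
    unfold dev
    rw [sub_pow_char_pow]
    by_cases h : n = 1
    · subst h
      rw [if_pos rfl, if_pos rfl, one_pow]
      ring
    · rw [if_neg h, if_neg h, zero_pow hq0]
      ring
  rw [Finset.sum_congr rfl (fun n _ => h1 n), Finset.sum_sub_distrib, Finset.sum_ite_eq',
    if_pos (by rw [Finset.mem_range]; omega), hn_one]

/-- descent with orders for generic twists -/
theorem gen_dev (k : ℕ) (hk : 1 ≤ k) (hMp : M + 1 < p) (hl : 0 < l) (hM : 1 < M) (v : Fin l → Elem M)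
    (a : ℤ) (hg : Generic ((p ^ k : ℕ) : ℤ) a M)
    (dir : Fin (p ^ k * l + a.natAbs * (M * (M - 1))) × Fin M → Bool)
    (ho : Oriented (freeWord (p ^ k) v a) dir)
    (hK : IsKnot (PK.annular (freeWord (p ^ k) v a) dir)) (hpos : 0 < p ^ k) (m : ℕ) (hm : 1 ≤ m)
    (hf : (T 1 - 1 : (ZMod p)[T;T⁻¹]) ^ (p ^ k * m) ∣
      red p (PK.annular (freeWord (p ^ k) v a) dir).fPoly - 1) :
    (PK.linking (fst hl hpos dir) ⟨0, hl⟩) ^ 2 = 1 ∧
    ∀ n ∈ range (M + 1), (T 1 - 1 : (ZMod p)[T;T⁻¹]) ^ m ∣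
      dev p M (toW v) (PK.annular v (fst hl hpos dir)).writhe n := by
  have hp2 : p ≠ 2 := by omega
  have hodd : Odd (p ^ k) := (hp.out.odd_of_ne_two hp2).pow
  have hs := gen_link p k hk hMp hl hM v a hg dir ho hK hpos
    ((pow_dvd_pow _ (Nat.le_mul_of_pos_right _ hm)).trans hf)
  obtain ⟨hv, hw⟩ := knot_writhe hl (by omega) (p ^ k) hodd v a dir ho hK
  obtain ⟨c, hc⟩ := linking_par (fst hl hpos dir) ⟨0, hl⟩
  have hst := star p k (p ^ k) rfl hodd hl (by omega) v a dir _ _ c hc hw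
  refine ⟨hs, ?_⟩
  rw [hs, map_mul, red_dl, mul_one] at hst
  apply gen_ord p hk hp2 hMp a hg _ (fun n h => dev_par p (toW_mem v) (by
    rw [hs] at hc
    omega) _ n h) m
  rw [dev_sum p k (by omega)]
  have h1 : ∑ n ∈ range (M + 1), (RR p M (toW v) (PK.annular v (fst hl hpos dir)).writhe n) ^ (p ^ k) *
      hn p a n = T (3 * a) * (dF (ZMod p) * red p (PK.annular (freeWord (p ^ k) v a) dir).fPoly) := by
    rw [hst, ← mul_assoc, ← T_add]
    have : 3 * a + -(3 * a) = 0 := by ring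
    rw [this, T_zero, one_mul]
  rw [h1]
  have h2 : T (3 * a) * (dF (ZMod p) * red p (PK.annular (freeWord (p ^ k) v a) dir).fPoly) -
      T (3 * a) * dF (ZMod p) = (T (3 * a) * dF (ZMod p)) *
        (red p (PK.annular (freeWord (p ^ k) v a) dir).fPoly - 1) := by ring
  rw [h2]
  exact hf.mul_left _

/-- the quotients -/
theorem quot_of_dev (hp2 : p ≠ 2) (hl : 0 < l) (hM : 0 < M) (v : Fin l → Elem M) (b : ℤ)
    (dir : Fin (1 * l + b.natAbs * (M * (M - 1))) × Fin M → Bool) (w s : ℤ) (hs : s ^ 2 = 1)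
    (hpar : ∃ c : ℤ, s ^ 2 - M = 2 * c)
    (hw : (PK.annular (freeWord 1 v b) dir).writhe = 1 * w + b * (s ^ 2 - M)) (m : ℕ)
    (h : ∀ n ∈ range (M + 1), (T 1 - 1 : (ZMod p)[T;T⁻¹]) ^ m ∣ dev p M (toW v) w n) :
    (T 1 - 1 : (ZMod p)[T;T⁻¹]) ^ m ∣ red p (PK.annular (freeWord 1 v b) dir).fPoly - 1 := by
  obtain ⟨c, hc⟩ := hpar
  have hst := star p 0 1 (pow_zero p).symm odd_one hl hM v b dir w s c hc (by
    rw [hw]; push_cast; ring)
  have hd := dev_sum p 0 hM (toW v) w b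
  rw [pow_zero] at hd
  rw [hs, map_mul, red_dl, mul_one] at hst
  apply dvd_of_dF p hp2
  have h1 : dF (ZMod p) * (red p (PK.annular (freeWord 1 v b) dir).fPoly - 1) =
      T (-(3 * b)) * ∑ n ∈ range (M + 1), (dev p M (toW v) w n) ^ 1 * hn p b n := by
    rw [hd, mul_sub, mul_sub, hst, mul_one, ← mul_assoc, T_unit, one_mul]
  rw [h1]
  refine Dvd.dvd.mul_left (Finset.dvd_sum fun n hn' => ?_) _
  rw [pow_one]
  exact (h n hn').mul_right _

/-- descent with orders -/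
theorem gen_order (k : ℕ) (hk : 1 ≤ k) (hMp : M + 1 < p) (hl : 0 < l) (hM : 1 < M) (v : Fin l → Elem M)
    (a : ℤ) (hg : Generic ((p ^ k : ℕ) : ℤ) a M)
    (dir : Fin (p ^ k * l + a.natAbs * (M * (M - 1))) × Fin M → Bool)
    (ho : Oriented (freeWord (p ^ k) v a) dir)
    (hK : IsKnot (PK.annular (freeWord (p ^ k) v a) dir)) (m : ℕ) (hm : 1 ≤ m)
    (hf : (T 1 - 1 : (ZMod p)[T;T⁻¹]) ^ (p ^ k * m) ∣
      red p (PK.annular (freeWord (p ^ k) v a) dir).fPoly - 1)
    (b : ℤ) (dir' : Fin (1 * l + b.natAbs * (M * (M - 1))) × Fin M → Bool)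
    (ho' : Oriented (freeWord 1 v b) dir') :
    (T 1 - 1 : (ZMod p)[T;T⁻¹]) ^ m ∣ red p (PK.annular (freeWord 1 v b) dir').fPoly - 1 := by
  have hp2 : p ≠ 2 := by omega
  have hpos : 0 < p ^ k := Nat.pow_pos hp.out.pos
  have hodd : Odd (p ^ k) := (hp.out.odd_of_ne_two hp2).pow
  obtain ⟨h1, h2⟩ := gen_dev p k hk hMp hl hM v a hg dir ho hK hpos m hm hf
  exact quot_of_dev p hp2 hl (by omega) v b dir' _ _ h1 (linking_par _ _)
    (quot_writhe hl (by omega) (p ^ k) hodd v a dir ho hK b dir' ho') m h2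

/-- the coefficients, if `f ≡ 1` modulo `p` -/
theorem gen_unit (k : ℕ) (hk : 1 ≤ k) (hMp : M + 1 < p) (hl : 0 < l) (hM : 1 < M) (v : Fin l → Elem M)
    (a : ℤ) (hg : Generic ((p ^ k : ℕ) : ℤ) a M)
    (dir : Fin (p ^ k * l + a.natAbs * (M * (M - 1))) × Fin M → Bool)
    (ho : Oriented (freeWord (p ^ k) v a) dir)
    (hK : IsKnot (PK.annular (freeWord (p ^ k) v a) dir)) (hpos : 0 < p ^ k)
    (hf : red p (PK.annular (freeWord (p ^ k) v a) dir).fPoly = 1) :
    (∀ j ∈ range (M + 1), j ≠ 1 → RR p M (toW v) (PK.annular v (fst hl hpos dir)).writhe j = 0) ∧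
      RR p M (toW v) (PK.annular v (fst hl hpos dir)).writhe 1 = 1 ∧
      (PK.linking (fst hl hpos dir) ⟨0, hl⟩) ^ 2 = 1 := by
  have h0 : ∀ m : ℕ, (T 1 - 1 : (ZMod p)[T;T⁻¹]) ^ (p ^ k * m) ∣
      red p (PK.annular (freeWord (p ^ k) v a) dir).fPoly - 1 := by
    intro m
    rw [hf, sub_self]
    exact dvd_zero _
  have h1 : ∀ n ∈ range (M + 1), dev p M (toW v) (PK.annular v (fst hl hpos dir)).writhe n = 0 := by
    intro n hn'
    apply zero_of_pow p
    intro m
    have h2 := (gen_dev p k hk hMp hl hM v a hg dir ho hK hpos (m + 1) (by omega) (h0 _)).2 n hn'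
    exact (pow_dvd_pow _ (Nat.le_succ m)).trans h2
  refine ⟨?_, ?_, (gen_dev p k hk hMp hl hM v a hg dir ho hK hpos 1 le_rfl (h0 _)).1⟩
  · intro j hj hj1
    have h2 := h1 j hj
    unfold dev at h2
    rwa [if_neg hj1, sub_zero] at h2
  · have h2 := h1 1 (by rw [Finset.mem_range]; omega)
    unfold dev at h2
    rwa [if_pos rfl, sub_eq_zero] at h2

/-- equality modulo `p` -/
theorem gen_modp (k : ℕ) (hk : 1 ≤ k) (hMp : M + 1 < p) (hl : 0 < l) (hM : 1 < M) (v : Fin l → Elem M)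
    (a : ℤ) (hg : Generic ((p ^ k : ℕ) : ℤ) a M)
    (dir : Fin (p ^ k * l + a.natAbs * (M * (M - 1))) × Fin M → Bool)
    (ho : Oriented (freeWord (p ^ k) v a) dir)
    (hK : IsKnot (PK.annular (freeWord (p ^ k) v a) dir))
    (hf : red p (PK.annular (freeWord (p ^ k) v a) dir).fPoly = 1)
    (b : ℤ) (dir' : Fin (1 * l + b.natAbs * (M * (M - 1))) × Fin M → Bool)
    (ho' : Oriented (freeWord 1 v b) dir') :
    red p (PK.annular (freeWord 1 v b) dir').fPoly = 1 := by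
  have hp2 : p ≠ 2 := by omega
  have hpos : 0 < p ^ k := Nat.pow_pos hp.out.pos
  have hodd : Odd (p ^ k) := (hp.out.odd_of_ne_two hp2).pow
  obtain ⟨h0, h1, h2⟩ := gen_unit p k hk hMp hl hM v a hg dir ho hK hpos hf
  exact quot_of_RR p hl (by omega) v b dir' _ _ h2 (linking_par _ _)
    (quot_writhe hl (by omega) (p ^ k) hodd v a dir ho hK b dir' ho') h0 h1

/-- equality over the integers -/
theorem gen_exact (k : ℕ) (hk : 1 ≤ k) (hbig : 2 ^ (M + 2 * l) + 1 < p) (hl : 0 < l) (hM : 1 < M)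
    (v : Fin l → Elem M) (a : ℤ) (hg : Generic ((p ^ k : ℕ) : ℤ) a M)
    (dir : Fin (p ^ k * l + a.natAbs * (M * (M - 1))) × Fin M → Bool)
    (ho : Oriented (freeWord (p ^ k) v a) dir)
    (hK : IsKnot (PK.annular (freeWord (p ^ k) v a) dir))
    (hf : (PK.annular (freeWord (p ^ k) v a) dir).fPoly = 1)
    (b : ℤ) (dir' : Fin (1 * l + b.natAbs * (M * (M - 1))) × Fin M → Bool)
    (ho' : Oriented (freeWord 1 v b) dir') :
    (PK.annular (freeWord 1 v b) dir').fPoly = 1 := by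
  have hMp : M + 1 < p := by
    have h1 : M < 2 ^ M := Nat.lt_two_pow_self
    have h2 : 2 ^ M ≤ 2 ^ (M + 2 * l) := Nat.pow_le_pow_right (by norm_num) (by omega)
    omega
  have hp2 : p ≠ 2 := by omega
  have hpos : 0 < p ^ k := Nat.pow_pos hp.out.pos
  have hodd : Odd (p ^ k) := (hp.out.odd_of_ne_two hp2).pow
  obtain ⟨h0, h1, h2⟩ := gen_unit p k hk hMp hl hM v a hg dir ho hK hpos (by rw [hf, map_one])
  obtain ⟨g0, g1⟩ := RZ_triv p v _ hbig h0 h1
  rw [← sub_eq_zero]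
  apply eq_zero_of_all
  intro p' hp'
  have : Fact p'.Prime := ⟨hp'⟩
  rw [map_sub, map_one, sub_eq_zero]
  refine quot_of_RR p' hl (by omega) v b dir' _ _ h2 (linking_par _ _)
    (quot_writhe hl (by omega) (p ^ k) hodd v a dir ho hK b dir' ho') (fun j hj hj1 => ?_) ?_
  · rw [← red_RZ, g0 j hj hj1, map_zero]
  · rw [← red_RZ, g1, map_one]

end main

end Pool.Agent.TH561.AD
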