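import Pool.Agent.TH561.AD.Circ

/-!
# The essential and inessential circles of neighbouring states
-/

set_option autoImplicit false

namespace Pool.Agent.TH561.AD

open Pool.Agent.H891R2.Jones Pool.Agent.TH561 Pool.Agent.TH561.PK Pool.Agent.TH561.FP Finset

section nlp

variable {M : ℕ}

theorem hk_cons {n : ℕ} (o : Option (Fin (M - 1))) (v : Fin n → Option (Fin (M - 1))) :
    hk (Fin.cons o v : Fin (n+1) → _) = hk1 o ++ hk v := by
  unfold hk
  rw [List.ofFn_succ, Fin.cons_zero, List.map_cons, List.flatten_cons]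
  simp only [Fin.cons_succ]

theorem flatten_single (V : List ℕ) : (V.map (fun x => [x])).flatten = V := by
  induction V with
  | nil => rfl
  | cons x V ih => rw [List.map_cons, List.flatten_cons, ih]; rfl

theorem nlp_cons (V : List ℕ) (hV : ∀ i ∈ V, i + 1 < M) (i : ℕ) (hi : i + 1 < M) :
    nlp M V ≤ nlp M (i :: V) + 1 ∧ nlp M (i :: V) ≤ nlp M V + 1 := by
  let v : Fin V.length → Option (Fin (M - 1)) := fun t =>
    some ⟨V[t], by have := hV _ (List.getElem_mem t.2); simp only [Fin.getElem_fin]; omega⟩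
  have hv : hk v = V := by
    unfold hk
    rw [List.map_ofFn]
    have h1 : (hk1 ∘ v) = fun t : Fin V.length => (fun x => [x]) (V[t]) := rfl
    rw [h1, List.ofFn_comp' (fun t : Fin V.length => V[t]) (fun x => [x])]
    have h2 : List.ofFn (fun t : Fin V.length => V[t]) = V := List.ofFn_getElem
    rw [h2, flatten_single]
  have h := circles_flip v (⟨i, by omega⟩ : Fin (M - 1))
  rw [circles_eq (Nat.succ_pos _), circles_eq (Nat.succ_pos _), hk_cons, hk_cons, hv] at h
  exact h

theorem nlp_cyc (P Q : List ℕ) (hP : ∀ i ∈ P, i + 1 < M) (hQ : ∀ i ∈ Q, i + 1 < M) :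
    nlp M (P ++ Q) = nlp M (Q ++ P) := by
  apply nlp_eq
  · intro i hi
    rcases List.mem_append.1 hi with h | h
    · exact hP i h
    · exact hQ i h
  · intro i hi
    rcases List.mem_append.1 hi with h | h
    · exact hQ i h
    · exact hP i h
  · rw [WP_append, WP_append, Matrix.trace_mul_comm]

theorem nlp_ins (P Q : List ℕ) (hP : ∀ i ∈ P, i + 1 < M) (hQ : ∀ i ∈ Q, i + 1 < M) (i : ℕ)
    (hi : i + 1 < M) :
    nlp M (P ++ Q) ≤ nlp M (P ++ i :: Q) + 1 ∧ nlp M (P ++ i :: Q) ≤ nlp M (P ++ Q) + 1 := by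
  have hQ' : ∀ j ∈ i :: Q, j + 1 < M := by
    intro j hj
    rcases List.mem_cons.1 hj with rfl | h
    · exact hi
    · exact hQ j h
  rw [nlp_cyc P Q hP hQ, nlp_cyc P (i :: Q) hP hQ', List.cons_append]
  apply nlp_cons _ _ i hi
  intro j hj
  rcases List.mem_append.1 hj with h | h
  · exact hQ j h
  · exact hP j h

theorem mem_app {P Q : List ℕ} (hP : ∀ i ∈ P, i + 1 < M) (hQ : ∀ i ∈ Q, i + 1 < M) :
    ∀ i ∈ P ++ Q, i + 1 < M := by
  intro i hi
  rcases List.mem_append.1 hi with h | h
  · exact hP i h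
  · exact hQ i h

theorem mem_con {Q : List ℕ} (hQ : ∀ i ∈ Q, i + 1 < M) {j : ℕ} (hj : j + 1 < M) :
    ∀ i ∈ j :: Q, i + 1 < M := by
  intro i hi
  rcases List.mem_cons.1 hi with rfl | h
  · exact hj
  · exact hQ i h

theorem mem_rep {Q : List ℕ} (hQ : ∀ i ∈ Q, i + 1 < M) (q : ℕ) :
    ∀ i ∈ (List.replicate q Q).flatten, i + 1 < M := by
  intro i hi
  rw [List.mem_flatten] at hi
  obtain ⟨l, hl, hi⟩ := hi
  rw [List.mem_replicate] at hl
  rw [hl.2] at hi
  exact hQ i hi

theorem rep_ins (P Q : List ℕ) (hP : ∀ i ∈ P, i + 1 < M) (hQ : ∀ i ∈ Q, i + 1 < M) (i : ℕ)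
    (hi : i + 1 < M) (q : ℕ) : ∀ X : List ℕ, (∀ i ∈ X, i + 1 < M) →
    nlp M (X ++ (List.replicate q (P ++ Q)).flatten) ≤
      nlp M (X ++ (List.replicate q (P ++ i :: Q)).flatten) + q ∧
    nlp M (X ++ (List.replicate q (P ++ i :: Q)).flatten) ≤
      nlp M (X ++ (List.replicate q (P ++ Q)).flatten) + q := by
  induction q with
  | zero =>
    intro X _
    simp
  | succ q ih =>
    intro X hX
    have h1 := ih (X ++ (P ++ i :: Q)) (mem_app hX (mem_app hP (mem_con hQ hi)))
    have h2 := nlp_ins (X ++ P) (Q ++ (List.replicate q (P ++ Q)).flatten) (mem_app hX hP)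
      (mem_app hQ (mem_rep (mem_app hP hQ) q)) i hi
    have e1 : X ++ (List.replicate (q+1) (P ++ Q)).flatten =
        (X ++ P) ++ (Q ++ (List.replicate q (P ++ Q)).flatten) := by
      rw [List.replicate_succ, List.flatten_cons]
      simp only [List.append_assoc]
    have e2 : X ++ (List.replicate (q+1) (P ++ i :: Q)).flatten =
        (X ++ (P ++ i :: Q)) ++ (List.replicate q (P ++ i :: Q)).flatten := by
      rw [List.replicate_succ, List.flatten_cons]
      simp only [List.append_assoc]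
    have e3 : (X ++ P) ++ i :: (Q ++ (List.replicate q (P ++ Q)).flatten) =
        (X ++ (P ++ i :: Q)) ++ (List.replicate q (P ++ Q)).flatten := by
      simp only [List.append_assoc, List.cons_append]
    rw [e3] at h2
    rw [e1, e2]
    omega

theorem nlp_rep (Q : List ℕ) (hQ : ∀ i ∈ Q, i + 1 < M) {q : ℕ} (hq : 1 ≤ q) :
    nlp M (List.replicate q Q).flatten = esn M Q + q * inn M Q := by
  have h1 := trace_nlp (N := 2) _ (mem_rep hQ q) (by norm_num)
  rw [WP_flatten, List.map_replicate, List.prod_replicate, trace_N Q hQ (by norm_num) hq] at h1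
  have h2 : (2 : ℕ) ^ (esn M Q + q * inn M Q) = 2 ^ nlp M (List.replicate q Q).flatten := by
    exact_mod_cast h1
  exact (Nat.pow_right_injective le_rfl h2).symm

/-- the circles of two states which differ at one crossing -/
theorem esn_ins (P Q : List ℕ) (hP : ∀ i ∈ P, i + 1 < M) (hQ : ∀ i ∈ Q, i + 1 < M) (i : ℕ)
    (hi : i + 1 < M) :
    (inn M (P ++ i :: Q) = inn M (P ++ Q) + 1 ∧
      (esn M (P ++ i :: Q) = esn M (P ++ Q) ∨ esn M (P ++ i :: Q) + 2 = esn M (P ++ Q))) ∨
    (inn M (P ++ Q) = inn M (P ++ i :: Q) + 1 ∧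
      (esn M (P ++ i :: Q) = esn M (P ++ Q) ∨ esn M (P ++ i :: Q) = esn M (P ++ Q) + 2)) := by
  have m1 := mem_app hP hQ
  have m2 := mem_app hP (mem_con hQ hi)
  obtain ⟨a1, a2, a3, -⟩ := esn_inn (P ++ Q) m1
  obtain ⟨b1, b2, b3, -⟩ := esn_inn (P ++ i :: Q) m2
  have key : ∀ q, 1 ≤ q → esn M (P ++ Q) + q * inn M (P ++ Q) ≤
      esn M (P ++ i :: Q) + q * inn M (P ++ i :: Q) + q ∧
      esn M (P ++ i :: Q) + q * inn M (P ++ i :: Q) ≤ esn M (P ++ Q) + q * inn M (P ++ Q) + q := by
    intro q hq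
    have h1 := rep_ins P Q hP hQ i hi q [] (by simp)
    rw [List.nil_append, List.nil_append, nlp_rep _ m1 hq, nlp_rep _ m2 hq] at h1
    exact h1
  have k1 := key 1 le_rfl
  have k2 := key (M + 1) (by omega)
  have hlen : (P ++ i :: Q).length = (P ++ Q).length + 1 := by
    simp only [List.length_append, List.length_cons]
    omega
  rw [hlen] at b3
  set e := esn M (P ++ Q)
  set n := inn M (P ++ Q)
  set e' := esn M (P ++ i :: Q)
  set n' := inn M (P ++ i :: Q)
  have c1 : n' ≤ n + 1 := by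
    by_contra hcon
    have h1 : (M + 1) * (n + 2) ≤ (M + 1) * n' := Nat.mul_le_mul_left _ (by omega)
    have h2 : (M + 1) * (n + 2) = (M + 1) * n + (M + 1) + (M + 1) := by ring
    omega
  have c2 : n ≤ n' + 1 := by
    by_contra hcon
    have h1 : (M + 1) * (n' + 2) ≤ (M + 1) * n := Nat.mul_le_mul_left _ (by omega)
    have h2 : (M + 1) * (n' + 2) = (M + 1) * n' + (M + 1) + (M + 1) := by ring
    omega
  omega

end nlp

section lex

variable {M : ℕ}

/-- the exponent of a state -/
noncomputable def dlt (M : ℕ) (t : ℤ × List ℕ) : ℤ := t.1 + 2 * (inn M t.2 : ℤ)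

/-- comparison of two states -/
def LexLe (M : ℕ) (s t : ℤ × List ℕ) : Prop :=
  dlt M s < dlt M t ∨ (dlt M s = dlt M t ∧ esn M s.2 ≤ esn M t.2)

/-- strict comparison of two states -/
def LexLt (M : ℕ) (s t : ℤ × List ℕ) : Prop :=
  dlt M s < dlt M t ∨ (dlt M s = dlt M t ∧ esn M s.2 < esn M t.2)

theorem LexLe.trans {r s t : ℤ × List ℕ} (h : LexLe M r s) (h' : LexLe M s t) : LexLe M r t := by
  unfold LexLe at *
  omega

theorem LexLe.trans_lt {r s t : ℤ × List ℕ} (h : LexLe M r s) (h' : LexLt M s t) : LexLt M r t := by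
  unfold LexLe LexLt at *
  omega

theorem LexLe.refl (t : ℤ × List ℕ) : LexLe M t t := Or.inr ⟨rfl, le_rfl⟩

/-- the `A`-smoothing of a letter -/
def oA : Option Bool × ℕ → ℤ × List ℕ
  | (some true, _) => (1, [])
  | (some false, i) => (1, [i])
  | (none, i) => (0, [i])

/-- the `B`-smoothing of a letter -/
def oB : Option Bool × ℕ → ℤ × List ℕ
  | (some true, i) => (-1, [i])
  | (some false, _) => (-1, [])
  | (none, i) => (0, [i])

/-- the `A`-state of a word -/
def AW : List (Option Bool × ℕ) → ℤ × List ℕ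
  | [] => (0, [])
  | x :: w => ((oA x).1 + (AW w).1, (oA x).2 ++ (AW w).2)

theorem opts_cases (x : Option Bool × ℕ) (o : ℤ × List ℕ) (ho : o ∈ opts x) :
    o = oA x ∨ (x.1 ≠ none ∧ o = oB x) := by
  obtain ⟨a, i⟩ := x
  rcases a with _ | b
  · left
    simp only [opts, List.mem_singleton] at ho
    exact ho
  · cases b
    · simp only [opts, List.mem_cons, List.not_mem_nil, or_false] at ho
      rcases ho with rfl | rfl
      · right; exact ⟨by simp, rfl⟩
      · left; rfl
    · simp only [opts, List.mem_cons, List.not_mem_nil, or_false] at ho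
      rcases ho with rfl | rfl
      · left; rfl
      · right; exact ⟨by simp, rfl⟩

theorem oA_mem (x : Option Bool × ℕ) : oA x ∈ opts x := by
  obtain ⟨a, i⟩ := x
  rcases a with _ | b
  · simp [opts, oA]
  · cases b <;> simp [opts, oA]

theorem oB_mem (x : Option Bool × ℕ) : oB x ∈ opts x := by
  obtain ⟨a, i⟩ := x
  rcases a with _ | b
  · simp [opts, oB]
  · cases b <;> simp [opts, oB]

theorem AW_mem (w : List (Option Bool × ℕ)) : AW w ∈ trm w := by
  induction w with
  | nil => simp [AW, trm]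
  | cons x w ih =>
    rw [trm, List.mem_flatMap]
    exact ⟨oA x, oA_mem x, List.mem_map.2 ⟨AW w, ih, rfl⟩⟩

/-- changing the smoothing of one crossing from `A` to `B` -/
theorem lex_flip (x : Option Bool × ℕ) (hx : x.2 + 1 < M) (hx' : x.1 ≠ none) (c : ℤ)
    (P Q : List ℕ) (hP : ∀ i ∈ P, i + 1 < M) (hQ : ∀ i ∈ Q, i + 1 < M) :
    LexLe M (c + (oB x).1, P ++ (oB x).2 ++ Q) (c + (oA x).1, P ++ (oA x).2 ++ Q) ∧
    (nlp M ((P ++ (oB x).2 ++ Q) ++ (P ++ (oA x).2 ++ Q)) <
      nlp M ((P ++ (oA x).2 ++ Q) ++ (P ++ (oA x).2 ++ Q)) →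
      LexLt M (c + (oB x).1, P ++ (oB x).2 ++ Q) (c + (oA x).1, P ++ (oA x).2 ++ Q)) := by
  obtain ⟨a, i⟩ := x
  have hi : i + 1 < M := hx
  have h := esn_ins P Q hP hQ i hi
  have m1 := mem_app hP hQ
  have m2 := mem_app hP (mem_con hQ hi)
  have r1 := nlp_rep (P ++ Q) m1 (q := 2) (by norm_num)
  have r2 := nlp_rep (P ++ i :: Q) m2 (q := 2) (by norm_num)
  have e1 : ∀ X : List ℕ, (List.replicate 2 X).flatten = X ++ X := by
    intro X
    simp [List.replicate_succ]
  rw [e1] at r1 r2
  rcases a with _ | b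
  · exact absurd rfl hx'
  · cases b
    · -- crossing of the second kind: `A` is the hook
      have eA : P ++ (oA (some false, i)).2 ++ Q = P ++ i :: Q := by simp [oA]
      have eB : P ++ (oB (some false, i)).2 ++ Q = P ++ Q := by simp [oB]
      have n1 := nlp_ins (P ++ Q ++ P) Q (mem_app m1 hP) hQ i hi
      have f1 : (P ++ Q ++ P) ++ Q = (P ++ Q) ++ (P ++ Q) := by simp only [List.append_assoc]
      have f2 : (P ++ Q ++ P) ++ i :: Q = (P ++ Q) ++ (P ++ i :: Q) := by
        simp only [List.append_assoc]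
      rw [f1, f2] at n1
      rw [eA, eB]
      unfold LexLe LexLt dlt
      have g1 : (oA (some false, i)).1 = 1 := rfl
      have g2 : (oB (some false, i)).1 = -1 := rfl
      simp only [g1, g2]
      constructor
      · omega
      · intro h5
        omega
    · have eA : P ++ (oA (some true, i)).2 ++ Q = P ++ Q := by simp [oA]
      have eB : P ++ (oB (some true, i)).2 ++ Q = P ++ i :: Q := by simp [oB]
      have n1 := nlp_ins ((P ++ i :: Q) ++ P) Q (mem_app m2 hP) hQ i hi
      have f1 : ((P ++ i :: Q) ++ P) ++ Q = (P ++ i :: Q) ++ (P ++ Q) := by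
        simp only [List.append_assoc]
      have f2 : ((P ++ i :: Q) ++ P) ++ i :: Q = (P ++ i :: Q) ++ (P ++ i :: Q) := by
        simp only [List.append_assoc]
      rw [f1, f2] at n1
      rw [eA, eB]
      unfold LexLe LexLt dlt
      have g1 : (oA (some true, i)).1 = 1 := rfl
      have g2 : (oB (some true, i)).1 = -1 := rfl
      simp only [g1, g2]
      constructor
      · omega
      · intro h5
        omega

theorem LexLe.shift {s t : ℤ × List ℕ} (h : LexLe M s t) (c : ℤ) :
    LexLe M (c + s.1, s.2) (c + t.1, t.2) := by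
  unfold LexLe dlt at *
  simp only at *
  omega

theorem trm_mem' (w : List (Option Bool × ℕ)) (hw : ∀ x ∈ w, x.2 + 1 < M) (t : ℤ × List ℕ)
    (ht : t ∈ trm w) : ∀ i ∈ t.2, i + 1 < M := trm_mem w hw t ht

/-- every state is at most the `A`-state -/
theorem lex_AW (w : List (Option Bool × ℕ)) (hw : ∀ x ∈ w, x.2 + 1 < M) :
    ∀ P Q : List ℕ, (∀ i ∈ P, i + 1 < M) → (∀ i ∈ Q, i + 1 < M) → ∀ t ∈ trm w,
      LexLe M (t.1, P ++ t.2 ++ Q) ((AW w).1, P ++ (AW w).2 ++ Q) := by
  induction w with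
  | nil =>
    intro P Q _ _ t ht
    simp only [trm, List.mem_singleton] at ht
    subst ht
    exact LexLe.refl _
  | cons x w ih =>
    intro P Q hP hQ t ht
    have hw' : ∀ y ∈ w, y.2 + 1 < M := fun y hy => hw y (List.mem_cons_of_mem _ hy)
    have hx := hw x List.mem_cons_self
    rw [trm, List.mem_flatMap] at ht
    obtain ⟨o, ho, ht⟩ := ht
    rw [List.mem_map] at ht
    obtain ⟨u, hu, rfl⟩ := ht
    have hom := opts_mem x hx o ho
    have h1 := (ih hw' (P ++ o.2) Q (mem_app hP hom) hQ u hu).shift o.1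
    have e1 : P ++ (o.2 ++ u.2) ++ Q = (P ++ o.2) ++ u.2 ++ Q := by simp only [List.append_assoc]
    have hAm := trm_mem w hw' _ (AW_mem w)
    rw [e1]
    refine h1.trans ?_
    rcases opts_cases x o ho with rfl | ⟨hx', rfl⟩
    · have e2 : (P ++ (oA x).2) ++ (AW w).2 ++ Q = P ++ ((oA x).2 ++ (AW w).2) ++ Q := by
        simp only [List.append_assoc]
      show LexLe M ((oA x).1 + (AW w).1, (P ++ (oA x).2) ++ (AW w).2 ++ Q)
        ((oA x).1 + (AW w).1, P ++ ((oA x).2 ++ (AW w).2) ++ Q)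
      rw [e2]
      exact LexLe.refl _
    · have h2 := (lex_flip x hx hx' (AW w).1 P ((AW w).2 ++ Q) hP (mem_app hAm hQ)).1
      have e2 : (P ++ (oB x).2) ++ (AW w).2 ++ Q = P ++ (oB x).2 ++ ((AW w).2 ++ Q) := by
        simp only [List.append_assoc]
      have e3 : P ++ ((oA x).2 ++ (AW w).2) ++ Q = P ++ (oA x).2 ++ ((AW w).2 ++ Q) := by
        simp only [List.append_assoc]
      show LexLe M ((oB x).1 + (AW w).1, (P ++ (oB x).2) ++ (AW w).2 ++ Q)
        ((oA x).1 + (AW w).1, P ++ ((oA x).2 ++ (AW w).2) ++ Q)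
      rw [e2, e3, add_comm (oB x).1, add_comm (oA x).1]
      exact h2

/-- a state which is not the `A`-state has a `B`-smoothing -/
theorem not_AW (w : List (Option Bool × ℕ)) : ∀ t ∈ trm w, t = AW w ∨
    ∃ w1 x w2 u1 u2, w = w1 ++ x :: w2 ∧ x.1 ≠ none ∧ u1 ∈ trm w1 ∧ u2 ∈ trm w2 ∧
      t = (u1.1 + ((oB x).1 + u2.1), u1.2 ++ ((oB x).2 ++ u2.2)) := by
  induction w with
  | nil =>
    intro t ht
    simp only [trm, List.mem_singleton] at ht
    left
    exact ht
  | cons x w ih =>
    intro t ht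
    rw [trm, List.mem_flatMap] at ht
    obtain ⟨o, ho, ht⟩ := ht
    rw [List.mem_map] at ht
    obtain ⟨u, hu, rfl⟩ := ht
    rcases opts_cases x o ho with rfl | ⟨hx', rfl⟩
    · rcases ih u hu with h | ⟨w1, y, w2, u1, u2, hw, hy, h1, h2, h3⟩
      · left
        rw [h]
        rfl
      · right
        refine ⟨x :: w1, y, w2, ((oA x).1 + u1.1, (oA x).2 ++ u1.2), u2, by rw [hw]; rfl, hy, ?_, h2, ?_⟩
        · rw [trm, List.mem_flatMap]
          exact ⟨oA x, oA_mem x, List.mem_map.2 ⟨u1, h1, rfl⟩⟩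
        · rw [h3]
          simp only [List.append_assoc, add_assoc]
    · right
      refine ⟨[], x, w, (0, []), u, rfl, hx', by simp [trm], hu, ?_⟩
      simp

/-- adequacy of a word: the list form -/
def AdL (M : ℕ) (w : List (Option Bool × ℕ)) : Prop :=
  ∀ w1 x w2, w = w1 ++ x :: w2 → x.1 ≠ none →
    nlp M (((AW w1).2 ++ (oB x).2 ++ (AW w2).2) ++ ((AW w1).2 ++ (oA x).2 ++ (AW w2).2)) <
      nlp M (((AW w1).2 ++ (oA x).2 ++ (AW w2).2) ++ ((AW w1).2 ++ (oA x).2 ++ (AW w2).2))

theorem AW_append (w1 w2 : List (Option Bool × ℕ)) :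
    AW (w1 ++ w2) = ((AW w1).1 + (AW w2).1, (AW w1).2 ++ (AW w2).2) := by
  induction w1 with
  | nil => simp [AW]
  | cons x w1 ih =>
    rw [List.cons_append, AW, ih, AW]
    simp only [List.append_assoc, add_assoc]

/-- all other states are strictly smaller if the word is adequate -/
theorem lex_strict (w : List (Option Bool × ℕ)) (hw : ∀ x ∈ w, x.2 + 1 < M) (had : AdL M w) :
    ∀ t ∈ trm w, t = AW w ∨ LexLt M t (AW w) := by
  intro t ht
  rcases not_AW w t ht with h | ⟨w1, x, w2, u1, u2, hww, hx', h1, h2, h3⟩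
  · left; exact h
  · right
    have hw1 : ∀ y ∈ w1, y.2 + 1 < M := fun y hy => hw y (by rw [hww]; exact List.mem_append_left _ hy)
    have hw2 : ∀ y ∈ w2, y.2 + 1 < M := fun y hy =>
      hw y (by rw [hww]; exact List.mem_append_right _ (List.mem_cons_of_mem _ hy))
    have hx : x.2 + 1 < M :=
      hw x (by rw [hww]; exact List.mem_append_right _ List.mem_cons_self)
    have hm1 := trm_mem w1 hw1 _ (AW_mem w1)
    have hm2 := trm_mem w2 hw2 _ (AW_mem w2)
    have hu2 := trm_mem w2 hw2 _ h2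
    have hoB := opts_mem x hx _ (oB_mem x)
    have s1 := (lex_AW w1 hw1 [] ((oB x).2 ++ u2.2) (by simp) (mem_app hoB hu2) u1 h1).shift
      ((oB x).1 + u2.1)
    have s2 := (lex_AW w2 hw2 ((AW w1).2 ++ (oB x).2) [] (mem_app hm1 hoB) (by simp) u2 h2).shift
      ((AW w1).1 + (oB x).1)
    have s3 := (lex_flip x hx hx' ((AW w1).1 + (AW w2).1) (AW w1).2 (AW w2).2 hm1 hm2).2
      (had w1 x w2 hww hx')
    rw [h3, hww, AW_append, AW]
    simp only [List.nil_append, List.append_nil] at s1 s2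
    have c1 : u1.1 + ((oB x).1 + u2.1) = (oB x).1 + u2.1 + u1.1 := by ring
    have c2 : (AW w1).1 + ((oA x).1 + (AW w2).1) = (AW w1).1 + (AW w2).1 + (oA x).1 := by ring
    rw [c1, c2]
    refine s1.trans_lt ?_
    have c3 : (oB x).1 + u2.1 + (AW w1).1 = (AW w1).1 + (oB x).1 + u2.1 := by ring
    have c4 : (AW w1).2 ++ ((oB x).2 ++ u2.2) = (AW w1).2 ++ (oB x).2 ++ u2.2 := by
      simp only [List.append_assoc]
    rw [c3, c4]
    refine s2.trans_lt ?_
    have c5 : (AW w1).1 + (oB x).1 + (AW w2).1 = (AW w1).1 + (AW w2).1 + (oB x).1 := by ring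
    have c6 : (AW w1).2 ++ ((oA x).2 ++ (AW w2).2) = (AW w1).2 ++ (oA x).2 ++ (AW w2).2 := by
      simp only [List.append_assoc]
    rw [c5, c6]
    exact s3

theorem oA_wt (x : Option Bool × ℕ) (hx : x.1 ≠ none) : (oB x).1 < (oA x).1 := by
  obtain ⟨a, i⟩ := x
  rcases a with _ | b
  · exact absurd rfl hx
  · cases b <;> simp [oA, oB]

/-- the weight of the `A`-state is the largest -/
theorem AW_max (w : List (Option Bool × ℕ)) : ∀ t ∈ trm w, t.1 ≤ (AW w).1 := by
  induction w with
  | nil =>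
    intro t ht
    simp only [trm, List.mem_singleton] at ht
    subst ht
    exact le_rfl
  | cons x w ih =>
    intro t ht
    rw [trm, List.mem_flatMap] at ht
    obtain ⟨o, ho, ht⟩ := ht
    rw [List.mem_map] at ht
    obtain ⟨u, hu, rfl⟩ := ht
    have h1 := ih u hu
    have h2 : o.1 ≤ (oA x).1 := by
      rcases opts_cases x o ho with rfl | ⟨hx', rfl⟩
      · exact le_rfl
      · exact (oA_wt x hx').le
    show o.1 + u.1 ≤ (oA x).1 + (AW w).1
    omega

/-- a sum over the states in which only the `A`-state contributes -/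
theorem sum_AW {R : Type*} [AddCommMonoid R] (w : List (Option Bool × ℕ)) : ∀ G : ℤ × List ℕ → R,
    (∀ t ∈ trm w, t.1 < (AW w).1 → G t = 0) → ((trm w).map G).sum = G (AW w) := by
  induction w with
  | nil =>
    intro G _
    simp [trm, AW]
  | cons x w ih =>
    intro G hG
    -- the contribution of one smoothing
    let F : ℤ × List ℕ → R := fun o => ((trm w).map (fun u => G (o.1 + u.1, o.2 ++ u.2))).sum
    have h0 : ((trm (x :: w)).map G).sum = ((opts x).map F).sum := by
      rw [trm]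
      generalize opts x = k
      induction k with
      | nil => simp
      | cons o k ihk =>
        rw [List.flatMap_cons, List.map_append, List.sum_append, ihk, List.map_cons, List.sum_cons,
          List.map_map]
        rfl
    have hA : F (oA x) = G (AW (x :: w)) := by
      apply ih (fun u => G ((oA x).1 + u.1, (oA x).2 ++ u.2))
      intro u hu hlt
      apply hG
      · rw [trm, List.mem_flatMap]
        exact ⟨oA x, oA_mem x, List.mem_map.2 ⟨u, hu, rfl⟩⟩
      · show (oA x).1 + u.1 < (oA x).1 + (AW w).1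
        omega
    have hB : x.1 ≠ none → F (oB x) = 0 := by
      intro hx'
      apply List.sum_eq_zero
      intro y hy
      rw [List.mem_map] at hy
      obtain ⟨u, hu, rfl⟩ := hy
      apply hG
      · rw [trm, List.mem_flatMap]
        exact ⟨oB x, oB_mem x, List.mem_map.2 ⟨u, hu, rfl⟩⟩
      · show (oB x).1 + u.1 < (oA x).1 + (AW w).1
        have h1 := AW_max w u hu
        have h2 := oA_wt x hx'
        omega
    rw [h0, ← hA]
    obtain ⟨a, i⟩ := x
    rcases a with _ | b
    · simp [opts, oA]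
    · cases b
      · have e : opts (some false, i) = [oB (some false, i), oA (some false, i)] := rfl
        rw [e, List.map_cons, List.map_cons, List.map_nil, List.sum_cons, List.sum_cons, List.sum_nil,
          hB (by simp), zero_add, add_zero]
      · have e : opts (some true, i) = [oA (some true, i), oB (some true, i)] := rfl
        rw [e, List.map_cons, List.map_cons, List.map_nil, List.sum_cons, List.sum_cons, List.sum_nil,
          hB (by simp), add_zero, add_zero]

end lex

end Pool.Agent.TH561.AD
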