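import Pool.Agent.TH561.AD.Exact
import Pool.Agent.TH561.FP.PairM

/-!
# Orders of vanishing of sums of `q`-th powers times twisted Chebyshev polynomials
-/

set_option autoImplicit false

namespace Pool.Agent.TH561.AD

open Pool.Agent.H891R2.Jones Pool.Agent.TH561 Pool.Agent.TH561.PK Pool.Agent.TH561.FP Finset
  LaurentPolynomial

variable (p : ℕ) [hp : Fact p.Prime]

theorem T_sub_one_dvd' (n : ℤ) : (T 1 - 1 : (ZMod p)[T;T⁻¹]) ∣ T n - 1 := by
  have h := map_dvd (red p) (T_sub_one_dvd n)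
  rwa [map_sub, map_sub, map_one, red_T, red_T] at h

theorem dvd_sub_eps (f : (ZMod p)[T;T⁻¹]) : (T 1 - 1 : (ZMod p)[T;T⁻¹]) ∣ f - C (eps p f) := by
  induction f using LaurentPolynomial.induction_on' with
  | add f g hf hg =>
    rw [map_add, map_add]
    have : f + g - (C (eps p f) + C (eps p g)) = (f - C (eps p f)) + (g - C (eps p g)) := by ring
    rw [this]
    exact dvd_add hf hg
  | C_mul_T n a =>
    rw [map_mul, eps_T, eps_C, mul_one]
    have : C a * T n - C a = C a * (T n - 1 : (ZMod p)[T;T⁻¹]) := by ring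
    rw [this]
    exact (T_sub_one_dvd' p n).mul_left _

theorem eps_X : eps p (T 1 - 1) = 0 := by
  rw [map_sub, eps_T, map_one, sub_self]

theorem X_ne : (T 1 - 1 : (ZMod p)[T;T⁻¹]) ≠ 0 := by
  have h : Top (T 1 - T 0 : (ZMod p)[T;T⁻¹]) 1 := top_diff (by norm_num)
  rw [T_zero] at h
  exact h.ne_zero

theorem dvd_iff_eps (f : (ZMod p)[T;T⁻¹]) : (T 1 - 1 : (ZMod p)[T;T⁻¹]) ∣ f ↔ eps p f = 0 := by
  constructor
  · rintro ⟨g, rfl⟩
    rw [map_mul, eps_X, zero_mul]
  · intro h
    have h1 := dvd_sub_eps p f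
    rwa [h, map_zero, sub_zero] at h1

theorem eps_dF : eps p (dF (ZMod p)) = -2 := by
  unfold dF
  rw [map_sub, map_neg, eps_T, eps_T]
  norm_num

/-- the factor `d` can be cancelled -/
theorem dvd_of_dF (hp2 : p ≠ 2) : ∀ (j : ℕ) (g : (ZMod p)[T;T⁻¹]),
    (T 1 - 1 : (ZMod p)[T;T⁻¹]) ^ j ∣ dF (ZMod p) * g → (T 1 - 1 : (ZMod p)[T;T⁻¹]) ^ j ∣ g
  | 0, g, _ => by simp
  | (j+1), g, h => by
    obtain ⟨g', rfl⟩ := dvd_of_dF hp2 j g ((pow_dvd_pow _ (Nat.le_succ j)).trans h)
    obtain ⟨u, hu⟩ := h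
    have h1 : dF (ZMod p) * g' = (T 1 - 1) * u := by
      apply mul_left_cancel₀ (pow_ne_zero j (X_ne p))
      rw [pow_succ] at hu
      linear_combination hu
    have h2 := congrArg (eps p) h1
    rw [map_mul, map_mul, eps_X, zero_mul, eps_dF] at h2
    have h3 : eps p g' = 0 := by
      rcases mul_eq_zero.1 h2 with h3 | h3
      · exfalso
        have h4 : ((2 : ℕ) : ZMod p) = 0 := by
          push_cast
          linear_combination -h3
        rw [ZMod.natCast_eq_zero_iff] at h4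
        exact hp2 ((Nat.prime_dvd_prime_iff_eq hp.out Nat.prime_two).1 h4)
      · exact h3
    rw [pow_succ]
    exact mul_dvd_mul_left _ ((dvd_iff_eps p g').2 h3)

/-- a short Laurent polynomial does not vanish to a high order -/
theorem zero_of_span {g : (ZMod p)[T;T⁻¹]} (t b : ℤ) (w : ℕ) (h1 : ∀ n, g.coeff n ≠ 0 → n ≤ t)
    (h2 : ∀ n, g.coeff n ≠ 0 → b ≤ n) (hw : t - b ≤ w)
    (h : (T 1 - 1 : (ZMod p)[T;T⁻¹]) ^ (w + 1) ∣ g) : g = 0 := by
  by_contra hg
  obtain ⟨u, rfl⟩ := h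
  have hu : u ≠ 0 := by
    rintro rfl
    exact hg (mul_zero _)
  obtain ⟨x, hx⟩ := exists_top u hu
  obtain ⟨y, hy⟩ := exists_bot u hu
  have hX : Top (T 1 - 1 : (ZMod p)[T;T⁻¹]) 1 := by
    have h : Top (T 1 - T 0 : (ZMod p)[T;T⁻¹]) 1 := top_diff (by norm_num)
    rwa [T_zero] at h
  have hX' : Bot (T 1 - 1 : (ZMod p)[T;T⁻¹]) 0 := by
    unfold PK.Bot
    have e : invert (T 1 - 1 : (ZMod p)[T;T⁻¹]) = -(T 0 - T (-1)) := by
      rw [map_sub, invert_T, map_one, T_zero]
      ring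
    rw [e, neg_zero]
    exact Top.neg (top_diff (by norm_num))
  have h3 := (hX.pow (w + 1)).mul hx
  have h4 := (hX'.pow (w + 1)).mul hy
  have h5 := h1 _ h3.1
  have h6 := h2 _ h4.coeff
  have h7 : y ≤ x := hy.le hx.1
  push_cast at h5 h6
  linarith

/-- the width of the exponents -/
def wid (a : ℤ) (M : ℕ) : ℕ := a.natAbs * (M * (M + 2)) + 4 * M

theorem hn_coeff (a : ℤ) (n M : ℕ) (hnM : n ≤ M) (m : ℤ) (h : (hn p a n).coeff m ≠ 0) :
    m ≤ max 0 a * (M * (M + 2)) + 2 * M ∧ min 0 a * (M * (M + 2)) - 2 * M ≤ m := by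
  have h1 := PK.Top.le (hn_top p a n) h
  have h2 := (hn_bot p a n).le h
  have h3 : (n : ℤ) ≤ M := by exact_mod_cast hnM
  have h0 : (0 : ℤ) ≤ n := by positivity
  have h4 : (n : ℤ) * (n + 2) ≤ M * (M + 2) := mul_le_mul h3 (by linarith) (by linarith) (by linarith)
  have h5 : (0 : ℤ) ≤ n * (n + 2) := by positivity
  constructor
  · have h6 : a * (n * (n + 2)) ≤ max 0 a * (M * (M + 2)) :=
      calc a * (n * (n + 2)) ≤ max 0 a * (n * (n + 2)) := mul_le_mul_of_nonneg_right (le_max_right _ _) h5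
        _ ≤ _ := mul_le_mul_of_nonneg_left h4 (le_max_left _ _)
    linarith
  · have h6 : min 0 a * (M * (M + 2)) ≤ a * (n * (n + 2)) :=
      calc min 0 a * (M * (M + 2)) ≤ min 0 a * (n * (n + 2)) :=
            mul_le_mul_of_nonpos_left h4 (min_le_left _ _)
        _ ≤ _ := mul_le_mul_of_nonneg_right (min_le_right _ _) h5
    linarith

/-- the order of vanishing -/
theorem alg_ord (k : ℕ) {M : ℕ} (a : ℤ) (u : ℕ → (ZMod p)[T;T⁻¹])
    (hq : 2 * M * (a.natAbs * M + 1) < p ^ k) (hq' : wid a M < p ^ k)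
    (hpar : ∀ n, n % 2 ≠ M % 2 → u n = 0) (r : ℕ)
    (h : (T 1 - 1 : (ZMod p)[T;T⁻¹]) ^ (p ^ k * r + wid a M + 1) ∣
      ∑ n ∈ range (M + 1), (u n) ^ (p ^ k) * hn p a n) :
    ∀ n ∈ range (M + 1), (T 1 - 1 : (ZMod p)[T;T⁻¹]) ^ (r + 1) ∣ u n := by
  have key : ∀ j, j ≤ r + 1 → ∀ n ∈ range (M + 1), (T 1 - 1 : (ZMod p)[T;T⁻¹]) ^ j ∣ u n := by
    intro j
    induction j with
    | zero => intro _ n _; simp
    | succ j ih =>
      intro hj
      have ih := ih (by omega)
      have h1 : ∀ n, ∃ v, (n ∈ range (M + 1) → u n = (T 1 - 1) ^ j * v) ∧ (u n = 0 → v = 0) := by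
        intro n
        by_cases h0 : u n = 0
        · exact ⟨0, fun _ => by rw [h0, mul_zero], fun _ => rfl⟩
        · by_cases hn' : n ∈ range (M + 1)
          · obtain ⟨v, hv⟩ := ih n hn'
            exact ⟨v, fun _ => hv, fun h2 => absurd h2 h0⟩
          · exact ⟨0, fun h2 => absurd h2 hn', fun _ => rfl⟩
      choose v hv hv0 using h1
      have h2 : ∑ n ∈ range (M + 1), (u n) ^ (p ^ k) * hn p a n =
          (T 1 - 1) ^ (p ^ k * j) * ∑ n ∈ range (M + 1), (v n) ^ (p ^ k) * hn p a n := by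
        rw [Finset.mul_sum]
        refine Finset.sum_congr rfl fun n hn' => ?_
        rw [hv n hn', mul_pow, ← pow_mul, mul_comm j]
        ring
      rw [h2] at h
      have h3 : (T 1 - 1 : (ZMod p)[T;T⁻¹]) ^ (wid a M + 1) ∣
          ∑ n ∈ range (M + 1), (v n) ^ (p ^ k) * hn p a n := by
        have h4 : (T 1 - 1 : (ZMod p)[T;T⁻¹]) ^ (p ^ k * j) * (T 1 - 1) ^ (wid a M + 1) ∣
            (T 1 - 1) ^ (p ^ k * j) * ∑ n ∈ range (M + 1), (v n) ^ (p ^ k) * hn p a n := by
          refine dvd_trans ?_ h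
          rw [← pow_add]
          apply pow_dvd_pow
          have : p ^ k * j ≤ p ^ k * r := Nat.mul_le_mul_left _ (by omega)
          omega
        exact (mul_dvd_mul_iff_left (pow_ne_zero _ (X_ne p))).1 h4
      have h5 : (T 1 - 1 : (ZMod p)[T;T⁻¹]) ^ (wid a M + 1) ∣
          ∑ n ∈ range (M + 1), (C (eps p (v n))) ^ (p ^ k) * hn p a n := by
        have h6 : (T 1 - 1 : (ZMod p)[T;T⁻¹]) ^ (wid a M + 1) ∣
            ∑ n ∈ range (M + 1), (v n - C (eps p (v n))) ^ (p ^ k) * hn p a n := by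
          refine Finset.dvd_sum fun n _ => ?_
          refine Dvd.dvd.mul_right ?_ _
          exact (pow_dvd_pow _ (by omega)).trans (pow_dvd_pow_of_dvd (dvd_sub_eps p (v n)) _)
        have h7 := dvd_sub h3 h6
        rw [← Finset.sum_sub_distrib] at h7
        convert h7 using 1
        refine Finset.sum_congr rfl fun n _ => ?_
        rw [sub_pow_char_pow]
        ring
      have h6 : ∑ n ∈ range (M + 1), (C (eps p (v n))) ^ (p ^ k) * hn p a n = 0 := by
        have hc : ∀ m, (∑ n ∈ range (M + 1), (C (eps p (v n))) ^ (p ^ k) * hn p a n).coeff m ≠ 0 →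
            m ≤ max 0 a * (M * (M + 2)) + 2 * M ∧ min 0 a * (M * (M + 2)) - 2 * M ≤ m := by
          intro m hm
          have h7 : ∃ n ∈ range (M + 1), ((C (eps p (v n))) ^ (p ^ k) * hn p a n).coeff m ≠ 0 := by
            by_contra hcon
            push Not at hcon
            apply hm
            rw [AddMonoidAlgebra.coeff_sum, Finsupp.finsetSum_apply]
            exact Finset.sum_eq_zero hcon
          obtain ⟨n, hn1, hn2⟩ := h7
          apply hn_coeff p a n M (by rw [Finset.mem_range] at hn1; omega) m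
          intro h8
          apply hn2
          rw [← map_pow, ← smul_eq_C_mul]
          show ((eps p (v n)) ^ (p ^ k) • hn p a n).coeff m = 0
          rw [AddMonoidAlgebra.coeff_smul, Finsupp.smul_apply, h8, smul_zero]
        refine zero_of_span p _ _ (wid a M) (fun m hm => (hc m hm).1) (fun m hm => (hc m hm).2) ?_ h5
        unfold wid
        push_cast
        have h8 : |a| = max 0 a - min 0 a := by
          rcases le_total 0 a with h9 | h9
          · rw [max_eq_right h9, min_eq_left h9, abs_of_nonneg h9]; ring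
          · rw [max_eq_left h9, min_eq_right h9, abs_of_nonpos h9]; ring
        rw [h8]
        apply le_of_eq
        ring
      have h7 := alg_zero p a (fun n => C (eps p (v n))) hq (by
        intro n hn'
        simp only [hv0 n (hpar n hn'), map_zero]) h6
      intro n hn'
      rw [hv n hn', pow_succ]
      apply mul_dvd_mul_left
      rw [dvd_iff_eps]
      have h8 := congrArg (eps p) (h7 n hn')
      simpa only [eps_C, map_zero] using h8
  exact key (r + 1) le_rfl

end Pool.Agent.TH561.AD
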