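import Pool.Agent.TH561.AD.OrdA

/-!
# Two freely periodic knots and their quotients
-/

set_option autoImplicit false

namespace Pool.Agent.TH561.AD

open Pool.Agent.H891R2.Jones Pool.Agent.TH561 Pool.Agent.TH561.PK Pool.Agent.TH561.FP Finset
  LaurentPolynomial
open Pool.Agent.H832R3.VJ (Dia Separated)

section arith

/-- small numbers in the same class have the same square -/
theorem sq_of_class (q a s s' : ℤ) (N : ℕ) (hN : 0 < N) (hs : |s| ≤ N) (hs' : |s'| ≤ N)
    (hq : 2 * N * (|a| * N + 1) < q)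
    (h : (Core q a s ∧ Core q a s') ∨ SameClass q a s a s') : s ^ 2 = s' ^ 2 := by
  have hN1 : (1 : ℤ) ≤ N := by exact_mod_cast hN
  have ha0 : 0 ≤ |a| := abs_nonneg a
  have hm : ∀ x : ℤ, |x| ≤ N → |a * x| ≤ |a| * N := fun x hx => by
    rw [abs_mul]
    exact mul_le_mul_of_nonneg_left hx ha0
  have hbig : 2 * (N : ℤ) < q ∧ 2 * (|a| * N + 1) < q ∧ |a| * N + N < q := by
    have h1 : 0 ≤ |a| * N := by positivity
    refine ⟨?_, ?_, ?_⟩ <;> nlinarith
  obtain ⟨hb1, hb2, hb3⟩ := hbig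
  have z : ∀ x : ℤ, q ∣ x → |x| < q → x = 0 := fun x hx h' => Int.eq_zero_of_abs_lt_dvd hx h'
  rcases h with ⟨h1, h2⟩ | ⟨ε, hε, h⟩
  · have one : ∀ x : ℤ, |x| ≤ N → Core q a x → x ^ 2 = 1 := by
      intro x hx hc
      have hx1 := abs_le.1 hx
      have hx2 := abs_le.1 (hm x hx)
      rcases hc with hc | hc | hc | hc
      · have := z _ hc (by rw [abs_lt]; constructor <;> linarith)
        have e : x = 1 := by linarith
        rw [e]; norm_num
      · have := z _ hc (by rw [abs_lt]; constructor <;> linarith)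
        have e : x = -1 := by linarith
        rw [e]; norm_num
      · have := z _ hc (by rw [abs_lt]; constructor <;> linarith)
        have e : a * x = 1 := by linarith
        rcases Int.eq_one_or_neg_one_of_mul_eq_one' e with ⟨-, h3⟩ | ⟨-, h3⟩ <;> rw [h3] <;> norm_num
      · have := z _ hc (by rw [abs_lt]; constructor <;> linarith)
        have e : a * (-x) = 1 := by linarith
        rcases Int.eq_one_or_neg_one_of_mul_eq_one' e with ⟨-, h3⟩ | ⟨-, h3⟩
        · have : x = -1 := by linarith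
          rw [this]; norm_num
        · have : x = 1 := by linarith
          rw [this]; norm_num
    rw [one s hs h1, one s' hs' h2]
  · have hx1 := abs_le.1 hs
    have hx2 := abs_le.1 hs'
    have hy1 := abs_le.1 (hm s hs)
    have hy2 := abs_le.1 (hm s' hs')
    rcases h with ⟨h1, -⟩ | ⟨h1, h2⟩
    · rcases hε with rfl | rfl
      · have := z _ h1 (by rw [abs_lt]; constructor <;> linarith)
        have e : s' = s := by linarith
        rw [e]
      · have := z _ h1 (by rw [abs_lt]; constructor <;> linarith)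
        have e : s' = -s := by linarith
        rw [e]; ring
    · have e1 : s' = ε * (a * s) := by
        rcases hε with rfl | rfl
        · have := z _ h1 (by rw [abs_lt]; constructor <;> linarith)
          linarith
        · have := z _ h1 (by rw [abs_lt]; constructor <;> linarith)
          linarith
      have e2 : a * s' = ε * s := by
        rcases hε with rfl | rfl
        · have := z _ h2 (by rw [abs_lt]; constructor <;> linarith)
          linarith
        · have := z _ h2 (by rw [abs_lt]; constructor <;> linarith)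
          linarith
      have hee : ε * ε = 1 := by rcases hε with rfl | rfl <;> rfl
      have e3 : s * (a ^ 2 - 1) = 0 := by
        linear_combination (-(ε * a)) * e1 + ε * e2 + (s * (1 - a ^ 2)) * hee
      rcases mul_eq_zero.1 e3 with h3 | h3
      · rw [h3] at e1 ⊢
        rw [e1]; ring
      · rw [e1]
        linear_combination (-(s ^ 2 * a ^ 2)) * hee - s ^ 2 * h3

end arith

section pairs

variable (p : ℕ) [hp : Fact p.Prime]

theorem rr_gt {M : ℕ} {B : List (Option Bool × ℕ)} (hB : ∀ x ∈ B, x.2 + 1 < M) (n : ℕ) (h : M < n) :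
    rr p M B n = 0 := by
  unfold rr
  refine Finset.sum_eq_zero fun i _ => ?_
  rw [mb_gt _ _ (lt_of_le_of_lt (esn_le (gen_mem hB i)) h)]
  simp

theorem RR_gt {M : ℕ} {B : List (Option Bool × ℕ)} (hB : ∀ x ∈ B, x.2 + 1 < M) (w : ℤ) (n : ℕ)
    (h : M < n) : RR p M B w n = 0 := by
  unfold RR
  rw [rr_gt p hB n h, mul_zero]

/-- longer sums -/
theorem sum_ext {M N : ℕ} (hMN : M ≤ N) {B : List (Option Bool × ℕ)} (hB : ∀ x ∈ B, x.2 + 1 < M)
    (w : ℤ) (q : ℕ) (hq : q ≠ 0) (f : ℕ → (ZMod p)[T;T⁻¹]) :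
    ∑ n ∈ range (M + 1), (RR p M B w n) ^ q * f n = ∑ n ∈ range (N + 1), (RR p M B w n) ^ q * f n := by
  apply Finset.sum_subset
  · intro x hx
    rw [Finset.mem_range] at hx ⊢
    omega
  · intro n _ hn'
    rw [Finset.mem_range] at hn'
    rw [RR_gt p hB w n (by omega), zero_pow hq, zero_mul]

variable {M l M' l' : ℕ}

/-- the data of a pair -/
theorem pair_setup (k : ℕ) (hp2 : p ≠ 2) (hl : 0 < l) (hM : 0 < M) (v : Fin l → Elem M)
    (hl' : 0 < l') (hM' : 0 < M') (v' : Fin l' → Elem M') (a : ℤ)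
    (dir : Fin (p ^ k * l + a.natAbs * (M * (M - 1))) × Fin M → Bool)
    (ho : Oriented (freeWord (p ^ k) v a) dir) (hK : IsKnot (PK.annular (freeWord (p ^ k) v a) dir))
    (dir' : Fin (p ^ k * l' + a.natAbs * (M' * (M' - 1))) × Fin M' → Bool)
    (ho' : Oriented (freeWord (p ^ k) v' a) dir')
    (hK' : IsKnot (PK.annular (freeWord (p ^ k) v' a) dir')) (hpos : 0 < p ^ k)
    (N : ℕ) (hN : N = max M M')
    (hs : (PK.linking (fst hl hpos dir) ⟨0, hl⟩) ^ 2 = (PK.linking (fst hl' hpos dir') ⟨0, hl'⟩) ^ 2) :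
    M % 2 = M' % 2 ∧
    dF (ZMod p) * (red p (PK.annular (freeWord (p ^ k) v a) dir).fPoly -
        red p (PK.annular (freeWord (p ^ k) v' a) dir').fPoly) =
      T (-(3 * a * (PK.linking (fst hl hpos dir) ⟨0, hl⟩) ^ 2)) * ∑ n ∈ range (N + 1),
        (RR p M (toW v) (PK.annular v (fst hl hpos dir)).writhe n -
          RR p M' (toW v') (PK.annular v' (fst hl' hpos dir')).writhe n) ^ (p ^ k) * hn p a n ∧
    ∀ (b : ℤ) (d : Fin (1 * l + b.natAbs * (M * (M - 1))) × Fin M → Bool)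
      (d' : Fin (1 * l' + b.natAbs * (M' * (M' - 1))) × Fin M' → Bool),
      Oriented (freeWord 1 v b) d → Oriented (freeWord 1 v' b) d' →
      dF (ZMod p) * (red p (PK.annular (freeWord 1 v b) d).fPoly -
          red p (PK.annular (freeWord 1 v' b) d').fPoly) =
        T (-(3 * b * (PK.linking (fst hl hpos dir) ⟨0, hl⟩) ^ 2)) * ∑ n ∈ range (N + 1),
          (RR p M (toW v) (PK.annular v (fst hl hpos dir)).writhe n -
            RR p M' (toW v') (PK.annular v' (fst hl' hpos dir')).writhe n) * hn p b n := by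
  have hodd : Odd (p ^ k) := (hp.out.odd_of_ne_two hp2).pow
  obtain ⟨hv, hw⟩ := knot_writhe hl hM (p ^ k) hodd v a dir ho hK
  obtain ⟨c, hc⟩ := linking_par (fst hl hpos dir) ⟨0, hl⟩
  obtain ⟨hv', hw'⟩ := knot_writhe hl' hM' (p ^ k) hodd v' a dir' ho' hK'
  obtain ⟨c', hc'⟩ := linking_par (fst hl' hpos dir') ⟨0, hl'⟩
  have hMN : M ≤ N := by rw [hN]; exact le_max_left _ _
  have hMN' : M' ≤ N := by rw [hN]; exact le_max_right _ _
  refine ⟨?_, ?_, ?_⟩
  · have h1 : (M : ℤ) - M' = 2 * (c' - c) := by linarith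
    omega
  · have hst := star p k (p ^ k) rfl hodd hl hM v a dir _ _ c hc hw
    have hst' := star p k (p ^ k) rfl hodd hl' hM' v' a dir' _ _ c' hc' hw'
    rw [map_mul, red_dl] at hst hst'
    rw [mul_sub, hst, hst', ← hs, ← mul_sub, sum_ext p hMN (toW_mem v) _ _ hpos.ne' (hn p a),
      sum_ext p hMN' (toW_mem v') _ _ hpos.ne' (hn p a), ← Finset.sum_sub_distrib]
    congr 1
    refine Finset.sum_congr rfl fun n _ => ?_
    rw [sub_pow_char_pow]
    ring
  · intro b d d' hd hd'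
    have hqw := quot_writhe hl hM (p ^ k) hodd v a dir ho hK b d hd
    have hqw' := quot_writhe hl' hM' (p ^ k) hodd v' a dir' ho' hK' b d' hd'
    have hst := star p 0 1 (pow_zero p).symm odd_one hl hM v b d _ _ c hc (by
      rw [hqw]; push_cast; ring)
    have hst' := star p 0 1 (pow_zero p).symm odd_one hl' hM' v' b d' _ _ c' hc' (by
      rw [hqw']; push_cast; ring)
    rw [map_mul, red_dl] at hst hst'
    rw [mul_sub, hst, hst', ← hs, ← mul_sub, sum_ext p hMN (toW_mem v) _ _ one_ne_zero (hn p b),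
      sum_ext p hMN' (toW_mem v') _ _ one_ne_zero (hn p b), ← Finset.sum_sub_distrib]
    congr 1
    refine Finset.sum_congr rfl fun n _ => ?_
    rw [pow_one, pow_one]
    ring

/-- the difference of the coefficients vanishes in the wrong parity -/
theorem diff_par (v : Fin l → Elem M) (v' : Fin l' → Elem M') (w w' : ℤ) (N : ℕ) (hN : N = max M M')
    (hpar : M % 2 = M' % 2) (n : ℕ) (hn' : n % 2 ≠ N % 2) :
    RR p M (toW v) w n - RR p M' (toW v') w' n = 0 := by
  have h1 : N % 2 = M % 2 := by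
    rw [hN]
    rcases max_choice M M' with h | h <;> rw [h]
    exact hpar.symm
  rw [RR_par p (toW_mem v) w n (by omega), RR_par p (toW_mem v') w' n (by omega), sub_zero]

/-- the squares of the linking numbers, if the knots are not separated -/
theorem pair_sq (k : ℕ) (hp5 : 5 ≤ p) (hk : 1 ≤ k) (hl : 0 < l) (hM : 0 < M) (v : Fin l → Elem M)
    (hl' : 0 < l') (hM' : 0 < M') (v' : Fin l' → Elem M') (a : ℤ)
    (dir : Fin (p ^ k * l + a.natAbs * (M * (M - 1))) × Fin M → Bool)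
    (ho : Oriented (freeWord (p ^ k) v a) dir) (hK : IsKnot (PK.annular (freeWord (p ^ k) v a) dir))
    (dir' : Fin (p ^ k * l' + a.natAbs * (M' * (M' - 1))) × Fin M' → Bool)
    (ho' : Oriented (freeWord (p ^ k) v' a) dir')
    (hK' : IsKnot (PK.annular (freeWord (p ^ k) v' a) dir')) (hpos : 0 < p ^ k)
    (N : ℕ) (hN : N = max M M') (hq : 2 * N * (a.natAbs * N + 1) < p ^ k)
    (hS : (T 1 - 1 : (ZMod p)[T;T⁻¹]) ^ (p ^ k - 1) ∣
      red p (PK.annular (freeWord (p ^ k) v a) dir).fPoly -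
        red p (PK.annular (freeWord (p ^ k) v' a) dir').fPoly) :
    (PK.linking (fst hl hpos dir) ⟨0, hl⟩) ^ 2 = (PK.linking (fst hl' hpos dir') ⟨0, hl'⟩) ^ 2 := by
  have hp2 : p ≠ 2 := by omega
  have hem : (0 : ℕ) < p ^ k * l + a.natAbs * (M * (M - 1)) := by
    have := Nat.mul_pos hpos hl
    omega
  have hem' : (0 : ℕ) < p ^ k * l' + a.natAbs * (M' * (M' - 1)) := by
    have := Nat.mul_pos hpos hl'
    omega
  obtain ⟨c, z, hc, h1⟩ := identity_f p k hp2 hM v hl a dir ho hK ⟨0, hem⟩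
  obtain ⟨c', z', hc', h1'⟩ := identity_f p k hp2 hM' v' hl' a dir' ho' hK' ⟨0, hem'⟩
  have h3 : toG p (p ^ k) ((T (-4) - T 4) * (red p (PK.annular (freeWord (p ^ k) v a) dir).fPoly -
        red p (PK.annular (freeWord (p ^ k) v' a) dir').fPoly)) = 0 := by
    have h4 := mul_dvd_mul (red_four_dvd p) hS
    have h5 : (p ^ k - 1) + 1 = p ^ k := by omega
    rw [← pow_succ', h5] at h4
    obtain ⟨g, hg⟩ := h4
    rw [hg, map_mul, toG_pow, zero_mul]
  rw [mul_sub, map_sub, sub_eq_zero, h1, h1'] at h3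
  have h4 := pair_core p k hp5 hk _ _ _ _ _ _ _ _ hc hc' h3
  have e1 : PK.linking dir ⟨0, hem⟩ = PK.linking (fst hl hpos dir) ⟨0, hl⟩ := rfl
  have e2 : PK.linking dir' ⟨0, hem'⟩ = PK.linking (fst hl' hpos dir') ⟨0, hl'⟩ := rfl
  rw [e1, e2] at h4
  have b1 := linking_bound (fst hl hpos dir) ⟨0, hl⟩
  have b2 := linking_bound (fst hl' hpos dir') ⟨0, hl'⟩
  have hMN : (M : ℤ) ≤ N := by rw [hN]; exact_mod_cast le_max_left _ _
  have hMN' : (M' : ℤ) ≤ N := by rw [hN]; exact_mod_cast le_max_right _ _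
  refine sq_of_class ((p ^ k : ℕ) : ℤ) a _ _ N (by omega) (by rw [abs_le]; constructor <;> linarith)
    (by rw [abs_le]; constructor <;> linarith) ?_ (by push_cast; exact h4)
  rw [← Int.natCast_natAbs]
  exact_mod_cast hq

/-- pairs with the order -/
theorem pair_order (k : ℕ) (hp5 : 5 ≤ p) (hk : 1 ≤ k) (hl : 0 < l) (hM : 0 < M) (v : Fin l → Elem M)
    (hl' : 0 < l') (hM' : 0 < M') (v' : Fin l' → Elem M') (a : ℤ)
    (dir : Fin (p ^ k * l + a.natAbs * (M * (M - 1))) × Fin M → Bool)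
    (ho : Oriented (freeWord (p ^ k) v a) dir) (hK : IsKnot (PK.annular (freeWord (p ^ k) v a) dir))
    (dir' : Fin (p ^ k * l' + a.natAbs * (M' * (M' - 1))) × Fin M' → Bool)
    (ho' : Oriented (freeWord (p ^ k) v' a) dir')
    (hK' : IsKnot (PK.annular (freeWord (p ^ k) v' a) dir')) (hpos : 0 < p ^ k)
    (N : ℕ) (hN : N = max M M') (hq : 2 * N * (a.natAbs * N + 1) < p ^ k) (hq' : wid a N < p ^ k)
    (r : ℕ)
    (hS : (T 1 - 1 : (ZMod p)[T;T⁻¹]) ^ (p ^ k * (r + 1)) ∣
      red p (PK.annular (freeWord (p ^ k) v a) dir).fPoly -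
        red p (PK.annular (freeWord (p ^ k) v' a) dir').fPoly)
    (b : ℤ) (d : Fin (1 * l + b.natAbs * (M * (M - 1))) × Fin M → Bool)
    (d' : Fin (1 * l' + b.natAbs * (M' * (M' - 1))) × Fin M' → Bool)
    (hd : Oriented (freeWord 1 v b) d) (hd' : Oriented (freeWord 1 v' b) d') :
    (T 1 - 1 : (ZMod p)[T;T⁻¹]) ^ (r + 1) ∣ red p (PK.annular (freeWord 1 v b) d).fPoly -
      red p (PK.annular (freeWord 1 v' b) d').fPoly := by
  have hp2 : p ≠ 2 := by omega
  have hr : p ^ k * (r + 1) = p ^ k * r + p ^ k := by ring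
  have hs := pair_sq p k hp5 hk hl hM v hl' hM' v' a dir ho hK dir' ho' hK' hpos N hN hq
    ((pow_dvd_pow _ (by rw [hr]; omega)).trans hS)
  have hS := (pow_dvd_pow (T 1 - 1 : (ZMod p)[T;T⁻¹])
    (show p ^ k * r + wid a N + 1 ≤ p ^ k * (r + 1) by rw [hr]; omega)).trans hS
  obtain ⟨hpar, h1, h2⟩ := pair_setup p k hp2 hl hM v hl' hM' v' a dir ho hK dir' ho' hK' hpos N hN hs
  have h3 := (hS.mul_left (dF (ZMod p)))
  rw [h1] at h3
  have hu : ∀ x : ℤ, IsUnit (T x : (ZMod p)[T;T⁻¹]) := fun x => isUnit_T x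
  rw [(hu _).dvd_mul_left] at h3
  have h4 := alg_ord p k a _ hq hq' (fun n hn' => diff_par p v v' _ _ N hN hpar n hn') r h3
  apply dvd_of_dF p hp2
  rw [h2 b d d' hd hd']
  refine Dvd.dvd.mul_left (Finset.dvd_sum fun n hn' => ?_) _
  exact (h4 n hn').mul_right _

/-- the coefficients of the quotients, if the polynomials agree modulo `p` -/
theorem pair_RR (k : ℕ) (hp5 : 5 ≤ p) (hk : 1 ≤ k) (hl : 0 < l) (hM : 0 < M) (v : Fin l → Elem M)
    (hl' : 0 < l') (hM' : 0 < M') (v' : Fin l' → Elem M') (a : ℤ)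
    (dir : Fin (p ^ k * l + a.natAbs * (M * (M - 1))) × Fin M → Bool)
    (ho : Oriented (freeWord (p ^ k) v a) dir) (hK : IsKnot (PK.annular (freeWord (p ^ k) v a) dir))
    (dir' : Fin (p ^ k * l' + a.natAbs * (M' * (M' - 1))) × Fin M' → Bool)
    (ho' : Oriented (freeWord (p ^ k) v' a) dir')
    (hK' : IsKnot (PK.annular (freeWord (p ^ k) v' a) dir')) (hpos : 0 < p ^ k)
    (N : ℕ) (hN : N = max M M') (hq : 2 * N * (a.natAbs * N + 1) < p ^ k)
    (hf : red p (PK.annular (freeWord (p ^ k) v a) dir).fPoly =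
        red p (PK.annular (freeWord (p ^ k) v' a) dir').fPoly) :
    (PK.linking (fst hl hpos dir) ⟨0, hl⟩) ^ 2 = (PK.linking (fst hl' hpos dir') ⟨0, hl'⟩) ^ 2 ∧
    ∀ n, RR p M (toW v) (PK.annular v (fst hl hpos dir)).writhe n =
          RR p M' (toW v') (PK.annular v' (fst hl' hpos dir')).writhe n := by
  have hp2 : p ≠ 2 := by omega
  have hs := pair_sq p k hp5 hk hl hM v hl' hM' v' a dir ho hK dir' ho' hK' hpos N hN hq
    (by rw [hf, sub_self]; exact dvd_zero _)
  obtain ⟨hpar, h1, -⟩ := pair_setup p k hp2 hl hM v hl' hM' v' a dir ho hK dir' ho' hK' hpos N hN hs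
  refine ⟨hs, fun n => ?_⟩
  rw [hf, sub_self, mul_zero] at h1
  have h3 := (mul_eq_zero.1 h1.symm).resolve_left (isUnit_T _).ne_zero
  have h4 := alg_zero p a _ hq (fun n hn' => diff_par p v v' _ _ N hN hpar n hn') h3
  by_cases hn' : n ∈ range (N + 1)
  · exact sub_eq_zero.1 (h4 n hn')
  · rw [Finset.mem_range] at hn'
    have hMN : M ≤ N := by rw [hN]; exact le_max_left _ _
    have hMN' : M' ≤ N := by rw [hN]; exact le_max_right _ _
    rw [RR_gt p (toW_mem v) _ n (by omega), RR_gt p (toW_mem v') _ n (by omega)]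

/-- equality modulo `p` -/
theorem pair_modp (k : ℕ) (hp5 : 5 ≤ p) (hk : 1 ≤ k) (hl : 0 < l) (hM : 0 < M) (v : Fin l → Elem M)
    (hl' : 0 < l') (hM' : 0 < M') (v' : Fin l' → Elem M') (a : ℤ)
    (dir : Fin (p ^ k * l + a.natAbs * (M * (M - 1))) × Fin M → Bool)
    (ho : Oriented (freeWord (p ^ k) v a) dir) (hK : IsKnot (PK.annular (freeWord (p ^ k) v a) dir))
    (dir' : Fin (p ^ k * l' + a.natAbs * (M' * (M' - 1))) × Fin M' → Bool)
    (ho' : Oriented (freeWord (p ^ k) v' a) dir')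
    (hK' : IsKnot (PK.annular (freeWord (p ^ k) v' a) dir')) (hpos : 0 < p ^ k)
    (N : ℕ) (hN : N = max M M') (hq : 2 * N * (a.natAbs * N + 1) < p ^ k)
    (hf : red p (PK.annular (freeWord (p ^ k) v a) dir).fPoly =
        red p (PK.annular (freeWord (p ^ k) v' a) dir').fPoly)
    (b : ℤ) (d : Fin (1 * l + b.natAbs * (M * (M - 1))) × Fin M → Bool)
    (d' : Fin (1 * l' + b.natAbs * (M' * (M' - 1))) × Fin M' → Bool)
    (hd : Oriented (freeWord 1 v b) d) (hd' : Oriented (freeWord 1 v' b) d') :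
    red p (PK.annular (freeWord 1 v b) d).fPoly = red p (PK.annular (freeWord 1 v' b) d').fPoly := by
  have hp2 : p ≠ 2 := by omega
  obtain ⟨hs, hR⟩ := pair_RR p k hp5 hk hl hM v hl' hM' v' a dir ho hK dir' ho' hK' hpos N hN hq hf
  obtain ⟨-, -, h2⟩ := pair_setup p k hp2 hl hM v hl' hM' v' a dir ho hK dir' ho' hK' hpos N hN hs
  have h3 := h2 b d d' hd hd'
  rw [Finset.sum_eq_zero (fun n _ => by rw [hR n, sub_self, zero_mul]), mul_zero] at h3
  exact sub_eq_zero.1 ((mul_eq_zero.1 h3).resolve_left (dF_ne (ZMod p)))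

/-- equality over the integers -/
theorem pair_exact (k : ℕ) (hp5 : 5 ≤ p) (hk : 1 ≤ k) (hl : 0 < l) (hM : 0 < M) (v : Fin l → Elem M)
    (hl' : 0 < l') (hM' : 0 < M') (v' : Fin l' → Elem M') (a : ℤ)
    (dir : Fin (p ^ k * l + a.natAbs * (M * (M - 1))) × Fin M → Bool)
    (ho : Oriented (freeWord (p ^ k) v a) dir) (hK : IsKnot (PK.annular (freeWord (p ^ k) v a) dir))
    (dir' : Fin (p ^ k * l' + a.natAbs * (M' * (M' - 1))) × Fin M' → Bool)
    (ho' : Oriented (freeWord (p ^ k) v' a) dir')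
    (hK' : IsKnot (PK.annular (freeWord (p ^ k) v' a) dir')) (hpos : 0 < p ^ k)
    (N : ℕ) (hN : N = max M M') (hq : 2 * N * (a.natAbs * N + 1) < p ^ k)
    (hbig : 2 ^ (M + 2 * l) + 2 ^ (M' + 2 * l') < p)
    (hf : (PK.annular (freeWord (p ^ k) v a) dir).fPoly =
        (PK.annular (freeWord (p ^ k) v' a) dir').fPoly)
    (b : ℤ) (d : Fin (1 * l + b.natAbs * (M * (M - 1))) × Fin M → Bool)
    (d' : Fin (1 * l' + b.natAbs * (M' * (M' - 1))) × Fin M' → Bool)
    (hd : Oriented (freeWord 1 v b) d) (hd' : Oriented (freeWord 1 v' b) d') :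
    (PK.annular (freeWord 1 v b) d).fPoly = (PK.annular (freeWord 1 v' b) d').fPoly := by
  have hp2 : p ≠ 2 := by omega
  obtain ⟨hs, hR⟩ := pair_RR p k hp5 hk hl hM v hl' hM' v' a dir ho hK dir' ho' hK' hpos N hN hq
    (by rw [hf])
  have hZ : ∀ n, RZ M (toW v) (PK.annular v (fst hl hpos dir)).writhe n =
      RZ M' (toW v') (PK.annular v' (fst hl' hpos dir')).writhe n := by
    intro n
    rw [← sub_eq_zero]
    have h2 : Bd (RZ M (toW v) (PK.annular v (fst hl hpos dir)).writhe n -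
        RZ M' (toW v') (PK.annular v' (fst hl' hpos dir')).writhe n)
        (2 ^ (M + 2 * l) + 2 ^ (M' + 2 * l')) := by
      rw [sub_eq_add_neg]
      have h3 := (RZ_bd (toW_mem v) (PK.annular v (fst hl hpos dir)).writhe n).add
        (RZ_bd (toW_mem v') (PK.annular v' (fst hl' hpos dir')).writhe n).neg
      rw [toW_length, toW_length] at h3
      exact h3
    refine eq_zero_of_red h2 hbig ?_
    rw [map_sub, red_RZ, red_RZ, hR n, sub_self]
  have hodd : Odd (p ^ k) := (hp.out.odd_of_ne_two hp2).pow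
  rw [← sub_eq_zero]
  apply eq_zero_of_all
  intro p' hp'
  have : Fact p'.Prime := ⟨hp'⟩
  obtain ⟨hv, hw⟩ := knot_writhe hl hM (p ^ k) hodd v a dir ho hK
  obtain ⟨c, hc⟩ := linking_par (fst hl hpos dir) ⟨0, hl⟩
  obtain ⟨c', hc'⟩ := linking_par (fst hl' hpos dir') ⟨0, hl'⟩
  have hMN : M ≤ N := by rw [hN]; exact le_max_left _ _
  have hMN' : M' ≤ N := by rw [hN]; exact le_max_right _ _
  have hqw := quot_writhe hl hM (p ^ k) hodd v a dir ho hK b d hd
  have hqw' := quot_writhe hl' hM' (p ^ k) hodd v' a dir' ho' hK' b d' hd'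
  have hst := star p' 0 1 (pow_zero p').symm odd_one hl hM v b d _ _ c hc (by
    rw [hqw]; push_cast; ring)
  have hst' := star p' 0 1 (pow_zero p').symm odd_one hl' hM' v' b d' _ _ c' hc' (by
    rw [hqw']; push_cast; ring)
  rw [map_mul, red_dl, sum_ext p' hMN (toW_mem v) _ _ one_ne_zero (hn p' b)] at hst
  rw [map_mul, red_dl, sum_ext p' hMN' (toW_mem v') _ _ one_ne_zero (hn p' b), ← hs] at hst'
  have h5 : dF (ZMod p') * red p' (PK.annular (freeWord 1 v b) d).fPoly =
      dF (ZMod p') * red p' (PK.annular (freeWord 1 v' b) d').fPoly := by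
    rw [hst, hst']
    congr 1
    refine Finset.sum_congr rfl fun n _ => ?_
    rw [← red_RZ, ← red_RZ, hZ n]
  rw [map_sub, mul_left_cancel₀ (dF_ne (ZMod p')) h5, sub_self]

end pairs

end Pool.Agent.TH561.AD
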