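import Pool.Agent.TH561.AD.TwoE

/-!
# All members of a family of freely periodic knots
-/

set_option autoImplicit false

namespace Pool.Agent.TH561.AD

open Pool.Agent.H891R2.Jones Pool.Agent.TH561 Pool.Agent.TH561.PK Pool.Agent.TH561.FP Finset
  LaurentPolynomial

variable {M l : ℕ}

/-- the writhe and the linking number of the quotient do not depend on the member of the family -/
theorem same_ws (hl : 0 < l) (hM : 0 < M) (v : Fin l → Elem M) (n : ℕ) (hn : Odd n) (a : ℤ)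
    (dir : Fin (n * l + a.natAbs * (M * (M - 1))) × Fin M → Bool)
    (ho : Oriented (freeWord n v a) dir) (hK : IsKnot (PK.annular (freeWord n v a) dir))
    (n' : ℕ) (hn' : Odd n') (a' : ℤ)
    (dir' : Fin (n' * l + a'.natAbs * (M * (M - 1))) × Fin M → Bool)
    (ho' : Oriented (freeWord n' v a') dir') (hK' : IsKnot (PK.annular (freeWord n' v a') dir')) :
    (PK.annular v (fst hl hn.pos dir)).writhe = (PK.annular v (fst hl hn'.pos dir')).writhe ∧
    (PK.linking (fst hl hn.pos dir) ⟨0, hl⟩) ^ 2 = (PK.linking (fst hl hn'.pos dir') ⟨0, hl⟩) ^ 2 := by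
  obtain ⟨d0, hd0⟩ := exists_quot_dir hl hM n hn v a dir ho hK 0
  obtain ⟨d1, hd1⟩ := exists_quot_dir hl hM n hn v a dir ho hK 1
  have h0 := quot_writhe hl hM n hn v a dir ho hK 0 d0 hd0
  have h0' := quot_writhe hl hM n' hn' v a' dir' ho' hK' 0 d0 hd0
  have h1 := quot_writhe hl hM n hn v a dir ho hK 1 d1 hd1
  have h1' := quot_writhe hl hM n' hn' v a' dir' ho' hK' 1 d1 hd1
  constructor
  · linarith
  · linarith

section ord

variable (p : ℕ) [hp : Fact p.Prime]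

/-- from the coefficients of the quotient to the knot -/
theorem knot_of_dev (k : ℕ) (hp2 : p ≠ 2) (hl : 0 < l) (hM : 0 < M) (v : Fin l → Elem M) (a : ℤ)
    (dir : Fin (p ^ k * l + a.natAbs * (M * (M - 1))) × Fin M → Bool)
    (ho : Oriented (freeWord (p ^ k) v a) dir)
    (hK : IsKnot (PK.annular (freeWord (p ^ k) v a) dir)) (hpos : 0 < p ^ k)
    (hs : (PK.linking (fst hl hpos dir) ⟨0, hl⟩) ^ 2 = 1) (m : ℕ)
    (h : ∀ n ∈ range (M + 1), (T 1 - 1 : (ZMod p)[T;T⁻¹]) ^ m ∣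
      dev p M (toW v) (PK.annular v (fst hl hpos dir)).writhe n) :
    (T 1 - 1 : (ZMod p)[T;T⁻¹]) ^ (p ^ k * m) ∣
      red p (PK.annular (freeWord (p ^ k) v a) dir).fPoly - 1 := by
  have hodd : Odd (p ^ k) := (hp.out.odd_of_ne_two hp2).pow
  obtain ⟨hv, hw⟩ := knot_writhe hl hM (p ^ k) hodd v a dir ho hK
  obtain ⟨c, hc⟩ := linking_par (fst hl hpos dir) ⟨0, hl⟩
  have hst := star p k (p ^ k) rfl hodd hl hM v a dir _ _ c hc hw
  rw [hs, map_mul, red_dl, mul_one] at hst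
  have hd := dev_sum p k hM (toW v) (PK.annular v (fst hl hpos dir)).writhe a
  apply dvd_of_dF p hp2
  have h1 : dF (ZMod p) * (red p (PK.annular (freeWord (p ^ k) v a) dir).fPoly - 1) =
      T (-(3 * a)) * ∑ n ∈ range (M + 1),
        (dev p M (toW v) (PK.annular v (fst hl hpos dir)).writhe n) ^ (p ^ k) * hn p a n := by
    rw [hd, mul_sub, mul_sub, hst, mul_one, ← mul_assoc, T_unit, one_mul]
  rw [h1]
  refine Dvd.dvd.mul_left (Finset.dvd_sum fun n hn' => ?_) _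
  have h2 := pow_dvd_pow_of_dvd (h n hn') (p ^ k)
  rw [← pow_mul, mul_comm m] at h2
  exact h2.mul_right _

/-- the orders of the members of a family are proportional to the period -/
theorem rig_order (hMp : M + 1 < p) (hl : 0 < l) (hM : 1 < M) (v : Fin l → Elem M)
    (k : ℕ) (hk : 1 ≤ k) (a : ℤ) (hg : Generic ((p ^ k : ℕ) : ℤ) a M)
    (dir : Fin (p ^ k * l + a.natAbs * (M * (M - 1))) × Fin M → Bool)
    (ho : Oriented (freeWord (p ^ k) v a) dir)
    (hK : IsKnot (PK.annular (freeWord (p ^ k) v a) dir))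
    (k' : ℕ) (a' : ℤ)
    (dir' : Fin (p ^ k' * l + a'.natAbs * (M * (M - 1))) × Fin M → Bool)
    (ho' : Oriented (freeWord (p ^ k') v a') dir')
    (hK' : IsKnot (PK.annular (freeWord (p ^ k') v a') dir')) (m : ℕ) (hm : 1 ≤ m)
    (hf : (T 1 - 1 : (ZMod p)[T;T⁻¹]) ^ (p ^ k * m) ∣
      red p (PK.annular (freeWord (p ^ k) v a) dir).fPoly - 1) :
    (T 1 - 1 : (ZMod p)[T;T⁻¹]) ^ (p ^ k' * m) ∣
      red p (PK.annular (freeWord (p ^ k') v a') dir').fPoly - 1 := by
  have hp2 : p ≠ 2 := by omega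
  have hpos : 0 < p ^ k := Nat.pow_pos hp.out.pos
  have hpos' : 0 < p ^ k' := Nat.pow_pos hp.out.pos
  have hodd : Odd (p ^ k) := (hp.out.odd_of_ne_two hp2).pow
  have hodd' : Odd (p ^ k') := (hp.out.odd_of_ne_two hp2).pow
  obtain ⟨h1, h2⟩ := gen_dev p k hk hMp hl hM v a hg dir ho hK hpos m hm hf
  obtain ⟨e1, e2⟩ := same_ws hl (by omega) v (p ^ k) hodd a dir ho hK (p ^ k') hodd' a' dir' ho' hK'
  exact knot_of_dev p k' hp2 hl (by omega) v a' dir' ho' hK' hpos' (by rw [← e2]; exact h1) m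
    (by rw [← e1]; exact h2)

end ord

/-- the members of the family for the other primes -/
theorem knot_of_RZ (p' k' : ℕ) [hp' : Fact p'.Prime] (hp2 : p' ≠ 2) (hl : 0 < l) (hM : 0 < M)
    (v : Fin l → Elem M) (a : ℤ)
    (dir : Fin (p' ^ k' * l + a.natAbs * (M * (M - 1))) × Fin M → Bool)
    (ho : Oriented (freeWord (p' ^ k') v a) dir)
    (hK : IsKnot (PK.annular (freeWord (p' ^ k') v a) dir)) (hpos : 0 < p' ^ k')
    (hs : (PK.linking (fst hl hpos dir) ⟨0, hl⟩) ^ 2 = 1)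
    (h0 : ∀ j ∈ range (M + 1), j ≠ 1 → RR p' M (toW v) (PK.annular v (fst hl hpos dir)).writhe j = 0)
    (h1 : RR p' M (toW v) (PK.annular v (fst hl hpos dir)).writhe 1 = 1) :
    red p' (PK.annular (freeWord (p' ^ k') v a) dir).fPoly = 1 := by
  rw [← sub_eq_zero]
  apply zero_of_pow p'
  intro m
  have h2 := knot_of_dev p' k' hp2 hl hM v a dir ho hK hpos hs m (by
    intro n hn'
    unfold dev
    by_cases h : n = 1
    · rw [h, if_pos rfl, h1, sub_self]
      exact dvd_zero _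
    · rw [if_neg h, h0 n hn' h, sub_zero]
      exact dvd_zero _)
  exact (pow_dvd_pow _ (Nat.le_mul_of_pos_left m hpos)).trans h2

/-- from one prime to all primes -/
theorem rig_primes (p : ℕ) [hp : Fact p.Prime] (hbig : 2 ^ (M + 2 * l) + 1 < p) (hl : 0 < l)
    (hM : 1 < M) (v : Fin l → Elem M) (k : ℕ) (hk : 1 ≤ k) (a : ℤ) (hg : Generic ((p ^ k : ℕ) : ℤ) a M)
    (dir : Fin (p ^ k * l + a.natAbs * (M * (M - 1))) × Fin M → Bool)
    (ho : Oriented (freeWord (p ^ k) v a) dir)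
    (hK : IsKnot (PK.annular (freeWord (p ^ k) v a) dir))
    (hf : red p (PK.annular (freeWord (p ^ k) v a) dir).fPoly = 1)
    (p' k' : ℕ) [hp' : Fact p'.Prime] (hp2 : p' ≠ 2) (a' : ℤ)
    (dir' : Fin (p' ^ k' * l + a'.natAbs * (M * (M - 1))) × Fin M → Bool)
    (ho' : Oriented (freeWord (p' ^ k') v a') dir')
    (hK' : IsKnot (PK.annular (freeWord (p' ^ k') v a') dir')) :
    red p' (PK.annular (freeWord (p' ^ k') v a') dir').fPoly = 1 := by
  have hMp : M + 1 < p := by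
    have h1 : M < 2 ^ M := Nat.lt_two_pow_self
    have h2 : 2 ^ M ≤ 2 ^ (M + 2 * l) := Nat.pow_le_pow_right (by norm_num) (by omega)
    omega
  have hp2' : p ≠ 2 := by omega
  have hpos : 0 < p ^ k := Nat.pow_pos hp.out.pos
  have hpos' : 0 < p' ^ k' := Nat.pow_pos hp'.out.pos
  have hodd : Odd (p ^ k) := (hp.out.odd_of_ne_two hp2').pow
  have hodd' : Odd (p' ^ k') := (hp'.out.odd_of_ne_two hp2).pow
  obtain ⟨h0, h1, h2⟩ := gen_unit p k hk hMp hl hM v a hg dir ho hK hpos hf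
  obtain ⟨g0, g1⟩ := RZ_triv p v _ hbig h0 h1
  obtain ⟨e1, e2⟩ := same_ws hl (by omega) v (p ^ k) hodd a dir ho hK (p' ^ k') hodd' a' dir' ho' hK'
  refine knot_of_RZ p' k' hp2 hl (by omega) v a' dir' ho' hK' hpos' (by rw [← e2]; exact h2) ?_ ?_
  · intro j hj hj1
    rw [← e1, ← red_RZ, g0 j hj hj1, map_zero]
  · rw [← e1, ← red_RZ, g1, map_one]

end Pool.Agent.TH561.AD
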