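import Pool.Agent.TH561.PK.Defs

/-!
# Smoothings of a word and their circles
-/

set_option autoImplicit false

namespace Pool.Agent.TH561.AD

open Pool.Agent.TH561.PK

variable {M L : ℕ}

/-- Two marked points are joined by a piece of the smoothed diagram `u` in the annulus: at the level
`t` all strands are vertical (`u t = none`), or there is a hook at the places `i`, `i + 1`
(`u t = some i`): the two lower points at these places are joined by a cap, the two upper points are
joined by a cup, and the other strands are vertical. -/
def Joins (u : Fin L → Option (Fin (M - 1))) (x y : Fin L × Fin M) : Prop :=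
  ∃ t, match u t with
    | none => ∃ j, x = (t, j) ∧ y = (finRotate L t, j)
    | some i => (∃ j : Fin M, (j : ℕ) ≠ i ∧ (j : ℕ) ≠ i + 1 ∧ x = (t, j) ∧ y = (finRotate L t, j)) ∨
        ∃ j k : Fin M, (j : ℕ) = i ∧ (k : ℕ) = i + 1 ∧
          ((x = (t, j) ∧ y = (t, k)) ∨ (x = (finRotate L t, j) ∧ y = (finRotate L t, k)))

/-- the number of the circles of a smoothed diagram in the annulus -/
noncomputable def circles (u : Fin L → Option (Fin (M - 1))) : ℕ := Nat.card (Quot (Joins u))

/-- the smoothing of type `A` of a letter -/
def smA : Elem M → Option (Fin (M - 1))
  | (some true, _) => none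
  | (some false, i) => some i
  | (none, i) => some i

/-- the smoothing of type `B` of a letter -/
def smB : Elem M → Option (Fin (M - 1))
  | (some true, i) => some i
  | (some false, _) => none
  | (none, i) => some i

/-- the closure of the word `w` is `A`-adequate: if the smoothing of one crossing is changed in the
state in which all crossings have the smoothing of type `A`, then the number of circles decreases -/
def AAdequate (w : Fin L → Elem M) : Prop :=
  ∀ t, (w t).1 ≠ none → circles (Function.update (smA ∘ w) t (smB (w t))) < circles (smA ∘ w)

/-- the closure of the word `w` is `B`-adequate -/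
def BAdequate (w : Fin L → Elem M) : Prop :=
  ∀ t, (w t).1 ≠ none → circles (Function.update (smB ∘ w) t (smA (w t))) < circles (smB ∘ w)

/-- the number of the crossings of a word -/
def crossings (w : Fin L → Elem M) : ℕ := (Finset.univ.filter (fun t => (w t).1 ≠ none)).card

end Pool.Agent.TH561.AD
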