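import Pool.Agent.TH561.AD.TwoE

/-!
# The span of the polynomial of a freely periodic knot: algebra
-/

set_option autoImplicit false

namespace Pool.Agent.TH561.AD

open Pool.Agent.H891R2.Jones Pool.Agent.TH561 Pool.Agent.TH561.PK Pool.Agent.TH561.FP Finset
  LaurentPolynomial

section alg

variable (p : ℕ) [hp : Fact p.Prime] {M q : ℕ} (a : ℤ) (u : ℕ → (ZMod p)[T;T⁻¹])

/-- a sum with a small span -/
theorem alg_span (hq0' : 0 < q) (hq : M * (a.natAbs * M + 1) < 2 * q)
    (hpar : ∀ n, n % 2 ≠ M % 2 → u n = 0) (ω : ℤ) (hω : ∀ n, Res4 (u n) ω) (x y : ℤ)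
    (hxy : y - x + a.natAbs * (M * (M + 2)) < 4 * q)
    (h : ∀ c, (∑ n ∈ range (M + 1), (u n) ^ q * hn p a n).coeff c ≠ 0 → x ≤ c ∧ c ≤ y) :
    ∃ e : ℤ, ∀ n ∈ range (M + 1), ∃ c : ZMod p, u n = C c * T e := by
  classical
  have ht : ∀ s, ∃ t, u s ≠ 0 → Top (u s) t := by
    intro s
    by_cases h : u s = 0
    · exact ⟨0, fun h' => absurd h h'⟩
    · obtain ⟨t, ht⟩ := exists_top (u s) h
      exact ⟨t, fun _ => ht⟩
  have hb : ∀ s, ∃ t, u s ≠ 0 → Bot (u s) t := by
    intro s
    by_cases h : u s = 0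
    · exact ⟨0, fun h' => absurd h h'⟩
    · obtain ⟨t, ht⟩ := exists_bot (u s) h
      exact ⟨t, fun _ => ht⟩
  choose t ht using ht
  choose b hb using hb
  have hq0 : q ≠ 0 := by omega
  have htop : ∀ s, u s ≠ 0 → Top ((u s) ^ q * hn p a s) (q * t s + (a * (s * (s + 2)) + 2 * s)) :=
    fun s hs => ((ht s hs).pow q).mul (hn_top p a s)
  have hbot : ∀ s, u s ≠ 0 → Bot ((u s) ^ q * hn p a s) (q * b s + (a * (s * (s + 2)) - 2 * s)) :=
    fun s hs => ((hb s hs).pow q).mul (hn_bot p a s)
  have hne : ∀ s, (u s) ^ q * hn p a s ≠ 0 → u s ≠ 0 := by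
    intro s h h'
    apply h
    rw [h', zero_pow hq0, zero_mul]
  have hzero : ∀ s, u s = 0 → (u s) ^ q * hn p a s = 0 := by
    intro s h'
    rw [h', zero_pow hq0, zero_mul]
  have hQ : 2 * (M : ℤ) * (a.natAbs * M + 1) < 4 * q := by
    have : (M : ℤ) * (a.natAbs * M + 1) < 2 * q := by exact_mod_cast hq
    linarith
  -- the extreme exponents
  have key : ∀ n0 ∈ range (M + 1), u n0 ≠ 0 → q * t n0 + (a * (n0 * (n0 + 2)) + 2 * n0) ≤ y ∧
      x ≤ q * b n0 + (a * (n0 * (n0 + 2)) - 2 * n0) := by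
    intro n0 hn0 hne0
    constructor
    · obtain ⟨c1, h1, h2⟩ := sum_top (range (M+1)) (fun s => (u s) ^ q * hn p a s)
        (fun s => q * t s + (a * (s * (s + 2)) + 2 * s)) (by
          intro s _
          by_cases h : u s = 0
          · left; exact hzero s h
          · right; exact htop s h) (by
          intro i hi j hj hfi hfj hij
          rw [Finset.mem_range] at hi hj
          have h1 : i % 2 = M % 2 := by
            by_contra h3
            exact hne i hfi (hpar i h3)
          have h2 : j % 2 = M % 2 := by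
            by_contra h3
            exact hne j hfj (hpar j h3)
          obtain ⟨k1, hk1⟩ := hω i _ (ht i (hne i hfi)).1
          obtain ⟨k2, hk2⟩ := hω j _ (ht j (hne j hfj)).1
          refine sep a 2 (Or.inl rfl) (4 * q : ℤ) hQ i j (by omega) (by omega)
            (by omega) ⟨k2 - k1, ?_⟩
          have h4 : (q : ℤ) * t i + (a * (i * (i + 2)) + 2 * i) =
            q * t j + (a * (j * (j + 2)) + 2 * j) := hij
          linear_combination h4 - (q : ℤ) * hk1 + (q : ℤ) * hk2) hn0 ((htop n0 hne0).ne_zero)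
      exact le_trans h1 (h c1 h2).2
    · obtain ⟨c1, h1, h2⟩ := sum_bot (range (M+1)) (fun s => (u s) ^ q * hn p a s)
        (fun s => q * b s + (a * (s * (s + 2)) - 2 * s)) (by
          intro s _
          by_cases h : u s = 0
          · left; exact hzero s h
          · right; exact hbot s h) (by
          intro i hi j hj hfi hfj hij
          rw [Finset.mem_range] at hi hj
          have h1 : i % 2 = M % 2 := by
            by_contra h3
            exact hne i hfi (hpar i h3)
          have h2 : j % 2 = M % 2 := by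
            by_contra h3
            exact hne j hfj (hpar j h3)
          obtain ⟨k1, hk1⟩ := hω i _ (hb i (hne i hfi)).coeff
          obtain ⟨k2, hk2⟩ := hω j _ (hb j (hne j hfj)).coeff
          refine sep a (-2) (Or.inr rfl) (4 * q : ℤ) hQ i j (by omega) (by omega)
            (by omega) ⟨k2 - k1, ?_⟩
          have h4 : (q : ℤ) * b i + (a * (i * (i + 2)) - 2 * i) =
            q * b j + (a * (j * (j + 2)) - 2 * j) := hij
          linear_combination h4 - (q : ℤ) * hk1 + (q : ℤ) * hk2) hn0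
            (fun h' => by
              have h3 := (hbot n0 hne0).coeff
              rw [h'] at h3
              exact h3 (by simp))
      exact le_trans (h c1 h2).1 h1
  have hsq : ∀ n, n ∈ range (M + 1) → (0 : ℤ) ≤ n * (n + 2) ∧ (n : ℤ) * (n + 2) ≤ M * (M + 2) := by
    intro n hn
    rw [Finset.mem_range] at hn
    have h1 : (n : ℤ) ≤ M := by omega
    have h0 : (0 : ℤ) ≤ n := by positivity
    constructor
    · positivity
    · nlinarith
  have hA : ∀ n m, n ∈ range (M + 1) → m ∈ range (M + 1) →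
      a * ((m : ℤ) * (m + 2)) - a * ((n : ℤ) * (n + 2)) ≤ a.natAbs * (M * (M + 2)) := by
    intro n m hn hm
    obtain ⟨g1, g2⟩ := hsq n hn
    obtain ⟨g3, g4⟩ := hsq m hm
    have h1 : |a * ((m : ℤ) * (m + 2) - n * (n + 2))| ≤ a.natAbs * (M * (M + 2)) := by
      rw [abs_mul, Int.abs_eq_natAbs a]
      apply mul_le_mul_of_nonneg_left _ (by positivity)
      rw [abs_le]
      constructor <;> linarith
    have h2 := (le_abs_self _).trans h1
    linarith
  have key2 : ∀ n ∈ range (M + 1), ∀ m ∈ range (M + 1), u n ≠ 0 → u m ≠ 0 → t n ≤ b m := by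
    intro n hn m hm hun hum
    obtain ⟨h1, -⟩ := key n hn hun
    obtain ⟨-, h2⟩ := key m hm hum
    have h3 := hA n m hn hm
    have h4 : (0 : ℤ) ≤ n := by positivity
    have h5 : (0 : ℤ) ≤ m := by positivity
    have h6 : (q : ℤ) * (t n - b m) < q * 4 := by linarith
    have h7 : t n - b m < 4 := lt_of_mul_lt_mul_left h6 (by positivity)
    obtain ⟨k1, hk1⟩ := hω n _ (ht n hun).1
    obtain ⟨k2, hk2⟩ := hω m _ (hb m hum).coeff
    omega
  by_cases hall : ∀ n ∈ range (M + 1), u n = 0
  · exact ⟨0, fun n hn => ⟨0, by rw [hall n hn, map_zero, zero_mul]⟩⟩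
  · push Not at hall
    obtain ⟨n1, hn1, hun1⟩ := hall
    refine ⟨t n1, fun n hn => ?_⟩
    by_cases hun : u n = 0
    · exact ⟨0, by rw [hun, map_zero, zero_mul]⟩
    · have g1 := key2 n1 hn1 n hn hun1 hun
      have g2 := key2 n hn n1 hn1 hun hun1
      have g3 := (hb n hun).le (ht n hun).1
      have g4 := (hb n1 hun1).le (ht n1 hun1).1
      have e1 : t n = t n1 := by omega
      have e2 : b n = t n1 := by omega
      obtain ⟨c, -, hc⟩ := mono_of_top_bot (e1 ▸ ht n hun) (e2 ▸ hb n hun)
      exact ⟨c, hc⟩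

end alg

section cheb

variable {F : Type*} [Field F]

/-- the Chebyshev polynomials are linearly independent -/
theorem cheb_top (M : ℕ) (d : ℕ → F)
    (h : ∑ j ∈ range (M + 1), Polynomial.C (d j) * Polynomial.Chebyshev.S F (j : ℤ) = 0) : d M = 0 := by
  have h2 := congrArg (fun f => Polynomial.coeff f M) h
  simp only [Polynomial.finsetSum_coeff, Polynomial.coeff_C_mul, Polynomial.coeff_zero] at h2
  rw [Finset.sum_eq_single_of_mem M (by simp) (fun j hj hne => by
    rw [Finset.mem_range] at hj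
    rw [Polynomial.coeff_eq_zero_of_natDegree_lt (lt_of_le_of_lt (S_deg j).1 (by omega)),
      mul_zero]), (S_deg M).2, mul_one] at h2
  exact h2

theorem cheb_indep (M : ℕ) (d : ℕ → F)
    (h : ∑ j ∈ range (M + 1), Polynomial.C (d j) * Polynomial.Chebyshev.S F (j : ℤ) = 0) :
    ∀ j ∈ range (M + 1), d j = 0 := by
  induction M with
  | zero =>
    intro j hj
    rw [Finset.mem_range] at hj
    have : j = 0 := by omega
    rw [this]
    exact cheb_top 0 d h
  | succ M ih =>
    have h1 := cheb_top (M + 1) d h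
    rw [Finset.sum_range_succ, h1, map_zero, zero_mul, add_zero] at h
    intro j hj
    rw [Finset.mem_range] at hj
    rcases Nat.lt_or_ge j (M + 1) with h3 | h3
    · exact ih h j (Finset.mem_range.2 h3)
    · have : j = M + 1 := by omega
      rw [this]
      exact h1

/-- the coefficients of the polynomial of a curve -/
def tau (N j : ℕ) : ℤ := (if j = N then 1 else 0) - (if j + 2 = N then 1 else 0) +
  (if N = 0 ∧ j = 0 then 1 else 0)

theorem tau_abs (N j : ℕ) : |tau N j| ≤ 2 := by
  unfold tau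
  split_ifs <;> norm_num

/-- a sum with the coefficients `tau` -/
theorem tau_sum {R : Type*} [Ring R] (M N : ℕ) (hN : N ≤ M) (g : ℤ → R) (h1 : g (-1) = 0)
    (h2 : g (-2) = -g 0) : ∑ j ∈ range (M + 1), (tau N j : R) * g j = g N - g (N - 2) := by
  unfold tau
  have hmem : N ∈ range (M + 1) := by rw [Finset.mem_range]; omega
  simp only [Int.cast_add, Int.cast_sub, Int.cast_ite, Int.cast_one, Int.cast_zero, add_mul, sub_mul,
    ite_mul, one_mul, zero_mul, Finset.sum_add_distrib, Finset.sum_sub_distrib]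
  rw [Finset.sum_ite_eq' (range (M + 1)) N, if_pos hmem]
  rcases N with _ | _ | N
  · rw [Finset.sum_eq_zero (fun j _ => if_neg (by omega))]
    have h3 : ∑ x ∈ range (M + 1), (if 0 = 0 ∧ x = 0 then g (x : ℤ) else 0) = g 0 := by
      rw [Finset.sum_eq_single_of_mem 0 (by simp) (fun j _ hj => if_neg (by omega)), if_pos (by simp)]
      rfl
    rw [h3]
    have h4 : (((0 : ℕ) : ℤ) - 2) = -2 := by norm_num
    rw [h4, h2]
    simp
  · rw [Finset.sum_eq_zero (fun j _ => if_neg (by omega)), Finset.sum_eq_zero (fun j _ => if_neg (by omega))]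
    have h4 : (((0 + 1 : ℕ) : ℤ) - 2) = -1 := by norm_num
    rw [h4, h1]
    simp
  · rw [Finset.sum_eq_single_of_mem N (by rw [Finset.mem_range]; omega) (fun j _ hj => if_neg (by omega)),
      if_pos rfl, Finset.sum_eq_zero (fun j _ => if_neg (by omega))]
    have h4 : (((N + 1 + 1 : ℕ) : ℤ) - 2) = (N : ℤ) := by push_cast; ring
    rw [h4, add_zero]

theorem S_tau (M N : ℕ) (hN : N ≤ M) :
    ∑ j ∈ range (M + 1), Polynomial.C ((tau N j : ℤ) : F) * Polynomial.Chebyshev.S F (j : ℤ) =
      Polynomial.Chebyshev.S F N - Polynomial.Chebyshev.S F (N - 2) := by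
  rw [← tau_sum M N hN (Polynomial.Chebyshev.S F) (Polynomial.Chebyshev.S_neg_one F) (by
    rw [Polynomial.Chebyshev.S_neg_two, Polynomial.Chebyshev.S_zero])]
  refine Finset.sum_congr rfl fun j _ => ?_
  rw [map_intCast]

/-- the coefficients -/
theorem coeff_tau (M : ℕ) (c : ℕ → F) (κ : F) (s : ℤ) (hs : s.natAbs ≤ M)
    (h : ∑ j ∈ range (M + 1), Polynomial.C (c j) * Polynomial.Chebyshev.S F (j : ℤ) =
      Polynomial.C κ * (Polynomial.Chebyshev.S F s - Polynomial.Chebyshev.S F (s - 2))) :
    ∀ j ∈ range (M + 1), c j = κ * (tau s.natAbs j : ℤ) := by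
  rw [S_symm, ← S_tau M s.natAbs hs, Finset.mul_sum, ← sub_eq_zero, ← Finset.sum_sub_distrib] at h
  intro j hj
  have h1 := cheb_indep M (fun j => c j - κ * (tau s.natAbs j : ℤ)) (by
    rw [← h]
    refine Finset.sum_congr rfl fun j _ => ?_
    rw [map_sub, map_mul]
    ring) j hj
  exact sub_eq_zero.1 h1

end cheb

end Pool.Agent.TH561.AD
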