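import Pool.Agent.TH561.AD.SpanM

/-!
# The span of the polynomial of a freely periodic knot: the exact theorem
-/

set_option autoImplicit false

namespace Pool.Agent.TH561.AD

open Pool.Agent.H891R2.Jones Pool.Agent.TH561 Pool.Agent.TH561.PK Pool.Agent.TH561.FP Finset
  LaurentPolynomial

/-- divisibility of all coefficients as an equation modulo `p` -/
theorem red_zero (p : ℕ) [Fact p.Prime] (g : ℤ[T;T⁻¹]) :
    red p g = 0 ↔ ∀ n, (p : ℤ) ∣ g.coeff n := by
  have h := red_eq_one p (g + 1)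
  rw [map_add, map_one, add_sub_cancel_right, add_eq_right] at h
  exact h

/-- the sign as an integer -/
def sgI (s : ℤ) : ℤ := if Even s then 1 else -1

theorem sE_C (R : Type*) [CommRing R] (s : ℤ) : sE R s = C ((sgI s : ℤ) : R) := by
  unfold sE sgI
  split_ifs
  · rw [Int.cast_one, map_one]
  · rw [Int.cast_neg, Int.cast_one, map_neg, map_one]

theorem sgI_pm (s : ℤ) : sgI s = 1 ∨ sgI s = -1 := by
  unfold sgI
  split_ifs
  · left; rfl
  · right; rfl

theorem bd_mono (z : ℤ) (e : ℤ) (c : ℕ) (h : |z| ≤ c) : Bd (C z * T e) c := by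
  intro n
  rw [← single_eq_C_mul_T]
  show |(Finsupp.single e z) n| ≤ c
  rw [Finsupp.single_apply]
  split_ifs
  · exact h
  · simp

variable (p : ℕ) [hp : Fact p.Prime] {M l : ℕ}

/-- the integral coefficients -/
theorem span_RZ (v : Fin l → Elem M) (w : ℤ) (N : ℕ) (hbig : 2 ^ (M + 2 * l) + 2 < p) (κ e : ℤ)
    (hκ : κ = 1 ∨ κ = -1)
    (hu : ∀ n ∈ range (M + 1), RR p M (toW v) w n = C ((κ * tau N n : ℤ) : ZMod p) * T e) :
    ∀ n ∈ range (M + 1), RZ M (toW v) w n = C (κ * tau N n) * T e := by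
  intro n hn'
  rw [← sub_eq_zero]
  have h1 : |κ * tau N n| ≤ (2 : ℕ) := by
    rw [abs_mul]
    have h2 : |κ| = 1 := by rcases hκ with rfl | rfl <;> norm_num
    rw [h2, one_mul]
    exact tau_abs N n
  have h2 : Bd (RZ M (toW v) w n - C (κ * tau N n) * T e) (2 ^ (M + 2 * l) + 2) := by
    rw [sub_eq_add_neg]
    have h3 := (RZ_bd (toW_mem v) w n).add (bd_mono (κ * tau N n) e 2 h1).neg
    rw [toW_length] at h3
    exact h3
  refine eq_zero_of_red h2 hbig ?_
  rw [map_sub, red_RZ, hu n hn', map_mul, red_C, red_T, sub_self]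

/-- the theorem -/
theorem span_final (k : ℕ) (hp2 : p ≠ 2) (hl : 0 < l) (hM : 0 < M) (v : Fin l → Elem M)
    (a : ℤ) (hq : M * (a.natAbs * M + 1) < 2 * p ^ k)
    (dir : Fin (p ^ k * l + a.natAbs * (M * (M - 1))) × Fin M → Bool)
    (ho : Oriented (freeWord (p ^ k) v a) dir)
    (hK : IsKnot (PK.annular (freeWord (p ^ k) v a) dir)) (x y : ℤ)
    (hxy : y - x + 4 + a.natAbs * (M * (M + 2)) < 4 * p ^ k)
    (hf : ∀ c, (red p (PK.annular (freeWord (p ^ k) v a) dir).fPoly).coeff c ≠ 0 → x ≤ c ∧ c ≤ y)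
    (hpos : 0 < p ^ k) :
    ∃ ε e : ℤ, (ε = 1 ∨ ε = -1) ∧
      red p ((T 4 - T (-4)) * (PK.annular (freeWord (p ^ k) v a) dir).fPoly -
        C ε * T (p ^ k * e) * PN ℤ (PK.linking (fst hl hpos dir) ⟨0, hl⟩).natAbs a) = 0 ∧
      ∀ (b : ℤ) (d : Fin (1 * l + b.natAbs * (M * (M - 1))) × Fin M → Bool), Oriented (freeWord 1 v b) d →
        red p ((T 4 - T (-4)) * (PK.annular (freeWord 1 v b) d).fPoly -
          C ε * T e * PN ℤ (PK.linking (fst hl hpos dir) ⟨0, hl⟩).natAbs b) = 0 ∧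
        (2 ^ (M + 2 * l) + 1 < p → (T 4 - T (-4)) * (PK.annular (freeWord 1 v b) d).fPoly =
          C ε * T e * PN ℤ (PK.linking (fst hl hpos dir) ⟨0, hl⟩).natAbs b) := by
  have hodd : Odd (p ^ k) := (hp.out.odd_of_ne_two hp2).pow
  obtain ⟨κ, e, hκ, hu⟩ := span_core p k hp2 hl hM v a hq dir ho hK x y hxy hf hpos
  obtain ⟨hv, hw⟩ := knot_writhe hl hM (p ^ k) hodd v a dir ho hK
  have hlb := linking_bound (fst hl hpos dir) ⟨0, hl⟩
  have hpar := linking_par (fst hl hpos dir) ⟨0, hl⟩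
  have hqw := quot_writhe hl hM (p ^ k) hodd v a dir ho hK
  set w := (PK.annular v (fst hl hpos dir)).writhe with hwdef
  set s := PK.linking (fst hl hpos dir) ⟨0, hl⟩ with hs
  have hsM : s.natAbs ≤ M := by omega
  have hsign : ∀ (R : Type) [CommRing R], -(C (κ : R) * sE R s) = C ((-(κ * sgI s) : ℤ) : R) := by
    intro R _
    rw [sE_C, Int.cast_neg, Int.cast_mul, map_neg, map_mul]
  refine ⟨-(κ * sgI s), e, ?_, ?_, ?_⟩
  · rcases hκ with rfl | rfl <;> rcases sgI_pm s with h | h <;> rw [h] <;> norm_num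
  · have h1 := quot_tau p k (p ^ k) rfl hodd hl hM v a dir w s hpar hsM hw κ e hu
    rw [map_sub, map_mul, map_mul, map_mul, map_sub, red_T, red_T, red_T, red_C, red_PN, h1, hsign,
      sub_eq_zero]
    push_cast
    rfl
  · intro b d hd
    have hw' : (PK.annular (freeWord 1 v b) d).writhe = (1 : ℕ) * w + b * (s ^ 2 - M) := by
      rw [hqw b d hd]
      push_cast
      rfl
    constructor
    · have h1 := quot_tau p 0 1 (pow_zero p).symm odd_one hl hM v b d w s hpar hsM hw' κ e hu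
      rw [map_sub, map_mul, map_mul, map_mul, map_sub, red_T, red_T, red_T, red_C, red_PN, h1, hsign,
        sub_eq_zero]
      push_cast
      rw [one_mul]
    · intro hbig
      have hbig' : 2 ^ (M + 2 * l) + 2 < p := by
        rcases Nat.lt_or_ge (2 ^ (M + 2 * l) + 2) p with h | h
        · exact h
        · exfalso
          have h2 : p = 2 ^ (M + 2 * l) + 2 := by omega
          have h3 : ¬ Even p := Nat.not_even_iff_odd.2 (hp.out.odd_of_ne_two hp2)
          apply h3
          rw [h2]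
          exact (Nat.even_pow.2 ⟨even_two, by omega⟩).add even_two
      have hZ := span_RZ p v w s.natAbs hbig' κ e hκ hu
      rw [← sub_eq_zero]
      apply eq_zero_of_all
      intro p' hp'
      have : Fact p'.Prime := ⟨hp'⟩
      have h1 := quot_tau p' 0 1 (pow_zero p').symm odd_one hl hM v b d w s hpar hsM hw' κ e (by
        intro n hn'
        rw [← red_RZ, hZ n hn', map_mul, red_C, red_T])
      rw [map_sub, map_mul, map_mul, map_mul, map_sub, red_T, red_T, red_T, red_C, red_PN, h1, hsign,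
        sub_eq_zero]
      push_cast
      rw [one_mul]

end Pool.Agent.TH561.AD
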