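import Pool.Agent.TH561.AD.Span

/-!
# The span of the polynomial of a freely periodic knot: the theorem
-/

set_option autoImplicit false

namespace Pool.Agent.TH561.AD

open Pool.Agent.H891R2.Jones Pool.Agent.TH561 Pool.Agent.TH561.PK Pool.Agent.TH561.FP Finset
  LaurentPolynomial

/-- a twisted difference of two monomials -/
noncomputable def XX (R : Type*) [CommRing R] (b n : ℤ) : R[T;T⁻¹] :=
  T (b * (n * (n + 2))) * (T (2 * n + 2) - T (-2 * n - 2))

/-- `A^{-2bN(N-1)} (A^{2N+2} - A^{-2N-2}) - A^{-2bN(N+1)} (A^{2N-2} - A^{2-2N})` -/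
noncomputable def PN (R : Type*) [CommRing R] (N b : ℤ) : R[T;T⁻¹] :=
  T (-2 * b * N * (N - 1)) * (T (2 * N + 2) - T (-2 * N - 2)) -
    T (-2 * b * N * (N + 1)) * (T (2 * N - 2) - T (2 - 2 * N))

theorem XX_neg_one (R : Type*) [CommRing R] (b : ℤ) : XX R b (-1) = 0 := by
  unfold XX
  norm_num

theorem XX_neg_two (R : Type*) [CommRing R] (b : ℤ) : XX R b (-2) = -XX R b 0 := by
  unfold XX
  norm_num

theorem PN_eq (R : Type*) [CommRing R] (N b : ℤ) :
    T (-(3 * b * N ^ 2)) * (XX R b N - XX R b (N - 2)) = PN R N b := by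
  unfold XX PN
  have e1 : (T (-2 * b * N * (N - 1)) : R[T;T⁻¹]) = T (-(3 * b * N ^ 2)) * T (b * (N * (N + 2))) := by
    rw [← T_add]
    congr 1
    ring
  have e2 : (T (-2 * b * N * (N + 1)) : R[T;T⁻¹]) =
      T (-(3 * b * N ^ 2)) * T (b * ((N - 2) * (N - 2 + 2))) := by
    rw [← T_add]
    congr 1
    ring
  have e3 : 2 * (N - 2) + 2 = 2 * N - 2 := by ring
  have e4 : -2 * (N - 2) - 2 = 2 - 2 * N := by ring
  rw [e1, e2, e3, e4]
  ring

section modp

variable (p : ℕ) [hp : Fact p.Prime] {M l : ℕ}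

theorem red_PN (N b : ℤ) : red p (PN ℤ N b) = PN (ZMod p) N b := by
  unfold PN
  simp only [map_sub, map_mul, red_T]

omit hp in
theorem sgn'_sE (n : ℤ) : sgn' p n = sE (ZMod p) n := by
  unfold sgn' sE
  rcases Int.even_or_odd n with h | h
  · rw [h.neg_one_zpow, if_pos h]
    rfl
  · rw [h.neg_one_zpow, if_neg (Int.not_even_iff_odd.2 h)]
    rfl

theorem four_dF : (T 4 - T (-4) : (ZMod p)[T;T⁻¹]) = -((T 2 - T (-2)) * dF (ZMod p)) := by
  unfold dF
  have e1 : (T 4 : (ZMod p)[T;T⁻¹]) = T 2 * T 2 := by rw [← T_add]; norm_num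
  have e2 : (T (-4) : (ZMod p)[T;T⁻¹]) = T (-2) * T (-2) := by rw [← T_add]; norm_num
  rw [e1, e2]
  ring

/-- the sum of the coefficients -/
theorem sum_XX {q : ℕ} (b e κ : ℤ) (N : ℕ) (hN : N ≤ M)
    (hk : ∀ j : ℕ, ((κ * tau N j : ℤ) : ZMod p) ^ q = ((κ * tau N j : ℤ) : ZMod p))
    (u : ℕ → (ZMod p)[T;T⁻¹]) (hu : ∀ n ∈ range (M + 1), u n = C ((κ * tau N n : ℤ) : ZMod p) * T e) :
    (T 2 - T (-2)) * ∑ n ∈ range (M + 1), (u n) ^ q * hn p b n =
      C (κ : ZMod p) * T (q * e) * (sE (ZMod p) N * (XX (ZMod p) b N - XX (ZMod p) b (N - 2))) := by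
  have h1 := tau_sum (R := (ZMod p)[T;T⁻¹]) M N hN (fun n => sE (ZMod p) n * XX (ZMod p) b n) (by
    simp only [XX_neg_one, mul_zero]) (by
    have e1 : sE (ZMod p) (-2) = 1 := if_pos (by decide)
    have e2 : sE (ZMod p) 0 = 1 := if_pos (by decide)
    simp only [XX_neg_two, e1, e2, one_mul])
  have h2 : sE (ZMod p) ((N : ℤ) - 2) = sE (ZMod p) N := by
    rw [← sgn'_sE, ← sgn'_sE, sgn'_sub_two]
  simp only [h2] at h1
  rw [← mul_sub] at h1
  rw [← h1, Finset.mul_sum, Finset.mul_sum]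
  refine Finset.sum_congr rfl fun n hn' => ?_
  rw [hu n hn', mul_pow, ← map_pow, hk n, T_pow]
  have h3 : (T 2 - T (-2)) * hn p b n = sE (ZMod p) n * XX (ZMod p) b n := by
    unfold hn XX
    rw [← sgn'_sE]
    have h := cheb_dF (p := p) (n : ℤ)
    calc (T 2 - T (-2)) * (T (b * (n * (n + 2))) *
          Polynomial.aeval (dF (ZMod p)) (Polynomial.Chebyshev.S ℤ (n : ℤ)))
        = T (b * (n * (n + 2))) * ((T 2 - T (-2)) *
          Polynomial.aeval (dF (ZMod p)) (Polynomial.Chebyshev.S ℤ (n : ℤ))) := by ring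
      _ = _ := by rw [h]; ring
  have h4 : (C ((κ * tau N n : ℤ) : ZMod p) : (ZMod p)[T;T⁻¹]) = C (κ : ZMod p) * (tau N n : ℤ) := by
    rw [Int.cast_mul, map_mul, map_intCast (C : ZMod p →+* (ZMod p)[T;T⁻¹]) (tau N n)]
  calc (T 2 - T (-2)) * (C ((κ * tau N n : ℤ) : ZMod p) * T (q * e) * hn p b n)
      = C ((κ * tau N n : ℤ) : ZMod p) * T (q * e) * ((T 2 - T (-2)) * hn p b n) := by ring
    _ = _ := by rw [h3, h4]; ring

/-- the values of the coefficients at `T = 1`, with the sign -/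
theorem cheb_pm (hl : 0 < l) (hM : 0 < M) (n : ℕ) (hn : Odd n) (v : Fin l → Elem M)
    (a : ℤ) (dir : Fin (n * l + a.natAbs * (M * (M - 1))) × Fin M → Bool)
    (ho : Oriented (freeWord n v a) dir) (hK : IsKnot (PK.annular (freeWord n v a) dir)) (w : ℤ) :
    ∃ κ : ℤ, (κ = 1 ∨ κ = -1) ∧ ∀ (p : ℕ) [Fact p.Prime],
      ∑ j ∈ range (M + 1), Polynomial.C (eps p (RR p M (toW v) w j)) *
        Polynomial.Chebyshev.S (ZMod p) (j : ℤ) =
      Polynomial.C (κ : ZMod p) * (Polynomial.Chebyshev.S (ZMod p) (PK.linking (fst hl hn.pos dir) ⟨0, hl⟩) -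
        Polynomial.Chebyshev.S (ZMod p) (PK.linking (fst hl hn.pos dir) ⟨0, hl⟩ - 2)) := by
  have hem : ∀ t : Fin l, (t : ℕ) < n * l + a.natAbs * (M * (M - 1)) := by
    intro t
    have h1 : l ≤ n * l := Nat.le_mul_of_pos_left l hn.pos
    have := t.2
    omega
  obtain ⟨hv, -⟩ := knot_writhe hl hM n hn v a dir ho hK
  obtain ⟨κ, hκ, hu⟩ := twisted_sum_pm hl hM v (freeWord n v a) (fun t => ⟨t, hem t⟩) dir ho hK hv
    (fun d hd => by
      obtain ⟨dir', h2, h3⟩ := free_ext hl hM n hn.pos v a d hd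
      exact ⟨dir', h2, fun t j => h3 _ t j rfl⟩)
  have hR := Rz_eq (m := M) (toW v) (PK.linking dir ⟨((⟨0, hl⟩ : Fin l) : ℕ), hem ⟨0, hl⟩⟩) κ hu
  have hlam : PK.linking (fst hl hn.pos dir) ⟨0, hl⟩ =
      PK.linking dir ⟨((⟨0, hl⟩ : Fin l) : ℕ), hem ⟨0, hl⟩⟩ := rfl
  rw [hlam]
  refine ⟨(if Even w then 1 else -1) * κ, ?_, ?_⟩
  · split_ifs <;> rcases hκ with rfl | rfl <;> simp
  intro p hp
  have h2 := Rz_map p (toW_mem v)
  rw [hR, Polynomial.map_mul, Polynomial.map_C, Polynomial.map_sub, Polynomial.Chebyshev.map_S,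
    Polynomial.Chebyshev.map_S] at h2
  have h3 : ∀ j, eps p (rr p M (toW v) j) = eps p (sE (ZMod p) w) * eps p (RR p M (toW v) w j) := by
    intro j
    rw [rr_of_RR p (toW v) w j, map_mul, map_mul, eps_T, mul_one]
  have hss : eps p (sE (ZMod p) w) * eps p (sE (ZMod p) w) = 1 := by
    rw [← map_mul, sE_sq, map_one]
  have hsg : (((if Even w then 1 else -1 : ℤ) : ℤ) : ZMod p) = eps p (sE (ZMod p) w) := by
    unfold sE
    split_ifs
    · simp
    · simp
  rw [Int.cast_mul, hsg, map_mul, mul_assoc]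
  have h2' : Polynomial.C ((κ : ℤ) : ZMod p) * (Polynomial.Chebyshev.S (ZMod p)
      (PK.linking dir ⟨((⟨0, hl⟩ : Fin l) : ℕ), hem ⟨0, hl⟩⟩) - Polynomial.Chebyshev.S (ZMod p)
      (PK.linking dir ⟨((⟨0, hl⟩ : Fin l) : ℕ), hem ⟨0, hl⟩⟩ - 2)) =
      ∑ j ∈ range (M + 1), Polynomial.C (eps p (rr p M (toW v) j)) *
        Polynomial.Chebyshev.S (ZMod p) (j : ℤ) := h2
  rw [h2', Finset.mul_sum]
  refine Finset.sum_congr rfl fun j _ => ?_
  rw [h3 j, map_mul]
  have h4 : (Polynomial.C (eps p (sE (ZMod p) w)) * Polynomial.C (eps p (sE (ZMod p) w)) :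
      Polynomial (ZMod p)) = 1 := by rw [← map_mul, hss, map_one]
  calc Polynomial.C (eps p (RR p M (toW v) w j)) * Polynomial.Chebyshev.S (ZMod p) (j : ℤ)
      = (Polynomial.C (eps p (sE (ZMod p) w)) * Polynomial.C (eps p (sE (ZMod p) w))) *
        (Polynomial.C (eps p (RR p M (toW v) w j)) * Polynomial.Chebyshev.S (ZMod p) (j : ℤ)) := by
        rw [h4, one_mul]
    _ = _ := by ring

theorem T_mul_coeff' {R : Type*} [CommRing R] (k : ℤ) (f : R[T;T⁻¹]) (n : ℤ) :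
    (T k * f).coeff n = f.coeff (n - k) := by
  have h := AddMonoidAlgebra.coeff_single_mul_eq_mul_coeff (x := f) (m := k) (m₁ := n) (r := (1 : R))
    (m₂ := n - k) (by intro a _; constructor <;> intro h <;> omega)
  rw [one_mul] at h
  exact h

/-- the coefficients of the quotient -/
theorem span_core (k : ℕ) (hp2 : p ≠ 2) (hl : 0 < l) (hM : 0 < M) (v : Fin l → Elem M)
    (a : ℤ) (hq : M * (a.natAbs * M + 1) < 2 * p ^ k)
    (dir : Fin (p ^ k * l + a.natAbs * (M * (M - 1))) × Fin M → Bool)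
    (ho : Oriented (freeWord (p ^ k) v a) dir)
    (hK : IsKnot (PK.annular (freeWord (p ^ k) v a) dir)) (x y : ℤ)
    (hxy : y - x + 4 + a.natAbs * (M * (M + 2)) < 4 * p ^ k)
    (hf : ∀ c, (red p (PK.annular (freeWord (p ^ k) v a) dir).fPoly).coeff c ≠ 0 → x ≤ c ∧ c ≤ y)
    (hpos : 0 < p ^ k) :
    ∃ κ e : ℤ, (κ = 1 ∨ κ = -1) ∧ ∀ n ∈ range (M + 1),
      RR p M (toW v) (PK.annular v (fst hl hpos dir)).writhe n =
        C ((κ * tau (PK.linking (fst hl hpos dir) ⟨0, hl⟩).natAbs n : ℤ) : ZMod p) * T e := by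
  have hodd : Odd (p ^ k) := (hp.out.odd_of_ne_two hp2).pow
  obtain ⟨hv, hw⟩ := knot_writhe hl hM (p ^ k) hodd v a dir ho hK
  obtain ⟨c, hc⟩ := linking_par (fst hl hpos dir) ⟨0, hl⟩
  have hst := star p k (p ^ k) rfl hodd hl hM v a dir _ _ c hc hw
  have hlb := linking_bound (fst hl hpos dir) ⟨0, hl⟩
  obtain ⟨κ, hκ, hch⟩ := cheb_pm hl hM (p ^ k) hodd v a dir ho hK (PK.annular v (fst hl hpos dir)).writhe
  set w := (PK.annular v (fst hl hpos dir)).writhe with hwdef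
  set s := PK.linking (fst hl hpos dir) ⟨0, hl⟩ with hs
  rw [map_mul, red_dl] at hst
  generalize (PK.annular (freeWord (p ^ k) v a) dir).fPoly = F at hst hf
  have h1 : ∑ n ∈ range (M + 1), (RR p M (toW v) w n) ^ (p ^ k) * hn p a n =
      T (3 * a * s ^ 2) * (dF (ZMod p) * red p F) := by
    rw [hst, ← mul_assoc, ← T_add]
    have : 3 * a * s ^ 2 + -(3 * a * s ^ 2) = 0 := by ring
    rw [this, T_zero, one_mul]
  obtain ⟨e, he⟩ := alg_span p a (RR p M (toW v) w) hpos hq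
    (fun n h => RR_par p (toW_mem v) w n h) (clw (toW v) - 3 * w)
    (fun n => RR_res4 p (toW_mem v) w n) (x - 2 + 3 * a * s ^ 2) (y + 2 + 3 * a * s ^ 2) (by
      have h7 := hxy
      push_cast at h7 ⊢
      linarith) (by
      intro m hm
      rw [h1, T_mul_coeff'] at hm
      have h2 : (dF (ZMod p) * red p F).coeff (m - 3 * a * s ^ 2) =
          -((red p F).coeff (m - 3 * a * s ^ 2 - 2)) - (red p F).coeff (m - 3 * a * s ^ 2 - (-2)) := by
        have h3 : dF (ZMod p) * red p F = -(T 2 * red p F) - T (-2) * red p F := by unfold dF; ring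
        have h4 : (-(T 2 * red p F) - T (-2) * red p F).coeff (m - 3 * a * s ^ 2) =
            -((T 2 * red p F).coeff (m - 3 * a * s ^ 2)) - (T (-2) * red p F).coeff (m - 3 * a * s ^ 2) := by
          simp
        rw [h3, h4, T_mul_coeff', T_mul_coeff']
      rw [h2] at hm
      have h5 : (red p F).coeff (m - 3 * a * s ^ 2 - 2) ≠ 0 ∨
          (red p F).coeff (m - 3 * a * s ^ 2 - (-2)) ≠ 0 := by
        by_contra hcon
        push Not at hcon
        rw [hcon.1, hcon.2] at hm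
        simp at hm
      rcases h5 with h5 | h5
      · have := hf _ h5
        constructor <;> linarith [this.1, this.2]
      · have := hf _ h5
        constructor <;> linarith [this.1, this.2])
  choose! c' hc' using he
  refine ⟨κ, e, hκ, ?_⟩
  have h6 := coeff_tau M c' (κ : ZMod p) s (by omega) (by
    rw [← hch p]
    refine Finset.sum_congr rfl fun j hj => ?_
    rw [hc' j hj, map_mul, eps_C, eps_T, mul_one])
  intro n hn'
  rw [hc' n hn', h6 n hn', Int.cast_mul]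

theorem pow_int (k : ℕ) (z : ℤ) : ((z : ℤ) : ZMod p) ^ (p ^ k) = (z : ZMod p) := ZMod.pow_card_pow _

/-- from the coefficients to the polynomial -/
theorem quot_tau (k : ℕ) (q : ℕ) (hq : q = p ^ k) (hodd : Odd q) (hl : 0 < l) (hM : 0 < M) (v : Fin l → Elem M)
    (b : ℤ) (dir : Fin (q * l + b.natAbs * (M * (M - 1))) × Fin M → Bool) (w s : ℤ)
    (hpar : ∃ c : ℤ, s ^ 2 - M = 2 * c) (hsM : s.natAbs ≤ M)
    (hw : (PK.annular (freeWord q v b) dir).writhe = q * w + b * (s ^ 2 - M)) (κ e : ℤ)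
    (hu : ∀ n ∈ range (M + 1), RR p M (toW v) w n = C ((κ * tau s.natAbs n : ℤ) : ZMod p) * T e) :
    (T 4 - T (-4)) * red p (PK.annular (freeWord q v b) dir).fPoly =
      -(C (κ : ZMod p) * sE (ZMod p) s) * T (q * e) * PN (ZMod p) s.natAbs b := by
  obtain ⟨c, hc⟩ := hpar
  have hst := star p k q hq hodd hl hM v b dir w s c hc hw
  rw [map_mul, red_dl] at hst
  have h1 := sum_XX p (q := q) b e κ s.natAbs hsM (fun j => by rw [hq]; exact pow_int p k _) _ hu
  have h2 : sE (ZMod p) (s.natAbs : ℤ) = sE (ZMod p) s := by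
    unfold sE
    have : Even (s.natAbs : ℤ) ↔ Even s := by
      rw [Int.even_coe_nat]
      exact Int.natAbs_even
    simp only [this]
  have h3 : s ^ 2 = (s.natAbs : ℤ) ^ 2 := (Int.natAbs_sq s).symm
  rw [h3] at hst
  rw [four_dF, neg_mul, mul_assoc, hst]
  have h4 : (T 2 - T (-2)) * (T (-(3 * b * (s.natAbs : ℤ) ^ 2)) * ∑ n ∈ range (M + 1),
      (RR p M (toW v) w n) ^ q * hn p b n) =
      T (-(3 * b * (s.natAbs : ℤ) ^ 2)) * ((T 2 - T (-2)) * ∑ n ∈ range (M + 1),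
      (RR p M (toW v) w n) ^ q * hn p b n) := by ring
  rw [h4, h1, h2, ← PN_eq]
  ring

end modp

end Pool.Agent.TH561.AD
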