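import Pool.Agent.TH561.AD.SpanE

/-!
# The span of the polynomial of a freely periodic knot: the linking number is odd
-/

set_option autoImplicit false

namespace Pool.Agent.TH561.AD

open Pool.Agent.H891R2.Jones Pool.Agent.TH561 Pool.Agent.TH561.PK Pool.Agent.TH561.FP Finset
  LaurentPolynomial

variable (p : ℕ) [hp : Fact p.Prime] {M l : ℕ}

/-- the loop value is not a unit -/
theorem dF_not_unit : ¬ dF (ZMod p) ∣ 1 := by
  rintro ⟨h, hh⟩
  have hne : h ≠ 0 := by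
    rintro rfl
    rw [mul_zero] at hh
    exact one_ne_zero hh
  obtain ⟨t, ht⟩ := exists_top h hne
  obtain ⟨b, hb⟩ := exists_bot h hne
  have h1 : Top (1 : (ZMod p)[T;T⁻¹]) (2 + t) := by
    rw [hh]
    exact top_dF.mul ht
  have h2 : Bot (dF (ZMod p)) (-2) := by
    unfold PK.Bot
    rw [invert_dF, neg_neg]
    exact top_dF
  have h3 : Bot (1 : (ZMod p)[T;T⁻¹]) (-2 + b) := by
    rw [hh]
    exact h2.mul hb
  have h4 : Top (1 : (ZMod p)[T;T⁻¹]) 0 := top_one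
  have h5 : Bot (1 : (ZMod p)[T;T⁻¹]) 0 := by
    have := bot_T (F := ZMod p) 0
    rwa [T_zero] at this
  have h6 := Top.unique h1 h4
  have h7 : -2 + b = 0 := le_antisymm (h3.le h5.coeff) (h5.le h3.coeff)
  have h8 := hb.le ht.1
  omega

/-- the index is odd -/
theorem index_odd (hp2 : p ≠ 2) (g : (ZMod p)[T;T⁻¹]) (ε e : ℤ) (hε : ε = 1 ∨ ε = -1) (N : ℕ)
    (h : (T 4 - T (-4)) * g = C (ε : ZMod p) * T e * PN (ZMod p) N 0) : Odd N := by
  by_contra hcon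
  rw [Nat.not_odd_iff_even] at hcon
  obtain ⟨m, hm⟩ := hcon
  have e1 : PN (ZMod p) N 0 = (T 2 - T (-2)) * (T (2 * N) + T (-(2 * N))) := by
    unfold PN
    have h1 : (-2 * 0 * (N : ℤ) * (N - 1)) = 0 := by ring
    have h2 : (-2 * 0 * (N : ℤ) * (N + 1)) = 0 := by ring
    rw [h1, h2, T_zero, one_mul, one_mul]
    have h3 : (T (2 * (N : ℤ) + 2) : (ZMod p)[T;T⁻¹]) = T (2 * N) * T 2 := by rw [← T_add]
    have h4 : (T (-2 * (N : ℤ) - 2) : (ZMod p)[T;T⁻¹]) = T (-(2 * N)) * T (-2) := by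
      rw [← T_add, show -(2 * (N : ℤ)) + -2 = -2 * N - 2 by ring]
    have h5 : (T (2 * (N : ℤ) - 2) : (ZMod p)[T;T⁻¹]) = T (2 * N) * T (-2) := by
      rw [← T_add, show 2 * (N : ℤ) + -2 = 2 * N - 2 by ring]
    have h6 : (T (2 - 2 * (N : ℤ)) : (ZMod p)[T;T⁻¹]) = T (-(2 * N)) * T 2 := by
      rw [← T_add, show -(2 * (N : ℤ)) + 2 = 2 - 2 * N by ring]
    rw [h3, h4, h5, h6]
    ring
  have e2 : (T 4 - T (-4) : (ZMod p)[T;T⁻¹]) = -((T 2 - T (-2)) * dF (ZMod p)) := four_dF p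
  have e3 : (T 2 - T (-2) : (ZMod p)[T;T⁻¹]) ≠ 0 :=
    (top_diff (F := ZMod p) (a := 2) (b := -2) (by norm_num)).ne_zero
  have e4 : -dF (ZMod p) * g = C (ε : ZMod p) * T e * (T (2 * N) + T (-(2 * N))) := by
    apply mul_left_cancel₀ e3
    rw [e1, e2] at h
    linear_combination h
  -- the divisor
  have d1 : dF (ZMod p) ∣ T 4 - (-1) := ⟨-T 2, by
    unfold dF
    have h1 : (T 4 : (ZMod p)[T;T⁻¹]) = T 2 * T 2 := by rw [← T_add]; norm_num
    have h2 : (T (-2) * T 2 : (ZMod p)[T;T⁻¹]) = 1 := by rw [← T_add]; norm_num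
    rw [h1]
    linear_combination -h2⟩
  have d2 : dF (ZMod p) ∣ T (-4) - (-1) := ⟨-T (-2), by
    unfold dF
    have h1 : (T (-4) : (ZMod p)[T;T⁻¹]) = T (-2) * T (-2) := by rw [← T_add]; norm_num
    have h2 : (T (-2) * T 2 : (ZMod p)[T;T⁻¹]) = 1 := by rw [← T_add]; norm_num
    rw [h1]
    linear_combination -h2⟩
  have d3 := d1.trans (sub_dvd_pow_sub_pow (T 4 : (ZMod p)[T;T⁻¹]) (-1) m)
  have d4 := d2.trans (sub_dvd_pow_sub_pow (T (-4) : (ZMod p)[T;T⁻¹]) (-1) m)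
  have d5 : dF (ZMod p) ∣ C (ε : ZMod p) * T e * (T (2 * N) + T (-(2 * N))) := by
    rw [← e4]
    exact ⟨-g, by ring⟩
  have h7 : (T (2 * (N : ℤ)) : (ZMod p)[T;T⁻¹]) = T 4 ^ m := by
    rw [T_pow]; congr 1; rw [hm]; push_cast; ring
  have h8 : (T (-(2 * (N : ℤ))) : (ZMod p)[T;T⁻¹]) = T (-4) ^ m := by
    rw [T_pow]; congr 1; rw [hm]; push_cast; ring
  rw [h7, h8] at d5
  have d6 : dF (ZMod p) ∣ C (ε : ZMod p) * T e * (2 * (-1) ^ m) := by
    have := dvd_sub d5 ((dvd_add d3 d4).mul_left (C (ε : ZMod p) * T e))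
    have e5 : C (ε : ZMod p) * T e * (T 4 ^ m + T (-4) ^ m) -
        C (ε : ZMod p) * T e * (T 4 ^ m - (-1) ^ m + (T (-4) ^ m - (-1) ^ m)) =
        C (ε : ZMod p) * T e * (2 * (-1) ^ m) := by ring
    rwa [e5] at this
  have hh2 : ((2 : ZMod p)) ≠ 0 := by
    intro h4
    have h5 : ((2 : ℕ) : ZMod p) = 0 := by push_cast; exact h4
    rw [ZMod.natCast_eq_zero_iff] at h5
    exact hp2 ((Nat.prime_dvd_prime_iff_eq hp.out Nat.prime_two).1 h5)
  have hε' : (ε : ZMod p) * (ε : ZMod p) = 1 := by rcases hε with rfl | rfl <;> simp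
  apply dF_not_unit p
  have d7 := d6.mul_left (C (ε : ZMod p) * T (-e) * (C (2 : ZMod p)⁻¹ * (-1) ^ m))
  have e6 : C (ε : ZMod p) * T (-e) * (C (2 : ZMod p)⁻¹ * (-1) ^ m) * (C (ε : ZMod p) * T e * (2 * (-1) ^ m)) =
      1 := by
    have h9 : (T (-e) * T e : (ZMod p)[T;T⁻¹]) = 1 := T_unit _ e
    have h10 : (C (ε : ZMod p) * C (ε : ZMod p) : (ZMod p)[T;T⁻¹]) = 1 := by
      rw [← map_mul, hε', map_one]
    have h11 : (C (2 : ZMod p)⁻¹ * 2 : (ZMod p)[T;T⁻¹]) = 1 := by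
      have h12 : (2 : (ZMod p)[T;T⁻¹]) = C (2 : ZMod p) := by
        rw [map_ofNat]
      rw [h12, ← map_mul, inv_mul_cancel₀ hh2, map_one]
    have h13 : ((-1) ^ m * (-1) ^ m : (ZMod p)[T;T⁻¹]) = 1 := by
      rw [← mul_pow]; norm_num
    calc _ = (C (ε : ZMod p) * C (ε : ZMod p)) * (T (-e) * T e) * (C (2 : ZMod p)⁻¹ * 2) *
          ((-1) ^ m * (-1) ^ m) := by ring
      _ = 1 := by rw [h9, h10, h11, h13]; ring
  rwa [e6] at d7

/-- the linking number is odd -/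
theorem span_odd (k : ℕ) (hp2 : p ≠ 2) (hl : 0 < l) (hM : 0 < M) (v : Fin l → Elem M)
    (a : ℤ) (hq : M * (a.natAbs * M + 1) < 2 * p ^ k)
    (dir : Fin (p ^ k * l + a.natAbs * (M * (M - 1))) × Fin M → Bool)
    (ho : Oriented (freeWord (p ^ k) v a) dir)
    (hK : IsKnot (PK.annular (freeWord (p ^ k) v a) dir)) (x y : ℤ)
    (hxy : y - x + 4 + a.natAbs * (M * (M + 2)) < 4 * p ^ k)
    (hf : ∀ c, (red p (PK.annular (freeWord (p ^ k) v a) dir).fPoly).coeff c ≠ 0 → x ≤ c ∧ c ≤ y)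
    (hpos : 0 < p ^ k) : Odd (PK.linking (fst hl hpos dir) ⟨0, hl⟩) := by
  have hodd : Odd (p ^ k) := (hp.out.odd_of_ne_two hp2).pow
  obtain ⟨ε, e, hε, -, h⟩ := span_final p k hp2 hl hM v a hq dir ho hK x y hxy hf hpos
  obtain ⟨d0, hd0⟩ := exists_quot_dir hl hM (p ^ k) hodd v a dir ho hK 0
  have h1 := (h 0 d0 hd0).1
  rw [map_sub, map_mul, map_mul, map_mul, map_sub, red_T, red_T, red_T, red_C, red_PN, sub_eq_zero] at h1
  exact Int.natAbs_odd.1 (index_odd p hp2 _ ε e hε _ h1)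

end Pool.Agent.TH561.AD
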