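import Pool.Agent.TH561.FP.Rot

/-!
# The writhe of the diagram of a freely periodic knot
-/

set_option autoImplicit false

namespace Pool.Agent.TH561.AD

open Pool.Agent.H891R2.Jones Pool.Agent.TH561 Pool.Agent.TH561.PK Pool.Agent.TH561.FP Finset

section writhe

variable {M L l : ℕ}

/-- the sign of a direction -/
def ep (x : Bool) : ℤ := if x then 1 else -1

theorem ep_mul_self (x : Bool) : ep x * ep x = 1 := by cases x <;> simp [ep]

theorem ep_not (x : Bool) : ep (!x) = -ep x := by cases x <;> simp [ep]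

/-- the sign of an elementary tangle with directions -/
def sgl (x : Elem M) (d : Fin M → Bool) : ℤ :=
  match x.1 with
  | some true => ep (d x.lf) * ep (d x.rg)
  | some false => -(ep (d x.lf) * ep (d x.rg))
  | none => 0

theorem sgl_some (b : Bool) (i : Fin (M - 1)) (d : Fin M → Bool) :
    sgl ((some b, i) : Elem M) d = ep b * (ep (d (Elem.lf (some b, i))) * ep (d (Elem.rg (some b, i)))) := by
  cases b
  · show -(ep _ * ep _) = ep false * (ep _ * ep _)
    simp only [ep, Bool.false_eq_true, if_false]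
    ring
  · show ep _ * ep _ = ep true * (ep _ * ep _)
    simp only [ep, if_true]
    ring

theorem sgl_not (x : Elem M) (d : Fin M → Bool) : sgl x (fun j => !(d j)) = sgl x d := by
  obtain ⟨a, i⟩ := x
  rcases a with _ | b
  · rfl
  · rw [sgl_some, sgl_some, ep_not, ep_not]
    ring

theorem sign_aux1 (x y : Bool) : (if x = y then (-1 : ℤ) else 1) + 0 = -(ep x * ep y) := by
  cases x <;> cases y <;> decide

theorem sign_aux2 (x y : Bool) : (if y = !x then (-1 : ℤ) else 1) + 0 = ep x * ep y := by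
  cases x <;> cases y <;> decide

theorem level_sign (x : Elem M) (t t' : Fin L) (dir : Fin L × Fin M → Bool) :
    ((levelCrossings x t t' dir).map Crossing.sign).sum = sgl x (fun j => dir (t, j)) := by
  obtain ⟨a, i⟩ := x
  rcases a with _ | b
  · simp [levelCrossings, sgl]
  · cases b
    · exact sign_aux1 _ _
    · exact sign_aux2 _ _

theorem writhe_annular (w : Fin L → Elem M) (dir : Fin L × Fin M → Bool) :
    (PK.annular w dir).writhe = ∑ t, sgl (w t) (fun j => dir (t, j)) := by
  unfold Diagram.writhe PK.annular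
  simp only
  rw [List.map_flatMap, Fin.sum_univ_def]
  generalize List.finRange L = k
  induction k with
  | nil => simp
  | cons t k ih =>
    rw [List.flatMap_cons, List.sum_append, ih, List.map_cons, List.sum_cons, level_sign]

theorem writhe_not (w : Fin L → Elem M) (dir dir' : Fin L × Fin M → Bool)
    (h : (∀ p, dir' p = dir p) ∨ ∀ p, dir' p = !(dir p)) :
    (PK.annular w dir').writhe = (PK.annular w dir).writhe := by
  rw [writhe_annular, writhe_annular]
  refine Finset.sum_congr rfl fun t _ => ?_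
  rcases h with h | h
  · congr 1
    funext j
    exact h _
  · rw [← sgl_not]
    congr 1
    funext j
    rw [h]
    simp

theorem sum_modNat (n : ℕ) (f : Fin l → ℤ) : ∑ i : Fin (n * l), f i.modNat = n * ∑ t, f t := by
  rw [← Equiv.sum_comp finProdFinEquiv (fun i : Fin (n * l) => f i.modNat), Fintype.sum_prod_type]
  have h1 : ∀ (x : Fin n) (y : Fin l), (finProdFinEquiv (x, y)).modNat = y := by
    intro x y
    have := finProdFinEquiv.symm_apply_apply (x, y)
    exact congrArg Prod.snd this
  simp only [h1]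
  simp

theorem linking_eq (d : Fin L × Fin M → Bool) (t : Fin L) : PK.linking d t = ∑ j, ep (d (t, j)) := rfl

/-- the sum over one block of the full twists -/
theorem sum_blk (hM : 0 < M - 1) (e : Fin M → Bool) (r : ℕ) :
    ∑ j : Fin (M - 1), ep (e (pm hM (r * (M-1) + j) ⟨j, by have := j.2; omega⟩)) *
      ep (e (pm hM (r * (M-1) + j) ⟨j + 1, by have := j.2; omega⟩)) =
      ep (e ⟨r % M, Nat.mod_lt _ (by omega)⟩) * (∑ j, ep (e j)) - 1 := by
  have h0 : pm hM (r * (M-1)) ⟨0, by omega⟩ = ⟨r % M, Nat.mod_lt _ (by omega)⟩ := by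
    rw [pm_pow]
    induction r with
    | zero =>
      apply Fin.ext
      simp
    | succ r ih =>
      rw [pow_succ', Equiv.Perm.mul_apply, ih]
      apply Fin.ext
      rw [finRotate_val]
      simp
  have h1 : ∀ j : Fin (M - 1), ep (e (pm hM (r * (M-1) + j) ⟨j, by have := j.2; omega⟩)) *
      ep (e (pm hM (r * (M-1) + j) ⟨j + 1, by have := j.2; omega⟩)) =
      ep (e ⟨r % M, Nat.mod_lt _ (by omega)⟩) *
        ep (e (pm hM (r * (M-1)) ⟨j + 1, by have := j.2; omega⟩)) := by
    intro j
    have h2 := (pm_block hM r j j.2.le ⟨j, by have := j.2; omega⟩).2.1 rfl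
    have h3 := (pm_block hM r j j.2.le ⟨j + 1, by have := j.2; omega⟩).2.2 (by simp)
    rw [h2, h3, h0]
  rw [Finset.sum_congr rfl (fun j _ => h1 j), ← Finset.mul_sum]
  have h2 : ∑ j, ep (e j) = ep (e ⟨r % M, Nat.mod_lt _ (by omega)⟩) +
      ∑ j : Fin (M - 1), ep (e (pm hM (r * (M-1)) ⟨j + 1, by have := j.2; omega⟩)) := by
    rw [← Equiv.sum_comp (pm hM (r * (M-1))) (fun j => ep (e j)), ← h0]
    obtain ⟨n, rfl⟩ : ∃ n, M = n + 1 := ⟨M - 1, by omega⟩
    rw [Fin.sum_univ_succ]
    rfl
  rw [h2, mul_add, ep_mul_self]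
  ring

/-- the writhe with the periodic directions -/
theorem writhe_gdir (hl : 0 < l) (hM : 0 < M - 1) (n : ℕ) (v : Fin l → Elem M) (a : ℤ)
    (d : Fin l × Fin M → Bool) :
    (PK.annular (freeWord n v a) (fun x => gdir hl hM n d x.1 x.2)).writhe =
      n * (PK.annular v d).writhe + a * ((PK.linking d ⟨0, hl⟩) ^ 2 - M) := by
  rw [writhe_annular, writhe_annular, Fin.sum_univ_add]
  congr 1
  · have h1 : ∀ i : Fin (n * l), sgl (freeWord n v a (Fin.castAdd (a.natAbs * (M * (M - 1))) i))
        (fun j => gdir hl hM n d ((Fin.castAdd (a.natAbs * (M * (M - 1))) i : Fin _) : ℕ) j) =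
        (fun t : Fin l => sgl (v t) (fun j => d (t, j))) i.modNat := by
      intro i
      unfold freeWord
      rw [Fin.append_left]
      unfold pw
      simp only
      congr 1
      funext j
      unfold gdir
      rw [if_pos (by rw [Fin.val_castAdd]; exact i.2.le)]
      rfl
    rw [Finset.sum_congr rfl (fun i _ => h1 i)]
    exact sum_modNat n (fun t : Fin l => sgl (v t) (fun j => d (t, j)))
  · set e : Fin M → Bool := fun j => d (⟨0, hl⟩, j) with he
    let g : ℕ → ℤ := fun s => ep (decide (0 ≤ a)) *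
      (ep (e (pm hM s ⟨s % (M - 1), by have := Nat.mod_lt s hM; omega⟩)) *
        ep (e (pm hM s ⟨s % (M - 1) + 1, by have := Nat.mod_lt s hM; omega⟩)))
    have h1 : ∀ i : Fin (a.natAbs * (M * (M - 1))), sgl (freeWord n v a (Fin.natAdd (n * l) i))
        (fun j => gdir hl hM n d ((Fin.natAdd (n * l) i : Fin _) : ℕ) j) = g i := by
      intro i
      rw [freeWord_ge hM n v a _ (by rw [Fin.val_natAdd]; omega), sgl_some]
      have e1 : ((Fin.natAdd (n * l) i : Fin _) : ℕ) - n * l = i := by
        rw [Fin.val_natAdd]; omega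
      rw [gdir_ge hl hM n d _ _ (by rw [Fin.val_natAdd]; omega),
        gdir_ge hl hM n d _ _ (by rw [Fin.val_natAdd]; omega), e1]
      show ep (decide (0 ≤ a)) * (ep (d (⟨0, hl⟩, pm hM i _)) * ep (d (⟨0, hl⟩, pm hM i _))) = g i
      have e2 : ∀ (x : ℕ) (hx : x < M - 1), x = (i : ℕ) % (M - 1) →
          (ep (d (⟨0, hl⟩, pm hM i ⟨x, by omega⟩)) * ep (d (⟨0, hl⟩, pm hM i ⟨x + 1, by omega⟩))) =
          (ep (e (pm hM i ⟨(i : ℕ) % (M - 1), by have := Nat.mod_lt (i : ℕ) hM; omega⟩)) *
          ep (e (pm hM i ⟨(i : ℕ) % (M - 1) + 1, by have := Nat.mod_lt (i : ℕ) hM; omega⟩))) := by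
        intro x hx hx'
        subst hx'
        rfl
      exact congrArg (ep (decide (0 ≤ a)) * ·) (e2 _ (Nat.mod_lt _ hM) rfl)
    have h2 : ∀ N : ℕ, ∑ s ∈ range (N * (M - 1)), g s =
        ep (decide (0 ≤ a)) * ∑ r ∈ range N, (ep (e ⟨r % M, Nat.mod_lt _ (by omega)⟩) *
          (∑ j, ep (e j)) - 1) := by
      intro N
      induction N with
      | zero => simp
      | succ N ih =>
        rw [add_mul, one_mul, Finset.sum_range_add, ih, Finset.sum_range_succ, mul_add, ← sum_blk hM e N,
          ← Fin.sum_univ_eq_sum_range (fun x => g (N * (M - 1) + x))]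
        congr 1
        rw [Finset.mul_sum]
        refine Finset.sum_congr rfl fun j _ => ?_
        simp only [g]
        have e3 : (N * (M - 1) + (j : ℕ)) % (M - 1) = j := by
          rw [Nat.add_comm, Nat.add_mul_mod_self_right, Nat.mod_eq_of_lt j.2]
        have e2 : ∀ (x : ℕ) (hx : x < M - 1), x = (j : ℕ) →
            (ep (e (pm hM (N * (M - 1) + j) ⟨x, by omega⟩)) *
            ep (e (pm hM (N * (M - 1) + j) ⟨x + 1, by omega⟩))) =
            (ep (e (pm hM (N * (M - 1) + j) ⟨(j : ℕ), by have := j.2; omega⟩)) *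
            ep (e (pm hM (N * (M - 1) + j) ⟨(j : ℕ) + 1, by have := j.2; omega⟩))) := by
          intro x hx hx'
          subst hx'
          rfl
        exact congrArg (ep (decide (0 ≤ a)) * ·) (e2 _ (Nat.mod_lt _ hM) e3)
    rw [Finset.sum_congr rfl (fun i _ => h1 i), Fin.sum_univ_eq_sum_range g]
    have h3 : a.natAbs * (M * (M - 1)) = (a.natAbs * M) * (M - 1) := by ring
    rw [h3, h2]
    have h4 : ∑ r ∈ range (a.natAbs * M), ep (e ⟨r % M, Nat.mod_lt _ (by omega)⟩) =
        a.natAbs * ∑ j, ep (e j) := by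
      have h5 := sum_modNat (l := M) a.natAbs (fun j => ep (e j))
      rw [← h5, ← Fin.sum_univ_eq_sum_range (fun r => ep (e ⟨r % M, Nat.mod_lt _ (by omega)⟩))]
      rfl
    have h6 : ep (decide (0 ≤ a)) * (a.natAbs : ℤ) = a := by
      unfold ep
      by_cases h0 : 0 ≤ a
      · rw [decide_eq_true h0, if_pos rfl]
        omega
      · rw [decide_eq_false h0, if_neg (by simp)]
        omega
    rw [Finset.sum_sub_distrib, ← Finset.sum_mul, h4]
    have h7 : PK.linking d ⟨0, hl⟩ = ∑ j, ep (e j) := rfl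
    rw [h7]
    simp only [Finset.sum_const, Finset.card_range, nsmul_eq_mul, mul_one, Nat.cast_mul]
    calc ep (decide (0 ≤ a)) * ((a.natAbs : ℤ) * (∑ j, ep (e j)) * (∑ j, ep (e j)) -
          (a.natAbs : ℤ) * (M : ℤ))
        = (ep (decide (0 ≤ a)) * (a.natAbs : ℤ)) * ((∑ j, ep (e j)) ^ 2 - M) := by ring
      _ = _ := by rw [h6]

end writhe

end Pool.Agent.TH561.AD
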