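import Pool.Agent.TH561.AD.Alg
import Pool.Agent.TH561.AD.Writhe

/-!
# The normalised bracket of freely periodic knots modulo `p`
-/

set_option autoImplicit false

namespace Pool.Agent.TH561.AD

open Pool.Agent.H891R2.Jones Pool.Agent.TH561 Pool.Agent.TH561.PK Pool.Agent.TH561.FP Finset
  LaurentPolynomial

section dirs

variable {M l : ℕ}

/-- the directions in the twists -/
theorem lev_key (hM : 0 < M - 1) (n : ℕ) (v : Fin l → Elem M) (a : ℤ)
    (hL : 0 < n * l + a.natAbs * (M * (M - 1)))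
    (dir : Fin (n * l + a.natAbs * (M * (M - 1))) × Fin M → Bool) (ho : Oriented (freeWord n v a) dir) :
    ∀ s, s ≤ a.natAbs * (M * (M - 1)) →
      levL hL dir (n * l + s) = fun j => levL hL dir (n * l) (pm hM s j) := by
  intro s
  induction s with
  | zero => intro _; rfl
  | succ s ih =>
    intro hs
    have ih := ih (by omega)
    have h1 := levL_fits hL _ dir ho (n * l + s)
    have hmod : (n * l + s) % (n * l + a.natAbs * (M * (M - 1))) = n * l + s :=
      Nat.mod_eq_of_lt (by omega)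
    have h2 := freeWord_ge hM n v a ⟨(n * l + s) % (n * l + a.natAbs * (M * (M - 1))),
      Nat.mod_lt _ hL⟩ (by simp only; rw [hmod]; omega)
    rw [h2, fits_sw, ih] at h1
    have h3 : n * l + (s + 1) = n * l + s + 1 := by ring
    rw [h3, h1]
    funext j
    show levL hL dir (n * l) (pm hM s (sw _ j)) = levL hL dir (n * l) (pm hM (s + 1) j)
    show _ = levL hL dir (n * l) ((pm hM s * sw ⟨s % (M-1), Nat.mod_lt _ hM⟩) j)
    rw [Equiv.Perm.mul_apply]
    congr 4
    apply Fin.ext
    simp only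
    rw [hmod]
    congr 1
    omega

/-- the periodic directions are an orientation -/
theorem gdir_oriented (hl : 0 < l) (hM1 : 0 < M - 1) (n : ℕ) (v : Fin l → Elem M) (a : ℤ)
    (d : Fin l × Fin M → Bool) (ho : Oriented v d) :
    Oriented (freeWord n v a) (fun x => gdir hl hM1 n d x.1 x.2) := by
  intro s
  have h1 := free_fits hl hM1 n v a d ho s
  have h2 : (fun j => gdir hl hM1 n d ((finRotate _ s : Fin _) : ℕ) j) = gdir hl hM1 n d (s + 1) := by
    funext j
    rw [finRotate_val]
    rcases Nat.lt_or_eq_of_le (Nat.succ_le_of_lt s.2) with h3 | h3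
    · rw [Nat.mod_eq_of_lt h3]
    · have h4 : (s : ℕ) + 1 = n * l + a.natAbs * (M * (M - 1)) := h3
      rw [h4, Nat.mod_self, gdir_ge hl hM1 n d (n * l + a.natAbs * (M * (M-1))) j (by omega)]
      have h5 : n * l + a.natAbs * (M * (M-1)) - n * l = a.natAbs * (M * (M-1)) := by omega
      rw [h5, pm_full]
      unfold gdir
      rw [if_pos (Nat.zero_le _)]
      congr 2
  show Fits (freeWord n v a s) (gdir hl hM1 n d s)
    (fun j => gdir hl hM1 n d ((finRotate _ s : Fin _) : ℕ) j)
  rw [h2]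
  exact h1

/-- the directions of the first copy of the word -/
def fst (_hl : 0 < l) {n : ℕ} (hn : 0 < n) {a : ℤ}
    (dir : Fin (n * l + a.natAbs * (M * (M - 1))) × Fin M → Bool) : Fin l × Fin M → Bool :=
  fun x => dir (⟨x.1, by
    have h1 := x.1.2
    have h2 : l ≤ n * l := Nat.le_mul_of_pos_left l hn
    omega⟩, x.2)

/-- the writhe of a freely periodic knot -/
theorem knot_writhe (hl : 0 < l) (hM : 0 < M) (n : ℕ) (hn : Odd n) (v : Fin l → Elem M) (a : ℤ)
    (dir : Fin (n * l + a.natAbs * (M * (M - 1))) × Fin M → Bool) (ho : Oriented (freeWord n v a) dir)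
    (hK : IsKnot (PK.annular (freeWord n v a) dir)) :
    Oriented v (fst hl hn.pos dir) ∧
    (PK.annular (freeWord n v a) dir).writhe = n * (PK.annular v (fst hl hn.pos dir)).writhe +
      a * ((PK.linking (fst hl hn.pos dir) ⟨0, hl⟩) ^ 2 - M) := by
  have hM1 : 0 < M - 1 := lt_of_le_of_lt (Nat.zero_le _) (v ⟨0, hl⟩).2.2
  have hnl : 0 < n * l := Nat.mul_pos hn.pos hl
  have hL : 0 < n * l + a.natAbs * (M * (M - 1)) := by omega
  have h1 := quot_orient hl hM n hn v a hL dir ho hK
  have h2 : (fun x : Fin l × Fin M => levL hL dir x.1 x.2) = fst hl hn.pos dir := by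
    funext x
    unfold levL fst
    congr 2
    apply Fin.ext
    simp only
    have h1 := x.1.2
    have h2 : l ≤ n * l := Nat.le_mul_of_pos_left l hn.pos
    exact Nat.mod_eq_of_lt (by omega)
  rw [h2] at h1
  refine ⟨h1, ?_⟩
  have h3 := two_orientations _ dir _ ho (gdir_oriented hl hM1 n v a _ h1) hK
  rw [← writhe_not _ _ _ h3, writhe_gdir hl hM1 n v a]

/-- the writhe of the quotient with full twists -/
theorem quot_writhe (hl : 0 < l) (hM : 0 < M) (n : ℕ) (hn : Odd n) (v : Fin l → Elem M) (a : ℤ)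
    (dir : Fin (n * l + a.natAbs * (M * (M - 1))) × Fin M → Bool) (ho : Oriented (freeWord n v a) dir)
    (hK : IsKnot (PK.annular (freeWord n v a) dir)) (a' : ℤ)
    (dir' : Fin (1 * l + a'.natAbs * (M * (M - 1))) × Fin M → Bool)
    (ho' : Oriented (freeWord 1 v a') dir') :
    (PK.annular (freeWord 1 v a') dir').writhe = 1 * (PK.annular v (fst hl hn.pos dir)).writhe +
      a' * ((PK.linking (fst hl hn.pos dir) ⟨0, hl⟩) ^ 2 - M) := by
  have hM1 : 0 < M - 1 := lt_of_le_of_lt (Nat.zero_le _) (v ⟨0, hl⟩).2.2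
  have hl1 : 1 * l = l := one_mul l
  have hL' : 0 < 1 * l + a'.natAbs * (M * (M - 1)) := by omega
  set d' := fst hl one_pos dir' with hd'
  have hend := lev_end hM1 1 v a' hL' dir' ho'
  have hlev : ∀ t : ℕ, ∀ ht : t < l, levL hL' dir' t = fun j => d' (⟨t, ht⟩, j) := by
    intro t ht
    funext j
    unfold levL
    rw [hd']
    unfold fst
    congr 2
    apply Fin.ext
    exact Nat.mod_eq_of_lt (by omega)
  -- `d'` is an orientation
  have h1 : Oriented v d' := by
    intro t
    have h1 := levL_fits hL' _ dir' ho' t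
    have hmod : (t : ℕ) % (1 * l + a'.natAbs * (M * (M - 1))) = t :=
      Nat.mod_eq_of_lt (by have := t.2; omega)
    rw [freeWord_lt hl 1 v a' _ (by simp only; rw [hmod]; have := t.2; omega)] at h1
    have h2 : (⟨((⟨(t : ℕ) % (1 * l + a'.natAbs * (M * (M - 1))), Nat.mod_lt _ hL'⟩ :
        Fin (1 * l + a'.natAbs * (M * (M - 1)))) : ℕ) % l, Nat.mod_lt _ hl⟩ : Fin l) = t := by
      apply Fin.ext
      simp only
      rw [hmod, Nat.mod_eq_of_lt t.2]
    rw [h2, hlev t t.2] at h1
    have h3 : (fun j => d' (finRotate l t, j)) = levL hL' dir' (t + 1) := by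
      rcases Nat.lt_or_eq_of_le (Nat.succ_le_of_lt t.2) with h3 | h3
      · rw [hlev (t+1) h3]
        funext j
        congr 2
        apply Fin.ext
        rw [finRotate_val, Nat.mod_eq_of_lt h3]
      · have h4 : (t : ℕ) + 1 = 1 * l := by rw [hl1]; exact h3
        rw [h4, hend, hlev 0 hl]
        funext j
        congr 2
        apply Fin.ext
        have h5 : (t : ℕ) + 1 = l := h3
        rw [finRotate_val, h5, Nat.mod_self]
    rw [← h3] at h1
    exact h1
  -- `dir'` is the extension of `d'`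
  have h2 : ∀ x, dir' x = gdir hl hM1 1 d' x.1 x.2 := by
    rintro ⟨s, j⟩
    have hs := s.2
    have e0 : dir' (s, j) = levL hL' dir' s j := by
      unfold levL
      congr 2
      apply Fin.ext
      exact (Nat.mod_eq_of_lt hs).symm
    rw [e0]
    simp only
    by_cases hsl : (s : ℕ) < l
    · rw [hlev s hsl]
      unfold gdir
      rw [if_pos (by omega)]
      show d' (⟨s, hsl⟩, j) = _
      congr 2
      apply Fin.ext
      exact (Nat.mod_eq_of_lt hsl).symm
    · have h3 := lev_key hM1 1 v a' hL' dir' ho' (s - 1 * l) (by omega)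
      have h4 : 1 * l + ((s : ℕ) - 1 * l) = s := by omega
      rw [h4, hend, hlev 0 hl] at h3
      rw [h3, gdir_ge hl hM1 1 d' s j (by omega)]
  have hw := writhe_gdir hl hM1 1 v a' d'
  have h3 : dir' = fun x => gdir hl hM1 1 d' x.1 x.2 := funext h2
  rw [← h3] at hw
  rw [hw]
  -- comparison with the orientation of the knot
  have h4 := two_orientations _ dir _ ho (gdir_oriented hl hM1 n v a _ h1) hK
  have hlt : ∀ t : Fin l, (t : ℕ) < n * l + a.natAbs * (M * (M - 1)) := by
    intro t
    have h1 := t.2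
    have h2 : l ≤ n * l := Nat.le_mul_of_pos_left l hn.pos
    omega
  have h5 : ∀ x : Fin l × Fin M, gdir hl hM1 n d' x.1 x.2 = d' x := by
    rintro ⟨t, j⟩
    unfold gdir
    simp only
    rw [if_pos (by
      have h1 := t.2
      have h2 : l ≤ n * l := Nat.le_mul_of_pos_left l hn.pos
      omega)]
    congr 2
    apply Fin.ext
    exact Nat.mod_eq_of_lt t.2
  have h6 : (∀ x, d' x = fst hl hn.pos dir x) ∨ (∀ x, d' x = !(fst hl hn.pos dir x)) := by
    rcases h4 with h4 | h4
    · left
      intro x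
      rw [← h5]
      exact h4 (⟨x.1, hlt x.1⟩, x.2)
    · right
      intro x
      rw [← h5]
      exact h4 (⟨x.1, hlt x.1⟩, x.2)
  have h7 := writhe_not v (fst hl hn.pos dir) d' h6
  have h8 : (PK.linking d' ⟨0, hl⟩) ^ 2 = (PK.linking (fst hl hn.pos dir) ⟨0, hl⟩) ^ 2 := by
    rw [linking_eq, linking_eq]
    rcases h6 with h6 | h6
    · simp only [h6]
    · simp only [h6, ep_not, Finset.sum_neg_distrib]
      ring
  rw [h7, h8]
  push_cast
  ring

theorem linking_par {L : ℕ} (d : Fin L × Fin M → Bool) (t : Fin L) :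
    ∃ c : ℤ, (PK.linking d t) ^ 2 - M = 2 * c := by
  have h1 : ∃ c : ℤ, PK.linking d t = M + 2 * c := by
    rw [linking_eq]
    refine ⟨∑ j : Fin M, if d (t, j) then 0 else -1, ?_⟩
    rw [Finset.mul_sum]
    have : (M : ℤ) = ∑ j : Fin M, (1 : ℤ) := by simp
    rw [this, ← Finset.sum_add_distrib]
    refine Finset.sum_congr rfl fun j _ => ?_
    unfold ep
    split_ifs <;> norm_num
  obtain ⟨c, hc⟩ := h1
  have h2 : ∃ e : ℤ, (M : ℤ) ^ 2 - M = 2 * e := by
    rcases Int.even_or_odd' (M : ℤ) with ⟨k, h | h⟩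
    · exact ⟨2 * k ^ 2 - k, by rw [h]; ring⟩
    · exact ⟨2 * k ^ 2 + k, by rw [h]; ring⟩
  obtain ⟨e, he⟩ := h2
  exact ⟨e + 2 * M * c + 2 * c ^ 2, by rw [hc]; linear_combination he⟩

end dirs

section star

variable (p : ℕ) [hp : Fact p.Prime] {M l : ℕ}

/-- the sign -/
noncomputable def sE (R : Type*) [CommRing R] (w : ℤ) : R[T;T⁻¹] := if Even w then 1 else -1

theorem sE_sq (R : Type*) [CommRing R] (w : ℤ) : sE R w * sE R w = 1 := by
  unfold sE
  split_ifs <;> ring

theorem sE_pow (R : Type*) [CommRing R] (w : ℤ) {q : ℕ} (hq : Odd q) : (sE R w) ^ q = sE R w := by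
  unfold sE
  split_ifs
  · rw [one_pow]
  · exact hq.neg_one_pow

theorem red_sE (w : ℤ) : red p (sE ℤ w) = sE (ZMod p) w := by
  unfold sE
  split_ifs
  · rw [map_one]
  · rw [map_neg, map_one]

theorem sE_congr (R : Type*) [CommRing R] {w w' : ℤ} (h : Even w ↔ Even w') : sE R w = sE R w' := by
  unfold sE
  simp only [h]

/-- the normalised coefficients of the quotient -/
noncomputable def RR (M : ℕ) (B : List (Option Bool × ℕ)) (w : ℤ) (n : ℕ) : (ZMod p)[T;T⁻¹] :=
  sE (ZMod p) w * T (-(3 * w)) * rr p M B n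

theorem fPoly_eq {P : Type} (D : Diagram P) :
    dl * D.fPoly = sE ℤ D.writhe * T (-(3 * D.writhe)) * (dl * D.bracket) := by
  unfold Diagram.fPoly sE
  have : (-3 * D.writhe) = -(3 * D.writhe) := by ring
  rw [this]
  ring

/-- the normalised bracket modulo `p` -/
theorem star (k q : ℕ) (hq : q = p ^ k) (hodd : Odd q) (hl : 0 < l) (hM : 0 < M) (v : Fin l → Elem M)
    (a : ℤ) (dir : Fin (q * l + a.natAbs * (M * (M - 1))) × Fin M → Bool) (w s c : ℤ)
    (hs : s ^ 2 - M = 2 * c)
    (hw : (PK.annular (freeWord q v a) dir).writhe = q * w + a * (s ^ 2 - M)) :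
    red p (dl * (PK.annular (freeWord q v a) dir).fPoly) =
      T (-(3 * a * s ^ 2)) * ∑ n ∈ range (M + 1), (RR p M (toW v) w n) ^ q * hn p a n := by
  have h1 : Even (PK.annular (freeWord q v a) dir).writhe ↔ Even w := by
    rw [hw, hs]
    have h2 : Even (a * (2 * c)) := ⟨a * c, by ring⟩
    rw [Int.even_add, iff_true_right h2, Int.even_mul]
    have h3 : ¬ Even (q : ℤ) := by
      rw [Int.not_even_iff_odd]
      exact_mod_cast hodd
    constructor
    · rintro (h4 | h4)
      · exact absurd h4 h3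
      · exact h4
    · intro h4
      right
      exact h4
  rw [fPoly_eq, map_mul, map_mul, red_sE, red_T, form p k q hq hl hM v a dir, sE_congr _ h1, hw]
  have h2 : ∀ n, (RR p M (toW v) w n) ^ q = sE (ZMod p) w * T (-(3 * (q * w))) * (rr p M (toW v) n) ^ q := by
    intro n
    unfold RR
    rw [mul_pow, mul_pow, sE_pow _ _ hodd, T_pow]
    congr 3
    ring
  simp only [h2]
  rw [Finset.mul_sum, Finset.mul_sum, Finset.mul_sum]
  refine Finset.sum_congr rfl fun n _ => ?_
  have h3 : (T (-(3 * (q * w + a * (s ^ 2 - M)))) * T (-(3 * a * M)) : (ZMod p)[T;T⁻¹]) =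
      T (-(3 * a * s ^ 2)) * T (-(3 * (q * w))) := by
    rw [← T_add, ← T_add]
    congr 1
    ring
  calc sE (ZMod p) w * T (-(3 * (q * w + a * (s ^ 2 - M)))) *
        (T (-(3 * a * M)) * (rr p M (toW v) n ^ q * hn p a n))
      = sE (ZMod p) w * (T (-(3 * (q * w + a * (s ^ 2 - M)))) * T (-(3 * a * M))) *
        (rr p M (toW v) n ^ q * hn p a n) := by ring
    _ = _ := by rw [h3]; ring

end star

end Pool.Agent.TH561.AD
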