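import Pool.Agent.TH561.AD.Gen
import Pool.Agent.TH561.AD.PairD
import Pool.Agent.TH561.AD.Ends

/-!
# Two freely periodic knots with different numbers of full twists
-/

set_option autoImplicit false

namespace Pool.Agent.TH561.AD

open Pool.Agent.H891R2.Jones Pool.Agent.TH561 Pool.Agent.TH561.PK Pool.Agent.TH561.FP Finset
  LaurentPolynomial

section cheb

variable {F : Type*} [Field F]

/-- the polynomial of a curve which is a multiple of one Chebyshev polynomial -/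
theorem lambda_single (h2 : (2 : F) ≠ 0) (l : ℤ) (κ e : F) (hκ : κ ≠ 0) (n0 : ℕ)
    (h : Polynomial.C κ * (Polynomial.Chebyshev.S F l - Polynomial.Chebyshev.S F (l - 2)) =
      Polynomial.C e * Polynomial.Chebyshev.S F (n0 : ℤ)) :
    (n0 : ℤ) * (n0 + 2) = 3 * l ^ 2 ∧ e ≠ 0 := by
  rw [S_symm] at h
  have hl : l ^ 2 = ((l.natAbs : ℕ) : ℤ) ^ 2 := (Int.natAbs_sq l).symm
  rw [hl]
  generalize l.natAbs = n at h
  have hS : ∀ n : ℕ, (Polynomial.Chebyshev.S F (n : ℤ)).coeff n = 1 := fun n => (S_deg n).2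
  have hS0 : ∀ n m : ℕ, n < m → (Polynomial.Chebyshev.S F (n : ℤ)).coeff m = 0 := fun n m hnm =>
    Polynomial.coeff_eq_zero_of_natDegree_lt (lt_of_le_of_lt (S_deg n).1 hnm)
  have hc : ∀ m : ℕ, κ * ((Polynomial.Chebyshev.S F (n : ℤ)).coeff m -
      (Polynomial.Chebyshev.S F ((n : ℤ) - 2)).coeff m) =
      e * (Polynomial.Chebyshev.S F (n0 : ℤ)).coeff m := by
    intro m
    have := congrArg (fun f => Polynomial.coeff f m) h
    simpa only [Polynomial.coeff_C_mul, Polynomial.coeff_sub] using this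
  rcases n with _ | _ | n
  · have e0 : (((0 : ℕ) : ℤ) - 2) = -2 := by norm_num
    have e1 : Polynomial.Chebyshev.S F (-2) = -1 := Polynomial.Chebyshev.S_neg_two F
    have e2 : Polynomial.Chebyshev.S F ((0 : ℕ) : ℤ) = 1 := Polynomial.Chebyshev.S_zero F
    rw [e0, e1, e2] at hc
    have h0 := hc 0
    simp only [Polynomial.coeff_neg, Polynomial.coeff_one_zero, sub_neg_eq_add] at h0
    have h1 : (1 + 1 : F) ≠ 0 := by rw [one_add_one_eq_two]; exact h2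
    rcases Nat.eq_zero_or_pos n0 with h3 | h3
    · subst h3
      refine ⟨by norm_num, ?_⟩
      rintro rfl
      rw [zero_mul] at h0
      exact (mul_ne_zero hκ h1) h0
    · exfalso
      have h4 := hc n0
      rw [hS, Polynomial.coeff_neg, Polynomial.coeff_one, if_neg (by omega)] at h4
      rw [neg_zero, sub_zero, mul_zero, mul_one] at h4
      rw [← h4, zero_mul] at h0
      exact (mul_ne_zero hκ h1) h0
  · have e0 : (((0 + 1 : ℕ) : ℤ) - 2) = -1 := by norm_num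
    have e1 : Polynomial.Chebyshev.S F (-1) = 0 := Polynomial.Chebyshev.S_neg_one F
    have e2 : Polynomial.Chebyshev.S F ((0 + 1 : ℕ) : ℤ) = Polynomial.X := Polynomial.Chebyshev.S_one F
    rw [e0, e1, e2] at hc
    have h1 := hc 1
    simp only [Polynomial.coeff_zero, sub_zero, Polynomial.coeff_X_one, mul_one] at h1
    rcases Nat.lt_trichotomy n0 1 with h3 | h3 | h3
    · exfalso
      rw [hS0 n0 1 h3, mul_zero] at h1
      exact hκ h1
    · subst h3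
      refine ⟨by norm_num, ?_⟩
      rintro rfl
      rw [zero_mul] at h1
      exact hκ h1
    · exfalso
      have h4 := hc n0
      rw [hS, Polynomial.coeff_X_of_ne_one (by omega), Polynomial.coeff_zero, sub_zero, mul_zero,
        mul_one] at h4
      rw [← h4, zero_mul] at h1
      exact hκ h1
  · exfalso
    have e0 : (((n + 1 + 1 : ℕ) : ℤ) - 2) = (n : ℤ) := by push_cast; ring
    rw [e0] at hc
    have h1 := hc (n + 1 + 1)
    rw [hS, hS0 n (n+1+1) (by omega), sub_zero, mul_one] at h1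
    rcases Nat.lt_trichotomy n0 (n + 1 + 1) with h3 | h3 | h3
    · rw [hS0 n0 _ h3, mul_zero] at h1
      exact hκ h1
    · subst h3
      rw [hS, mul_one] at h1
      subst h1
      have h4 := hc n
      rw [hS n] at h4
      have h5 : κ = 0 := by linear_combination -h4
      exact hκ h5
    · have h4 := hc n0
      rw [hS, hS0 (n+1+1) n0 h3, hS0 n n0 (by omega), sub_zero, mul_zero, mul_one] at h4
      rw [← h4, zero_mul] at h1
      exact hκ h1

end cheb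

section fib

variable (p : ℕ) [hp : Fact p.Prime]

theorem fiber_sum {ι : Type*} (k : ℕ) (S : Finset ι) (X : ι → ℤ) (c : ι → (ZMod p)[T;T⁻¹])
    (U : Finset ℤ) (h : ∀ i ∈ S, X i ∈ U) :
    ∑ i ∈ S, (c i) ^ (p ^ k) * T (X i) =
      ∑ x ∈ U, (∑ i ∈ S.filter (fun i => X i = x), c i) ^ (p ^ k) * T x := by
  rw [← Finset.sum_fiberwise_of_maps_to h]
  refine Finset.sum_congr rfl fun x _ => ?_
  rw [sum_pow_char_pow, Finset.sum_mul]
  refine Finset.sum_congr rfl fun i hi => ?_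
  rw [(Finset.mem_filter.1 hi).2]

/-- the index set -/
def SM (M : ℕ) : Finset (ℕ × Bool) := ((range (M + 1)).filter (fun n => n % 2 = M % 2)) ×ˢ univ

theorem mem_SM {M : ℕ} {i : ℕ × Bool} : i ∈ SM M ↔ i.1 ≤ M ∧ i.1 % 2 = M % 2 := by
  unfold SM
  rw [Finset.mem_product, Finset.mem_filter, Finset.mem_range]
  constructor
  · rintro ⟨⟨h1, h2⟩, -⟩
    exact ⟨by omega, h2⟩
  · rintro ⟨h1, h2⟩
    exact ⟨⟨by omega, h2⟩, Finset.mem_univ _⟩

theorem Yx_inj {a : ℤ} (ha1 : a ≠ 1) (ha2 : a ≠ -1) (c : ℤ) {n m : ℕ} (hpar : n % 2 = m % 2) {e f : ℤ}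
    (he : e = 1 ∨ e = -1) (hf : f = 1 ∨ f = -1) (h : Yx a c n e = Yx a c m f) : n = m ∧ e = f := by
  have key : n = m := by
    by_contra hne
    rcases eq_or_ne a 0 with h0 | h0
    · subst h0
      unfold Yx at h
      rcases he with rfl | rfl <;> rcases hf with rfl | rfl <;> omega
    · rcases (show 2 ≤ a ∨ a ≤ -2 by omega) with h1 | h1
      · rcases Nat.lt_or_gt_of_ne hne with h2 | h2
        · exact (Yx_lt h1 c h2 hpar he hf).ne h
        · exact (Yx_lt h1 c h2 hpar.symm hf he).ne h.symm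
      · have hpm : ∀ e : ℤ, (e = 1 ∨ e = -1) → (-e = 1 ∨ -e = -1) := by
          rintro e (rfl | rfl) <;> simp
        have h3 : Yx (-a) c n (-e) = Yx (-a) c m (-f) := by rw [Yx_neg, Yx_neg, h]
        rcases Nat.lt_or_gt_of_ne hne with h2 | h2
        · exact (Yx_lt (a := -a) (by linarith) c h2 hpar (hpm e he) (hpm f hf)).ne h3
        · exact (Yx_lt (a := -a) (by linarith) c h2 hpar.symm (hpm f hf) (hpm e he)).ne h3.symm
  subst key
  refine ⟨rfl, ?_⟩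
  unfold Yx at h
  have h1 : (e - f) * (2 * ((n : ℤ) + 1)) = 0 := by linear_combination h
  rcases mul_eq_zero.1 h1 with h2 | h2
  · linarith
  · omega

theorem sgz_pm (b : Bool) : sgz b = 1 ∨ sgz b = -1 := by
  unfold sgz
  split_ifs
  · left; rfl
  · right; rfl

theorem sgz_inj {b c : Bool} (h : sgz b = sgz c) : b = c := by
  revert h
  unfold sgz
  cases b <;> cases c <;> simp

/-- the coefficients of the monomials -/
noncomputable def FF (M : ℕ) (u : ℕ → (ZMod p)[T;T⁻¹]) (a c x : ℤ) : (ZMod p)[T;T⁻¹] :=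
  ∑ i ∈ (SM M).filter (fun i => Yx a c i.1 (sgz i.2) = x), sg p i.2 * sgn' p i.1 * u i.1

theorem FF_at {M : ℕ} (u : ℕ → (ZMod p)[T;T⁻¹]) {a : ℤ} (ha1 : a ≠ 1) (ha2 : a ≠ -1) (c : ℤ) {i : ℕ × Bool}
    (hi : i ∈ SM M) : FF p M u a c (Yx a c i.1 (sgz i.2)) = sg p i.2 * sgn' p i.1 * u i.1 := by
  unfold FF
  have hmem : i ∈ (SM M).filter (fun j => Yx a c j.1 (sgz j.2) = Yx a c i.1 (sgz i.2)) :=
    Finset.mem_filter.2 ⟨hi, rfl⟩
  apply Finset.sum_eq_single_of_mem i hmem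
  intro j hj hji
  exfalso
  apply hji
  rw [Finset.mem_filter] at hj
  obtain ⟨h1, h2⟩ := Yx_inj ha1 ha2 c (by rw [(mem_SM.1 hj.1).2, (mem_SM.1 hi).2]) (sgz_pm _) (sgz_pm _) hj.2
  exact Prod.ext h1 (sgz_inj h2)

theorem exists_of_FF {M : ℕ} (u : ℕ → (ZMod p)[T;T⁻¹]) {a : ℤ} (c x : ℤ) (h : FF p M u a c x ≠ 0) :
    ∃ i ∈ SM M, Yx a c i.1 (sgz i.2) = x := by
  by_contra hcon
  push Not at hcon
  apply h
  unfold FF
  apply Finset.sum_eq_zero
  intro i hi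
  rw [Finset.mem_filter] at hi
  exact absurd hi.2 (hcon i hi.1)

/-- comparison of the coefficients of the monomials -/
theorem FF_dvd {k : ℕ} (m : ℕ) {M M' : ℕ} (u u' : ℕ → (ZMod p)[T;T⁻¹]) {a c a' c' : ℤ} (B : ℤ)
    (hB : ∀ i ∈ SM M, |Yx a c i.1 (sgz i.2)| ≤ B) (hB' : ∀ i ∈ SM M', |Yx a' c' i.1 (sgz i.2)| ≤ B)
    (hq : 2 * B < (p ^ k : ℕ))
    (h : (T 1 - 1 : (ZMod p)[T;T⁻¹]) ^ (p ^ k * m) ∣
      ∑ i ∈ SM M, (sg p i.2 * sgn' p i.1 * u i.1) ^ (p ^ k) * T (Yx a c i.1 (sgz i.2)) -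
      ∑ i ∈ SM M', (sg p i.2 * sgn' p i.1 * u' i.1) ^ (p ^ k) * T (Yx a' c' i.1 (sgz i.2))) :
    ∀ x, |x| ≤ B → (T 1 - 1 : (ZMod p)[T;T⁻¹]) ^ m ∣ FF p M u a c x - FF p M' u' a' c' x := by
  rw [fiber_sum p k (SM M) (fun i => Yx a c i.1 (sgz i.2)) _ (Finset.Icc (-B) B) (by
      intro i hi
      rw [Finset.mem_Icc]
      exact abs_le.1 (hB i hi)),
    fiber_sum p k (SM M') (fun i => Yx a' c' i.1 (sgz i.2)) _ (Finset.Icc (-B) B) (by
      intro i hi
      rw [Finset.mem_Icc]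
      exact abs_le.1 (hB' i hi)), ← Finset.sum_sub_distrib] at h
  have h1 : ∑ x ∈ Finset.Icc (-B) B, (FF p M u a c x - FF p M' u' a' c' x) ^ (p ^ k) * T x =
      ∑ x ∈ Finset.Icc (-B) B,
        ((∑ i ∈ (SM M).filter (fun i => Yx a c i.1 (sgz i.2) = x), sg p i.2 * sgn' p i.1 * u i.1) ^ (p ^ k)
          * T x -
        (∑ i ∈ (SM M').filter (fun i => Yx a' c' i.1 (sgz i.2) = x), sg p i.2 * sgn' p i.1 * u' i.1) ^
          (p ^ k) * T x) := by
    refine Finset.sum_congr rfl fun x _ => ?_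
    rw [sub_pow_char_pow, sub_mul]
    rfl
  rw [← h1] at h
  intro x hx
  refine cls_ord p k (Finset.Icc (-B) B) (fun x => FF p M u a c x - FF p M' u' a' c' x) (fun x => x) ?_ m h x
    (by rw [Finset.mem_Icc]; exact abs_le.1 hx)
  intro i hi j hj hij
  rw [Finset.mem_Icc] at hi hj
  have := Int.eq_zero_of_abs_lt_dvd hij (by rw [abs_lt]; constructor <;> linarith)
  linarith

theorem sg_dvd {b : Bool} {n : ℤ} {m : ℕ} {f : (ZMod p)[T;T⁻¹]} :
    (T 1 - 1 : (ZMod p)[T;T⁻¹]) ^ m ∣ sg p b * sgn' p n * f ↔ (T 1 - 1 : (ZMod p)[T;T⁻¹]) ^ m ∣ f :=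
  ⟨fun h => dvd_of_sg p b n m f h, fun h => h.mul_left _⟩

open Classical in
/-- the coefficients which do not vanish to the order `m` -/
noncomputable def PP' (M : ℕ) (u : ℕ → (ZMod p)[T;T⁻¹]) (m : ℕ) : Finset ℕ :=
  ((range (M + 1)).filter (fun n => n % 2 = M % 2)).filter
      (fun n => ¬ (T 1 - 1 : (ZMod p)[T;T⁻¹]) ^ m ∣ u n)

open Classical in
theorem mem_PP' {M : ℕ} {u : ℕ → (ZMod p)[T;T⁻¹]} {m n : ℕ} :
    n ∈ PP' p M u m ↔ (n ≤ M ∧ n % 2 = M % 2) ∧ ¬ (T 1 - 1 : (ZMod p)[T;T⁻¹]) ^ m ∣ u n := by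
  unfold PP'
  rw [Finset.mem_filter, Finset.mem_filter, Finset.mem_range, Nat.lt_succ_iff]

theorem sub_of_FF (m : ℕ) {M M' : ℕ} (u u' : ℕ → (ZMod p)[T;T⁻¹]) {a c a' c' : ℤ} (B : ℤ)
    (ha1 : a ≠ 1) (ha2 : a ≠ -1) (ha1' : a' ≠ 1) (ha2' : a' ≠ -1)
    (hB : ∀ i ∈ SM M, |Yx a c i.1 (sgz i.2)| ≤ B)
    (h : ∀ x, |x| ≤ B → (T 1 - 1 : (ZMod p)[T;T⁻¹]) ^ m ∣ FF p M u a c x - FF p M' u' a' c' x) :
    Sub a c (PP' p M u m) a' c' (PP' p M' u' m) := by
  intro n hn e he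
  rw [mem_PP'] at hn
  obtain ⟨b, hb⟩ : ∃ b, sgz b = e := by
    rcases he with rfl | rfl
    · exact ⟨true, rfl⟩
    · exact ⟨false, rfl⟩
  have hi : (n, b) ∈ SM M := mem_SM.2 hn.1
  have h1 := h _ (hB _ hi)
  rw [FF_at p u ha1 ha2 c hi] at h1
  simp only at h1
  rw [hb] at h1
  have h2 : ¬ (T 1 - 1 : (ZMod p)[T;T⁻¹]) ^ m ∣ FF p M' u' a' c' (Yx a c n e) := by
    intro h3
    have h4 := dvd_add h1 h3
    rw [sub_add_cancel, sg_dvd] at h4
    exact hn.2 h4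
  obtain ⟨j, hj, hj'⟩ := exists_of_FF p u' c' (Yx a c n e) (by
    intro h3
    apply h2
    rw [h3]
    exact dvd_zero _)
  rw [← hj', FF_at p u' ha1' ha2' c' hj, sg_dvd] at h2
  exact ⟨j.1, mem_PP' p |>.2 ⟨mem_SM.1 hj, h2⟩, sgz j.2, sgz_pm _, hj'.symm⟩

end fib

end Pool.Agent.TH561.AD
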