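import Pool.Agent.TH561.AD.TwoM

/-!
# Two freely periodic knots with different numbers of full twists: equality over the integers
-/

set_option autoImplicit false

namespace Pool.Agent.TH561.AD

open Pool.Agent.H891R2.Jones Pool.Agent.TH561 Pool.Agent.TH561.PK Pool.Agent.TH561.FP Finset
  LaurentPolynomial

variable (p : ℕ) [hp : Fact p.Prime] {M l M' l' : ℕ}

/-- there is an orientation of the quotient with twists -/
theorem exists_quot_dir (hl : 0 < l) (hM : 0 < M) (n : ℕ) (hn : Odd n) (v : Fin l → Elem M)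
    (a : ℤ) (dir : Fin (n * l + a.natAbs * (M * (M - 1))) × Fin M → Bool)
    (ho : Oriented (freeWord n v a) dir) (hK : IsKnot (PK.annular (freeWord n v a) dir)) (b : ℤ) :
    ∃ d : Fin (1 * l + b.natAbs * (M * (M - 1))) × Fin M → Bool, Oriented (freeWord 1 v b) d := by
  obtain ⟨hv, -⟩ := knot_writhe hl hM n hn v a dir ho hK
  obtain ⟨d, hd, -⟩ := free_ext hl hM 1 one_pos v b _ hv
  exact ⟨d, hd⟩

theorem index_unique {n m : ℕ} {x : ℤ} (h : (n : ℤ) * (n + 2) = x) (h' : (m : ℤ) * (m + 2) = x) : n = m := by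
  have h1 : ((n : ℤ) - m) * (n + m + 2) = 0 := by linear_combination h - h'
  rcases mul_eq_zero.1 h1 with h2 | h2
  · omega
  · omega

/-- all coefficients but one vanish modulo `p` -/
theorem two_zero (k : ℕ) (hp2 : p ≠ 2) (hl : 0 < l) (hM : 0 < M) (v : Fin l → Elem M)
    (hl' : 0 < l') (hM' : 0 < M') (v' : Fin l' → Elem M') (a a' : ℤ) (haa : a ≠ a') (ha1 : a ≠ 1)
    (ha2 : a ≠ -1) (ha1' : a' ≠ 1) (ha2' : a' ≠ -1)
    (dir : Fin (p ^ k * l + a.natAbs * (M * (M - 1))) × Fin M → Bool)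
    (ho : Oriented (freeWord (p ^ k) v a) dir) (hK : IsKnot (PK.annular (freeWord (p ^ k) v a) dir))
    (dir' : Fin (p ^ k * l' + a'.natAbs * (M' * (M' - 1))) × Fin M' → Bool)
    (ho' : Oriented (freeWord (p ^ k) v' a') dir')
    (hK' : IsKnot (PK.annular (freeWord (p ^ k) v' a') dir')) (hpos : 0 < p ^ k)
    (K N : ℕ) (hKa : a.natAbs ≤ K) (hKa' : a'.natAbs ≤ K) (hN : M ≤ N) (hN' : M' ≤ N)
    (hq : 2 * (3 * K * N ^ 2 + 2 * N + 2) < p ^ k)
    (hS : red p (PK.annular (freeWord (p ^ k) v a) dir).fPoly =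
        red p (PK.annular (freeWord (p ^ k) v' a') dir').fPoly) :
    ∃ n0, n0 ≤ M ∧ n0 ≤ M' ∧
      (n0 : ℤ) * (n0 + 2) = 3 * (PK.linking (fst hl hpos dir) ⟨0, hl⟩) ^ 2 ∧
      (n0 : ℤ) * (n0 + 2) = 3 * (PK.linking (fst hl' hpos dir') ⟨0, hl'⟩) ^ 2 ∧
      (∀ n, n ≤ M → n ≠ n0 → RR p M (toW v) (PK.annular v (fst hl hpos dir)).writhe n = 0) ∧
      (∀ n, n ≤ M' → n ≠ n0 → RR p M' (toW v') (PK.annular v' (fst hl' hpos dir')).writhe n = 0) ∧
        RR p M (toW v) (PK.annular v (fst hl hpos dir)).writhe n0 =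
        RR p M' (toW v') (PK.annular v' (fst hl' hpos dir')).writhe n0 := by
  have hS' : ∀ m : ℕ, (T 1 - 1 : (ZMod p)[T;T⁻¹]) ^ (p ^ k * m) ∣
      red p (PK.annular (freeWord (p ^ k) v a) dir).fPoly -
        red p (PK.annular (freeWord (p ^ k) v' a') dir').fPoly := by
    intro m
    rw [hS, sub_self]
    exact dvd_zero _
  obtain ⟨n0, h1, h2, h3, h4, -⟩ := two_core p k hp2 hl hM v hl' hM' v' a a' haa ha1 ha2 ha1' ha2'
    dir ho hK dir' ho' hK' hpos K N hKa hKa' hN hN' hq 1 le_rfl (hS' 1)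
  have key : ∀ m : ℕ, (∀ n, n ≤ M → n ≠ n0 → (T 1 - 1 : (ZMod p)[T;T⁻¹]) ^ m ∣
        RR p M (toW v) (PK.annular v (fst hl hpos dir)).writhe n) ∧
      (∀ n, n ≤ M' → n ≠ n0 → (T 1 - 1 : (ZMod p)[T;T⁻¹]) ^ m ∣
        RR p M' (toW v') (PK.annular v' (fst hl' hpos dir')).writhe n) ∧
      (T 1 - 1 : (ZMod p)[T;T⁻¹]) ^ m ∣
        RR p M (toW v) (PK.annular v (fst hl hpos dir)).writhe n0 -
        RR p M' (toW v') (PK.annular v' (fst hl' hpos dir')).writhe n0 := by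
    intro m
    obtain ⟨n1, -, -, g3, -, g5, g6, g7⟩ := two_core p k hp2 hl hM v hl' hM' v' a a' haa ha1 ha2 ha1' ha2'
      dir ho hK dir' ho' hK' hpos K N hKa hKa' hN hN' hq (m + 1) (by omega) (hS' _)
    have h := index_unique g3 h3
    subst h
    have hd : (T 1 - 1 : (ZMod p)[T;T⁻¹]) ^ m ∣ (T 1 - 1 : (ZMod p)[T;T⁻¹]) ^ (m + 1) :=
      pow_dvd_pow _ (Nat.le_succ m)
    exact ⟨fun n hn hne => hd.trans (g5 n hn hne), fun n hn hne => hd.trans (g6 n hn hne), hd.trans g7⟩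
  refine ⟨n0, h1, h2, h3, h4, ?_, ?_, ?_⟩
  · intro n hn hne
    exact zero_of_pow p fun m => (key m).1 n hn hne
  · intro n hn hne
    exact zero_of_pow p fun m => (key m).2.1 n hn hne
  · rw [← sub_eq_zero]
    exact zero_of_pow p fun m => (key m).2.2

/-- equality modulo `p` -/
theorem two_modp (k : ℕ) (hp2 : p ≠ 2) (hl : 0 < l) (hM : 0 < M) (v : Fin l → Elem M)
    (hl' : 0 < l') (hM' : 0 < M') (v' : Fin l' → Elem M') (a a' : ℤ) (haa : a ≠ a') (ha1 : a ≠ 1)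
    (ha2 : a ≠ -1) (ha1' : a' ≠ 1) (ha2' : a' ≠ -1)
    (dir : Fin (p ^ k * l + a.natAbs * (M * (M - 1))) × Fin M → Bool)
    (ho : Oriented (freeWord (p ^ k) v a) dir) (hK : IsKnot (PK.annular (freeWord (p ^ k) v a) dir))
    (dir' : Fin (p ^ k * l' + a'.natAbs * (M' * (M' - 1))) × Fin M' → Bool)
    (ho' : Oriented (freeWord (p ^ k) v' a') dir')
    (hK' : IsKnot (PK.annular (freeWord (p ^ k) v' a') dir')) (hpos : 0 < p ^ k)
    (K N : ℕ) (hKa : a.natAbs ≤ K) (hKa' : a'.natAbs ≤ K) (hN : M ≤ N) (hN' : M' ≤ N)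
    (hq : 2 * (3 * K * N ^ 2 + 2 * N + 2) < p ^ k)
    (hS : red p (PK.annular (freeWord (p ^ k) v a) dir).fPoly =
        red p (PK.annular (freeWord (p ^ k) v' a') dir').fPoly) :
    ∃ g : (ZMod p)[T;T⁻¹],
      (∀ (b : ℤ) (d : Fin (1 * l + b.natAbs * (M * (M - 1))) × Fin M → Bool),
        Oriented (freeWord 1 v b) d → dF (ZMod p) * red p (PK.annular (freeWord 1 v b) d).fPoly = g) ∧
      (∀ (b : ℤ) (d : Fin (1 * l' + b.natAbs * (M' * (M' - 1))) × Fin M' → Bool),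
        Oriented (freeWord 1 v' b) d →
          dF (ZMod p) * red p (PK.annular (freeWord 1 v' b) d).fPoly = g) := by
  have hodd : Odd (p ^ k) := (hp.out.odd_of_ne_two hp2).pow
  obtain ⟨n0, h1, h2, h3, h4, h5, h6, h7⟩ := two_zero p k hp2 hl hM v hl' hM' v' a a' haa ha1 ha2 ha1'
    ha2' dir ho hK dir' ho' hK' hpos K N hKa hKa' hN hN' hq hS
  refine ⟨RR p M (toW v) (PK.annular v (fst hl hpos dir)).writhe n0 * sS p n0, ?_, ?_⟩
  · intro b d hd
    rw [← sub_eq_zero]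
    apply zero_of_pow p
    intro m
    exact quot_single p hl hM v b d _ _ (linking_par _ _)
      (quot_writhe hl hM (p ^ k) hodd v a dir ho hK b d hd) m n0 h1 h3 (fun n hn hne => by
        rw [h5 n hn hne]; exact dvd_zero _)
  · intro b d hd
    rw [← sub_eq_zero, h7]
    apply zero_of_pow p
    intro m
    exact quot_single p hl' hM' v' b d _ _ (linking_par _ _)
      (quot_writhe hl' hM' (p ^ k) hodd v' a' dir' ho' hK' b d hd) m n0 h2 h4 (fun n hn hne => by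
        rw [h6 n hn hne]; exact dvd_zero _)

/-- the integral coefficients -/
theorem two_RZ (k : ℕ) (hp2 : p ≠ 2) (hl : 0 < l) (hM : 0 < M) (v : Fin l → Elem M)
    (hl' : 0 < l') (hM' : 0 < M') (v' : Fin l' → Elem M') (a a' : ℤ) (haa : a ≠ a') (ha1 : a ≠ 1)
    (ha2 : a ≠ -1) (ha1' : a' ≠ 1) (ha2' : a' ≠ -1)
    (dir : Fin (p ^ k * l + a.natAbs * (M * (M - 1))) × Fin M → Bool)
    (ho : Oriented (freeWord (p ^ k) v a) dir) (hK : IsKnot (PK.annular (freeWord (p ^ k) v a) dir))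
    (dir' : Fin (p ^ k * l' + a'.natAbs * (M' * (M' - 1))) × Fin M' → Bool)
    (ho' : Oriented (freeWord (p ^ k) v' a') dir')
    (hK' : IsKnot (PK.annular (freeWord (p ^ k) v' a') dir')) (hpos : 0 < p ^ k)
    (K N : ℕ) (hKa : a.natAbs ≤ K) (hKa' : a'.natAbs ≤ K) (hN : M ≤ N) (hN' : M' ≤ N)
    (hq : 2 * (3 * K * N ^ 2 + 2 * N + 2) < p ^ k)
    (hbig : 2 ^ (M + 2 * l) + 2 ^ (M' + 2 * l') < p)
    (hS : (PK.annular (freeWord (p ^ k) v a) dir).fPoly =
        (PK.annular (freeWord (p ^ k) v' a') dir').fPoly) :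
    ∃ n0, n0 ≤ M ∧ n0 ≤ M' ∧
      (n0 : ℤ) * (n0 + 2) = 3 * (PK.linking (fst hl hpos dir) ⟨0, hl⟩) ^ 2 ∧
      (n0 : ℤ) * (n0 + 2) = 3 * (PK.linking (fst hl' hpos dir') ⟨0, hl'⟩) ^ 2 ∧
      (∀ n, n ≤ M → n ≠ n0 → RZ M (toW v) (PK.annular v (fst hl hpos dir)).writhe n = 0) ∧
      (∀ n, n ≤ M' → n ≠ n0 → RZ M' (toW v') (PK.annular v' (fst hl' hpos dir')).writhe n = 0) ∧
        RZ M (toW v) (PK.annular v (fst hl hpos dir)).writhe n0 =
        RZ M' (toW v') (PK.annular v' (fst hl' hpos dir')).writhe n0 := by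
  obtain ⟨n0, h1, h2, h3, h4, h5, h6, h7⟩ := two_zero p k hp2 hl hM v hl' hM' v' a a' haa ha1 ha2 ha1'
    ha2' dir ho hK dir' ho' hK' hpos K N hKa hKa' hN hN' hq (by rw [hS])
  refine ⟨n0, h1, h2, h3, h4, ?_, ?_, ?_⟩
  · intro n hn hne
    refine eq_zero_of_red (p := p) (RZ_bd (toW_mem v) _ n) (by
      rw [toW_length]; exact lt_of_le_of_lt (Nat.le_add_right _ _) hbig) ?_
    rw [red_RZ, h5 n hn hne]
  · intro n hn hne
    refine eq_zero_of_red (p := p) (RZ_bd (toW_mem v') _ n) (by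
      rw [toW_length]; exact lt_of_le_of_lt (Nat.le_add_left _ _) hbig) ?_
    rw [red_RZ, h6 n hn hne]
  · rw [← sub_eq_zero]
    have h8 : Bd (RZ M (toW v) (PK.annular v (fst hl hpos dir)).writhe n0 -
        RZ M' (toW v') (PK.annular v' (fst hl' hpos dir')).writhe n0)
        (2 ^ (M + 2 * l) + 2 ^ (M' + 2 * l')) := by
      rw [sub_eq_add_neg]
      have h3 := (RZ_bd (toW_mem v) (PK.annular v (fst hl hpos dir)).writhe n0).add
        (RZ_bd (toW_mem v') (PK.annular v' (fst hl' hpos dir')).writhe n0).neg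
      rw [toW_length, toW_length] at h3
      exact h3
    refine eq_zero_of_red h8 hbig ?_
    rw [map_sub, red_RZ, red_RZ, h7, sub_self]

/-- equality over the integers -/
theorem two_exact (k : ℕ) (hp2 : p ≠ 2) (hl : 0 < l) (hM : 0 < M) (v : Fin l → Elem M)
    (hl' : 0 < l') (hM' : 0 < M') (v' : Fin l' → Elem M') (a a' : ℤ) (haa : a ≠ a') (ha1 : a ≠ 1)
    (ha2 : a ≠ -1) (ha1' : a' ≠ 1) (ha2' : a' ≠ -1)
    (dir : Fin (p ^ k * l + a.natAbs * (M * (M - 1))) × Fin M → Bool)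
    (ho : Oriented (freeWord (p ^ k) v a) dir) (hK : IsKnot (PK.annular (freeWord (p ^ k) v a) dir))
    (dir' : Fin (p ^ k * l' + a'.natAbs * (M' * (M' - 1))) × Fin M' → Bool)
    (ho' : Oriented (freeWord (p ^ k) v' a') dir')
    (hK' : IsKnot (PK.annular (freeWord (p ^ k) v' a') dir')) (hpos : 0 < p ^ k)
    (K N : ℕ) (hKa : a.natAbs ≤ K) (hKa' : a'.natAbs ≤ K) (hN : M ≤ N) (hN' : M' ≤ N)
    (hq : 2 * (3 * K * N ^ 2 + 2 * N + 2) < p ^ k)
    (hbig : 2 ^ (M + 2 * l) + 2 ^ (M' + 2 * l') < p)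
    (hS : (PK.annular (freeWord (p ^ k) v a) dir).fPoly =
        (PK.annular (freeWord (p ^ k) v' a') dir').fPoly) :
    ∃ g : ℤ[T;T⁻¹],
      (∀ (b : ℤ) (d : Fin (1 * l + b.natAbs * (M * (M - 1))) × Fin M → Bool),
        Oriented (freeWord 1 v b) d → (PK.annular (freeWord 1 v b) d).fPoly = g) ∧
      (∀ (b : ℤ) (d : Fin (1 * l' + b.natAbs * (M' * (M' - 1))) × Fin M' → Bool),
        Oriented (freeWord 1 v' b) d → (PK.annular (freeWord 1 v' b) d).fPoly = g) := by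
  have hodd : Odd (p ^ k) := (hp.out.odd_of_ne_two hp2).pow
  obtain ⟨n0, h1, h2, h3, h4, h5, h6, h7⟩ := two_RZ p k hp2 hl hM v hl' hM' v' a a' haa ha1 ha2 ha1'
    ha2' dir ho hK dir' ho' hK' hpos K N hKa hKa' hN hN' hq hbig hS
  obtain ⟨d0, hd0⟩ := exists_quot_dir hl hM (p ^ k) hodd v a dir ho hK 0
  have A1 : ∀ (p' : ℕ) [Fact p'.Prime] (b : ℤ)
      (d : Fin (1 * l + b.natAbs * (M * (M - 1))) × Fin M → Bool), Oriented (freeWord 1 v b) d →
      dF (ZMod p') * red p' (PK.annular (freeWord 1 v b) d).fPoly =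
        red p' (RZ M (toW v) (PK.annular v (fst hl hpos dir)).writhe n0) *
          Polynomial.aeval (dF (ZMod p')) (Polynomial.Chebyshev.S ℤ (n0 : ℤ)) := by
    intro p' hp' b d hd
    rw [← sub_eq_zero]
    apply zero_of_pow p'
    intro m
    rw [red_RZ]
    exact quot_single p' hl hM v b d _ _ (linking_par _ _)
      (quot_writhe hl hM (p ^ k) hodd v a dir ho hK b d hd) m n0 h1 h3 (fun n hn hne => by
        rw [← red_RZ, h5 n hn hne, map_zero]; exact dvd_zero _)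
  have A2 : ∀ (p' : ℕ) [Fact p'.Prime] (b : ℤ)
      (d : Fin (1 * l' + b.natAbs * (M' * (M' - 1))) × Fin M' → Bool), Oriented (freeWord 1 v' b) d →
      dF (ZMod p') * red p' (PK.annular (freeWord 1 v' b) d).fPoly =
        red p' (RZ M (toW v) (PK.annular v (fst hl hpos dir)).writhe n0) *
          Polynomial.aeval (dF (ZMod p')) (Polynomial.Chebyshev.S ℤ (n0 : ℤ)) := by
    intro p' hp' b d hd
    rw [h7, ← sub_eq_zero]
    apply zero_of_pow p'
    intro m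
    rw [red_RZ]
    exact quot_single p' hl' hM' v' b d _ _ (linking_par _ _)
      (quot_writhe hl' hM' (p ^ k) hodd v' a' dir' ho' hK' b d hd) m n0 h2 h4 (fun n hn hne => by
        rw [← red_RZ, h6 n hn hne, map_zero]; exact dvd_zero _)
  refine ⟨(PK.annular (freeWord 1 v 0) d0).fPoly, ?_, ?_⟩
  · intro b d hd
    rw [← sub_eq_zero]
    apply eq_zero_of_all
    intro p' hp'
    have : Fact p'.Prime := ⟨hp'⟩
    rw [map_sub, sub_eq_zero]
    apply mul_left_cancel₀ (dF_ne (ZMod p'))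
    rw [A1 p' b d hd, A1 p' 0 d0 hd0]
  · intro b d hd
    rw [← sub_eq_zero]
    apply eq_zero_of_all
    intro p' hp'
    have : Fact p'.Prime := ⟨hp'⟩
    rw [map_sub, sub_eq_zero]
    apply mul_left_cancel₀ (dF_ne (ZMod p'))
    rw [A2 p' b d hd, A1 p' 0 d0 hd0]

end Pool.Agent.TH561.AD
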