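import Pool.Agent.TH561.AD.Two

/-!
# Two freely periodic knots with different numbers of full twists: the theorems
-/

set_option autoImplicit false

namespace Pool.Agent.TH561.AD

open Pool.Agent.H891R2.Jones Pool.Agent.TH561 Pool.Agent.TH561.PK Pool.Agent.TH561.FP Finset
  LaurentPolynomial

variable (p : ℕ) [hp : Fact p.Prime] {M l : ℕ}

theorem eps_sE (w : ℤ) : eps p (sE (ZMod p) w) = 1 ∨ eps p (sE (ZMod p) w) = -1 := by
  unfold sE
  split_ifs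
  · left; rw [map_one]
  · right; rw [map_neg, map_one]

/-- the values of the coefficients at `T = 1` -/
theorem cheb_id (hl : 0 < l) (hM : 0 < M) (n : ℕ) (hn : Odd n) (v : Fin l → Elem M)
    (a : ℤ) (dir : Fin (n * l + a.natAbs * (M * (M - 1))) × Fin M → Bool)
    (ho : Oriented (freeWord n v a) dir) (hK : IsKnot (PK.annular (freeWord n v a) dir)) (w : ℤ) :
    ∃ κ : ZMod p, κ ≠ 0 ∧ ∑ j ∈ range (M + 1), Polynomial.C (eps p (RR p M (toW v) w j)) *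
        Polynomial.Chebyshev.S (ZMod p) (j : ℤ) =
      Polynomial.C κ * (Polynomial.Chebyshev.S (ZMod p) (PK.linking (fst hl hn.pos dir) ⟨0, hl⟩) -
        Polynomial.Chebyshev.S (ZMod p) (PK.linking (fst hl hn.pos dir) ⟨0, hl⟩ - 2)) := by
  have hem : ∀ t : Fin l, (t : ℕ) < n * l + a.natAbs * (M * (M - 1)) := by
    intro t
    have h1 : l ≤ n * l := Nat.le_mul_of_pos_left l hn.pos
    have := t.2
    omega
  obtain ⟨hv, -⟩ := knot_writhe hl hM n hn v a dir ho hK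
  obtain ⟨κ, hκ, hu⟩ := twisted_sum_pm hl hM v (freeWord n v a) (fun t => ⟨t, hem t⟩) dir ho hK hv
    (fun d hd => by
      obtain ⟨dir', h2, h3⟩ := free_ext hl hM n hn.pos v a d hd
      exact ⟨dir', h2, fun t j => h3 _ t j rfl⟩)
  have hR := Rz_eq (m := M) (toW v) (PK.linking dir ⟨((⟨0, hl⟩ : Fin l) : ℕ), hem ⟨0, hl⟩⟩) κ hu
  have hlam : PK.linking (fst hl hn.pos dir) ⟨0, hl⟩ =
      PK.linking dir ⟨((⟨0, hl⟩ : Fin l) : ℕ), hem ⟨0, hl⟩⟩ := rfl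
  rw [hlam]
  have h2 := Rz_map p (toW_mem v)
  rw [hR, Polynomial.map_mul, Polynomial.map_C, Polynomial.map_sub, Polynomial.Chebyshev.map_S,
    Polynomial.Chebyshev.map_S] at h2
  have h3 : ∀ j, eps p (rr p M (toW v) j) = eps p (sE (ZMod p) w) * eps p (RR p M (toW v) w j) := by
    intro j
    rw [rr_of_RR p (toW v) w j, map_mul, map_mul, eps_T, mul_one]
  have hss : eps p (sE (ZMod p) w) * eps p (sE (ZMod p) w) = 1 := by
    rw [← map_mul, sE_sq, map_one]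
  refine ⟨eps p (sE (ZMod p) w) * (Int.castRingHom (ZMod p)) κ, ?_, ?_⟩
  · apply mul_ne_zero
    · rcases eps_sE p w with h | h <;> rw [h] <;> simp
    · rcases hκ with rfl | rfl <;> simp
  · rw [map_mul, mul_assoc, h2, Finset.mul_sum]
    refine Finset.sum_congr rfl fun j _ => ?_
    rw [h3 j, map_mul]
    have h4 : (Polynomial.C (eps p (sE (ZMod p) w)) * Polynomial.C (eps p (sE (ZMod p) w)) :
        Polynomial (ZMod p)) = 1 := by rw [← map_mul, hss, map_one]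
    calc Polynomial.C (eps p (RR p M (toW v) w j)) * Polynomial.Chebyshev.S (ZMod p) (j : ℤ)
        = (Polynomial.C (eps p (sE (ZMod p) w)) * Polynomial.C (eps p (sE (ZMod p) w))) *
          (Polynomial.C (eps p (RR p M (toW v) w j)) * Polynomial.Chebyshev.S (ZMod p) (j : ℤ)) := by
          rw [h4, one_mul]
      _ = _ := by ring

/-- bounds for the exponents -/
theorem Yx_bound {a s : ℤ} {K : ℤ} (hK : |a| ≤ K) {N : ℕ} (hMN : M ≤ N) (hM : 0 < M) (hs : s ^ 2 ≤ (M : ℤ) ^ 2) :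
    ∀ i ∈ SM M, |Yx a (3 * s ^ 2 + 1) i.1 (sgz i.2)| ≤ 3 * K * N ^ 2 + 2 * N + 2 := by
  intro i hi
  obtain ⟨h1, -⟩ := mem_SM.1 hi
  have hi0 : (0 : ℤ) ≤ i.1 := by positivity
  have hi1 : (i.1 : ℤ) ≤ N := by exact_mod_cast h1.trans hMN
  have hiM : (i.1 : ℤ) ≤ M := by exact_mod_cast h1
  have hM1 : (1 : ℤ) ≤ M := by exact_mod_cast hM
  have hMN' : (M : ℤ) ≤ N := by exact_mod_cast hMN
  have hMsq : (M : ℤ) ^ 2 ≤ N ^ 2 := pow_le_pow_left₀ (by linarith) hMN' 2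
  have hK0 : 0 ≤ K := (abs_nonneg a).trans hK
  have h2 : |((i.1 : ℤ) + 1) ^ 2 - (3 * s ^ 2 + 1)| ≤ 3 * (N : ℤ) ^ 2 := by
    have h3 : 0 ≤ s ^ 2 := sq_nonneg s
    have h4 : (i.1 : ℤ) ^ 2 ≤ M ^ 2 := pow_le_pow_left₀ hi0 hiM 2
    rw [abs_le]
    constructor
    · nlinarith
    · have h5 : (M : ℤ) ≤ M ^ 2 := by nlinarith
      nlinarith
  have h3 : |sgz i.2 * (2 * ((i.1 : ℤ) + 1))| = 2 * (i.1 + 1) := by
    rcases sgz_pm i.2 with h | h <;> rw [h]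
    · rw [one_mul, abs_of_nonneg (by linarith)]
    · rw [neg_one_mul, abs_neg, abs_of_nonneg (by linarith)]
  unfold Yx
  have h4 : |a * (((i.1 : ℤ) + 1) ^ 2 - (3 * s ^ 2 + 1))| ≤ K * (3 * (N : ℤ) ^ 2) := by
    rw [abs_mul]
    exact mul_le_mul hK h2 (abs_nonneg _) hK0
  refine (abs_add_le _ _).trans ?_
  rw [h3]
  linarith

/-- the polynomial of the knot as a sum of monomials -/
theorem star_exp (k : ℕ) (hodd : Odd (p ^ k)) (hl : 0 < l) (hM : 0 < M) (v : Fin l → Elem M)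
    (a : ℤ) (dir : Fin (p ^ k * l + a.natAbs * (M * (M - 1))) × Fin M → Bool) (w s c : ℤ)
    (hs : s ^ 2 - M = 2 * c)
    (hw : (PK.annular (freeWord (p ^ k) v a) dir).writhe = (p ^ k : ℕ) * w + a * (s ^ 2 - M)) :
    (T 2 - T (-2)) * (dF (ZMod p) * red p (PK.annular (freeWord (p ^ k) v a) dir).fPoly) =
      ∑ i ∈ SM M, (sg p i.2 * sgn' p i.1 * RR p M (toW v) w i.1) ^ (p ^ k) *
        T (Yx a (3 * s ^ 2 + 1) i.1 (sgz i.2)) := by
  have hst := star p k (p ^ k) rfl hodd hl hM v a dir w s c hs hw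
  rw [map_mul, red_dl] at hst
  rw [hst]
  have hq0 : p ^ k ≠ 0 := hodd.pos.ne'
  have h1 : ∑ n ∈ range (M + 1), (RR p M (toW v) w n) ^ (p ^ k) * hn p a n =
      ∑ n ∈ (range (M + 1)).filter (fun n => n % 2 = M % 2),
        (RR p M (toW v) w n) ^ (p ^ k) * hn p a n := by
    symm
    apply Finset.sum_subset (Finset.filter_subset _ _)
    intro n hn' hn''
    rw [Finset.mem_filter, not_and] at hn''
    rw [RR_par p (toW_mem v) w n (hn'' hn'), zero_pow hq0, zero_mul]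
  have h2 : (T 2 - T (-2)) * (T (-(3 * a * s ^ 2)) * ∑ n ∈ range (M + 1),
      (RR p M (toW v) w n) ^ (p ^ k) * hn p a n) =
      T (-(3 * a * s ^ 2)) * ((T 2 - T (-2)) * ∑ n ∈ (range (M + 1)).filter (fun n => n % 2 = M % 2),
      (RR p M (toW v) w n) ^ (p ^ k) * hn p a n) := by
    rw [h1]
    ring
  rw [h2, sum_expand p hodd, Finset.mul_sum]
  unfold SM
  refine Finset.sum_congr rfl fun i _ => ?_
  have h3 : (T (Yx a (3 * s ^ 2 + 1) i.1 (sgz i.2)) : (ZMod p)[T;T⁻¹]) =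
      T (-(3 * a * s ^ 2)) * T (a * (i.1 * (i.1 + 2)) + sgz i.2 * (2 * i.1 + 2)) := by
    rw [← T_add]
    congr 1
    unfold Yx
    ring
  rw [h3]
  ring

theorem PP_par (u : ℕ → (ZMod p)[T;T⁻¹]) (m : ℕ) :
    ∀ x ∈ PP' p M u m, ∀ y ∈ PP' p M u m, x % 2 = y % 2 := by
  intro x hx y hy
  rw [mem_PP'] at hx hy
  rw [hx.1.2, hy.1.2]

theorem eps_zero_of_dvd {m : ℕ} (hm : 1 ≤ m) {f : (ZMod p)[T;T⁻¹]}
    (h : (T 1 - 1 : (ZMod p)[T;T⁻¹]) ^ m ∣ f) : eps p f = 0 := by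
  rw [← dvd_iff_eps]
  exact (dvd_pow_self _ (by omega)).trans h

/-- all coefficients but one vanish to the order `m` -/
theorem one_coeff (hp2 : p ≠ 2) {v : Fin l → Elem M} {w s : ℤ} {κ : ZMod p} (hκ : κ ≠ 0)
    (hc : ∑ j ∈ range (M + 1), Polynomial.C (eps p (RR p M (toW v) w j)) *
        Polynomial.Chebyshev.S (ZMod p) (j : ℤ) =
      Polynomial.C κ * (Polynomial.Chebyshev.S (ZMod p) s - Polynomial.Chebyshev.S (ZMod p) (s - 2)))
    {m : ℕ} (hm : 1 ≤ m) (n0 : ℕ) (hn0 : n0 ≤ M)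
    (h : ∀ n, n ≤ M → n ≠ n0 → (T 1 - 1 : (ZMod p)[T;T⁻¹]) ^ m ∣ RR p M (toW v) w n) :
    (n0 : ℤ) * (n0 + 2) = 3 * s ^ 2 ∧ eps p (RR p M (toW v) w n0) ≠ 0 := by
  rw [Finset.sum_eq_single_of_mem n0 (by rw [Finset.mem_range]; omega) (by
    intro j hj hj'
    rw [Finset.mem_range] at hj
    rw [eps_zero_of_dvd p hm (h j (by omega) hj'), map_zero, zero_mul])] at hc
  refine lambda_single ?_ s κ _ hκ n0 hc.symm
  intro h4
  have h5 : ((2 : ℕ) : ZMod p) = 0 := by push_cast; exact h4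
  rw [ZMod.natCast_eq_zero_iff] at h5
  exact hp2 ((Nat.prime_dvd_prime_iff_eq hp.out Nat.prime_two).1 h5)

theorem PP_nonempty (hp2 : p ≠ 2) {v : Fin l → Elem M} {w s : ℤ} {κ : ZMod p} (hκ : κ ≠ 0)
    (hc : ∑ j ∈ range (M + 1), Polynomial.C (eps p (RR p M (toW v) w j)) *
        Polynomial.Chebyshev.S (ZMod p) (j : ℤ) =
      Polynomial.C κ * (Polynomial.Chebyshev.S (ZMod p) s - Polynomial.Chebyshev.S (ZMod p) (s - 2)))
    {m : ℕ} (hm : 1 ≤ m) : (PP' p M (RR p M (toW v) w) m).Nonempty := by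
  by_contra hcon
  have h : ∀ n, n ≤ M → (T 1 - 1 : (ZMod p)[T;T⁻¹]) ^ m ∣ RR p M (toW v) w n := by
    intro n hn
    by_cases hpar : n % 2 = M % 2
    · by_contra hne
      exact hcon ⟨n, mem_PP' p |>.2 ⟨⟨hn, hpar⟩, hne⟩⟩
    · rw [RR_par p (toW_mem v) w n hpar]
      exact dvd_zero _
  have h1 := (one_coeff p hp2 hκ hc hm 0 (Nat.zero_le _) (fun n hn _ => h n hn)).2
  exact h1 (eps_zero_of_dvd p hm (h 0 (Nat.zero_le _)))

/-- the polynomial of the quotient if all coefficients but one vanish -/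
theorem quot_single (hl : 0 < l) (hM : 0 < M) (v : Fin l → Elem M) (b : ℤ)
    (dir : Fin (1 * l + b.natAbs * (M * (M - 1))) × Fin M → Bool) (w s : ℤ)
    (hpar : ∃ c : ℤ, s ^ 2 - M = 2 * c)
    (hw : (PK.annular (freeWord 1 v b) dir).writhe = 1 * w + b * (s ^ 2 - M)) (m : ℕ) (n0 : ℕ)
    (hn0 : n0 ≤ M) (h3 : (n0 : ℤ) * (n0 + 2) = 3 * s ^ 2)
    (h : ∀ n, n ≤ M → n ≠ n0 → (T 1 - 1 : (ZMod p)[T;T⁻¹]) ^ m ∣ RR p M (toW v) w n) :
    (T 1 - 1 : (ZMod p)[T;T⁻¹]) ^ m ∣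
      dF (ZMod p) * red p (PK.annular (freeWord 1 v b) dir).fPoly - RR p M (toW v) w n0 * sS p n0 := by
  obtain ⟨c, hc⟩ := hpar
  have hst := star p 0 1 (pow_zero p).symm odd_one hl hM v b dir w s c hc (by
    rw [hw]; push_cast; ring)
  rw [map_mul, red_dl] at hst
  have hmem : n0 ∈ range (M + 1) := by rw [Finset.mem_range]; omega
  rw [hst, ← Finset.add_sum_erase _ _ hmem, mul_add]
  have h1 : T (-(3 * b * s ^ 2)) * (RR p M (toW v) w n0 ^ 1 * hn p b n0) =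
      RR p M (toW v) w n0 * sS p n0 := by
    unfold hn sS
    have h2 : (T (-(3 * b * s ^ 2)) * T (b * (n0 * (n0 + 2))) : (ZMod p)[T;T⁻¹]) = 1 := by
      rw [← T_add, h3]
      have : -(3 * b * s ^ 2) + b * (3 * s ^ 2) = 0 := by ring
      rw [this, T_zero]
    rw [pow_one]
    calc T (-(3 * b * s ^ 2)) * (RR p M (toW v) w n0 * (T (b * (n0 * (n0 + 2))) *
          Polynomial.aeval (dF (ZMod p)) (Polynomial.Chebyshev.S ℤ (n0 : ℤ))))
        = (T (-(3 * b * s ^ 2)) * T (b * (n0 * (n0 + 2)))) * (RR p M (toW v) w n0 *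
          Polynomial.aeval (dF (ZMod p)) (Polynomial.Chebyshev.S ℤ (n0 : ℤ))) := by ring
      _ = _ := by rw [h2, one_mul]
  rw [h1, add_sub_cancel_left]
  refine Dvd.dvd.mul_left (Finset.dvd_sum fun n hn' => ?_) _
  rw [Finset.mem_erase, Finset.mem_range] at hn'
  rw [pow_one]
  exact (h n (by omega) hn'.1).mul_right _

section two

variable {M' l' : ℕ}

/-- all coefficients but one vanish to the order `m` -/
theorem two_core (k : ℕ) (hp2 : p ≠ 2) (hl : 0 < l) (hM : 0 < M) (v : Fin l → Elem M)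
    (hl' : 0 < l') (hM' : 0 < M') (v' : Fin l' → Elem M') (a a' : ℤ) (haa : a ≠ a') (ha1 : a ≠ 1)
    (ha2 : a ≠ -1) (ha1' : a' ≠ 1) (ha2' : a' ≠ -1)
    (dir : Fin (p ^ k * l + a.natAbs * (M * (M - 1))) × Fin M → Bool)
    (ho : Oriented (freeWord (p ^ k) v a) dir) (hK : IsKnot (PK.annular (freeWord (p ^ k) v a) dir))
    (dir' : Fin (p ^ k * l' + a'.natAbs * (M' * (M' - 1))) × Fin M' → Bool)
    (ho' : Oriented (freeWord (p ^ k) v' a') dir')
    (hK' : IsKnot (PK.annular (freeWord (p ^ k) v' a') dir')) (hpos : 0 < p ^ k)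
    (K N : ℕ) (hKa : a.natAbs ≤ K) (hKa' : a'.natAbs ≤ K) (hN : M ≤ N) (hN' : M' ≤ N)
    (hq : 2 * (3 * K * N ^ 2 + 2 * N + 2) < p ^ k) (m : ℕ) (hm : 1 ≤ m)
    (hS : (T 1 - 1 : (ZMod p)[T;T⁻¹]) ^ (p ^ k * m) ∣
      red p (PK.annular (freeWord (p ^ k) v a) dir).fPoly -
        red p (PK.annular (freeWord (p ^ k) v' a') dir').fPoly) :
    ∃ n0, n0 ≤ M ∧ n0 ≤ M' ∧
      (n0 : ℤ) * (n0 + 2) = 3 * (PK.linking (fst hl hpos dir) ⟨0, hl⟩) ^ 2 ∧
      (n0 : ℤ) * (n0 + 2) = 3 * (PK.linking (fst hl' hpos dir') ⟨0, hl'⟩) ^ 2 ∧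
      (∀ n, n ≤ M → n ≠ n0 → (T 1 - 1 : (ZMod p)[T;T⁻¹]) ^ m ∣
        RR p M (toW v) (PK.annular v (fst hl hpos dir)).writhe n) ∧
      (∀ n, n ≤ M' → n ≠ n0 → (T 1 - 1 : (ZMod p)[T;T⁻¹]) ^ m ∣
        RR p M' (toW v') (PK.annular v' (fst hl' hpos dir')).writhe n) ∧
      (T 1 - 1 : (ZMod p)[T;T⁻¹]) ^ m ∣
        RR p M (toW v) (PK.annular v (fst hl hpos dir)).writhe n0 -
        RR p M' (toW v') (PK.annular v' (fst hl' hpos dir')).writhe n0 := by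
  have hodd : Odd (p ^ k) := (hp.out.odd_of_ne_two hp2).pow
  obtain ⟨hv, hw⟩ := knot_writhe hl hM (p ^ k) hodd v a dir ho hK
  obtain ⟨c, hc⟩ := linking_par (fst hl hpos dir) ⟨0, hl⟩
  obtain ⟨hv', hw'⟩ := knot_writhe hl' hM' (p ^ k) hodd v' a' dir' ho' hK'
  obtain ⟨c', hc'⟩ := linking_par (fst hl' hpos dir') ⟨0, hl'⟩
  obtain ⟨κ, hκ, hch⟩ := cheb_id p hl hM (p ^ k) hodd v a dir ho hK
    (PK.annular v (fst hl hpos dir)).writhe
  obtain ⟨κ', hκ', hch'⟩ := cheb_id p hl' hM' (p ^ k) hodd v' a' dir' ho' hK'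
    (PK.annular v' (fst hl' hpos dir')).writhe
  have hst := star_exp p k hodd hl hM v a dir _ _ c hc hw
  have hst' := star_exp p k hodd hl' hM' v' a' dir' _ _ c' hc' hw'
  have b1 := linking_bound (fst hl hpos dir) ⟨0, hl⟩
  have b2 := linking_bound (fst hl' hpos dir') ⟨0, hl'⟩
  set w := (PK.annular v (fst hl hpos dir)).writhe with hwdef
  set s := PK.linking (fst hl hpos dir) ⟨0, hl⟩ with hsdef
  set w' := (PK.annular v' (fst hl' hpos dir')).writhe with hwdef'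
  set s' := PK.linking (fst hl' hpos dir') ⟨0, hl'⟩ with hsdef'
  have hs2 : s ^ 2 ≤ (M : ℤ) ^ 2 := sq_le_sq' b1.1 b1.2
  have hs2' : s' ^ 2 ≤ (M' : ℤ) ^ 2 := sq_le_sq' b2.1 b2.2
  have hB := Yx_bound (M := M) (a := a) (s := s) (K := (K : ℤ)) (by rw [Int.abs_eq_natAbs]; exact_mod_cast hKa)
    hN hM hs2
  have hB' := Yx_bound (M := M') (a := a') (s := s') (K := (K : ℤ))
    (by rw [Int.abs_eq_natAbs]; exact_mod_cast hKa') hN' hM' hs2'
  have hS2 := (hS.mul_left (dF (ZMod p))).mul_left (T 2 - T (-2))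
  rw [mul_sub, mul_sub, hst, hst'] at hS2
  have hF := FF_dvd p (k := k) m (RR p M (toW v) w) (RR p M' (toW v') w')
    (3 * (K : ℤ) * N ^ 2 + 2 * N + 2) hB hB' (by exact_mod_cast hq) hS2
  have hF' : ∀ x, |x| ≤ 3 * (K : ℤ) * N ^ 2 + 2 * N + 2 → (T 1 - 1 : (ZMod p)[T;T⁻¹]) ^ m ∣
      FF p M' (RR p M' (toW v') w') a' (3 * s' ^ 2 + 1) x -
        FF p M (RR p M (toW v) w) a (3 * s ^ 2 + 1) x := by
    intro x hx
    have := (dvd_neg).2 (hF x hx)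
    rwa [neg_sub] at this
  have hsub := sub_of_FF p m (RR p M (toW v) w) (RR p M' (toW v') w') _ ha1 ha2 ha1' ha2' hB hF
  have hsub' := sub_of_FF p m (RR p M' (toW v') w') (RR p M (toW v) w) _ ha1' ha2' ha1 ha2 hB' hF'
  obtain ⟨n0, hn0, hn0', h1, h2⟩ := single haa ha1 ha2 ha1' ha2' (PP_nonempty p hp2 hκ hch hm)
    (PP_nonempty p hp2 hκ' hch' hm) (PP_par p _ m) (PP_par p _ m) hsub hsub'
  have g1 := (mem_PP' p).1 hn0
  have g2 := (mem_PP' p).1 hn0'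
  have k1 : ∀ n, n ≤ M → n ≠ n0 → (T 1 - 1 : (ZMod p)[T;T⁻¹]) ^ m ∣ RR p M (toW v) w n := by
    intro n hn hne
    by_cases hpar : n % 2 = M % 2
    · by_contra hnd
      exact hne (h1 n ((mem_PP' p).2 ⟨⟨hn, hpar⟩, hnd⟩))
    · rw [RR_par p (toW_mem v) w n hpar]
      exact dvd_zero _
  have k2 : ∀ n, n ≤ M' → n ≠ n0 → (T 1 - 1 : (ZMod p)[T;T⁻¹]) ^ m ∣ RR p M' (toW v') w' n := by
    intro n hn hne
    by_cases hpar : n % 2 = M' % 2
    · by_contra hnd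
      exact hne (h2 n ((mem_PP' p).2 ⟨⟨hn, hpar⟩, hnd⟩))
    · rw [RR_par p (toW_mem v') w' n hpar]
      exact dvd_zero _
  have e1 := (one_coeff p hp2 hκ hch hm n0 g1.1.1 k1).1
  have e2 := (one_coeff p hp2 hκ' hch' hm n0 g2.1.1 k2).1
  refine ⟨n0, g1.1.1, g2.1.1, e1, e2, k1, k2, ?_⟩
  have i1 : (n0, true) ∈ SM M := mem_SM.2 g1.1
  have i2 : (n0, true) ∈ SM M' := mem_SM.2 g2.1
  have y1 : Yx a (3 * s ^ 2 + 1) n0 (sgz true) = 2 * (n0 + 1) := by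
    have : sgz true = 1 := rfl
    unfold Yx
    rw [this]
    linear_combination a * e1
  have y2 : Yx a' (3 * s' ^ 2 + 1) n0 (sgz true) = 2 * (n0 + 1) := by
    have : sgz true = 1 := rfl
    unfold Yx
    rw [this]
    linear_combination a' * e2
  have f1 := FF_at p (RR p M (toW v) w) ha1 ha2 (3 * s ^ 2 + 1) i1
  have f2 := FF_at p (RR p M' (toW v') w') ha1' ha2' (3 * s' ^ 2 + 1) i2
  have hb := hB _ i1
  simp only at f1 f2 hb
  rw [y1] at f1 hb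
  rw [y2] at f2
  have f3 := hF _ hb
  rw [f1, f2, ← mul_sub, sg_dvd] at f3
  exact f3

/-- the theorem with orders -/
theorem two_order (k : ℕ) (hp2 : p ≠ 2) (hl : 0 < l) (hM : 0 < M) (v : Fin l → Elem M)
    (hl' : 0 < l') (hM' : 0 < M') (v' : Fin l' → Elem M') (a a' : ℤ) (haa : a ≠ a') (ha1 : a ≠ 1)
    (ha2 : a ≠ -1) (ha1' : a' ≠ 1) (ha2' : a' ≠ -1)
    (dir : Fin (p ^ k * l + a.natAbs * (M * (M - 1))) × Fin M → Bool)
    (ho : Oriented (freeWord (p ^ k) v a) dir) (hK : IsKnot (PK.annular (freeWord (p ^ k) v a) dir))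
    (dir' : Fin (p ^ k * l' + a'.natAbs * (M' * (M' - 1))) × Fin M' → Bool)
    (ho' : Oriented (freeWord (p ^ k) v' a') dir')
    (hK' : IsKnot (PK.annular (freeWord (p ^ k) v' a') dir')) (hpos : 0 < p ^ k)
    (K N : ℕ) (hKa : a.natAbs ≤ K) (hKa' : a'.natAbs ≤ K) (hN : M ≤ N) (hN' : M' ≤ N)
    (hq : 2 * (3 * K * N ^ 2 + 2 * N + 2) < p ^ k) (m : ℕ) (hm : 1 ≤ m)
    (hS : (T 1 - 1 : (ZMod p)[T;T⁻¹]) ^ (p ^ k * m) ∣
      red p (PK.annular (freeWord (p ^ k) v a) dir).fPoly -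
        red p (PK.annular (freeWord (p ^ k) v' a') dir').fPoly) :
    ∃ g : (ZMod p)[T;T⁻¹],
      (∀ (b : ℤ) (d : Fin (1 * l + b.natAbs * (M * (M - 1))) × Fin M → Bool),
        Oriented (freeWord 1 v b) d →
        (T 1 - 1 : (ZMod p)[T;T⁻¹]) ^ m ∣ dF (ZMod p) * red p (PK.annular (freeWord 1 v b) d).fPoly - g) ∧
      (∀ (b : ℤ) (d : Fin (1 * l' + b.natAbs * (M' * (M' - 1))) × Fin M' → Bool),
        Oriented (freeWord 1 v' b) d →
        (T 1 - 1 : (ZMod p)[T;T⁻¹]) ^ m ∣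
          dF (ZMod p) * red p (PK.annular (freeWord 1 v' b) d).fPoly - g) := by
  have hodd : Odd (p ^ k) := (hp.out.odd_of_ne_two hp2).pow
  obtain ⟨n0, h1, h2, h3, h4, h5, h6, h7⟩ := two_core p k hp2 hl hM v hl' hM' v' a a' haa ha1 ha2 ha1' ha2'
    dir ho hK dir' ho' hK' hpos K N hKa hKa' hN hN' hq m hm hS
  refine ⟨RR p M (toW v) (PK.annular v (fst hl hpos dir)).writhe n0 * sS p n0, ?_, ?_⟩
  · intro b d hd
    exact quot_single p hl hM v b d _ _ (linking_par _ _)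
      (quot_writhe hl hM (p ^ k) hodd v a dir ho hK b d hd) m n0 h1 h3 h5
  · intro b d hd
    have h8 := quot_single p hl' hM' v' b d _ _ (linking_par _ _)
      (quot_writhe hl' hM' (p ^ k) hodd v' a' dir' ho' hK' b d hd) m n0 h2 h4 h6
    have h9 := h7.mul_right (sS p n0)
    have h10 := dvd_sub h8 h9
    have e : dF (ZMod p) * red p (PK.annular (freeWord 1 v' b) d).fPoly -
        RR p M' (toW v') (PK.annular v' (fst hl' hpos dir')).writhe n0 * sS p n0 -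
        (RR p M (toW v) (PK.annular v (fst hl hpos dir)).writhe n0 -
          RR p M' (toW v') (PK.annular v' (fst hl' hpos dir')).writhe n0) * sS p n0 =
        dF (ZMod p) * red p (PK.annular (freeWord 1 v' b) d).fPoly -
        RR p M (toW v) (PK.annular v (fst hl hpos dir)).writhe n0 * sS p n0 := by ring
    rwa [e] at h10

/-- from two congruences with the factor `d` to one without -/
theorem cancel_dF (hp2 : p ≠ 2) {m : ℕ} {f f' g : (ZMod p)[T;T⁻¹]}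
    (h : (T 1 - 1 : (ZMod p)[T;T⁻¹]) ^ m ∣ dF (ZMod p) * f - g)
    (h' : (T 1 - 1 : (ZMod p)[T;T⁻¹]) ^ m ∣ dF (ZMod p) * f' - g) :
    (T 1 - 1 : (ZMod p)[T;T⁻¹]) ^ m ∣ f - f' := by
  apply dvd_of_dF p hp2
  have := dvd_sub h h'
  have e : dF (ZMod p) * f - g - (dF (ZMod p) * f' - g) = dF (ZMod p) * (f - f') := by ring
  rwa [e] at this

end two

end Pool.Agent.TH561.AD
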